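import Pool.Agent.HX67.Signs

/-!
# The choice of the base edge in the bipartite case

Written by helper73 for helper67's project HX67.
-/

namespace HX67

open Finset
open scoped Classical

/-- Some edge of the cycle has the following property: the open interval `I` between the chord
mates of its two ends is empty, or some chord has exactly one end in `I`. -/
theorem exists_base2 {W : Type*} (Q : Pres W) (hb : ∀ h, Q.par (Q.M h) ↔ ¬ Q.par h) :
    ∃ s : ℤ, ∀ Q' : Pres W, Q'.p = Q.p → Q'.M = Q.M → (∀ z, Q'.x z = Q.x (z + s)) →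
      ∀ k a : ℕ, 1 ≤ k → (k : ℤ) ≤ Q'.p - 2 → Q'.x k = Q'.M (Q'.x 0) →
        2 ≤ a → (a : ℤ) ≤ Q'.p - 2 → Q'.x a = Q'.M (Q'.x 1) →
        (Finset.Ioo (min a k) (max a k) = ∅ ∨
          ∃ i ∈ Finset.Ioo (min a k) (max a k), ∃ j : ℕ, (j : ℤ) < Q'.p ∧
            j ∉ Finset.Ioo (min a k) (max a k) ∧ Q'.M (Q'.x i) = Q'.x j) := by
  by_contra hcon
  -- the negation in terms of `Q`
  have H : ∀ s : ℤ, ∃ k a : ℕ, 1 ≤ k ∧ (k : ℤ) ≤ Q.p - 2 ∧ Q.x (k + s) = Q.M (Q.x s) ∧
      2 ≤ a ∧ (a : ℤ) ≤ Q.p - 2 ∧ Q.x (a + s) = Q.M (Q.x (1 + s)) ∧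
      (Finset.Ioo (min a k) (max a k)).Nonempty ∧
      ∀ i ∈ Finset.Ioo (min a k) (max a k), ∀ j : ℕ, (j : ℤ) < Q.p →
        Q.M (Q.x (i + s)) = Q.x (j + s) → j ∈ Finset.Ioo (min a k) (max a k) := by
    intro s
    by_contra hs
    apply hcon
    refine ⟨s, fun Q' hp hM hx k a hk1 hk2 hk ha1 ha2 ha => ?_⟩
    by_contra hI
    apply hs
    rw [not_or] at hI
    refine ⟨k, a, hk1, by rw [← hp]; exact hk2, ?_, ha1, by rw [← hp]; exact ha2, ?_,
      Finset.nonempty_iff_ne_empty.2 hI.1, ?_⟩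
    · rw [hx, hx, hM, zero_add] at hk
      exact hk
    · rw [hx, hx, hM] at ha
      exact ha
    · intro i hi j hj hij
      by_contra hjI
      apply hI.2
      refine ⟨i, hi, j, by rw [hp]; exact hj, hjI, ?_⟩
      rw [hx, hx, hM]
      exact hij
  have hpge := Q.p_ge
  -- the infinite descent
  have descent : ∀ d : ℕ, ∀ s : ℤ, ∀ k a : ℕ, max a k - min a k = d → 1 ≤ k → (k : ℤ) ≤ Q.p - 2 →
      Q.x (k + s) = Q.M (Q.x s) → 2 ≤ a → (a : ℤ) ≤ Q.p - 2 → Q.x (a + s) = Q.M (Q.x (1 + s)) →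
      (Finset.Ioo (min a k) (max a k)).Nonempty →
      (∀ i ∈ Finset.Ioo (min a k) (max a k), ∀ j : ℕ, (j : ℤ) < Q.p →
        Q.M (Q.x (i + s)) = Q.x (j + s) → j ∈ Finset.Ioo (min a k) (max a k)) → False := by
    intro d
    induction d using Nat.strong_induction_on with
    | _ d ih =>
      intro s k a hd hk1 hk2 hk ha1 ha2 ha hne hcl
      -- parities
      have hko : Odd (k : ℤ) := by
        have h1 := hb (Q.x s)
        rw [← hk, Q.par_x, Q.par_x, Int.odd_add, Int.not_odd_iff_even] at h1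
        by_cases hs : Even s
        · exact (h1.2 hs).2 hs
        · by_contra hk'
          exact hs (h1.1 ⟨fun h => absurd h hk', fun h => absurd h hs⟩)
      have hae : Even (a : ℤ) := by
        have h1 := hb (Q.x (1 + s))
        rw [← ha, Q.par_x, Q.par_x, Int.not_odd_iff_even] at h1
        by_contra hk'
        rw [Int.not_even_iff_odd] at hk'
        rcases Int.even_or_odd s with hs | hs
        · have h2 := h1.1 (hk'.add_even hs)
          rw [add_comm] at h2
          exact absurd (hs.add_odd odd_one) (Int.not_odd_iff_even.2 h2)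
        · have h2 := h1.2 (odd_one.add_odd hs)
          exact absurd (hk'.add_odd hs) (Int.not_even_iff_odd.2 h2)
      obtain ⟨lo, hlo⟩ : ∃ lo, lo = min a k := ⟨_, rfl⟩
      obtain ⟨hi, hhi⟩ : ∃ hi, hi = max a k := ⟨_, rfl⟩
      rw [← hlo, ← hhi] at hne hcl hd
      have hlt : lo + 1 < hi := by
        obtain ⟨i, hi'⟩ := hne
        rw [Finset.mem_Ioo] at hi'
        omega
      have hlt2 : lo + 2 < hi := by
        obtain ⟨u, hu⟩ := hko
        obtain ⟨v, hv⟩ := hae
        omega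
      have hhip : (hi : ℤ) ≤ Q.p - 2 := by omega
      obtain ⟨k', a', g1, g2, g3, g4, g5, g6, g7, g8⟩ := H (s + (lo + 1 : ℕ))
      -- the mate of `x (lo + 1 + s)`
      have aux : ∀ (b : ℕ) (t : ℕ), (t = lo + 1 ∨ t = lo + 2) → (b : ℤ) ≤ Q.p - 2 →
          Q.x (b + (s + (lo + 1 : ℕ))) = Q.M (Q.x (t + s)) → b + (lo + 1) < hi := by
        intro b t ht hb2 hbt
        have hmem : t ∈ Finset.Ioo lo hi := by
          rw [Finset.mem_Ioo]
          omega
        by_cases hlt3 : (b : ℤ) + (lo + 1 : ℕ) < Q.p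
        · have h1 := hcl t hmem (b + (lo + 1)) (by push_cast at hlt3 ⊢; exact hlt3) (by
            rw [← hbt]
            congr 1
            push_cast
            ring)
          rw [Finset.mem_Ioo] at h1
          exact h1.2
        · obtain ⟨j, hj⟩ := Int.eq_ofNat_of_zero_le
            (show 0 ≤ (b : ℤ) + (lo + 1 : ℕ) - Q.p by omega)
          have h1 := hcl t hmem j (by omega) (by
            rw [← hbt, ← Q.per (j + s)]
            congr 1
            omega)
          rw [Finset.mem_Ioo] at h1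
          omega
      have hk' : k' + (lo + 1) < hi := by
        refine aux k' (lo + 1) (Or.inl rfl) g2 ?_
        rw [g3]
        congr 2
        ring
      have ha' : a' + (lo + 1) < hi := by
        refine aux a' (lo + 2) (Or.inr rfl) g5 ?_
        rw [g6]
        congr 2
        push_cast
        ring
      exact ih (max a' k' - min a' k') (by omega) _ k' a' rfl g1 g2 g3 g4 g5 g6 g7 g8
  obtain ⟨k, a, g1, g2, g3, g4, g5, g6, g7, g8⟩ := H 0
  exact descent _ 0 k a rfl g1 g2 g3 g4 g5 g6 g7 g8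

end HX67
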