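import Pool.Agent.HX67.Present

/-!
# A base with a crossed even chord

Written by helper22 for helper67's project HX67.
-/

namespace HX67

open Finset

/-- a chord whose ends have the same parity is crossed by some chord -/
theorem exists_crossing {W : Type*} (Q : Pres W) {z w : ℤ} (hzw : z < w) (hwp : w < z + Q.p)
    (hpar : Even w ↔ Even z) (hM : Q.M (Q.x z) = Q.x w) :
    ∃ g h : ℤ, z < g ∧ g < w ∧ w < h ∧ h < z + Q.p ∧ Q.M (Q.x g) = Q.x h := by
  classical
  by_contra hcon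
  have hp := Q.p_ge
  have hMw : Q.M (Q.x w) = Q.x z := by rw [← hM, Q.M_M]
  -- the mates of the vertices of the open arc stay in the open arc
  have hin : ∀ g, z < g → g < w → ∃ h, z < h ∧ h < w ∧ Q.M (Q.x g) = Q.x h := by
    intro g hg1 hg2
    obtain ⟨h0, hh0⟩ := Q.surj (Q.M (Q.x g))
    -- representative in `[z, z + p)`
    set h := z + (h0 - z) % Q.p with hh
    have hm0 : 0 ≤ (h0 - z) % Q.p := Int.emod_nonneg _ (by omega)
    have hm1 : (h0 - z) % Q.p < Q.p := Int.emod_lt_of_pos _ (by omega)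
    have hxh : Q.x h = Q.M (Q.x g) := by
      rw [← hh0, Q.x_eq_iff]
      have h1 := Int.emod_add_mul_ediv (h0 - z) Q.p
      exact ⟨-((h0 - z) / Q.p), by rw [hh]; linarith⟩
    clear_value h
    rcases lt_trichotomy h w with h1 | h1 | h1
    · refine ⟨h, ?_, h1, hxh.symm⟩
      rcases lt_or_eq_of_le (show z ≤ h by omega) with h2 | h2
      · exact h2
      · exfalso
        rw [← h2] at hxh
        have h3 : Q.x w = Q.x g := by rw [← hM, hxh, Q.M_M]
        exact Q.x_ne (by omega) (by omega) (by omega) h3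
    · exfalso
      rw [h1] at hxh
      have h3 : Q.x z = Q.x g := by rw [← hMw, hxh, Q.M_M]
      exact Q.x_ne (by omega) (by omega) (by omega) h3
    · exact absurd ⟨g, h, hg1, hg2, h1, by omega, hxh.symm⟩ hcon
  -- counting
  have hinj : Set.InjOn Q.x (Ioo z w : Set ℤ) := by
    intro a ha b hb hab
    rw [Finset.coe_Ioo, Set.mem_Ioo] at ha hb
    by_contra hne
    exact Q.x_ne hne (by omega) (by omega) hab
  have hcard : ((Ioo z w).image Q.x).card = (w - z - 1).toNat := by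
    rw [card_image_of_injOn hinj, Int.card_Ioo]
  have hmem : ∀ v, v ∈ (Ioo z w).image Q.x ↔ ∃ g, (z < g ∧ g < w) ∧ Q.x g = v := by
    intro v
    rw [mem_image]
    constructor
    · rintro ⟨g, hg, rfl⟩
      exact ⟨g, mem_Ioo.1 hg, rfl⟩
    · rintro ⟨g, hg, rfl⟩
      exact ⟨g, mem_Ioo.2 hg, rfl⟩
  have hprod : ∏ _v ∈ (Ioo z w).image Q.x, (-1 : ℤ) = 1 := by
    apply Finset.prod_involution (fun v _ => Q.M v)
    · intro v _
      norm_num
    · intro v _ _
      exact Q.M_ne v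
    · intro v hv
      obtain ⟨g, hg, rfl⟩ := (hmem v).1 hv
      obtain ⟨h, h1, h2, h3⟩ := hin g hg.1 hg.2
      exact (hmem _).2 ⟨h, ⟨h1, h2⟩, h3.symm⟩
    · intro v _
      exact Q.M_M v
  rw [Finset.prod_const, hcard] at hprod
  have hodd : Odd (w - z - 1).toNat := by
    have h1 : Even (w - z) := Int.even_sub.2 hpar
    obtain ⟨t, ht⟩ := h1
    refine ⟨(t - 1).toNat, ?_⟩
    omega
  rw [hodd.neg_one_pow] at hprod
  norm_num at hprod

/-- reflection of the presentation -/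
theorem exists_reflectA {V : Type*} (P : Pres V) (s : ℤ) :
    ∃ P' : Pres V, P'.p = P.p ∧ P'.M = P.M ∧ (∀ z, P'.x z = P.x (s - z)) ∧
      ∀ v w, (∃ i, P'.mate i v = w) ↔ ∃ i, P.mate i v = w := by
  have e1 : ∀ z : ℤ, s - (z + 1) = s - z - 1 := fun z => by ring
  have e2 : ∀ z : ℤ, s - (z - 1) = s - z + 1 := fun z => by ring
  have hper : ∀ z, P.x (s - (z + P.p)) = P.x (s - z) := by
    intro z
    have h : s - z = s - (z + P.p) + P.p := by ring
    rw [h, P.per]
  have hinj : ∀ z w, P.x (s - z) = P.x (s - w) → P.p ∣ z - w := by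
    intro z w h
    have h1 := P.inj _ _ h
    have h2 : s - z - (s - w) = -(z - w) := by ring
    rw [h2, dvd_neg] at h1
    exact h1
  have hsurj : ∀ v, ∃ z, P.x (s - z) = v := by
    intro v
    obtain ⟨z, hz⟩ := P.surj v
    exact ⟨s - z, by rw [sub_sub_cancel]; exact hz⟩
  rcases Int.even_or_odd s with hs | hs
  · refine ⟨⟨P.p, fun z => P.x (s - z), P.B, P.A, P.M, P.p_ge, P.p_even, hper, hinj, hsurj, ?_, ?_,
      ?_, ?_, P.M_M, P.M_ne, P.M_B, P.M_A⟩, rfl, rfl, fun z => rfl, ?_⟩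
    · intro z hz
      simp only [e1]
      exact P.B_odd _ (hs.sub_odd hz)
    · intro z hz
      simp only [e2]
      exact P.B_even _ (hs.sub hz)
    · intro z hz
      simp only [e1]
      exact P.A_even _ (hs.sub hz)
    · intro z hz
      simp only [e2]
      exact P.A_odd _ (hs.sub_odd hz)
    · intro v w
      rw [exists_mate_iff, exists_mate_iff]
      show (P.B v = w ∨ P.A v = w ∨ P.M v = w) ↔ (P.A v = w ∨ P.B v = w ∨ P.M v = w)
      tauto
  · refine ⟨⟨P.p, fun z => P.x (s - z), P.A, P.B, P.M, P.p_ge, P.p_even, hper, hinj, hsurj, ?_, ?_,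
      ?_, ?_, P.M_M, P.M_ne, P.M_A, P.M_B⟩, rfl, rfl, fun z => rfl, fun v w => Iff.rfl⟩
    · intro z hz
      simp only [e1]
      exact P.A_even _ (hs.sub_odd hz)
    · intro z hz
      simp only [e2]
      exact P.A_odd _ (hs.sub_even hz)
    · intro z hz
      simp only [e1]
      exact P.B_odd _ (hs.sub_even hz)
    · intro z hz
      simp only [e2]
      exact P.B_even _ (hs.sub_odd hz)

theorem exists_baseA {W : Type*} [Fintype W] (Q : Pres W) (hq : Q.p % 4 = 2)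
    (hnb : ∃ z w, Q.M (Q.x z) = Q.x w ∧ (Even w ↔ Even z)) :
    ∃ Q' : Pres W, Q'.p = Q.p ∧ Q'.M = Q.M ∧
      (∀ v w, (∃ i, Q'.mate i v = w) ↔ ∃ i, Q.mate i v = w) ∧
      (∃ s e : ℤ, (e = 1 ∨ e = -1) ∧ ∀ z, Q'.x z = Q.x (s + e * z)) ∧
      ∃ k0 c d : ℕ, 1 ≤ k0 ∧ (k0 : ℤ) ≤ Q'.p - 2 ∧ Q'.x k0 = Q'.M (Q'.x 0) ∧ 1 ≤ c ∧ c < k0 ∧
        k0 < d ∧ (d : ℤ) ≤ Q'.p - 2 ∧ Q'.M (Q'.x c) = Q'.x d ∧ Even (c + d) := by
  have hp := Q.p_ge
  have hpe := Q.p_even
  -- an even chord `{z, w}` with `z < w < z + p`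
  obtain ⟨z, w, hzw, hwp, hpar, hM⟩ : ∃ z w : ℤ, z < w ∧ w < z + Q.p ∧ (Even w ↔ Even z) ∧
      Q.M (Q.x z) = Q.x w := by
    obtain ⟨z, w0, hM, hpar⟩ := hnb
    set w := z + (w0 - z) % Q.p with hw
    have hm0 : 0 ≤ (w0 - z) % Q.p := Int.emod_nonneg _ (by omega)
    have hm1 : (w0 - z) % Q.p < Q.p := Int.emod_lt_of_pos _ (by omega)
    have hxw : Q.x w = Q.x w0 := by
      rw [Q.x_eq_iff]
      have h1 := Int.emod_add_mul_ediv (w0 - z) Q.p
      exact ⟨-((w0 - z) / Q.p), by rw [hw]; linarith⟩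
    clear_value w
    have hne : w ≠ z := by
      intro h
      rw [h] at hxw
      exact Q.M_ne (Q.x z) (hM.trans hxw.symm)
    refine ⟨z, w, by omega, by omega, ?_, hM.trans hxw.symm⟩
    rw [Q.parity_of_eq hxw]
    exact hpar
  have hMw : Q.M (Q.x w) = Q.x z := by rw [← hM, Q.M_M]
  obtain ⟨g, h, hzg, hgw, hwh, hhp, hMg⟩ := exists_crossing Q hzw hwp hpar hM
  have hMh : Q.M (Q.x h) = Q.x g := by rw [← hMg, Q.M_M]
  have hpar2 : Even (z + w) := Int.even_add.2 hpar.symm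
  -- assembling
  have fin : ∀ Q' : Pres W, Q'.p = Q.p → ∀ k0 c d : ℤ, 0 < c → c < k0 → k0 < d → d ≤ Q.p - 2 →
      Q'.x k0 = Q'.M (Q'.x 0) → Q'.M (Q'.x c) = Q'.x d → Even (c + d) →
      ∃ k0 c d : ℕ, 1 ≤ k0 ∧ (k0 : ℤ) ≤ Q'.p - 2 ∧ Q'.x k0 = Q'.M (Q'.x 0) ∧ 1 ≤ c ∧ c < k0 ∧
        k0 < d ∧ (d : ℤ) ≤ Q'.p - 2 ∧ Q'.M (Q'.x c) = Q'.x d ∧ Even (c + d) := by
    intro Q' hp' k0 c d h1 h2 h3 h4 h5 h6 h7
    obtain ⟨k0, rfl⟩ := Int.eq_ofNat_of_zero_le (show 0 ≤ k0 by omega)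
    obtain ⟨c, rfl⟩ := Int.eq_ofNat_of_zero_le (show 0 ≤ c by omega)
    obtain ⟨d, rfl⟩ := Int.eq_ofNat_of_zero_le (show 0 ≤ d by omega)
    refine ⟨k0, c, d, by omega, by omega, h5, by omega, by omega, by omega, by omega, h6, ?_⟩
    exact_mod_cast h7
  have ev : ∀ t : ℤ, Even (2 * t) := fun t => even_two_mul t
  by_cases c1 : g - 1 = z
  · by_cases c2 : g + 1 = w
    · by_cases c3 : h - 1 = w
      · -- reflection at `h`
        obtain ⟨Q', p1, p2, p3, p4⟩ := exists_reflectA Q h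
        refine ⟨Q', p1, p2, p4, ⟨h, -1, Or.inr rfl, fun t => by rw [p3]; congr 1; ring⟩, ?_⟩
        refine fin Q' p1 (h - g) (h - w) (h - z) (by omega) (by omega) (by omega) (by omega) ?_ ?_ ?_
        · rw [p2, p3, p3, sub_sub_cancel, sub_zero, hMh]
        · rw [p2, p3, p3, sub_sub_cancel, sub_sub_cancel, hMw]
        · have e : h - w + (h - z) = 2 * h - (z + w) := by ring
          rw [e]
          exact (ev h).sub hpar2
      · -- shift at `h`
        obtain ⟨Q', p1, p2, p3, p4⟩ := exists_shift Q h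
        refine ⟨Q', p1, p2, p4, ⟨h, 1, Or.inl rfl, fun t => by rw [p3]; congr 1; ring⟩, ?_⟩
        refine fin Q' p1 (g + Q.p - h) (z + Q.p - h) (w + Q.p - h) (by omega) (by omega) (by omega)
          (by omega) ?_ ?_ ?_
        · rw [p2, p3, p3, sub_add_cancel, zero_add, hMh, Q.per]
        · rw [p2, p3, p3, sub_add_cancel, sub_add_cancel, Q.per, Q.per, hM]
        · have e : z + Q.p - h + (w + Q.p - h) = (z + w) + 2 * (Q.p - h) := by ring
          rw [e]
          exact hpar2.add (ev _)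
    · -- reflection at `g`
      obtain ⟨Q', p1, p2, p3, p4⟩ := exists_reflectA Q g
      refine ⟨Q', p1, p2, p4, ⟨g, -1, Or.inr rfl, fun t => by rw [p3]; congr 1; ring⟩, ?_⟩
      refine fin Q' p1 (g - h + Q.p) (g - z) (g - w + Q.p) (by omega) (by omega) (by omega)
        (by omega) ?_ ?_ ?_
      · rw [p2, p3, p3, sub_zero, hMg]
        have e : h = g - (g - h + Q.p) + Q.p := by ring
        conv_rhs => rw [e, Q.per]
      · rw [p2, p3, p3, sub_sub_cancel, hM]
        have e : w = g - (g - w + Q.p) + Q.p := by ring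
        conv_lhs => rw [e, Q.per]
      · have e : g - z + (g - w + Q.p) = 2 * g - (z + w) + Q.p := by ring
        rw [e]
        exact ((ev g).sub hpar2).add hpe
  · -- shift at `g`
    obtain ⟨Q', p1, p2, p3, p4⟩ := exists_shift Q g
    refine ⟨Q', p1, p2, p4, ⟨g, 1, Or.inl rfl, fun t => by rw [p3]; congr 1; ring⟩, ?_⟩
    refine fin Q' p1 (h - g) (w - g) (z + Q.p - g) (by omega) (by omega) (by omega) (by omega) ?_ ?_ ?_
    · rw [p2, p3, p3, sub_add_cancel, zero_add, hMg]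
    · rw [p2, p3, p3, sub_add_cancel, sub_add_cancel, Q.per, hMw]
    · have e : w - g + (z + Q.p - g) = (z + w) - 2 * g + Q.p := by ring
      rw [e]
      exact (hpar2.sub (ev g)).add hpe

end HX67
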