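import Pool.Agent.HX67.Class2

/-!
# The choice of the rows
-/

namespace HX67

open Finset
open scoped Classical

namespace Pres

variable {W : Type*} (Q : Pres W)

/-- the vertices with an odd index -/
def par (h : W) : Prop := ∃ z, Odd z ∧ Q.x z = h

theorem par_x (z : ℤ) : Q.par (Q.x z) ↔ Odd z := by
  constructor
  · rintro ⟨w, hw, hwz⟩
    rw [← Int.not_even_iff_odd] at hw ⊢
    rwa [← Q.parity_of_eq hwz]
  · intro h
    exact ⟨z, h, rfl⟩

theorem par_A (h : W) : Q.par (Q.A h) ↔ ¬ Q.par h := by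
  obtain ⟨z, rfl⟩ := Q.surj h
  rcases Int.even_or_odd z with hz | hz
  · rw [Q.A_even z hz, par_x, par_x]
    exact ⟨fun _ => Int.not_odd_iff_even.2 hz, fun _ => hz.sub_odd odd_one⟩
  · rw [Q.A_odd z hz, par_x, par_x]
    exact ⟨fun h => absurd h (Int.not_odd_iff_even.2 (hz.add_odd odd_one)), fun h => absurd hz h⟩

/-- the even ends of the chords between an even and an odd vertex -/
noncomputable def O0 [Fintype W] : Finset W := univ.filter (fun h => ¬ Q.par h ∧ Q.par (Q.M h))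

theorem mem_O0 [Fintype W] (h : W) : h ∈ Q.O0 ↔ ¬ Q.par h ∧ Q.par (Q.M h) := by
  simp [O0]

/-- enumeration of the vertices -/
theorem exists_equiv (q : ℕ) (hq : (q : ℤ) = Q.p) : ∃ e : Fin q ≃ W, ∀ i, e i = Q.x (i : ℕ) := by
  refine ⟨Equiv.ofBijective (fun i => Q.x (i : ℕ)) ⟨?_, ?_⟩, fun i => rfl⟩
  · intro i j hij
    by_contra hne
    have h1 : ((i : ℕ) : ℤ) ≠ ((j : ℕ) : ℤ) := by
      intro h
      exact hne (Fin.ext (by exact_mod_cast h))
    have h2 := i.2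
    have h3 := j.2
    exact Q.x_ne h1 (by omega) (by omega) hij
  · intro w
    obtain ⟨z, rfl⟩ := Q.surj w
    have hp := Q.p_ge
    have a0 : 0 ≤ z % Q.p := Int.emod_nonneg z (by omega)
    have a1 : z % Q.p < Q.p := Int.emod_lt_of_pos z (by omega)
    obtain ⟨k, hk⟩ := Int.eq_ofNat_of_zero_le a0
    refine ⟨⟨k, by omega⟩, ?_⟩
    show Q.x (k : ℤ) = Q.x z
    rw [← Q.x_emod z, hk]

theorem sum_eq [Fintype W] (q : ℕ) (hq : (q : ℤ) = Q.p) (g : W → ℤ) :
    ∑ h, g h = ∑ y ∈ range q, g (Q.x y) := by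
  obtain ⟨e, he⟩ := Q.exists_equiv q hq
  rw [← Equiv.sum_comp e g, ← Fin.sum_univ_eq_sum_range (fun y => g (Q.x y)) q]
  refine sum_congr rfl fun i _ => ?_
  rw [he]

theorem even_card_same [Fintype W] :
    Even (#(univ.filter (fun h => ¬ Q.par h ∧ ¬ Q.par (Q.M h)))) := by
  have h1 : ∑ h ∈ univ.filter (fun h => ¬ Q.par h ∧ ¬ Q.par (Q.M h)), (1 : ZMod 2) = 0 := by
    refine sum_involution (fun h _ => Q.M h) ?_ ?_ ?_ ?_
    · intro h _
      decide
    · intro h _ _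
      exact Q.M_ne h
    · intro h hh
      rw [mem_filter] at hh ⊢
      refine ⟨mem_univ _, hh.2.2, ?_⟩
      rw [Q.M_M]
      exact hh.2.1
    · intro h _
      exact Q.M_M h
  rw [sum_const, nsmul_one] at h1
  exact (ZMod.natCast_eq_zero_iff_even).1 h1

theorem card_par [Fintype W] (s : ℤ) (hs : Q.p = 2 * s) :
    (#(univ.filter (fun h => ¬ Q.par h)) : ℤ) = s := by
  have hp := Q.p_ge
  obtain ⟨q, hq⟩ : ∃ q : ℕ, (q : ℤ) = Q.p := ⟨Q.p.toNat, by omega⟩
  have h1 : ∑ h : W, (if Q.par h then (1 : ℤ) else -1) = 0 := by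
    refine sum_involution (fun h _ => Q.A h) ?_ ?_ ?_ ?_
    · intro h _
      simp only [Q.par_A]
      by_cases hh : Q.par h <;> simp [hh]
    · intro h _ _
      exact Q.A_ne h
    · intro h _
      exact mem_univ _
    · intro h _
      exact Q.A_A h
  have h2 : ∑ h : W, (1 : ℤ) = Q.p := by
    rw [Q.sum_eq q hq]
    simp [hq]
  have h3 : (#(univ.filter (fun h => ¬ Q.par h)) : ℤ) = ∑ h : W, (if Q.par h then (0 : ℤ) else 1) := by
    rw [card_filter]
    push_cast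
    refine sum_congr rfl fun h _ => ?_
    by_cases hh : Q.par h <;> simp [hh]
  have h4 : ∑ h : W, (2 * (if Q.par h then (0 : ℤ) else 1)) =
      ∑ h : W, (1 : ℤ) - ∑ h : W, (if Q.par h then (1 : ℤ) else -1) := by
    rw [← sum_sub_distrib]
    refine sum_congr rfl fun h _ => ?_
    by_cases hh : Q.par h <;> simp [hh]
  rw [← mul_sum, h1, h2, ← h3, hs] at h4
  linarith

theorem parity_O0 [Fintype W] (s : ℤ) (hs : Q.p = 2 * s) : (Even (#Q.O0 : ℤ) ↔ Even s) := by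
  have h1 := Q.card_par s hs
  have h2 := Q.even_card_same
  have h3 : #(univ.filter (fun h => ¬ Q.par h)) =
      #Q.O0 + #(univ.filter (fun h => ¬ Q.par h ∧ ¬ Q.par (Q.M h))) := by
    unfold O0
    rw [← card_union_of_disjoint]
    · congr 1
      ext h
      simp only [mem_filter, mem_univ, true_and, mem_union]
      tauto
    · rw [disjoint_left]
      intro h h4 h5
      rw [mem_filter] at h4 h5
      exact h5.2.2 h4.2.2
  rw [← h1, h3]
  push_cast
  rw [Int.even_add]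
  have h4 : Even ((#(univ.filter (fun h => ¬ Q.par h ∧ ¬ Q.par (Q.M h))) : ℕ) : ℤ) := by
    exact_mod_cast h2
  tauto

end Pres

theorem exists_signs {W : Type*} [Fintype W] (Q : Pres W) (a : ℕ)
    (ha : a ≤ #(Q.O0.erase (Q.M (Q.x (-1))))) (hk : ¬ Q.par (Q.M (Q.x 0))) :
    ∃ r : W → Prop, (∀ h, r (Q.M h) ↔ ¬ r h) ∧ r (Q.x 0) ∧ ¬ r (Q.x (-1)) ∧
      ∑ y ∈ Ico 1 ((Q.p - 2).toNat + 1), dir Q r y = 2 * (2 * a - #Q.O0 + 1) := by
  have hp := Q.p_ge
  obtain ⟨q, hq⟩ : ∃ q : ℕ, (q : ℤ) = Q.p := ⟨Q.p.toNat, by omega⟩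
  obtain ⟨e, he⟩ := Q.exists_equiv q hq
  obtain ⟨S, hS, hSa⟩ := exists_subset_card_eq ha
  have hSO : S ⊆ Q.O0 := hS.trans (erase_subset _ _)
  have hS1 : Q.M (Q.x (-1)) ∉ S := fun h => (mem_erase.1 (hS h)).1 rfl
  have idx_x : ∀ k : ℕ, k < q → (e.symm (Q.x k) : ℕ) = k := by
    intro k hk
    have h1 : Q.x k = e ⟨k, hk⟩ := (he ⟨k, hk⟩).symm
    rw [h1, e.symm_apply_apply]
  have idx_ne : ∀ h, (e.symm h : ℕ) ≠ (e.symm (Q.M h) : ℕ) := by
    intro h h1
    have h2 := e.symm.injective (Fin.ext h1)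
    exact Q.M_ne h h2.symm
  have hxm : Q.x (-1) = Q.x ((q - 1 : ℕ) : ℤ) := by
    rw [← Q.per (-1)]
    congr 1
    omega
  have hp0 : ¬ Q.par (Q.x 0) := by
    rw [Q.par_x]
    decide
  have hp1 : Q.par (Q.x (-1)) := by
    rw [Q.par_x]
    decide
  obtain ⟨r, hrdef⟩ : ∃ r : W → Prop, r = fun h =>
      if ¬ Q.par h ∧ Q.par (Q.M h) then h ∉ S else
        if Q.par h ∧ ¬ Q.par (Q.M h) then Q.M h ∈ S else
          (e.symm h : ℕ) < (e.symm (Q.M h) : ℕ) := ⟨_, rfl⟩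
  have r1 : ∀ h, ¬ Q.par h → Q.par (Q.M h) → (r h ↔ h ∉ S) := by
    intro h h1 h2
    simp [hrdef, h1, h2]
  have r2 : ∀ h, Q.par h → ¬ Q.par (Q.M h) → (r h ↔ Q.M h ∈ S) := by
    intro h h1 h2
    simp [hrdef, h1, h2]
  have r3 : ∀ h, (Q.par h ↔ Q.par (Q.M h)) →
      (r h ↔ (e.symm h : ℕ) < (e.symm (Q.M h) : ℕ)) := by
    intro h h1
    by_cases h2 : Q.par h
    · simp [hrdef, h2, h1.1 h2]
    · have h3 : ¬ Q.par (Q.M h) := fun h3 => h2 (h1.2 h3)
      simp [hrdef, h2, h3]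
  have hr : ∀ h, r (Q.M h) ↔ ¬ r h := by
    intro h
    by_cases h1 : Q.par h <;> by_cases h2 : Q.par (Q.M h)
    · rw [r3 h (iff_of_true h1 h2), r3 (Q.M h) (by rw [Q.M_M]; exact iff_of_true h2 h1), Q.M_M]
      have := idx_ne h
      omega
    · rw [r2 h h1 h2, r1 (Q.M h) h2 (by rwa [Q.M_M])]
    · rw [r1 h h1 h2, r2 (Q.M h) h2 (by rwa [Q.M_M]), Q.M_M, not_not]
    · rw [r3 h (iff_of_false h1 h2), r3 (Q.M h) (by rw [Q.M_M]; exact iff_of_false h2 h1), Q.M_M]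
      have := idx_ne h
      omega
  have hr0 : r (Q.x 0) := by
    rw [r3 _ (iff_of_false hp0 hk)]
    have h1 := idx_x 0 (by omega)
    have h2 := idx_ne (Q.x 0)
    push_cast at h1
    omega
  have hr1 : ¬ r (Q.x (-1)) := by
    by_cases h2 : Q.par (Q.M (Q.x (-1)))
    · rw [r3 _ (iff_of_true hp1 h2)]
      have h1 := idx_x (q - 1) (by omega)
      rw [← hxm] at h1
      have h3 := (e.symm (Q.M (Q.x (-1)))).2
      omega
    · rw [r2 _ hp1 h2]
      exact hS1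
  refine ⟨r, hr, hr0, hr1, ?_⟩
  -- the sum over all vertices
  let d : W → ℤ := fun h => if (r h ↔ Q.par h) then 1 else -1
  have hdir : ∀ y : ℤ, dir Q r y = d (Q.x y) := by
    intro y
    simp only [dir, d]
    rw [Q.par_x]
    split_ifs <;> rfl
  have hsplit : ∑ h, d h = ∑ h ∈ Q.O0, d h
      + ∑ h ∈ univ.filter (fun h => Q.par h ∧ ¬ Q.par (Q.M h)), d h
      + ∑ h ∈ univ.filter (fun h => (Q.par h ↔ Q.par (Q.M h))), d h := by
    rw [Pres.O0, sum_filter, sum_filter, sum_filter, ← sum_add_distrib, ← sum_add_distrib]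
    refine sum_congr rfl fun h _ => ?_
    by_cases h1 : Q.par h <;> by_cases h2 : Q.par (Q.M h) <;> simp [h1, h2]
  have hsame : ∑ h ∈ univ.filter (fun h => (Q.par h ↔ Q.par (Q.M h))), d h = 0 := by
    refine sum_involution (fun h _ => Q.M h) ?_ ?_ ?_ ?_
    · intro h hh
      rw [mem_filter] at hh
      simp only [d, hr, ← hh.2]
      by_cases h1 : Q.par h <;> by_cases h2 : r h <;> simp [h1, h2]
    · intro h _ _
      exact Q.M_ne h
    · intro h hh
      rw [mem_filter] at hh ⊢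
      refine ⟨mem_univ _, ?_⟩
      rw [Q.M_M]
      exact hh.2.symm
    · intro h _
      exact Q.M_M h
  have hopp : ∑ h ∈ univ.filter (fun h => Q.par h ∧ ¬ Q.par (Q.M h)), d h = ∑ h ∈ Q.O0, d h := by
    refine sum_bij (fun h _ => Q.M h) ?_ ?_ ?_ ?_
    · intro h hh
      rw [mem_filter] at hh
      rw [Q.mem_O0, Q.M_M]
      exact ⟨hh.2.2, hh.2.1⟩
    · intro h _ h' _ h1
      rw [← Q.M_M h, h1, Q.M_M]
    · intro h hh
      rw [Q.mem_O0] at hh
      refine ⟨Q.M h, ?_, Q.M_M h⟩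
      rw [mem_filter, Q.M_M]
      exact ⟨mem_univ _, hh.2, hh.1⟩
    · intro h hh
      rw [mem_filter] at hh
      simp only [d, hr]
      by_cases h2 : r h <;> simp [h2, hh.2.1, hh.2.2]
  have hO : ∑ h ∈ Q.O0, d h = 2 * a - #Q.O0 := by
    have h1 : ∀ h ∈ Q.O0, d h = 2 * (if h ∈ S then 1 else 0) - 1 := by
      intro h hh
      rw [Q.mem_O0] at hh
      simp only [d]
      rw [r1 h hh.1 hh.2]
      by_cases h2 : h ∈ S <;> simp [h2, hh.1]
    rw [sum_congr rfl h1, sum_sub_distrib, ← mul_sum, sum_ite_mem, inter_eq_right.2 hSO]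
    simp [hSa]
  have htot : ∑ y ∈ range q, d (Q.x y) = 2 * (2 * a - #Q.O0) := by
    rw [← Q.sum_eq q hq d, hsplit, hsame, hopp, hO]
    ring
  have hd0 : d (Q.x 0) = -1 := by
    simp only [d]
    rw [if_neg (fun h => hp0 (h.1 hr0))]
  have hd1 : d (Q.x ((q - 1 : ℕ) : ℤ)) = -1 := by
    rw [← hxm]
    simp only [d]
    rw [if_neg (fun h => hr1 (h.2 hp1))]
  have ht : (Q.p - 2).toNat + 1 = q - 1 := by omega
  have hsum : ∑ y ∈ range q, d (Q.x y) =
      d (Q.x 0) + ∑ y ∈ Ico 1 (q - 1), d (Q.x y) + d (Q.x ((q - 1 : ℕ) : ℤ)) := by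
    rw [range_eq_Ico, sum_eq_sum_Ico_succ_bot (by omega), zero_add,
      show q = (q - 1) + 1 by omega, sum_Ico_succ_top (by omega)]
    simp only [Nat.add_sub_cancel]
    push_cast
    ring
  rw [ht]
  have h3 : ∑ y ∈ Ico 1 (q - 1), dir Q r y = ∑ y ∈ Ico 1 (q - 1), d (Q.x y) :=
    sum_congr rfl fun y _ => hdir y
  rw [h3]
  rw [hd0, hd1, htot] at hsum
  linarith

end HX67
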