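import Pool.Agent.HX67.BaseA
import Pool.Agent.HX67.Signs

/-!
# The choice of the base when exactly one chord joins an even and an odd vertex
-/

namespace HX67

open Finset
open scoped Classical

/-- an odd chord between the two pairs of exchange rows -/
def DataU {W : Type*} (Q : Pres W) : Prop :=
  ∃ a l : ℕ, 4 ≤ a ∧ (a : ℤ) ≤ Q.p - 2 ∧ Even a ∧ Q.M (Q.x 0) = Q.x ((a : ℤ) - 1) ∧
    1 ≤ l ∧ l + 2 ≤ a ∧ Q.M (Q.x a) = Q.x l ∧
    ∀ i j : ℕ, a < i → (i : ℤ) < Q.p - 1 → a < j → (j : ℤ) < Q.p - 1 →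
      Q.M (Q.x i) = Q.x j → Even (i + j)

/-- an even chord crosses the chord of the base point, and both base points have even chords -/
def DataA {W : Type*} (Q : Pres W) : Prop :=
  ∃ k0 c d : ℕ, 1 ≤ k0 ∧ (k0 : ℤ) ≤ Q.p - 2 ∧ Q.x k0 = Q.M (Q.x 0) ∧ 1 ≤ c ∧ c < k0 ∧
    k0 < d ∧ (d : ℤ) ≤ Q.p - 2 ∧ Q.M (Q.x c) = Q.x d ∧ Even (c + d) ∧ Even k0 ∧
    ∃ k1 : ℤ, Odd k1 ∧ Q.M (Q.x (-1)) = Q.x k1

theorem mkA {W : Type*} (Q : Pres W) (t k0 c d k1 : ℤ) (hc : 1 ≤ c) (hck : c < k0) (hkd : k0 < d)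
    (hd : d ≤ Q.p - 2) (h1 : Q.M (Q.x t) = Q.x (t + k0)) (h2 : Q.M (Q.x (t + c)) = Q.x (t + d))
    (hcd : Even (c + d)) (hk0 : Even k0) (hk1 : Odd k1) (h3 : Q.M (Q.x (t - 1)) = Q.x (t + k1)) :
    ∃ Q' : Pres W, Q'.p = Q.p ∧ Q'.M = Q.M ∧
      (∀ v w, (∃ i, Q'.mate i v = w) ↔ ∃ i, Q.mate i v = w) ∧ (DataU Q' ∨ DataA Q') := by
  obtain ⟨Q', p1, p2, p3, p4⟩ := exists_shift Q t
  refine ⟨Q', p1, p2, p4, Or.inr ?_⟩
  obtain ⟨k0, rfl⟩ := Int.eq_ofNat_of_zero_le (show 0 ≤ k0 by omega)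
  obtain ⟨c, rfl⟩ := Int.eq_ofNat_of_zero_le (show 0 ≤ c by omega)
  obtain ⟨d, rfl⟩ := Int.eq_ofNat_of_zero_le (show 0 ≤ d by omega)
  refine ⟨k0, c, d, by omega, by omega, ?_, by omega, by omega, by omega, by omega, ?_,
    by exact_mod_cast hcd, by exact_mod_cast hk0, k1, hk1, ?_⟩
  · rw [p2, p3, p3, zero_add, h1, add_comm]
  · rw [p2, p3, p3, add_comm, h2, add_comm]
  · rw [p2, p3, p3, show -1 + t = t - 1 by ring, h3, add_comm]

theorem exists_index' {W : Type*} (Q : Pres W) (v : W) : ∃ z, 0 ≤ z ∧ z < Q.p ∧ v = Q.x z := by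
  have hp := Q.p_ge
  obtain ⟨z, rfl⟩ := Q.surj v
  exact ⟨z % Q.p, Int.emod_nonneg z (by omega), Int.emod_lt_of_pos z (by omega), (Q.x_emod z).symm⟩

theorem baseO_half {W : Type*} (Q : Pres W) (n : ℤ) (hn : Odd n) (h3 : 3 ≤ n) (hn3 : n ≤ Q.p - 3)
    (hM : Q.M (Q.x 0) = Q.x n)
    (hE : ∀ z w, Q.M (Q.x z) = Q.x w → Odd (z + w) → Q.x z = Q.x 0 ∨ Q.x z = Q.x n) :
    (∃ Q' : Pres W, Q'.p = Q.p ∧ Q'.M = Q.M ∧
      (∀ v w, (∃ i, Q'.mate i v = w) ↔ ∃ i, Q.mate i v = w) ∧ (DataU Q' ∨ DataA Q')) ∨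
      (n = 5 ∧ Q.M (Q.x 4) = Q.x 2 ∧ Q.M (Q.x 3) = Q.x 1) := by
  have hp := Q.p_ge
  obtain ⟨p2, hp2⟩ := Q.p_even
  obtain ⟨m, hm⟩ := hn
  have hMn : Q.M (Q.x n) = Q.x 0 := by rw [← hM, Q.M_M]
  -- the chords of the inner vertices are even
  have hev : ∀ z w, Q.M (Q.x z) = Q.x w → 0 < z → z < Q.p → z ≠ n → Even (z + w) := by
    intro z w h1 h2 h3' h4
    by_contra hcon
    rw [Int.not_even_iff_odd] at hcon
    rcases hE z w h1 hcon with h5 | h5
    · exact Q.x_ne (by omega) (by omega) (by omega) h5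
    · exact Q.x_ne h4 (by omega) (by omega) h5
  obtain ⟨c, hc0, hcp, hc⟩ := exists_index' Q (Q.M (Q.x (n - 1)))
  have hc00 : c ≠ 0 := by
    rintro rfl
    have h1 : Q.x (n - 1) = Q.x n := by rw [← hM, ← hc, Q.M_M]
    exact Q.x_ne (by omega) (by omega) (by omega) h1
  have hcn : c ≠ n := by
    rintro rfl
    have h1 : Q.x (c - 1) = Q.x 0 := by rw [← hMn, ← hc, Q.M_M]
    exact Q.x_ne (by omega) (by omega) (by omega) h1
  have hcn1 : c ≠ n - 1 := by
    rintro rfl
    exact Q.M_ne _ hc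
  by_cases hcase : n < c
  · -- the mate of `n - 1` is in the other arc
    left
    obtain ⟨Q', q1, q2, q3, q4⟩ := exists_reflectA Q 0
    refine ⟨Q', q1, q2, q4, Or.inl ?_⟩
    obtain ⟨a, ha⟩ := Int.eq_ofNat_of_zero_le (show 0 ≤ Q.p - n + 1 by omega)
    obtain ⟨l, hl⟩ := Int.eq_ofNat_of_zero_le (show 0 ≤ Q.p - c by omega)
    refine ⟨a, l, by omega, by omega, ?_, ?_, by omega, by omega, ?_, ?_⟩
    · rw [Nat.even_iff]
      omega
    · rw [q2, q3, q3, sub_zero, hM, ← Q.per (0 - ((a : ℤ) - 1))]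
      congr 1
      omega
    · rw [q2, q3, q3, ← Q.per (0 - (a : ℤ)), ← Q.per (0 - (l : ℤ)),
        show 0 - (a : ℤ) + Q.p = n - 1 by omega, show 0 - (l : ℤ) + Q.p = c by omega]
      exact hc
    · intro i j hi hi' hj hj' hij
      rw [q1] at hi' hj'
      rw [q2, q3, q3, ← Q.per (0 - (i : ℤ)), ← Q.per (0 - (j : ℤ))] at hij
      have h1 := hev _ _ hij (by omega) (by omega) (by omega)
      rw [Int.even_iff] at h1
      rw [Nat.even_iff]
      omega
  · -- the mate of `n - 1` is in the same arc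
    have hce : Even (n - 1 + c) := hev _ _ hc (by omega) (by omega) (by omega)
    rw [Int.even_iff] at hce
    have hMc : Q.M (Q.x c) = Q.x (n - 1) := by rw [← hc, Q.M_M]
    obtain ⟨g, h, hcg, hgn, hnh, hhp, hMg⟩ := exists_crossing Q (z := c) (w := n - 1) (by omega)
      (by omega) (by
        rw [Int.even_iff, Int.even_iff]
        omega) hMc
    have hMh : Q.M (Q.x h) = Q.x g := by rw [← hMg, Q.M_M]
    have hgh : Even (g + h) := hev _ _ hMg (by omega) (by omega) (by omega)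
    rw [Int.even_iff] at hgh
    by_cases hg2 : g = n - 2
    · -- the crossing chord starts at `n - 2`
      by_cases hc3 : c = n - 3
      · by_cases hh : h = n - 4 + Q.p
        · by_cases hn5 : n = 5
          · right
            subst hn5
            refine ⟨rfl, ?_, ?_⟩
            · rw [show (4 : ℤ) = 5 - 1 by norm_num, hc, hc3]
              norm_num
            · rw [show (3 : ℤ) = 5 - 2 by norm_num, ← hg2, hMg, hh, Q.per]
              norm_num
          · -- base `n - 4`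
            left
            obtain ⟨w, hw0, hwp, hw⟩ := exists_index' Q (Q.M (Q.x (n - 5)))
            have h5 := hev _ _ hw (by omega) (by omega) (by omega)
            rw [Int.even_iff] at h5
            refine mkA Q (n - 4) 2 1 3 (w - (n - 4)) le_rfl (by norm_num) (by norm_num) (by omega)
              ?_ ?_ (by decide) (by decide) ?_ ?_
            · rw [show n - 4 + 2 = g by omega, ← hMh, hh, Q.per]
            · rw [show n - 4 + 1 = c by omega, show n - 4 + 3 = n - 1 by ring]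
              exact hMc
            · rw [Int.odd_iff]
              omega
            · rw [show n - 4 - 1 = n - 5 by ring, show n - 4 + (w - (n - 4)) = w by ring]
              exact hw
        · -- base `n - 3`
          left
          obtain ⟨w, hw0, hwp, hw⟩ := exists_index' Q (Q.M (Q.x (n - 4)))
          have h5 := hev _ _ hw (by omega) (by omega) (by omega)
          rw [Int.even_iff] at h5
          refine mkA Q (n - 3) 2 1 (h - (n - 3)) (w - (n - 3)) le_rfl (by norm_num) (by omega)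
            (by omega) ?_ ?_ ?_ (by decide) ?_ ?_
          · rw [← hc3, hMc]
            congr 1
            omega
          · rw [show n - 3 + 1 = g by omega, show n - 3 + (h - (n - 3)) = h by ring]
            exact hMg
          · rw [Int.even_iff]
            omega
          · rw [Int.odd_iff]
            omega
          · rw [show n - 3 - 1 = n - 4 by ring, show n - 3 + (w - (n - 3)) = w by ring]
            exact hw
      · -- base `n - 2`
        left
        obtain ⟨w, hw0, hwp, hw⟩ := exists_index' Q (Q.M (Q.x (n - 3)))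
        have h5 := hev _ _ hw (by omega) (by omega) (by omega)
        rw [Int.even_iff] at h5
        refine mkA Q (n - 2) (h - (n - 2)) 1 (c + Q.p - (n - 2)) (w - (n - 2)) le_rfl (by omega)
          (by omega) (by omega) ?_ ?_ ?_ ?_ ?_ ?_
        · rw [← hg2, show g + (h - g) = h by ring]
          exact hMg
        · rw [show n - 2 + 1 = n - 1 by ring, show n - 2 + (c + Q.p - (n - 2)) = c + Q.p by ring,
            Q.per]
          exact hc
        · rw [Int.even_iff]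
          omega
        · rw [Int.even_iff]
          omega
        · rw [Int.odd_iff]
          omega
        · rw [show n - 2 - 1 = n - 3 by ring, show n - 2 + (w - (n - 2)) = w by ring]
          exact hw
    · -- base `n - 1`
      left
      obtain ⟨w, hw0, hwp, hw⟩ := exists_index' Q (Q.M (Q.x (n - 2)))
      have h5 := hev _ _ hw (by omega) (by omega) (by omega)
      rw [Int.even_iff] at h5
      refine mkA Q (n - 1) (c + Q.p - (n - 1)) (h - (n - 1)) (g + Q.p - (n - 1)) (w - (n - 1))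
        (by omega) (by omega) (by omega) (by omega) ?_ ?_ ?_ ?_ ?_ ?_
      · rw [show n - 1 + (c + Q.p - (n - 1)) = c + Q.p by ring, Q.per]
        exact hc
      · rw [show n - 1 + (h - (n - 1)) = h by ring,
          show n - 1 + (g + Q.p - (n - 1)) = g + Q.p by ring, Q.per]
        exact hMh
      · rw [Int.even_iff]
        omega
      · rw [Int.even_iff]
        omega
      · rw [Int.odd_iff]
        omega
      · rw [show n - 1 - 1 = n - 2 by ring, show n - 1 + (w - (n - 1)) = w by ring]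
        exact hw

theorem exists_baseO {W : Type*} [Fintype W] (Q : Pres W) (hO : #Q.O0 = 1) :
    (∃ Q' : Pres W, Q'.p = Q.p ∧ Q'.M = Q.M ∧
      (∀ v w, (∃ i, Q'.mate i v = w) ↔ ∃ i, Q.mate i v = w) ∧ (DataU Q' ∨ DataA Q')) ∨
    (∃ Q' : Pres W, Q'.p = 10 ∧ Q'.M = Q.M ∧
      (∀ v w, (∃ i, Q'.mate i v = w) ↔ ∃ i, Q.mate i v = w) ∧
      Q'.M (Q'.x 0) = Q'.x 5 ∧ Q'.M (Q'.x 1) = Q'.x 3 ∧ Q'.M (Q'.x 2) = Q'.x 4 ∧
      Q'.M (Q'.x 6) = Q'.x 8 ∧ Q'.M (Q'.x 7) = Q'.x 9) := by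
  have hp := Q.p_ge
  obtain ⟨h0, hh0⟩ := card_eq_one.1 hO
  have hmem : ∀ h, (¬ Q.par h ∧ Q.par (Q.M h)) ↔ h = h0 := by
    intro h
    rw [← Q.mem_O0, hh0, mem_singleton]
  have h00 := (hmem h0).2 rfl
  obtain ⟨s, hs⟩ := Q.surj h0
  obtain ⟨Q1, p1, p2, p3, p4⟩ := exists_shift Q s
  obtain ⟨n, hn0, hnp, hn⟩ := exists_index' Q1 (Q1.M (Q1.x 0))
  have hp1 := Q1.p_even
  have hpar : ∀ z, Q.par (Q1.x z) ↔ (Odd (z + s)) := by
    intro z
    rw [p3, Q.par_x]
  have hx0 : Q1.x 0 = h0 := by rw [p3, zero_add, hs]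
  have hse : Even s := by
    have h1 := h00.1
    rw [← hs, Q.par_x, Int.not_odd_iff_even] at h1
    exact h1
  rw [Int.even_iff] at hse
  have hno : Odd n := by
    have h1 := h00.2
    rw [← hx0, ← p2, hn, hpar] at h1
    rw [Int.odd_iff] at h1 ⊢
    omega
  have hno' := Int.odd_iff.1 hno
  have hn1 : n ≠ 1 := by
    rintro rfl
    have h1 := Q1.M_B (Q1.x 0)
    rw [hn, Q1.B_even 0 (by decide)] at h1
    exact h1 (by norm_num)
  have hnp1 : n ≠ Q1.p - 1 := by
    intro h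
    have h1 := Q1.M_A (Q1.x 0)
    rw [hn, Q1.A_even 0 (by decide), h, ← Q1.per (0 - 1)] at h1
    exact h1 (by congr 1; ring)
  rw [Int.even_iff] at hp1
  have hE : ∀ z w, Q1.M (Q1.x z) = Q1.x w → Odd (z + w) → Q1.x z = Q1.x 0 ∨ Q1.x z = Q1.x n := by
    intro z w h1 h2
    rw [Int.odd_iff] at h2
    rcases Int.even_or_odd z with hz | hz
    · left
      rw [Int.even_iff] at hz
      rw [hx0, ← hmem, hpar, ← p2, h1, hpar, Int.odd_iff, Int.odd_iff]
      omega
    · right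
      rw [Int.odd_iff] at hz
      have h3 : Q1.x w = h0 := by
        rw [← hmem, hpar, ← p2, ← h1, Q1.M_M, hpar, Int.odd_iff, Int.odd_iff]
        omega
      rw [← hn, ← Q1.M_M (Q1.x z), h1, h3, hx0]
  have hmates : ∀ Q' : Pres W, (∀ v w, (∃ i, Q'.mate i v = w) ↔ ∃ i, Q1.mate i v = w) →
      ∀ v w, (∃ i, Q'.mate i v = w) ↔ ∃ i, Q.mate i v = w := by
    intro Q' h v w
    rw [h, p4]
  rcases baseO_half Q1 n hno (by omega) (by omega) hn hE with ⟨Q', a1, a2, a3, a4⟩ | ⟨rfl, b1, b2⟩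
  · exact Or.inl ⟨Q', by rw [a1, p1], by rw [a2, p2], hmates Q' a3, a4⟩
  · obtain ⟨Q2, q1, q2, q3, q4⟩ := exists_shift Q1 5
    have e0 : Q2.M (Q2.x 0) = Q2.x (Q1.p - 5) := by
      rw [q2, q3, q3, zero_add, ← hn, Q1.M_M, ← Q1.per 0]
      congr 1
      ring
    have hE2 : ∀ z w, Q2.M (Q2.x z) = Q2.x w → Odd (z + w) →
        Q2.x z = Q2.x 0 ∨ Q2.x z = Q2.x (Q1.p - 5) := by
      intro z w h1 h2
      rw [q2, q3, q3] at h1
      rcases hE _ _ h1 (by rw [Int.odd_iff] at h2 ⊢; omega) with h3 | h3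
      · right
        rw [q3, h3, q3, ← Q1.per 0]
        congr 1
        ring
      · left
        rw [q3, h3, q3, zero_add]
    rcases baseO_half Q2 (Q1.p - 5) (by rw [Int.odd_iff]; omega) (by omega) (by omega) e0 hE2 with
      ⟨Q', a1, a2, a3, a4⟩ | ⟨b3, b4, b5⟩
    · refine Or.inl ⟨Q', by rw [a1, q1, p1], by rw [a2, q2, p2], hmates Q' ?_, a4⟩
      intro v w
      rw [a3, q4]
    · right
      refine ⟨Q1, by omega, p2, p4, hn, ?_, ?_, ?_, ?_⟩
      · rw [← b2, Q1.M_M]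
      · rw [← b1, Q1.M_M]
      · have h1 : Q1.M (Q1.x 8) = Q1.x 6 := by
          rw [q2, q3, q3] at b5
          exact b5
        rw [← h1, Q1.M_M]
      · have h1 : Q1.M (Q1.x 9) = Q1.x 7 := by
          rw [q2, q3, q3] at b4
          exact b4
        rw [← h1, Q1.M_M]

end HX67
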