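import Pool.Agent.HX67.Signs

/-!
# The base of the construction U: a shortest chord
-/

namespace HX67

theorem exists_baseU {W : Type*} (Q : Pres W) (hb : ∀ h, Q.par (Q.M h) ↔ ¬ Q.par h) :
    ∃ s : ℤ, ∀ Q' : Pres W, Q'.p = Q.p → Q'.M = Q.M → (∀ z, Q'.x z = Q.x (z + s)) →
      ∃ a l : ℕ, 4 ≤ a ∧ (a : ℤ) ≤ Q'.p - 2 ∧ Even a ∧
        Q'.M (Q'.x 0) = Q'.x ((a : ℤ) - 1) ∧ 1 ≤ l ∧ l + 2 ≤ a ∧ Q'.M (Q'.x a) = Q'.x l ∧
        ∀ i j : ℕ, a < i → (i : ℤ) < Q'.p - 1 → a < j → (j : ℤ) < Q'.p - 1 →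
          Q'.M (Q'.x i) ≠ Q'.x j := by
  have hp := Q.p_ge
  have hpe := Q.p_even
  have red : ∀ w c : ℤ, Q.x w = Q.x (c + (w - c) % Q.p) := by
    intro w c
    rw [Q.x_eq_iff]
    have h := Int.emod_add_mul_ediv (w - c) Q.p
    exact ⟨(w - c) / Q.p, by linarith⟩
  have hex : ∃ n : ℕ, 0 < n ∧ ∃ z, Q.M (Q.x z) = Q.x (z + n) := by
    obtain ⟨w, hw⟩ := Q.surj (Q.M (Q.x 0))
    refine ⟨((w - 0) % Q.p).toNat, ?_, 0, ?_⟩
    · have h1 := Int.emod_nonneg (w - 0) (show Q.p ≠ 0 by omega)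
      by_contra hcon
      have h0 : (w - 0) % Q.p = 0 := by omega
      have h2 := red w 0
      rw [h0, add_zero] at h2
      exact Q.M_ne _ (hw.symm.trans h2)
    · rw [Int.toNat_of_nonneg (Int.emod_nonneg _ (by omega)), ← hw]
      exact red w 0
  classical
  obtain ⟨hn0, z, hz⟩ := Nat.find_spec hex
  have hminn : ∀ m : ℕ, m < Nat.find hex → ¬ (0 < m ∧ ∃ z, Q.M (Q.x z) = Q.x (z + m)) :=
    fun m hm => Nat.find_min hex hm
  generalize Nat.find hex = n at hn0 hz hminn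
  have hmin1 : ∀ i j : ℤ, i < j → j - i < n → Q.M (Q.x i) ≠ Q.x j := by
    intro i j hij hlt h
    refine hminn (j - i).toNat (by omega) ⟨by omega, i, ?_⟩
    rw [Int.toNat_of_nonneg (by omega), h]
    congr 1
    ring
  have hmin : ∀ i j : ℤ, i - j < n → j - i < n → Q.M (Q.x i) ≠ Q.x j := by
    intro i j h1 h2
    rcases lt_trichotomy i j with h | h | h
    · exact hmin1 i j h h2
    · rw [h]
      exact Q.M_ne _
    · intro h3
      apply hmin1 j i h h1
      rw [← h3, Q.M_M]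
  -- `n` is odd and at least three
  have hnodd : Odd (n : ℤ) := by
    have h1 := hb (Q.x z)
    rw [hz, Q.par_x, Q.par_x, Int.not_odd_iff_even] at h1
    rcases Int.even_or_odd z with h2 | h2
    · have h3 := (h1.2 h2).sub_even h2
      rwa [add_sub_cancel_left] at h3
    · have h3 : ¬ Odd (z + n) := fun h => (Int.not_even_iff_odd.2 h2) (h1.1 h)
      rw [Int.not_odd_iff_even] at h3
      have h4 := h3.sub_odd h2
      rwa [add_sub_cancel_left] at h4
  have hn1 : n ≠ 1 := by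
    rintro rfl
    push_cast at hz
    rcases Int.even_or_odd z with h2 | h2
    · exact Q.M_B _ (hz.trans (Q.B_even z h2).symm)
    · exact Q.M_A _ (hz.trans (Q.A_odd z h2).symm)
  have hn3 : 3 ≤ n := by
    have h3 : Odd n := by exact_mod_cast hnodd
    obtain ⟨k, hk⟩ := h3
    omega
  -- `2 n ≤ q`
  have hlt : (n : ℤ) < Q.p := by
    by_contra hcon
    have h3 : Q.x (z + n) = Q.x (z + n - Q.p) := by
      rw [Q.x_eq_iff]
      exact ⟨1, by ring⟩
    exact hmin z (z + n - Q.p) (by omega) (by omega) (hz.trans h3)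
  have h2n : 2 * (n : ℤ) ≤ Q.p := by
    by_contra hcon
    have h3 : Q.x (z + n) = Q.x (z + n - Q.p) := by
      rw [Q.x_eq_iff]
      exact ⟨1, by ring⟩
    exact hmin z (z + n - Q.p) (by omega) (by omega) (hz.trans h3)
  refine ⟨z + n, ?_⟩
  intro Q' hq hM hx
  have hqe : Even (Q.p - n + 1) := (hpe.sub_odd hnodd).add_odd odd_one
  -- the mate of `z + 1`
  obtain ⟨w, hw⟩ := Q.surj (Q.M (Q.x (z + 1)))
  have hr := red w (z + n)
  rw [hw] at hr
  have hr0 := Int.emod_nonneg (w - (z + n)) (show Q.p ≠ 0 by omega)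
  have hr1 := Int.emod_lt_of_pos (w - (z + n)) (show 0 < Q.p by omega)
  generalize (w - (z + n)) % Q.p = r at hr hr0 hr1
  have hr2 : 1 ≤ r := by
    by_contra hcon
    have h0 : r = 0 := by omega
    rw [h0, add_zero] at hr
    exact hmin (z + 1) (z + n) (by omega) (by omega) hr
  have hr3 : r ≤ Q.p - n - 1 := by
    by_contra hcon
    have h3 : Q.x (z + n + r) = Q.x (z + n + r - Q.p) := by
      rw [Q.x_eq_iff]
      exact ⟨1, by ring⟩
    exact hmin (z + 1) (z + n + r - Q.p) (by omega) (by omega) (hr.trans h3)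
  have ha : (((Q.p - n + 1).toNat : ℕ) : ℤ) = Q.p - n + 1 := Int.toNat_of_nonneg (by omega)
  have hl : ((r.toNat : ℕ) : ℤ) = r := Int.toNat_of_nonneg (by omega)
  refine ⟨(Q.p - n + 1).toNat, r.toNat, by omega, by omega, ?_, ?_, by omega, by omega, ?_, ?_⟩
  · have h3 : Even (((Q.p - n + 1).toNat : ℕ) : ℤ) := by rw [ha]; exact hqe
    exact_mod_cast h3
  · rw [hM, hx, hx, ha, zero_add, ← hz, Q.M_M]
    rw [Q.x_eq_iff]
    exact ⟨-1, by ring⟩
  · rw [hM, hx, hx, ha, hl]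
    have h3 : Q.x (Q.p - n + 1 + (z + n)) = Q.x (z + 1) := by
      rw [Q.x_eq_iff]
      exact ⟨1, by ring⟩
    rw [h3, hr]
    congr 1
    ring
  · intro i j hi1 hi2 hj1 hj2
    rw [hM, hx, hx]
    exact hmin _ _ (by omega) (by omega)

end HX67
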