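import Pool.Agent.HX67.BaseO

/-!
# The base in the bipartite case
-/

namespace HX67

open Finset
open scoped Classical

theorem exists_baseU2 {W : Type*} (Q : Pres W) (hb : ∀ h, Q.par (Q.M h) ↔ ¬ Q.par h) :
    ∃ Q' : Pres W, Q'.p = Q.p ∧ Q'.M = Q.M ∧
      (∀ v w, (∃ i, Q'.mate i v = w) ↔ ∃ i, Q.mate i v = w) ∧ DataU Q' := by
  have hp := Q.p_ge
  have hpe := Int.even_iff.1 Q.p_even
  -- a shortest chord
  have hex : ∃ n : ℕ, 0 < n ∧ ∃ z : ℤ, Q.M (Q.x z) = Q.x (z + n) := by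
    obtain ⟨w, hw0, hwp, hw⟩ := exists_index' Q (Q.M (Q.x 0))
    obtain ⟨n, rfl⟩ := Int.eq_ofNat_of_zero_le hw0
    refine ⟨n, ?_, 0, by rw [hw, zero_add]⟩
    by_contra h
    have h1 : n = 0 := by omega
    subst h1
    exact Q.M_ne _ hw
  obtain ⟨n, ⟨hn0, z0, hz⟩, hmin⟩ : ∃ n : ℕ, (0 < n ∧ ∃ z : ℤ, Q.M (Q.x z) = Q.x (z + n)) ∧
      ∀ m : ℕ, m < n → ¬ (0 < m ∧ ∃ z : ℤ, Q.M (Q.x z) = Q.x (z + m)) :=
    ⟨Nat.find hex, Nat.find_spec hex, fun m hm => Nat.find_min hex hm⟩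
  have hmin' : ∀ u v : ℤ, u < v → v < u + n → Q.M (Q.x u) ≠ Q.x v := by
    intro u v h1 h2 h3
    obtain ⟨m, hm⟩ := Int.eq_ofNat_of_zero_le (show 0 ≤ v - u by omega)
    refine hmin m (by omega) ⟨by omega, u, ?_⟩
    rw [h3]
    congr 1
    omega
  have hz' : Q.M (Q.x (z0 + n)) = Q.x z0 := by rw [← hz, Q.M_M]
  have hno : Odd (n : ℤ) := by
    have h1 := hb (Q.x z0)
    rw [hz, Q.par_x, Q.par_x, Int.odd_iff, Int.odd_iff] at h1
    rw [Int.odd_iff]
    omega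
  have hno' := Int.odd_iff.1 hno
  have hn1 : (n : ℤ) ≠ 1 := by
    intro h
    rw [h] at hz
    rcases Int.even_or_odd z0 with h1 | h1
    · exact Q.M_B (Q.x z0) (by rw [hz, Q.B_even _ h1])
    · exact Q.M_A (Q.x z0) (by rw [hz, Q.A_odd _ h1])
  have hnp : (n : ℤ) < Q.p := by
    obtain ⟨w, hw0, hwp, hw⟩ := exists_index' Q (Q.M (Q.x 0))
    obtain ⟨m, rfl⟩ := Int.eq_ofNat_of_zero_le hw0
    by_contra hcon
    refine hmin m (by omega) ⟨?_, 0, by rw [hw, zero_add]⟩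
    by_contra h
    have h1 : m = 0 := by omega
    subst h1
    exact Q.M_ne _ hw
  have h2n : 2 * (n : ℤ) ≤ Q.p := by
    by_contra hcon
    refine hmin' (z0 + n) (z0 + Q.p) (by omega) (by omega) ?_
    rw [hz', Q.per]
  obtain ⟨Q', q1, q2, q3, q4⟩ := exists_shift Q (z0 + n)
  obtain ⟨a, ha⟩ := Int.eq_ofNat_of_zero_le (show 0 ≤ Q.p - n + 1 by omega)
  obtain ⟨l, hl0, hlp, hl⟩ := exists_index' Q' (Q'.M (Q'.x a))
  rw [q1] at hlp
  obtain ⟨l, rfl⟩ := Int.eq_ofNat_of_zero_le hl0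
  have hxa : Q'.x a = Q.x (z0 + 1) := by
    rw [q3, ← Q.per (z0 + 1)]
    congr 1
    omega
  have hlM : Q.M (Q.x (z0 + 1)) = Q.x (l + (z0 + n)) := by
    rw [← hxa, ← q2, hl, q3]
  refine ⟨Q', q1, q2, q4, a, l, by omega, by omega, ?_, ?_, ?_, ?_, hl, ?_⟩
  · rw [Nat.even_iff]
    omega
  · rw [q2, q3, q3, zero_add, hz', ← Q.per z0]
    congr 1
    omega
  · by_contra h
    have h1 : l = 0 := by omega
    subst h1
    have h2 : Q.x (z0 + 1) = Q.x z0 := by
      rw [← hz', ← Q.M_M (Q.x (z0 + 1)), hlM]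
      congr 2
      push_cast
      ring
    exact Q.x_ne (by omega) (by omega) (by omega) h2
  · by_contra h
    rcases Nat.lt_or_ge (l + 1) a with h1 | h1
    · -- `l = a - 1`
      have h2 : Q.M (Q.x (z0 + 1)) = Q.x z0 := by
        rw [hlM, ← Q.per z0]
        congr 1
        omega
      have h3 : Q.x (z0 + 1) = Q.x (z0 + n) := by
        rw [← hz, ← h2, Q.M_M]
      exact Q.x_ne (by omega) (by omega) (by omega) h3
    · rcases Nat.lt_or_ge l a with h2 | h2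
      · have h2 : Q.M (Q.x (z0 + 1)) = Q.x z0 := by
          rw [hlM, ← Q.per z0]
          congr 1
          omega
        have h3 : Q.x (z0 + 1) = Q.x (z0 + n) := by
          rw [← hz, ← h2, Q.M_M]
        exact Q.x_ne (by omega) (by omega) (by omega) h3
      · rcases Nat.lt_or_ge a l with h3 | h3
        · refine hmin' (z0 + 1) (l + (z0 + n) - Q.p) (by omega) (by omega) ?_
          rw [hlM, ← Q.per (l + (z0 + n) - Q.p)]
          congr 1
          ring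
        · have h4 : l = a := by omega
          rw [h4] at hl
          exact Q'.M_ne _ hl
  · intro i j hi hi' hj hj' hij
    exfalso
    rw [q1] at hi' hj'
    rw [q2, q3, q3] at hij
    rcases lt_trichotomy i j with h | h | h
    · exact hmin' _ _ (by omega) (by omega) hij
    · rw [h] at hij
      exact Q.M_ne _ hij
    · refine hmin' _ _ (by omega) (by omega) (?_ : Q.M (Q.x (j + (z0 + n))) = Q.x (i + (z0 + n)))
      rw [← hij, Q.M_M]

end HX67
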