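import Pool.Agent.HX67.Defs

/-!
# The first (and the third) class is connected
-/

namespace HX67

namespace Pres

variable {V X : Type*} (P : Pres V)

theorem x_emod (z : ℤ) : P.x (z % P.p) = P.x z := by
  rw [P.x_eq_iff]
  refine ⟨-(z / P.p), ?_⟩
  have := Int.emod_add_mul_ediv z P.p
  linarith

/-- a function constant along the Hamiltonian cycle without the edge `x (-1) x 0` is constant -/
theorem path_const (φ : V → X) (hB : ∀ v, φ (P.B v) = φ v)
    (hA : ∀ v, v ≠ P.x 0 → v ≠ P.x (-1) → φ (P.A v) = φ v) (v : V) : φ v = φ (P.x 0) := by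
  have hp := P.p_ge
  have key : ∀ k : ℕ, (k : ℤ) < P.p → φ (P.x k) = φ (P.x 0) := by
    intro k
    induction k with
    | zero => intro _; simp
    | succ k ih =>
      intro hk
      push_cast at hk ⊢
      rw [← ih (by omega)]
      rcases Int.even_or_odd (k : ℤ) with h | h
      · rw [← P.B_even k h, hB]
      · rw [← P.A_odd k h, hA]
        · refine P.x_ne ?_ (by omega) (by omega)
          rintro h0
          rw [h0] at h
          exact absurd h (by decide)
        · rw [← P.per (-1)]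
          exact P.x_ne (by omega) (by omega) (by omega)
  obtain ⟨z, rfl⟩ := P.surj v
  rw [← P.x_emod z]
  have h0 : 0 ≤ z % P.p := Int.emod_nonneg z (by omega)
  have h1 : z % P.p < P.p := Int.emod_lt_of_pos z (by omega)
  obtain ⟨k, hk⟩ := Int.eq_ofNat_of_zero_le h0
  rw [hk]
  exact key k (by omega)

theorem cycle_const (φ : V → X) (hB : ∀ v, φ (P.B v) = φ v) (hA : ∀ v, φ (P.A v) = φ v) (v w : V) :
    φ v = φ w := by
  rw [P.path_const φ hB (fun v _ _ => hA v) v, P.path_const φ hB (fun v _ _ => hA v) w]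

theorem A_zero : P.A (P.x 0) = P.x (-1) := by
  rw [P.A_even 0 (by decide)]
  rfl

theorem A_neg : P.A (P.x (-1)) = P.x 0 := by
  rw [← P.A_zero, P.A_A]

end Pres

theorem class1 {V W X : Type*} (P : Pres V) (Q : Pres W) (r : W → Prop)
    (hr : ∀ h, r (Q.M h) ↔ ¬ r h) (f : V → W → X)
    (h1 : ∀ g h, ¬ r h → f (P.A g) h = f g h)
    (h2 : ∀ g h, r h → f (P.B g) h = f g h)
    (h3 : ∀ g h, g ≠ P.x 0 → g ≠ P.x (-1) → f g (Q.M h) = f g h)
    (h4 : ∀ h, f (P.x 0) (Q.A h) = f (P.x 0) h)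
    (h5 : ∀ h, f (P.x (-1)) (Q.B h) = f (P.x (-1)) h) (g : V) (h : W) (g' : V) (h' : W) :
    f g h = f g' h' := by
  -- rows with `r`
  have hrow : ∀ h, r h → ∀ g, f g h = f (P.x 0) h := by
    intro h hh
    refine P.path_const (fun g => f g h) (fun v => h2 v h hh) ?_
    intro v hv0 hv1
    show f (P.A v) h = f v h
    have hA0 : P.A v ≠ P.x 0 := fun h0 => hv1 (by rw [← P.A_zero, ← h0, P.A_A])
    have hA1 : P.A v ≠ P.x (-1) := fun h0 => hv0 (by rw [← P.A_neg, ← h0, P.A_A])
    rw [← h3 (P.A v) h hA0 hA1, h1 v (Q.M h) (fun h0 => (hr h).1 h0 hh), h3 v h hv0 hv1]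
  have hend : ∀ h, f (P.x (-1)) h = f (P.x 0) h := by
    intro h
    by_cases hh : r h
    · exact hrow h hh _
    · rw [← P.A_zero, h1 _ h hh]
  have hcol : ∀ h h', f (P.x 0) h = f (P.x 0) h' := by
    refine Q.cycle_const (fun h => f (P.x 0) h) (fun h => ?_) h4
    show f (P.x 0) (Q.B h) = f (P.x 0) h
    rw [← hend, ← hend, h5]
  have hall : ∀ g h, f g h = f (P.x 0) h := by
    intro g h
    by_cases hh : r h
    · exact hrow h hh g
    · by_cases h0 : g = P.x 0
      · rw [h0]
      by_cases h1' : g = P.x (-1)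
      · rw [h1', hend]
      rw [← h3 g h h0 h1', hrow (Q.M h) ((hr h).2 hh) g]
      exact hcol _ _
  rw [hall g h, hall g' h']
  exact hcol _ _

end HX67
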