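import Pool.Agent.HX67.Class1

/-!
# The first class after the switch of an 8-cycle is connected
-/

namespace HX67

namespace Pres

variable {V X : Type*} (P : Pres V)

/-- a function which does not change along `x a, x (a + 1), …, x (p - 1)` -/
theorem path_from (φ : V → X) (a : ℤ)
    (hs : ∀ z, a ≤ z → z + 1 < P.p → φ (P.x (z + 1)) = φ (P.x z)) (z : ℤ) (h1 : a ≤ z)
    (h2 : z < P.p) : φ (P.x z) = φ (P.x a) := by
  obtain ⟨k, hk⟩ := Int.eq_ofNat_of_zero_le (show 0 ≤ z - a by omega)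
  have h3 : z = a + k := by omega
  rw [h3] at h2 ⊢
  clear hk h3 h1
  induction k with
  | zero => simp
  | succ k ih =>
    push_cast at h2 ⊢
    rw [← ih (by omega), ← hs (a + k) (by omega) (by omega)]
    congr 2
    ring

theorem exists_index (v : V) : ∃ z, 0 ≤ z ∧ z < P.p ∧ P.x z = v := by
  have hp := P.p_ge
  obtain ⟨z, rfl⟩ := P.surj v
  exact ⟨z % P.p, Int.emod_nonneg z (by omega), Int.emod_lt_of_pos z (by omega), P.x_emod z⟩

theorem last_eq : P.x (P.p - 1) = P.x (-1) := by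
  rw [← P.per (-1)]
  congr 1
  ring

end Pres

theorem class1s {V W X : Type*} (P : Pres V) (Q : Pres W) (r : W → Prop)
    (hr : ∀ h, r (Q.M h) ↔ ¬ r h) (hr0 : r (Q.x 0)) (hr1 : r (Q.x 1)) (f : V → W → X)
    (h1 : ∀ g h, ¬ r h → ¬ (h = Q.M (Q.x 0) ∧ (g = P.x 0 ∨ g = P.x (-1))) →
      f (P.A g) h = f g h)
    (h2 : ∀ g h, r h → ¬ (h = Q.x 1 ∧ (g = P.x 0 ∨ g = P.x 1)) → f (P.B g) h = f g h)
    (h3 : ∀ g h, g ≠ P.x 0 → g ≠ P.x (-1) →
      ¬ (g = P.x 1 ∧ (h = Q.x 0 ∨ h = Q.M (Q.x 0))) → f g (Q.M h) = f g h)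
    (h4 : ∀ h, f (P.x 0) (Q.A h) = f (P.x 0) h)
    (h5 : ∀ h, h ≠ Q.x 0 → h ≠ Q.x 1 → f (P.x (-1)) (Q.B h) = f (P.x (-1)) h)
    (n1 : f (P.x 0) (Q.M (Q.x 0)) = f (P.x 1) (Q.M (Q.x 0)))
    (n2 : f (P.x 1) (Q.x 0) = f (P.x 1) (Q.x 1))
    (n3 : f (P.x 0) (Q.x 1) = f (P.x (-1)) (Q.x 1))
    (n4 : f (P.x (-1)) (Q.x 0) = f (P.x (-1)) (Q.M (Q.x 0)))
    (g : V) (h : W) (g' : V) (h' : W) : f g h = f g' h' := by
  have hpp := P.p_ge
  have hqq := Q.p_ge
  have hx10 : P.x 1 ≠ P.x 0 := P.x_ne (by omega) (by omega) (by omega)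
  have hx1m : P.x 1 ≠ P.x (-1) := P.x_ne (by omega) (by omega) (by omega)
  have hx2 : P.x 2 ≠ P.x 1 := P.x_ne (by omega) (by omega) (by omega)
  have hx20 : P.x 2 ≠ P.x 0 := P.x_ne (by omega) (by omega) (by omega)
  have hx2m : P.x 2 ≠ P.x (-1) := P.x_ne (by omega) (by omega) (by omega)
  have hy10 : Q.x 1 ≠ Q.x 0 := Q.x_ne (by omega) (by omega) (by omega)
  have hk0 : ¬ r (Q.M (Q.x 0)) := fun h => (hr _).1 h hr0
  have hk1 : Q.x 1 ≠ Q.M (Q.x 0) := fun h => hk0 (h ▸ hr1)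
  have hB0 : P.B (P.x 0) = P.x 1 := by
    rw [P.B_even 0 (by decide), zero_add]
  have hA1 : P.A (P.x 1) = P.x 2 := by
    rw [P.A_odd 1 (by decide)]
    rfl
  -- the step along `A` in a row with `r`, through its mate row
  have hAr : ∀ h, r h → ∀ v, v ≠ P.x 0 → v ≠ P.x (-1) →
      (h = Q.x 0 → v ≠ P.x 1 ∧ P.A v ≠ P.x 1) → f (P.A v) h = f v h := by
    intro h hh v hv0 hv1 hv2
    have hA0 : P.A v ≠ P.x 0 := fun h0 => hv1 (by rw [← P.A_zero, ← h0, P.A_A])
    have hAm : P.A v ≠ P.x (-1) := fun h0 => hv0 (by rw [← P.A_neg, ← h0, P.A_A])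
    have hhk : h ≠ Q.M (Q.x 0) := fun h0 => hk0 (h0 ▸ hh)
    rw [← h3 (P.A v) h hA0 hAm, h1 v (Q.M h), h3 v h hv0 hv1]
    · rintro ⟨h6, h7 | h7⟩
      · exact (hv2 h7).1 h6
      · exact hhk h7
    · exact fun h0 => (hr h).1 h0 hh
    · rintro ⟨-, h7 | h7⟩
      · exact hv0 h7
      · exact hv1 h7
    · rintro ⟨h6, h7 | h7⟩
      · exact (hv2 h7).2 h6
      · exact hhk h7
  -- generic rows with `r`
  have hrow : ∀ h, r h → h ≠ Q.x 0 → h ≠ Q.x 1 → ∀ g, f g h = f (P.x 0) h := by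
    intro h hh hh0 hh1
    refine P.path_const (fun g => f g h) (fun v => h2 v h hh (fun h6 => hh1 h6.1)) ?_
    intro v hv0 hv1
    exact hAr h hh v hv0 hv1 (fun h6 => absurd h6 hh0)
  -- the steps of a row along the cycle
  have hstep : ∀ h, r h → ∀ z : ℤ, 0 ≤ z → z + 1 < P.p → (h = Q.x 0 → 2 ≤ z) →
      (h = Q.x 1 → 1 ≤ z) → f (P.x (z + 1)) h = f (P.x z) h := by
    intro h hh z hz0 hz1 hz2 hz3
    rcases Int.even_or_odd z with hz | hz
    · rw [← P.B_even z hz]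
      refine h2 _ h hh ?_
      rintro ⟨h6, h7 | h7⟩
      · exact P.x_ne (by have := hz3 h6; omega) (by omega) (by omega) h7
      · refine P.x_ne ?_ (by omega) (by omega) h7
        rintro rfl
        exact absurd hz (by decide)
    · rw [← P.A_odd z hz]
      refine hAr h hh _ ?_ ?_ ?_
      · refine P.x_ne ?_ (by omega) (by omega)
        rintro rfl
        exact absurd hz (by decide)
      · rw [← P.last_eq]
        exact P.x_ne (by omega) (by omega) (by omega)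
      · intro h6
        have := hz2 h6
        rw [P.A_odd z hz]
        exact ⟨P.x_ne (by omega) (by omega) (by omega), P.x_ne (by omega) (by omega) (by omega)⟩
  -- row `1`
  have hrow1 : ∀ g, f g (Q.x 1) = f (P.x 1) (Q.x 1) := by
    have h6 : ∀ z, 1 ≤ z → z < P.p → f (P.x z) (Q.x 1) = f (P.x 1) (Q.x 1) :=
      P.path_from (fun g => f g (Q.x 1)) 1 (fun z hz0 hz1 =>
        hstep _ hr1 z (by omega) hz1 (fun h7 => absurd h7 hy10) (fun _ => hz0))
    intro g
    obtain ⟨z, hz0, hz1, rfl⟩ := P.exists_index g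
    by_cases hz : z = 0
    · rw [hz, n3, ← P.last_eq]
      exact h6 _ (by omega) (by omega)
    · exact h6 z (by omega) hz1
  -- row `0`: everything except `x 0`, `x 1`
  have hrow0 : ∀ z, 2 ≤ z → z < P.p → f (P.x z) (Q.x 0) = f (P.x 2) (Q.x 0) :=
    P.path_from (fun g => f g (Q.x 0)) 2 (fun z hz0 hz1 =>
      hstep _ hr0 z (by omega) hz1 (fun _ => hz0) (fun _ => by omega))
  have h01 : f (P.x 0) (Q.x 0) = f (P.x 1) (Q.x 1) := by
    rw [← n2, ← hB0]
    refine (h2 _ _ hr0 ?_).symm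
    rintro ⟨h6, -⟩
    exact hy10 h6.symm
  -- the row `k0`
  have hk0z : ∀ z, 2 ≤ z → z < P.p → f (P.x z) (Q.M (Q.x 0)) = f (P.x 2) (Q.x 0) := by
    intro z hz0 hz1
    by_cases hz : z = P.p - 1
    · rw [hz, P.last_eq, ← n4, ← P.last_eq]
      exact hrow0 _ (by omega) (by omega)
    · rw [h3 _ _ (P.x_ne (by omega) (by omega) (by omega))
        (by rw [← P.last_eq]; exact P.x_ne (by omega) (by omega) (by omega))]
      · exact hrow0 z hz0 hz1
      · rintro ⟨h6, -⟩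
        exact P.x_ne (by omega) (by omega) (by omega) h6
  have hk01 : f (P.x 1) (Q.M (Q.x 0)) = f (P.x 2) (Q.x 0) := by
    rw [← hk0z 2 le_rfl (by omega), ← hA1]
    refine (h1 _ _ hk0 ?_).symm
    rintro ⟨-, h6 | h6⟩
    · exact hx10 h6
    · exact hx1m h6
  have hk00 : f (P.x 0) (Q.M (Q.x 0)) = f (P.x 2) (Q.x 0) := by
    rw [n1, hk01]
  -- both ends of a row
  have hends : ∀ h, h ≠ Q.x 0 → f (P.x (-1)) h = f (P.x 0) h := by
    intro h hh0
    by_cases hh : r h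
    · by_cases hh1 : h = Q.x 1
      · rw [hh1, n3]
      · exact hrow h hh hh0 hh1 _
    · by_cases hhk : h = Q.M (Q.x 0)
      · rw [hhk, hk00, ← P.last_eq]
        exact hk0z _ (by omega) (by omega)
      · rw [← P.A_zero]
        exact h1 _ h hh (fun h6 => hhk h6.1)
  have hcol : ∀ h h', f (P.x 0) h = f (P.x 0) h' := by
    refine Q.cycle_const (fun h => f (P.x 0) h) (fun h => ?_) h4
    show f (P.x 0) (Q.B h) = f (P.x 0) h
    have hB01 : Q.B (Q.x 0) = Q.x 1 := by rw [Q.B_even 0 (by decide), zero_add]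
    have hB10 : Q.B (Q.x 1) = Q.x 0 := by rw [Q.B_odd 1 (by decide)]; rfl
    by_cases hh0 : h = Q.x 0
    · rw [hh0, hB01, h01]
      exact hrow1 _
    by_cases hh1 : h = Q.x 1
    · rw [hh1, hB10, h01]
      exact (hrow1 _).symm
    have h6 : Q.B h ≠ Q.x 0 := fun h7 => hh1 (by rw [← hB01, ← h7, Q.B_B])
    rw [← hends _ h6, ← hends _ hh0]
    exact h5 h hh0 hh1
  -- everything
  have hall : ∀ g h, f g h = f (P.x 0) (Q.x 0) := by
    have hF : f (P.x 2) (Q.x 0) = f (P.x 0) (Q.x 0) := by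
      rw [← hk00]
      exact hcol _ _
    have hrr : ∀ h, r h → ∀ g, f g h = f (P.x 0) (Q.x 0) := by
      intro h hh g
      by_cases hh0 : h = Q.x 0
      · rw [hh0]
        obtain ⟨z, hz0, hz1, rfl⟩ := P.exists_index g
        by_cases hz : 2 ≤ z
        · rw [hrow0 z hz hz1, hF]
        · have hz' : z = 0 ∨ z = 1 := by omega
          rcases hz' with rfl | rfl
          · rfl
          · rw [n2, ← h01]
      by_cases hh1 : h = Q.x 1
      · rw [hh1, hrow1, ← h01]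
      rw [hrow h hh hh0 hh1 g]
      exact hcol _ _
    intro g h
    by_cases hh : r h
    · exact hrr h hh g
    by_cases hg0 : g = P.x 0
    · rw [hg0]
      exact hcol _ _
    by_cases hg1 : g = P.x (-1)
    · rw [hg1, hends h (fun h6 => hh (h6 ▸ hr0))]
      exact hcol _ _
    by_cases hhk : h = Q.M (Q.x 0)
    · rw [hhk]
      obtain ⟨z, hz0, hz1, rfl⟩ := P.exists_index g
      by_cases hz : 2 ≤ z
      · rw [hk0z z hz hz1, hF]
      · have hz' : z = 0 ∨ z = 1 := by omega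
        rcases hz' with rfl | rfl
        · exact absurd rfl hg0
        · rw [hk01, hF]
    · rw [← h3 g h hg0 hg1]
      · exact hrr _ ((hr h).2 hh) g
      · rintro ⟨-, h6 | h6⟩
        · exact hh (h6 ▸ hr0)
        · exact hhk h6
  rw [hall g h, hall g' h']

end HX67
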