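import Pool.Agent.HX67.Loop

/-!
# The strand lemma: the bulk of the second class is connected
-/

namespace HX67

open Finset

theorem strand {X : Type*} (N E : ℤ) (hN : 0 < N) (hco : IsCoprime E N) (t : ℕ) (ht : Even t)
    (Φ : ℕ → ℤ → X) (k0 : ℕ) (hk0 : 1 ≤ k0) (hk0' : k0 ≤ t) (hke : Even k0)
    (m : ℕ → ℤ) (hm : ∀ y, Odd (m y)) (hmk : m k0 = 1)
    (per : ∀ y z, Φ y (z + 2 * N) = Φ y z)
    (I1 : ∀ y, 1 ≤ y → y ≤ t → y ≠ k0 → ∀ z : ℤ, Even (z + y) → Φ y (z + m y) = Φ y z)
    (I1' : ∀ z, Even z → ¬ 2 * N ∣ z → Φ k0 (z + 1) = Φ k0 z)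
    (I2 : ∀ y, 1 ≤ y → y < t → ∀ z : ℤ, Odd (z + y) → Φ (y + 1) z = Φ y z)
    (u0 : ℤ) (hu : Odd u0)
    (I3 : ∀ z, Odd z → ¬ 2 * N ∣ z - u0 → Φ t z = Φ 1 z)
    (I4 : Φ k0 0 = Φ t u0) (I5 : Φ k0 1 = Φ 1 u0)
    (hE : 2 * E = ∑ y ∈ Ico 1 (t + 1), m y) (y : ℕ) (hy : 1 ≤ y) (hyt : y ≤ t) (z : ℤ) :
    Φ y z = Φ 1 u0 := by
  have hk0e : Even (k0 : ℤ) := by exact_mod_cast hke
  have hte : Even (t : ℤ) := by exact_mod_cast ht
  -- parities of the partial sums
  have par1 : ∀ y : ℕ, 1 ≤ y → Odd ((∑ i ∈ Ico 1 y, m i) + y) := by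
    intro y hy
    induction y, hy using Nat.le_induction with
    | base => simp
    | succ y hy ih =>
      rw [sum_Ico_succ_top hy]
      push_cast
      have h : (∑ i ∈ Ico 1 y, m i) + m y + ((y : ℤ) + 1)
          = ((∑ i ∈ Ico 1 y, m i) + y) + (m y + 1) := by ring
      rw [h]
      exact ih.add_even ((hm y).add_odd odd_one)
  have par2 : ∀ d : ℕ, Even ((∑ i ∈ Ico (k0 + 1) (k0 + d + 1), m i) + d) := by
    intro d
    induction d with
    | zero => simp
    | succ d ih =>
      rw [show k0 + (d + 1) + 1 = (k0 + d + 1) + 1 by ring, sum_Ico_succ_top (by omega)]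
      push_cast
      have h : (∑ i ∈ Ico (k0 + 1) (k0 + d + 1), m i) + m (k0 + d + 1) + ((d : ℤ) + 1)
          = ((∑ i ∈ Ico (k0 + 1) (k0 + d + 1), m i) + d) + (m (k0 + d + 1) + 1) := by ring
      rw [h]
      exact ih.add ((hm _).add_odd odd_one)
  -- the lower part of a strand
  have L1 : ∀ y : ℕ, 1 ≤ y → y ≤ k0 → ∀ z : ℤ, Odd z →
      Φ y (z + ∑ i ∈ Ico 1 y, m i) = Φ 1 z := by
    intro y hy
    induction y, hy using Nat.le_induction with
    | base => intro _ z _; simp
    | succ y hy ih =>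
      intro hyk z hz
      have h1 := par1 y hy
      rw [sum_Ico_succ_top hy, I2 y hy (by omega), ← add_assoc, I1 y hy (by omega) (by omega)]
      · exact ih (by omega) z hz
      · rw [add_assoc]
        exact hz.add_odd h1
      · have h : z + ((∑ i ∈ Ico 1 y, m i) + m y) + (y : ℤ)
            = (z + ((∑ i ∈ Ico 1 y, m i) + y)) + m y := by ring
        rw [h]
        exact (hz.add_odd h1).add_odd (hm y)
  -- the upper part of a strand
  have L2 : ∀ d : ℕ, k0 + d ≤ t → ∀ z : ℤ, Odd z →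
      Φ (k0 + d) (z + ∑ i ∈ Ico (k0 + 1) (k0 + d + 1), m i) = Φ k0 z := by
    intro d
    induction d with
    | zero => intro _ z _; simp
    | succ d ih =>
      intro hd z hz
      have h1 := par2 d
      rw [show k0 + (d + 1) = (k0 + d) + 1 by ring, sum_Ico_succ_top (by omega), ← add_assoc,
        I1 (k0 + d + 1) (by omega) (by omega) (by omega), I2 (k0 + d) (by omega) (by omega)]
      · exact ih (by omega) z hz
      · push_cast
        have h : z + (∑ i ∈ Ico (k0 + 1) (k0 + d + 1), m i) + ((k0 : ℤ) + d)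
            = (z + ((∑ i ∈ Ico (k0 + 1) (k0 + d + 1), m i) + d)) + k0 := by ring
        rw [h]
        exact (hz.add_even h1).add_even hk0e
      · push_cast
        have h : z + (∑ i ∈ Ico (k0 + 1) (k0 + d + 1), m i) + ((k0 : ℤ) + d + 1)
            = ((z + ((∑ i ∈ Ico (k0 + 1) (k0 + d + 1), m i) + d)) + k0) + 1 := by ring
        rw [h]
        exact ((hz.add_even h1).add_even hk0e).add_odd odd_one
  set a : ℤ := ∑ i ∈ Ico 1 k0, m i with ha
  set b : ℤ := ∑ i ∈ Ico (k0 + 1) (t + 1), m i with hb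
  have hab : 2 * E = a + 1 + b := by
    rw [hE, ha, hb, ← sum_Ico_consecutive m hk0 (by omega : k0 ≤ t + 1),
      sum_eq_sum_Ico_succ_bot (by omega : k0 < t + 1), hmk]
    ring
  have hao : Odd a := by
    have h1 := par1 k0 hk0
    have h2 := h1.sub_even hk0e
    rwa [add_sub_cancel_right] at h2
  have hlow : ∀ z : ℤ, Odd z → Φ k0 (z + a) = Φ 1 z := fun z hz => L1 k0 hk0 le_rfl z hz
  have hup : ∀ z : ℤ, Odd z → Φ t (z + b) = Φ k0 z := by
    intro z hz
    have h := L2 (t - k0) (by omega) z hz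
    rwa [show k0 + (t - k0) = t by omega] at h
  have key := loop_const N E hN hco (fun z => Φ 1 z) (fun z => Φ t z) (per 1) (per t) (-a) u0
    hao.neg hu
    (fun z hz hd => by
      show Φ t (z + 2 * E) = Φ 1 z
      have h1 : z + 2 * E = (z + a + 1) + b := by rw [hab]; ring
      rw [h1, hup _ ((hz.add_odd hao).add_odd odd_one), I1' _ (hz.add_odd hao), hlow z hz]
      rwa [sub_neg_eq_add] at hd)
    (by
      show Φ 1 (-a) = Φ t u0
      rw [← hlow (-a) hao.neg, neg_add_cancel, I4])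
    (by
      show Φ t (-a + 2 * E) = Φ 1 u0
      have h1 : -a + 2 * E = 1 + b := by rw [hab]; ring
      rw [h1, hup 1 odd_one, I5])
    I3
  have U1 : ∀ y : ℕ, 1 ≤ y → y ≤ k0 → ∀ z : ℤ, Even (z + y) → Φ y z = Φ 1 u0 := by
    intro y hy
    induction y, hy using Nat.le_induction with
    | base =>
      intro _ z hz
      refine (key z ?_).1
      have h := hz.sub_odd odd_one
      push_cast at h
      rwa [add_sub_cancel_right] at h
    | succ y hy ih =>
      intro hyk z hz
      push_cast at hz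
      have hz1 : Odd (z + y) := by
        have h := hz.sub_odd odd_one
        rwa [← add_assoc, add_sub_cancel_right] at h
      have hz2 : Even (z - m y + y) := by
        rw [show z - m y + y = (z + y) - m y by ring]
        exact hz1.sub_odd (hm y)
      rw [I2 y hy (by omega) z hz1, ← ih (by omega) (z - m y) hz2,
        ← I1 y hy (by omega) (by omega) (z - m y) hz2, sub_add_cancel]
  have U2 : ∀ d : ℕ, k0 + d ≤ t → ∀ z : ℤ, Odd (z + (t - d : ℕ)) → Φ (t - d) z = Φ 1 u0 := by
    intro d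
    induction d with
    | zero =>
      intro _ z hz
      refine (key z ?_).2
      have h := hz.sub_even hte
      rwa [Nat.sub_zero, add_sub_cancel_right] at h
    | succ d ih =>
      intro hd z hz
      have h1 : t - d = (t - (d + 1)) + 1 := by omega
      rw [← I2 (t - (d + 1)) (by omega) (by omega) z hz]
      have hz2 : Even (z + ((t - (d + 1) + 1 : ℕ) : ℤ)) := by
        push_cast
        rw [← add_assoc]
        exact hz.add_odd odd_one
      rw [← I1 (t - (d + 1) + 1) (by omega) (by omega) (by omega) z hz2, ← h1]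
      refine ih (by omega) _ ?_
      rw [h1]
      have h3 : z + m (t - (d + 1) + 1) + ((t - (d + 1) + 1 : ℕ) : ℤ)
          = (z + ((t - (d + 1) + 1 : ℕ) : ℤ)) + m (t - (d + 1) + 1) := by ring
      rw [h3]
      exact hz2.add_odd (hm _)
  have U2' : ∀ y : ℕ, k0 ≤ y → y ≤ t → ∀ z : ℤ, Odd (z + y) → Φ y z = Φ 1 u0 := by
    intro y hy hyt z hz
    have h := U2 (t - y) (by omega) z
    rw [show t - (t - y) = y by omega] at h
    exact h hz
  rcases Int.even_or_odd (z + y) with hz | hz
  · by_cases hyk : y ≤ k0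
    · exact U1 y hy hyk z hz
    · rw [← I1 y hy hyt (by omega) z hz]
      refine U2' y (by omega) hyt _ ?_
      rw [show z + m y + y = (z + y) + m y by ring]
      exact hz.add_odd (hm y)
  · by_cases hyk : k0 ≤ y
    · exact U2' y hyk hyt z hz
    · have hz2 : Even (z - m y + y) := by
        rw [show z - m y + y = (z + y) - m y by ring]
        exact hz.sub_odd (hm y)
      rw [← U1 y hy (by omega) (z - m y) hz2,
        ← I1 y hy hyt (by omega) (z - m y) hz2, sub_add_cancel]

end HX67
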