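import Pool.Agent.HX67.Loop

/-!
# The strand lemma for the switched second class
-/

namespace HX67

open Finset

section

variable {X : Type*} (Φ : ℕ → ℤ → X) (m : ℕ → ℤ) (hm : ∀ y, Odd (m y))

include hm in
theorem par_Ioc (lo d : ℕ) : Even ((∑ i ∈ Ioc lo (lo + d), m i) + d) := by
  induction d with
  | zero => simp
  | succ d ih =>
    rw [← add_assoc, ← insert_Ioc_right_eq_Ioc_add_one (by omega), sum_insert (by simp)]
    push_cast
    have h : m (lo + d + 1) + (∑ i ∈ Ioc lo (lo + d), m i) + ((d : ℤ) + 1)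
        = ((∑ i ∈ Ioc lo (lo + d), m i) + d) + (m (lo + d + 1) + 1) := by ring
    rw [h]
    exact ih.add ((hm _).add_odd odd_one)

include hm in
/-- going up from the exit of row `lo` to the exit of row `lo + d` -/
theorem asc (lo : ℕ) : ∀ d : ℕ,
    (∀ y, lo < y → y ≤ lo + d → ∀ z : ℤ, Even (z + y) → Φ y (z + m y) = Φ y z) →
    (∀ y, lo ≤ y → y < lo + d → ∀ z : ℤ, Odd (z + y) → Φ (y + 1) z = Φ y z) →
    ∀ z : ℤ, Odd (z + lo) → Φ (lo + d) (z + ∑ i ∈ Ioc lo (lo + d), m i) = Φ lo z := by
  intro d
  induction d with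
  | zero => intro _ _ z _; simp
  | succ d ih =>
    intro I1 I2 z hz
    have h1 := par_Ioc m hm lo d
    have hs : ∑ i ∈ Ioc lo (lo + (d + 1)), m i = (∑ i ∈ Ioc lo (lo + d), m i) + m (lo + d + 1) := by
      rw [← add_assoc, ← insert_Ioc_right_eq_Ioc_add_one (by omega), sum_insert (by simp)]
      ring
    rw [hs, ← add_assoc, ← add_assoc, I1 (lo + d + 1) (by omega) (by omega),
      I2 (lo + d) (by omega) (by omega)]
    · exact ih (fun y h2 h3 => I1 y h2 (by omega)) (fun y h2 h3 => I2 y h2 (by omega)) z hz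
    · push_cast
      have h : z + (∑ i ∈ Ioc lo (lo + d), m i) + ((lo : ℤ) + d)
          = (z + lo) + ((∑ i ∈ Ioc lo (lo + d), m i) + d) := by ring
      rw [h]
      exact hz.add_even h1
    · push_cast
      have h : z + (∑ i ∈ Ioc lo (lo + d), m i) + ((lo : ℤ) + d + 1)
          = ((z + lo) + ((∑ i ∈ Ioc lo (lo + d), m i) + d)) + 1 := by ring
      rw [h]
      exact (hz.add_even h1).add_odd odd_one

include hm in
/-- going up from the exit of row `lo` to the entry of row `hi` -/
theorem asc_entry (lo hi : ℕ) (hlt : lo < hi)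
    (I1 : ∀ y, lo < y → y < hi → ∀ z : ℤ, Even (z + y) → Φ y (z + m y) = Φ y z)
    (I2 : ∀ y, lo ≤ y → y < hi → ∀ z : ℤ, Odd (z + y) → Φ (y + 1) z = Φ y z)
    (z : ℤ) (hz : Odd (z + lo)) : Φ hi (z + ∑ i ∈ Ioo lo hi, m i) = Φ lo z := by
  obtain ⟨d, rfl⟩ : ∃ d, hi = lo + d + 1 := ⟨hi - lo - 1, by omega⟩
  have hs : Ioo lo (lo + d + 1) = Ioc lo (lo + d) := by
    ext i
    simp only [mem_Ioo, mem_Ioc]
    omega
  have h1 := par_Ioc m hm lo d
  rw [hs, I2 (lo + d) (by omega) (by omega)]
  · exact asc Φ m hm lo d (fun y h2 h3 => I1 y h2 (by omega))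
      (fun y h2 h3 => I2 y h2 (by omega)) z hz
  · push_cast
    have h : z + (∑ i ∈ Ioc lo (lo + d), m i) + ((lo : ℤ) + d)
        = (z + lo) + ((∑ i ∈ Ioc lo (lo + d), m i) + d) := by ring
    rw [h]
    exact hz.add_even h1

include hm in
theorem par_Ico (y : ℕ) (hy : 1 ≤ y) : Odd ((∑ i ∈ Ico 1 y, m i) + y) := by
  induction y, hy using Nat.le_induction with
  | base => simp
  | succ y hy ih =>
    rw [sum_Ico_succ_top hy]
    push_cast
    have h : (∑ i ∈ Ico 1 y, m i) + m y + ((y : ℤ) + 1)
        = ((∑ i ∈ Ico 1 y, m i) + y) + (m y + 1) := by ring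
    rw [h]
    exact ih.add_even ((hm y).add_odd odd_one)

include hm in
/-- going up from row `1` to the entry of row `y` -/
theorem asc_low (lo : ℕ) (hlo : 1 ≤ lo)
    (I1 : ∀ y, 1 ≤ y → y < lo → ∀ z : ℤ, Even (z + y) → Φ y (z + m y) = Φ y z)
    (I2 : ∀ y, 1 ≤ y → y < lo → ∀ z : ℤ, Odd (z + y) → Φ (y + 1) z = Φ y z)
    (z : ℤ) (hz : Odd z) : Φ lo (z + ∑ i ∈ Ico 1 lo, m i) = Φ 1 z := by
  induction lo, hlo using Nat.le_induction with
  | base => simp
  | succ y hy ih =>
    have h1 := par_Ico m hm y hy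
    rw [sum_Ico_succ_top hy, I2 y hy (by omega), ← add_assoc, I1 y hy (by omega)]
    · exact ih (fun y h2 h3 => I1 y h2 (by omega)) (fun y h2 h3 => I2 y h2 (by omega))
    · rw [add_assoc]
      exact hz.add_odd h1
    · have h : z + ((∑ i ∈ Ico 1 y, m i) + m y) + (y : ℤ)
          = (z + ((∑ i ∈ Ico 1 y, m i) + y)) + m y := by ring
      rw [h]
      exact (hz.add_odd h1).add_odd (hm y)

end

theorem strand2 {X : Type*} (N E : ℤ) (hN : 0 < N) (hco : IsCoprime E N) (t : ℕ) (ht : Even t)
    (Φ : ℕ → ℤ → X) (k0 a : ℕ) (hk0 : 1 ≤ k0) (hk0' : k0 ≤ t) (hko : Odd k0)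
    (ha : 1 ≤ a) (ha' : a ≤ t) (hae : Even a)
    (m : ℕ → ℤ) (hm : ∀ y, Odd (m y)) (hmk : m k0 = -1) (hma : m a = 1)
    (per : ∀ y z, Φ y (z + 2 * N) = Φ y z)
    (I1 : ∀ y, 1 ≤ y → y ≤ t → y ≠ k0 → y ≠ a → ∀ z : ℤ, Even (z + y) → Φ y (z + m y) = Φ y z)
    (Ik : ∀ z, Odd z → ¬ 2 * N ∣ z - 1 → Φ k0 (z - 1) = Φ k0 z)
    (Ia : ∀ z, Even z → ¬ 2 * N ∣ z → Φ a (z + 1) = Φ a z)
    (I2 : ∀ y, 1 ≤ y → y < t → ∀ z : ℤ, Odd (z + y) → Φ (y + 1) z = Φ y z)
    (u0 : ℤ) (hu : Odd u0)
    (I3 : ∀ z, Odd z → ¬ 2 * N ∣ z - u0 → ¬ 2 * N ∣ z - 1 → Φ t z = Φ 1 z)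
    (J1 : Φ t 1 = Φ k0 1) (J2 : Φ 1 1 = Φ a 1) (J3 : Φ a 0 = Φ t u0) (J4 : Φ k0 0 = Φ 1 u0)
    (hE : 2 * E = ∑ y ∈ Ico 1 (t + 1), m y)
    (hsame : ∑ y ∈ Ioo (min a k0) (max a k0), m y = 0)
    (y : ℕ) (hy : 1 ≤ y) (hyt : y ≤ t) (z : ℤ) : Φ y z = Φ 1 1 := by
  have hkoZ : Odd (k0 : ℤ) := by exact_mod_cast hko
  have haeZ : Even (a : ℤ) := by exact_mod_cast hae
  have hteZ : Even (t : ℤ) := by exact_mod_cast ht
  have hka : k0 ≠ a := by
    rintro rfl
    exact (Nat.not_even_iff_odd.2 hko) hae
  have pmul : ∀ y z k, Φ y (z + 2 * N * k) = Φ y z := by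
    intro y z k
    induction k using Int.induction_on with
    | zero => simp
    | succ k ih =>
      have h : z + 2 * N * (k + 1) = (z + 2 * N * k) + 2 * N := by ring
      rw [h, per, ih]
    | pred k ih =>
      have h : z + 2 * N * (-k) = (z + 2 * N * (-k - 1)) + 2 * N := by ring
      rw [h, per] at ih
      exact ih
  have pdvd : ∀ y z z', 2 * N ∣ z - z' → Φ y z = Φ y z' := by
    rintro y z z' ⟨k, hk⟩
    have h : z = z' + 2 * N * k := by omega
    rw [h, pmul]
  -- the two cases
  have key : (∀ z, Odd z → Φ 1 z = Φ 1 1) := by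
    rcases lt_or_gt_of_ne hka with hlt | hlt
    · -- `k0 < a`
      rw [min_eq_right hlt.le, max_eq_left hlt.le] at hsame
      set e : ℤ := ∑ i ∈ Ico 1 k0, m i with he
      set b : ℤ := ∑ i ∈ Ioc a t, m i with hb
      have hlow : ∀ z, Odd z → Φ k0 (z + e) = Φ 1 z := fun z hz =>
        asc_low Φ m hm k0 hk0 (fun y h1 h2 => I1 y h1 (by omega) (by omega) (by omega))
          (fun y h1 h2 => I2 y h1 (by omega)) z hz
      have hmid : ∀ z : ℤ, Odd (z + (k0 : ℤ)) → Φ a z = Φ k0 z := by
        intro z hz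
        have := asc_entry Φ m hm k0 a hlt (fun y h1 h2 => I1 y (by omega) (by omega) (by omega)
          (by omega)) (fun y h1 h2 => I2 y (by omega) (by omega)) z hz
        rwa [hsame, add_zero] at this
      have hup : ∀ z, Odd z → Φ t (z + b) = Φ a z := by
        intro z hz
        have := asc Φ m hm a (t - a) (fun y h1 h2 => I1 y (by omega) (by omega) (by omega)
          (by omega)) (fun y h1 h2 => I2 y (by omega) (by omega)) z (hz.add_even haeZ)
        rwa [show a + (t - a) = t by omega] at this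
      have hsum : 2 * E = e + b := by
        have h1 : Ico 1 (t + 1) = ((Ico 1 k0 ∪ {k0}) ∪ (Ioo k0 a ∪ {a})) ∪ Ioc a t := by
          ext i
          simp only [mem_Ico, mem_union, mem_singleton, mem_Ioo, mem_Ioc]
          omega
        rw [hE, h1, sum_union, sum_union, sum_union, sum_union, hsame, sum_singleton,
          sum_singleton, hmk, hma]
        · ring
        all_goals
          rw [disjoint_left]
          intro i
          simp only [mem_Ico, mem_union, mem_singleton, mem_Ioo, mem_Ioc]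
          omega
      have heo : Even e := by
        have h1 := par_Ico m hm k0 hk0
        have h2 := h1.sub_odd hkoZ
        rwa [add_sub_cancel_right] at h2
      -- the strand with both gaps starts at `1 - e`
      have hmiddle : Φ 1 u0 = Φ t u0 := by
        rw [← J4, ← J3]
        exact (hmid 0 (by rw [zero_add]; exact hkoZ)).symm
      have h := loop_const N E hN hco (fun z => Φ 1 z) (fun z => Φ t z) (per 1) (per t) (1 - e) 1
        (odd_one.sub_even heo) odd_one
        (fun z hz hd => by
          show Φ t (z + 2 * E) = Φ 1 z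
          have h1 : z + 2 * E = (z + e) + b := by rw [hsum]; ring
          have h2 : Odd (z + e) := hz.add_even heo
          rw [h1, hup _ h2, ← hlow z hz, ← Ik _ h2]
          · have h3 : Even (z + e - 1) := h2.sub_odd odd_one
            rw [← hmid _ (h3.add_odd hkoZ), ← Ia _ h3, sub_add_cancel]
            intro h4
            apply hd
            have h5 : z - (1 - e) = z + e - 1 := by ring
            rwa [h5]
          · intro h4
            apply hd
            have h5 : z - (1 - e) = z + e - 1 := by ring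
            rwa [h5])
        (by
          show Φ 1 (1 - e) = Φ t 1
          rw [J1, ← hlow _ (odd_one.sub_even heo), sub_add_cancel])
        (by
          show Φ t (1 - e + 2 * E) = Φ 1 1
          rw [J2, hsum, show 1 - e + (e + b) = 1 + b by ring]
          exact hup 1 odd_one)
        (fun z hz hd => by
          show Φ t z = Φ 1 z
          by_cases h6 : 2 * N ∣ z - u0
          · rw [pdvd t _ _ h6, pdvd 1 _ _ h6, hmiddle]
          · exact I3 z hz h6 hd)
      exact fun z hz => (h z hz).1
    · -- `a < k0`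
      rw [min_eq_left hlt.le, max_eq_right hlt.le] at hsame
      set e : ℤ := ∑ i ∈ Ico 1 a, m i with he
      set b : ℤ := ∑ i ∈ Ioc k0 t, m i with hb
      have hlow : ∀ z, Odd z → Φ a (z + e) = Φ 1 z := fun z hz =>
        asc_low Φ m hm a ha (fun y h1 h2 => I1 y h1 (by omega) (by omega) (by omega))
          (fun y h1 h2 => I2 y h1 (by omega)) z hz
      have hmid : ∀ z : ℤ, Odd (z + (a : ℤ)) → Φ k0 z = Φ a z := by
        intro z hz
        have := asc_entry Φ m hm a k0 hlt (fun y h1 h2 => I1 y (by omega) (by omega) (by omega)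
          (by omega)) (fun y h1 h2 => I2 y (by omega) (by omega)) z hz
        rwa [hsame, add_zero] at this
      have hup : ∀ z, Even z → Φ t (z + b) = Φ k0 z := by
        intro z hz
        have := asc Φ m hm k0 (t - k0) (fun y h1 h2 => I1 y (by omega) (by omega) (by omega)
          (by omega)) (fun y h1 h2 => I2 y (by omega) (by omega)) z (hz.add_odd hkoZ)
        rwa [show k0 + (t - k0) = t by omega] at this
      have hsum : 2 * E = e + b := by
        have h1 : Ico 1 (t + 1) = ((Ico 1 a ∪ {a}) ∪ (Ioo a k0 ∪ {k0})) ∪ Ioc k0 t := by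
          ext i
          simp only [mem_Ico, mem_union, mem_singleton, mem_Ioo, mem_Ioc]
          omega
        rw [hE, h1, sum_union, sum_union, sum_union, sum_union, hsame, sum_singleton,
          sum_singleton, hmk, hma]
        · ring
        all_goals
          rw [disjoint_left]
          intro i
          simp only [mem_Ico, mem_union, mem_singleton, mem_Ioo, mem_Ioc]
          omega
      have heo : Odd e := by
        have h1 := par_Ico m hm a ha
        have h2 := h1.sub_even haeZ
        rwa [add_sub_cancel_right] at h2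
      have hmiddle : Φ t 1 = Φ 1 1 := by
        rw [J1, J2]
        exact hmid 1 (odd_one.add_even haeZ)
      have h := loop_const N E hN hco (fun z => Φ 1 z) (fun z => Φ t z) (per 1) (per t) (-e) u0
        heo.neg hu
        (fun z hz hd => by
          show Φ t (z + 2 * E) = Φ 1 z
          have h1 : z + 2 * E = (z + e) + b := by rw [hsum]; ring
          have h2 : Even (z + e) := hz.add_odd heo
          have h3 : ¬ 2 * N ∣ z + e := by
            intro h4
            apply hd
            rwa [sub_neg_eq_add]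
          rw [h1, hup _ h2, ← hlow z hz, ← Ia _ h2 h3]
          have h5 : Odd (z + e + 1) := h2.add_odd odd_one
          rw [← hmid _ (h5.add_even haeZ), ← Ik _ h5, add_sub_cancel_right]
          rwa [add_sub_cancel_right])
        (by
          show Φ 1 (-e) = Φ t u0
          rw [← J3, ← hlow _ heo.neg, neg_add_cancel])
        (by
          show Φ t (-e + 2 * E) = Φ 1 u0
          rw [← J4, hsum, show -e + (e + b) = 0 + b by ring]
          exact hup 0 (by decide))
        (fun z hz hd => by
          show Φ t z = Φ 1 z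
          by_cases h6 : 2 * N ∣ z - 1
          · rw [pdvd t _ _ h6, pdvd 1 _ _ h6, hmiddle]
          · exact I3 z hz hd h6)
      intro z hz
      rw [(h z hz).1]
      exact ((h 1 odd_one).1).symm
  -- all rows
  have hJ4 : Φ k0 0 = Φ 1 1 := by rw [J4]; exact key _ hu
  have hexit : ∀ y : ℕ, 1 ≤ y → y ≤ t → (∀ z : ℤ, Even (z + y) → Φ y z = Φ 1 1) →
      ∀ z : ℤ, Odd (z + y) → Φ y z = Φ 1 1 := by
    intro y h1 h2 hent z hz
    by_cases hyk : y = k0
    · rw [hyk] at hz hent ⊢
      have hze : Even z := by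
        have := hz.sub_odd hkoZ
        rwa [add_sub_cancel_right] at this
      by_cases hd : 2 * N ∣ z
      · rw [pdvd k0 z 0 (by rwa [sub_zero])]
        exact hJ4
      · rw [← hent (z + 1) ((hze.add_odd odd_one).add_odd hkoZ), ← Ik _ (hze.add_odd odd_one),
          add_sub_cancel_right]
        rwa [add_sub_cancel_right]
    by_cases hya : y = a
    · rw [hya] at hz hent ⊢
      have hzo : Odd z := by
        have := hz.sub_even haeZ
        rwa [add_sub_cancel_right] at this
      by_cases hd : 2 * N ∣ z - 1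
      · rw [pdvd a z 1 hd]
        exact J2.symm
      · rw [← hent (z - 1) ((hzo.sub_odd odd_one).add haeZ), ← Ia _ (hzo.sub_odd odd_one) hd,
          sub_add_cancel]
    · have hz2 : Even (z - m y + y) := by
        rw [show z - m y + y = (z + y) - m y by ring]
        exact hz.sub_odd (hm y)
      rw [← hent (z - m y) hz2, ← I1 y h1 h2 hyk hya (z - m y) hz2, sub_add_cancel]
  have hentry : ∀ y : ℕ, 1 ≤ y → y ≤ t → ∀ z : ℤ, Even (z + y) → Φ y z = Φ 1 1 := by
    intro y hy
    induction y, hy using Nat.le_induction with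
    | base =>
      intro _ z hz
      apply key
      have h := hz.sub_odd odd_one
      push_cast at h
      rwa [add_sub_cancel_right] at h
    | succ y hy ih =>
      intro hyk z hz
      push_cast at hz
      have hz1 : Odd (z + y) := by
        have h := hz.sub_odd odd_one
        rwa [← add_assoc, add_sub_cancel_right] at h
      rw [I2 y hy (by omega) z hz1]
      exact hexit y hy (by omega) (ih (by omega)) z hz1
  rcases Int.even_or_odd (z + y) with hz | hz
  · exact hentry y hy hyt z hz
  · exact hexit y hy hyt (hentry y hy hyt) z hz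

end HX67
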