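import Pool.Agent.HX67.Class2
import Pool.Agent.HX67.Strand2

/-!
# The second class after the switch of an 8-cycle is connected
-/

namespace HX67

open Finset

theorem class2s {V W X : Type*} (P : Pres V) (Q : Pres W) (c : V → Prop) (r : W → Prop)
    (hc : ∀ z, c (P.x z) ↔ Even z) (hcM : ∀ g, c (P.M g) ↔ ¬ c g)
    (hr : ∀ h, r (Q.M h) ↔ ¬ r h) (hr0 : r (Q.x 0)) (hr1 : ¬ r (Q.x (-1)))
    (hr2 : r (Q.x 1)) (k0 a : ℕ) (hk0a : 1 ≤ k0) (hk0b : (k0 : ℤ) ≤ Q.p - 2)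
    (hk0 : Q.x k0 = Q.M (Q.x 0)) (hko : Odd k0) (ha1 : 2 ≤ a) (ha2 : (a : ℤ) ≤ Q.p - 2)
    (ha : Q.x a = Q.M (Q.x 1)) (hae : Even a) (E : ℤ) (hco : IsCoprime E (P.p / 2 - 1))
    (hE : 2 * E = ∑ y ∈ Ico 1 ((Q.p - 2).toNat + 1), dir Q r y)
    (hsame : ∑ y ∈ Ioo (min a k0) (max a k0), dir Q r y = 0)
    (f : V → W → X)
    (a1 : ∀ g h, h ≠ Q.x 0 → h ≠ Q.x (-1) → ¬ r h →
      ¬ (h = Q.M (Q.x 0) ∧ (g = P.x 0 ∨ g = P.x 1)) → f (P.B g) h = f g h)
    (a2 : ∀ g h, h ≠ Q.x 0 → h ≠ Q.x (-1) → r h →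
      ¬ (h = Q.x 1 ∧ (g = P.x 0 ∨ g = P.x (-1))) → f (P.A g) h = f g h)
    (a3 : ∀ g, f (P.M g) (Q.x 0) = f g (Q.x 0))
    (a4 : ∀ g, f (P.M g) (Q.x (-1)) = f g (Q.x (-1)))
    (b1 : ∀ g h, g ≠ P.x 0 → g ≠ P.x (-1) → ¬ c g →
      ¬ (g = P.x 1 ∧ (h = Q.x 0 ∨ h = Q.x 1)) → f g (Q.B h) = f g h)
    (b2 : ∀ g h, g ≠ P.x 0 → g ≠ P.x (-1) → c g → f g (Q.A h) = f g h)
    (b3 : ∀ h, f (P.x 0) (Q.M h) = f (P.x 0) h)
    (b4 : ∀ h, h ≠ Q.x 0 → h ≠ Q.M (Q.x 0) → f (P.x (-1)) (Q.M h) = f (P.x (-1)) h)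
    (n1 : f (P.x (-1)) (Q.M (Q.x 0)) = f (P.x 0) (Q.M (Q.x 0)))
    (n2 : f (P.x 1) (Q.M (Q.x 0)) = f (P.x 1) (Q.x 0))
    (n3 : f (P.x 1) (Q.x 1) = f (P.x 0) (Q.x 1))
    (n4 : f (P.x (-1)) (Q.x 1) = f (P.x (-1)) (Q.x 0))
    (g : V) (h : W) (g' : V) (h' : W) : f g h = f g' h' := by
  have hpp := P.p_ge
  have hqq := Q.p_ge
  obtain ⟨N, hN⟩ : ∃ N, P.p = 2 * N + 2 := by
    obtain ⟨a, ha⟩ := P.p_even
    exact ⟨a - 1, by omega⟩
  have hN2 : P.p / 2 - 1 = N := by omega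
  rw [hN2] at hco
  have hN0 : 0 < N := by omega
  obtain ⟨t, ht⟩ : ∃ t : ℕ, (t : ℤ) = Q.p - 2 := ⟨(Q.p - 2).toNat, by omega⟩
  have htn : (Q.p - 2).toNat = t := by omega
  rw [htn] at hE
  have hte : Even t := by
    have h1 : Even (t : ℤ) := by
      rw [ht]
      exact Q.p_even.sub even_two
    exact_mod_cast h1
  have hteZ : Even (t : ℤ) := by exact_mod_cast hte
  -- the special vertices
  have hu0n : P.M (P.x 0) ≠ P.x (-1) := by
    rw [← P.A_zero]
    exact P.M_A _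
  have hu1n : P.M (P.x (-1)) ≠ P.x 0 := by
    rw [← P.A_neg]
    exact P.M_A _
  have hk0n : Q.M (Q.x 0) ≠ Q.x (-1) := by
    rw [← Q.A_zero]
    exact Q.M_A _
  have hk1n : Q.M (Q.x (-1)) ≠ Q.x 0 := by
    rw [← Q.A_neg]
    exact Q.M_A _
  obtain ⟨u0, hu0a, hu0b, hu0⟩ := P.exists_inner _ (P.M_ne (P.x 0)) hu0n
  have hc0 : c (P.x 0) := (hc 0).2 (by decide)
  have hc1 : ¬ c (P.x (-1)) := fun h => absurd ((hc (-1)).1 h) (by decide)
  have hu0odd : Odd (u0 : ℤ) := by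
    rw [← Int.not_even_iff_odd, ← hc, hu0, hcM]
    exact fun h => h hc0
  have hkoZ : Odd (k0 : ℤ) := by exact_mod_cast hko
  have haeZ : Even (a : ℤ) := by exact_mod_cast hae
  have hak : a ≠ k0 := by
    rintro rfl
    exact (Nat.not_even_iff_odd.2 hko) hae
  have hx10 : P.x 1 ≠ P.x 0 := P.x_ne (by omega) (by omega) (by omega)
  have hx1m : P.x 1 ≠ P.x (-1) := P.x_ne (by omega) (by omega) (by omega)
  have hy10 : Q.x 1 ≠ Q.x 0 := Q.x_ne (by omega) (by omega) (by omega)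
  have hy1m : Q.x 1 ≠ Q.x (-1) := Q.x_ne (by omega) (by omega) (by omega)
  have hcu0 : ¬ c (P.M (P.x 0)) := by rw [hcM]; exact fun h => h hc0
  have hcu1 : c (P.M (P.x (-1))) := by rw [hcM]; exact hc1
  have hrk0 : ¬ r (Q.M (Q.x 0)) := by rw [hr]; exact fun h => h hr0
  have hrk1 : r (Q.M (Q.x (-1))) := by rw [hr]; exact hr1
  have hra : ¬ r (Q.x a) := by rw [ha, hr]; exact fun h => h hr2
  have hy1k : Q.x 1 ≠ Q.M (Q.x 0) := fun h => hrk0 (h ▸ hr2)
  have hk1y : Q.M (Q.x (-1)) ≠ Q.x 1 := by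
    intro h
    have h1 : Q.x a = Q.x (-1) := by rw [ha, ← h, Q.M_M]
    exact Q.inner_ne_neg (by omega) ha2 h1
  have hu01 : (u0 : ℤ) ≠ 1 := by
    intro h
    have h1 := P.M_B (P.x 0)
    rw [P.B_even 0 (by decide), zero_add, ← hu0, h] at h1
    exact h1 rfl
  -- vertical moves
  have hvert : ∀ ζ y : ℤ, 1 ≤ ζ → ζ ≤ P.p - 2 → Odd (ζ + y) → (ζ = 1 → Q.x y ≠ Q.x 0) →
      f (P.x ζ) (Q.x (y + 1)) = f (P.x ζ) (Q.x y) := by
    intro ζ y h1 h2 hpar hexc
    rcases Int.even_or_odd ζ with hζ | hζ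
    · have hy : Odd y := by
        rw [Int.odd_add] at hpar
        rw [← Int.not_even_iff_odd] at hpar ⊢
        intro hy
        exact (Int.not_even_iff_odd.2 (Int.not_even_iff_odd.1 (fun h => hpar.2 hy h))) hζ
      rw [← Q.A_odd y hy]
      exact b2 _ _ (P.inner_ne_zero h1 h2) (P.inner_ne_neg h1 h2) ((hc ζ).2 hζ)
    · have hy : Even y := by
        rw [Int.odd_add] at hpar
        exact hpar.1 hζ
      rw [← Q.B_even y hy]
      refine b1 _ _ (P.inner_ne_zero h1 h2) (P.inner_ne_neg h1 h2)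
        (fun h => (Int.not_even_iff_odd.2 hζ) ((hc ζ).1 h)) ?_
      rintro ⟨h3, h4 | h4⟩
      · refine hexc ?_ h4
        by_contra hne
        exact P.x_ne hne (by omega) (by omega) h3
      · have := (Q.parity_of_eq h4).1 hy
        exact absurd this (by decide)
  have hv0 : ∀ ζ : ℤ, 1 ≤ ζ → ζ ≤ P.p - 2 → Odd ζ → ζ ≠ 1 →
      f (P.x ζ) (Q.x 0) = f (P.x ζ) (Q.x 1) := by
    intro ζ h1 h2 h3 h4
    have := hvert ζ 0 h1 h2 (by rwa [add_zero]) (fun h => absurd h h4)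
    rw [zero_add] at this
    exact this.symm
  have hvt : ∀ ζ : ℤ, 1 ≤ ζ → ζ ≤ P.p - 2 → Odd ζ →
      f (P.x ζ) (Q.x (-1)) = f (P.x ζ) (Q.x t) := by
    intro ζ h1 h2 h3
    have := hvert ζ t h1 h2 (h3.add_even hteZ)
      (fun _ => Q.inner_ne_zero (by omega) (by omega))
    rw [← Q.per (-1), show -1 + Q.p = (t : ℤ) + 1 by omega]
    exact this
  have hvA : ∀ v, v ≠ P.x 0 → v ≠ P.x (-1) → c v → f v (Q.x (-1)) = f v (Q.x 0) := by
    intro v h1 h2 h3
    rw [← Q.A_zero]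
    exact b2 _ _ h1 h2 h3
  have hfm2 : P.x (-1) = P.x (2 * N + 1) := by
    rw [← P.per (-1)]
    congr 1
    omega
  -- horizontal moves at the ends
  have he0 : ∀ h, h ≠ Q.x 0 → h ≠ Q.x (-1) → ¬ r h → h ≠ Q.M (Q.x 0) →
      f (P.x 0) h = f (P.x 1) h := by
    intro h h1 h2 h3 h4
    have := a1 (P.x 0) h h1 h2 h3 (fun h5 => h4 h5.1)
    rw [P.B_even 0 (by decide), zero_add] at this
    exact this.symm
  have he1 : ∀ h, h ≠ Q.x 0 → h ≠ Q.x (-1) → ¬ r h → f (P.x (-1)) h = f (P.x (2 * N)) h := by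
    intro h h1 h2 h3
    have := a1 (P.x (2 * N)) h h1 h2 h3 (by
      rintro ⟨-, h5 | h5⟩
      · exact P.x_ne (by omega) (by omega) (by omega) h5
      · exact P.x_ne (by omega) (by omega) (by omega) h5)
    rw [P.B_even _ (even_two_mul N), ← hfm2] at this
    exact this
  have hwrap : ∀ h, h ≠ Q.x 0 → h ≠ Q.x (-1) → ¬ r h → Q.M h ≠ Q.x 0 → Q.M h ≠ Q.x 1 →
      f (P.x 1) h = f (P.x (2 * N)) h := by
    intro h h1 h2 h3 h4 h7
    have h8 : h ≠ Q.M (Q.x 0) := fun h9 => h4 (by rw [h9, Q.M_M])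
    have h5 : Q.M h ≠ Q.x (-1) := by
      intro h6
      apply hr1
      rw [← h6, hr]
      exact h3
    rw [← he0 h h1 h2 h3 h8, ← he1 h h1 h2 h3, ← b3, ← b4 h h1 h8]
    have := a2 (P.x 0) (Q.M h) h4 h5 ((hr h).2 h3) (fun h9 => h7 h9.1)
    rw [P.A_zero] at this
    exact this.symm
  -- the coordinates of the bulk
  let col : ℤ → ℤ := fun z => 1 + (z - 1) % (2 * N)
  have col_ge : ∀ z, 1 ≤ col z := by
    intro z
    have := Int.emod_nonneg (z - 1) (by omega : (2 * N) ≠ 0)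
    simp only [col]
    omega
  have col_le : ∀ z, col z ≤ P.p - 2 := by
    intro z
    have := Int.emod_lt_of_pos (z - 1) (by omega : 0 < 2 * N)
    simp only [col]
    omega
  have col_eq : ∀ z, ∃ k, col z = z - 2 * N * k := by
    intro z
    refine ⟨(z - 1) / (2 * N), ?_⟩
    have := Int.emod_add_mul_ediv (z - 1) (2 * N)
    simp only [col]
    linarith
  have col_uniq : ∀ z ζ, 1 ≤ ζ → ζ ≤ 2 * N → 2 * N ∣ z - ζ → col z = ζ := by
    rintro z ζ h1 h2 ⟨j, hj⟩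
    obtain ⟨k, hk⟩ := col_eq z
    have h3 := col_ge z
    have h4 := col_le z
    have h5 : col z - ζ = 2 * N * (j - k) := by
      rw [hk]
      linear_combination hj
    rcases lt_trichotomy (j - k) 0 with ha | ha | ha
    · nlinarith
    · rw [ha, mul_zero] at h5
      omega
    · nlinarith
  have col_dvd : ∀ z, 2 * N ∣ z - col z := by
    intro z
    obtain ⟨k, hk⟩ := col_eq z
    exact ⟨k, by rw [hk]; ring⟩
  have col_par : ∀ z, (Even (col z) ↔ Even z) := by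
    intro z
    have h1 : Even (z - col z) := by
      obtain ⟨k, hk⟩ := col_dvd z
      rw [hk, mul_assoc]
      exact even_two_mul _
    exact (Int.even_sub.1 h1).symm
  have col_per : ∀ z, col (z + 2 * N) = col z := by
    intro z
    apply col_uniq _ _ (col_ge z) (by have := col_le z; omega)
    have h1 := dvd_add (col_dvd z) (dvd_refl (2 * N))
    rwa [show z - col z + 2 * N = z + 2 * N - col z by ring] at h1
  have col_zero : ∀ z, 2 * N ∣ z → col z = 2 * N ∧ col (z + 1) = 1 := by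
    intro z hz
    refine ⟨col_uniq _ _ (by omega) le_rfl (dvd_sub_self_right.2 hz), ?_⟩
    apply col_uniq _ _ le_rfl (by omega)
    rwa [add_sub_cancel_right]
  have col_succ : ∀ z, ¬ 2 * N ∣ z → col (z + 1) = col z + 1 := by
    intro z hz
    have h1 := col_ge z
    have h2 := col_le z
    have h3 : col z ≠ 2 * N := by
      intro h
      have h4 := col_dvd z
      rw [h] at h4
      exact hz (dvd_sub_self_right.1 h4)
    apply col_uniq _ _ (by omega) (by omega)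
    have h4 := col_dvd z
    rwa [show z + 1 - (col z + 1) = z - col z by ring]
  have inner_row : ∀ y : ℕ, 1 ≤ y → y ≤ t → Q.x y ≠ Q.x 0 ∧ Q.x y ≠ Q.x (-1) := by
    intro y h1 h2
    exact ⟨Q.inner_ne_zero (by omega) (by omega), Q.inner_ne_neg (by omega) (by omega)⟩
  let Φ : ℕ → ℤ → X := fun y z => f (P.x (col z)) (Q.x y)
  have hdir : ∀ y : ℕ, dir Q r y = 1 ∨ dir Q r y = -1 := by
    intro y
    unfold dir
    split_ifs
    · exact Or.inl rfl
    · exact Or.inr rfl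
  -- horizontal moves in the bulk
  have HB : ∀ y : ℕ, 1 ≤ y → y ≤ t → ¬ r (Q.x y) → ∀ z, Even z → ¬ 2 * N ∣ z →
      Φ y (z + 1) = Φ y z := by
    intro y h1 h2 h3 z h4 h5
    obtain ⟨h6, h7⟩ := inner_row y h1 h2
    simp only [Φ]
    rw [col_succ z h5, ← P.B_even (col z) ((col_par z).2 h4)]
    refine a1 _ _ h6 h7 h3 ?_
    rintro ⟨-, h8 | h8⟩
    · exact P.inner_ne_zero (col_ge z) (col_le z) h8
    · have := (P.parity_of_eq h8).1 ((col_par z).2 h4)
      exact absurd this (by decide)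
  have HBw : ∀ y : ℕ, 1 ≤ y → y ≤ t → y ≠ k0 → y ≠ a → ¬ r (Q.x y) → ∀ z, Even z →
      Φ y (z + 1) = Φ y z := by
    intro y h1 h2 hyk hya h3 z h4
    by_cases h5 : 2 * N ∣ z
    · obtain ⟨h6, h7⟩ := inner_row y h1 h2
      obtain ⟨h8, h9⟩ := col_zero z h5
      simp only [Φ]
      rw [h8, h9]
      apply hwrap _ h6 h7 h3
      · intro h10
        apply Q.x_ne (z := y) (w := k0) (by omega) (by omega) (by omega)
        rw [hk0, ← h10, Q.M_M]
      · intro h10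
        apply Q.x_ne (z := y) (w := a) (by omega) (by omega) (by omega)
        rw [ha, ← h10, Q.M_M]
    · exact HB y h1 h2 h3 z h4 h5
  have HA : ∀ y : ℕ, 1 ≤ y → y ≤ t → r (Q.x y) → ∀ z, Odd z → Φ y (z + 1) = Φ y z := by
    intro y h1 h2 h3 z h4
    have h5 : ¬ 2 * N ∣ z := by
      rintro ⟨k, hk⟩
      rw [hk, mul_assoc, ← Int.not_even_iff_odd] at h4
      exact h4 (even_two_mul _)
    have h8 : Odd (col z) := by
      rw [← Int.not_even_iff_odd, col_par, Int.not_even_iff_odd]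
      exact h4
    obtain ⟨h6, h7⟩ := inner_row y h1 h2
    simp only [Φ]
    rw [col_succ z h5, ← P.A_odd (col z) h8]
    refine a2 _ _ h6 h7 h3 ?_
    rintro ⟨-, h9 | h9⟩
    · exact P.inner_ne_zero (col_ge z) (col_le z) h9
    · exact P.inner_ne_neg (col_ge z) (col_le z) h9
  have hrk0' : ¬ r (Q.x k0) := by rwa [hk0]
  have hdirk : dir Q r k0 = -1 := by
    unfold dir
    rw [if_neg]
    intro h
    exact hrk0' (h.2 hkoZ)
  have hdira : dir Q r a = 1 := by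
    unfold dir
    rw [if_pos]
    exact ⟨fun h => absurd h hra, fun h => absurd haeZ (Int.not_even_iff_odd.2 h)⟩
  have I1 : ∀ y : ℕ, 1 ≤ y → y ≤ t → y ≠ k0 → y ≠ a → ∀ z : ℤ, Even (z + y) →
      Φ y (z + dir Q r y) = Φ y z := by
    intro y h1 h2 h3 h3a z hz
    have hzy : Even z ↔ Even (y : ℤ) := Int.even_add.1 hz
    by_cases hR : r (Q.x y)
    · by_cases hy : Odd (y : ℤ)
      · have hd : dir Q r y = 1 := by
          unfold dir
          rw [if_pos ⟨fun _ => hy, fun _ => hR⟩]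
        rw [hd]
        refine HA y h1 h2 hR z ?_
        rw [← Int.not_even_iff_odd, hzy, Int.not_even_iff_odd]
        exact hy
      · have hd : dir Q r y = -1 := by
          unfold dir
          rw [if_neg (fun h => hy (h.1 hR))]
        rw [hd]
        have h5 : Even z := hzy.2 (Int.not_odd_iff_even.1 hy)
        have h6 := HA y h1 h2 hR (z + -1) (h5.add_odd (by decide))
        rw [← h6]
        congr 1
        ring
    · by_cases hy : Odd (y : ℤ)
      · have hd : dir Q r y = -1 := by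
          unfold dir
          rw [if_neg (fun h => hR (h.2 hy))]
        rw [hd]
        have h5 : Odd z := by
          rw [← Int.not_even_iff_odd, hzy, Int.not_even_iff_odd]
          exact hy
        have h6 := HBw y h1 h2 h3 h3a hR (z + -1) (h5.add_odd (by decide))
        rw [← h6]
        congr 1
        ring
      · have hd : dir Q r y = 1 := by
          unfold dir
          rw [if_pos ⟨fun h => absurd h hR, fun h => absurd h hy⟩]
        rw [hd]
        exact HBw y h1 h2 h3 h3a hR z (hzy.2 (Int.not_odd_iff_even.1 hy))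
  have I2 : ∀ y : ℕ, 1 ≤ y → y < t → ∀ z : ℤ, Odd (z + y) → Φ (y + 1) z = Φ y z := by
    intro y h1 h2 z hz
    simp only [Φ]
    push_cast
    apply hvert _ _ (col_ge z) (col_le z)
    · rw [Int.odd_add'] at hz ⊢
      rw [hz, col_par]
    · intro _
      exact Q.inner_ne_zero (by omega) (by omega)
  -- the vertical wraps
  have I3 : ∀ z, Odd z → ¬ 2 * N ∣ z - u0 → ¬ 2 * N ∣ z - 1 → Φ t z = Φ 1 z := by
    intro z hz hd hd1
    have hco : Odd (col z) := by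
      rw [← Int.not_even_iff_odd, col_par, Int.not_even_iff_odd]
      exact hz
    have hc1' : col z ≠ 1 := by
      intro h1
      have h3 := col_dvd z
      rw [h1] at h3
      exact hd1 h3
    simp only [Φ]
    rw [← hvt _ (col_ge z) (col_le z) hco]
    push_cast
    rw [← hv0 _ (col_ge z) (col_le z) hco hc1', ← a4, ← a3]
    have hcg : ¬ c (P.x (col z)) := by
      rw [hc]
      exact Int.not_even_iff_odd.2 hco
    have hcg' : c (P.M (P.x (col z))) := (hcM _).2 hcg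
    apply hvA _ _ _ hcg'
    · intro h0
      apply hd
      have h1 : P.x (col z) = P.x u0 := by rw [hu0, ← h0, P.M_M]
      have h2 : col z = u0 := by
        by_contra hne
        have h3 := col_ge z
        have h4 := col_le z
        exact P.x_ne hne (by omega) (by omega) h1
      have h3 := col_dvd z
      rwa [h2] at h3
    · intro h0
      rw [h0] at hcg'
      exact hc1 hcg'
  have hk0r := inner_row k0 hk0a (by omega)
  have har := inner_row a (by omega) (by omega)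
  have hMk0 : Q.M (Q.x k0) = Q.x 0 := by rw [hk0, Q.M_M]
  have hak' : Q.x a ≠ Q.M (Q.x 0) := by
    rw [← hk0]
    exact Q.x_ne (by omega) (by omega) (by omega)
  have e2 : f (P.x (-1)) (Q.x (-1)) = f (P.x (-1)) (Q.x 0) := by
    rw [← a4, ← a3]
    exact hvA _ hu1n (P.M_ne _) hcu1
  have e3 : f (P.x 0) (Q.x (-1)) = f (P.x (-1)) (Q.x (-1)) := by
    rw [← b3, ← b4 _ Q.zero_ne_neg.symm hk0n.symm]
    have := a2 (P.x 0) _ hk1n (Q.M_ne _) hrk1 (fun h => hk1y h.1)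
    rw [P.A_zero] at this
    exact this.symm
  have c1 : col 1 = 1 := by
    have h1 := (col_zero 0 (dvd_zero _)).2
    rwa [zero_add] at h1
  have c0 : col 0 = 2 * N := (col_zero 0 (dvd_zero _)).1
  have cu : col u0 = u0 := col_uniq u0 u0 (by omega) (by omega) (by simp)
  have hcx1 : ¬ c (P.x 1) := fun h => absurd ((hc 1).1 h) (by decide)
  have J1 : Φ t 1 = Φ k0 1 := by
    simp only [Φ]
    rw [c1, ← hvt 1 le_rfl (by omega) odd_one, hk0, n2, ← a4, ← a3]
    have hcg' : c (P.M (P.x 1)) := (hcM _).2 hcx1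
    apply hvA _ _ _ hcg'
    · intro h0
      have h1 : P.x u0 = P.x 1 := by rw [hu0, ← h0, P.M_M]
      exact P.x_ne hu01 (by omega) (by omega) h1
    · intro h0
      rw [h0] at hcg'
      exact hc1 hcg'
  have J2 : Φ 1 1 = Φ a 1 := by
    simp only [Φ]
    rw [c1]
    push_cast
    rw [n3, ← b3, ← ha]
    exact he0 _ har.1 har.2 hra hak'
  have J3 : Φ a 0 = Φ t u0 := by
    simp only [Φ]
    rw [c0, cu, ← hvt _ (by omega) (by omega) hu0odd, ← he1 _ har.1 har.2 hra, ha,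
      b4 _ hy10 hy1k, n4, ← e2, ← e3, hu0, a4]
  have J4 : Φ k0 0 = Φ 1 u0 := by
    simp only [Φ]
    rw [c0, cu]
    push_cast
    rw [← hv0 _ (by omega) (by omega) hu0odd hu01, ← he1 _ hk0r.1 hk0r.2 hrk0', hk0, n1, b3,
      hu0, a3]
  have hstr := strand2 N E hN0 hco t hte Φ k0 a hk0a (by omega) hko (by omega) (by omega) hae
    (fun y => dir Q r y)
    (fun y => by
      rcases hdir y with h | h
      · show Odd (dir Q r y)
        rw [h]
        exact odd_one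
      · show Odd (dir Q r y)
        rw [h]
        decide) hdirk hdira
    (fun y z => by simp only [Φ]; rw [col_per]) I1
    (fun z h1 h2 => by
      have h3 : Even (z - 1) := h1.sub_odd odd_one
      have h4 := HB k0 hk0a (by omega) hrk0' (z - 1) h3 h2
      rw [sub_add_cancel] at h4
      exact h4.symm)
    (fun z h1 h2 => HB a (by omega) (by omega) hra z h1 h2) I2 u0 hu0odd I3 J1 J2 J3 J4 hE hsame
  -- the whole bulk
  clear c0
  obtain ⟨c0, hc0'⟩ : ∃ c0, c0 = Φ 1 1 := ⟨_, rfl⟩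
  rw [← hc0'] at hstr
  have hbulk : ∀ ζ : ℤ, 1 ≤ ζ → ζ ≤ P.p - 2 → ∀ y : ℕ, 1 ≤ y → y ≤ t →
      f (P.x ζ) (Q.x y) = c0 := by
    intro ζ h1 h2 y h3 h4
    have h5 := hstr y h3 h4 ζ
    simp only [Φ] at h5
    rwa [col_uniq ζ ζ h1 (by omega) (by simp)] at h5
  have hB1 : ∀ ζ : ℤ, 1 ≤ ζ → ζ ≤ P.p - 2 → ∀ h, h ≠ Q.x 0 → h ≠ Q.x (-1) → f (P.x ζ) h = c0 := by
    intro ζ h1 h2 h h3 h4
    obtain ⟨y, hy1, hy2, rfl⟩ := Q.exists_inner h h3 h4
    exact hbulk ζ h1 h2 y hy1 (by omega)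
  have hneg0 : f (P.x (-1)) (Q.x 0) = c0 := by
    rw [← n4, ← b4 _ hy10 hy1k, ← ha, he1 _ har.1 har.2 hra]
    exact hB1 _ (by omega) (by omega) _ har.1 har.2
  have hrow0 : ∀ v, v ≠ P.x 0 → v ≠ P.x (-1) → f v (Q.x 0) = c0 := by
    have hodd : ∀ v, v ≠ P.x 0 → v ≠ P.x (-1) → ¬ c v → f v (Q.x 0) = c0 := by
      intro v h1 h2 h3
      obtain ⟨ζ, hζ1, hζ2, rfl⟩ := P.exists_inner v h1 h2
      rw [hc, Int.not_even_iff_odd] at h3
      by_cases h4 : (ζ : ℤ) = 1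
      · rw [h4, ← n2, ← hk0]
        exact hB1 1 le_rfl (by omega) _ hk0r.1 hk0r.2
      · rw [hv0 _ (by omega) hζ2 h3 h4]
        have := hbulk ζ (by omega) hζ2 1 le_rfl (by omega)
        exact_mod_cast this
    intro v h1 h2
    by_cases h3 : c v
    · rw [← a3]
      by_cases h4 : P.M v = P.x (-1)
      · rw [h4]
        exact hneg0
      · refine hodd _ (fun h5 => ?_) h4 (fun h5 => (hcM v).1 h5 h3)
        exact (hcM v).1 (by rw [h5]; exact hc0) h3
    · exact hodd v h1 h2 h3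
  have hrow1 : ∀ v, v ≠ P.x 0 → v ≠ P.x (-1) → f v (Q.x (-1)) = c0 := by
    intro v h1 h2
    by_cases h3 : c v
    · rw [hvA v h1 h2 h3]
      exact hrow0 v h1 h2
    · obtain ⟨ζ, hζ1, hζ2, rfl⟩ := P.exists_inner v h1 h2
      rw [hc, Int.not_even_iff_odd] at h3
      rw [hvt _ (by omega) hζ2 h3]
      exact hbulk ζ (by omega) hζ2 t (by omega) le_rfl
  have hneg1 : f (P.x (-1)) (Q.x (-1)) = c0 := by rw [e2, hneg0]
  have hzero1 : f (P.x 0) (Q.x (-1)) = c0 := by rw [e3, hneg1]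
  have hzero0 : f (P.x 0) (Q.x 0) = c0 := by
    rw [← a3]
    exact hrow0 _ (P.M_ne _) hu0n
  have hcol0' : ∀ h, h ≠ Q.x 0 → h ≠ Q.x (-1) → ¬ r h → f (P.x 0) h = c0 := by
    intro h h1 h2 h3
    by_cases h4 : h = Q.M (Q.x 0)
    · rw [h4, ← n1, ← hk0, he1 _ hk0r.1 hk0r.2 hrk0']
      exact hB1 _ (by omega) (by omega) _ hk0r.1 hk0r.2
    · rw [he0 h h1 h2 h3 h4]
      exact hB1 1 le_rfl (by omega) h h1 h2
  have hcol0 : ∀ h, h ≠ Q.x 0 → h ≠ Q.x (-1) → f (P.x 0) h = c0 := by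
    intro h h1 h2
    by_cases h3 : r h
    · rw [← b3]
      by_cases h4 : Q.M h = Q.x (-1)
      · rw [h4, hzero1]
      · have h5 : Q.M h ≠ Q.x 0 := fun h5 => (hr h).1 (by rw [h5]; exact hr0) h3
        exact hcol0' _ h5 h4 (fun h6 => (hr h).1 h6 h3)
    · exact hcol0' h h1 h2 h3
  have hcol1 : ∀ h, h ≠ Q.x 0 → h ≠ Q.x (-1) → f (P.x (-1)) h = c0 := by
    intro h h1 h2
    by_cases h3 : r h
    · rw [← b4 h h1 (fun h7 => hrk0 (h7 ▸ h3))]
      by_cases h4 : Q.M h = Q.x (-1)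
      · rw [h4, hneg1]
      · have h5 : Q.M h ≠ Q.x 0 := fun h5 => (hr h).1 (by rw [h5]; exact hr0) h3
        rw [he1 _ h5 h4 (fun h6 => (hr h).1 h6 h3)]
        exact hB1 (2 * N) (by omega) (by omega) _ h5 h4
    · rw [he1 h h1 h2 h3]
      exact hB1 (2 * N) (by omega) (by omega) h h1 h2
  have hfin : ∀ g h, f g h = c0 := by
    intro g h
    by_cases g0 : g = P.x 0
    · rw [g0]
      by_cases h0 : h = Q.x 0
      · rw [h0, hzero0]
      by_cases h1 : h = Q.x (-1)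
      · rw [h1, hzero1]
      exact hcol0 h h0 h1
    by_cases g1 : g = P.x (-1)
    · rw [g1]
      by_cases h0 : h = Q.x 0
      · rw [h0, hneg0]
      by_cases h1 : h = Q.x (-1)
      · rw [h1, hneg1]
      exact hcol1 h h0 h1
    by_cases h0 : h = Q.x 0
    · rw [h0]
      exact hrow0 g g0 g1
    by_cases h1 : h = Q.x (-1)
    · rw [h1]
      exact hrow1 g g0 g1
    obtain ⟨ζ, hζ1, hζ2, rfl⟩ := P.exists_inner g g0 g1
    exact hB1 ζ (by omega) hζ2 h h0 h1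
  rw [hfin g h, hfin g' h']

end HX67
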