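import Mathlib

/-!
# Two classes of strands: two cuts in different classes make one loop
-/

namespace HX67

open Finset

/-- a function on `ℤ / N` which does not change under `w ↦ w + E` except at one place -/
theorem cyc_const {X : Type*} (N E : ℤ) (hN : 0 < N) (hco : IsCoprime E N) (g : ℤ → X)
    (pg : ∀ w, g (w + N) = g w) (c : ℤ) (h : ∀ w, ¬ N ∣ w - c → g (w + E) = g w) (w w' : ℤ) :
    g w = g w' := by
  have pmul : ∀ w k, g (w + N * k) = g w := by
    intro w k
    induction k using Int.induction_on with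
    | zero => simp
    | succ k ih =>
      have h : w + N * (k + 1) = (w + N * k) + N := by ring
      rw [h, pg, ih]
    | pred k ih =>
      have h : w + N * (-k) = (w + N * (-k - 1)) + N := by ring
      rw [h, pg] at ih
      exact ih
  have pdvd : ∀ w w', N ∣ w - w' → g w = g w' := by
    rintro w w' ⟨k, hk⟩
    have h : w = w' + N * k := by omega
    rw [h, pmul]
  have hdiv : ∀ j, N ∣ E * j → N ∣ j := fun j hj => hco.symm.dvd_of_dvd_mul_left hj
  have hsmall : ∀ j : ℤ, 0 < j → j < N → ¬ N ∣ j := by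
    intro j h0 h1 h
    have := Int.le_of_dvd h0 h
    omega
  have hex : ∀ w : ℤ, ∃ j : ℤ, 1 ≤ j ∧ j ≤ N ∧ N ∣ w - E * j := by
    obtain ⟨e, b, he⟩ := hco
    intro w
    refine ⟨(e * w - 1) % N + 1, ?_, ?_, ?_⟩
    · have := Int.emod_nonneg (e * w - 1) (by omega : N ≠ 0)
      omega
    · have := Int.emod_lt_of_pos (e * w - 1) hN
      omega
    · refine ⟨b * w + E * ((e * w - 1) / N), ?_⟩
      have h1 := Int.emod_add_mul_ediv (e * w - 1) N
      have h2 : (e * w - 1) % N = (e * w - 1) - N * ((e * w - 1) / N) := by linarith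
      rw [h2]
      linear_combination (-w) * he
  have claim : ∀ i : ℕ, 1 + (i : ℤ) ≤ N → g (c + E * (1 + i)) = g (c + E * 1) := by
    intro i
    induction i with
    | zero => intro _; simp
    | succ i ih =>
      intro hi
      push_cast at hi ⊢
      rw [← ih (by omega), ← h (c + E * (1 + i))]
      · congr 1
        ring
      · intro h0
        rw [add_sub_cancel_left] at h0
        exact hsmall (1 + i) (by omega) (by omega) (hdiv _ h0)
  have hall : ∀ w, g w = g (c + E * 1) := by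
    intro w
    obtain ⟨j, hj1, hjN, hj⟩ := hex (w - c)
    obtain ⟨i, hi⟩ := Int.eq_ofNat_of_zero_le (show 0 ≤ j - 1 by omega)
    rw [pdvd w (c + E * j) (by rwa [← sub_sub]), ← claim i (by omega)]
    congr 3
    omega
  rw [hall w, hall w']

theorem loop_constT {X : Type*} (N E : ℤ) (hN : 0 < N) (hco : IsCoprime E N) (S T : ℤ → X)
    (pS : ∀ z, S (z + 2 * (2 * N)) = S z) (a u : ℤ) (ha : Odd a)
    (hu : Odd u) (h4 : ¬ 4 ∣ a - u)
    (R1 : ∀ z, Odd z → ¬ 2 * (2 * N) ∣ z - a → T (z + 2 * (2 * E)) = S z)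
    (R2 : S a = T u ∨ S a = S u)
    (R4 : ∀ z, Odd z → ¬ 2 * (2 * N) ∣ z - u → T z = S z) (z : ℤ) (hz : Odd z) :
    S z = S u ∧ T z = S u := by
  have hodd : ∀ b w : ℤ, Odd b → Odd (b + 4 * w) := fun b w hb =>
    hb.add_even ⟨2 * w, by ring⟩
  have hnd : ∀ w : ℤ, ¬ 2 * (2 * N) ∣ a + 4 * w - u := by
    rintro w ⟨k, hk⟩
    exact h4 ⟨N * k - w, by linear_combination hk⟩
  have hnd' : ∀ w : ℤ, ¬ 2 * (2 * N) ∣ u + 4 * w - a := by
    rintro w ⟨k, hk⟩
    exact h4 ⟨w - N * k, by linear_combination (-1) * hk⟩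
  have hdd : ∀ w, 2 * (2 * N) ∣ 4 * w → N ∣ w := by
    rintro w ⟨k, hk⟩
    exact ⟨k, by linarith⟩
  -- the class of `a`
  have hA : ∀ w w', S (a + 4 * w) = S (a + 4 * w') := by
    intro w w'
    refine cyc_const N E hN hco (fun w => S (a + 4 * w)) ?_ 0 ?_ w w'
    · intro w
      show S (a + 4 * (w + N)) = S (a + 4 * w)
      rw [← pS (a + 4 * w)]
      congr 1
      ring
    · intro w hw
      show S (a + 4 * (w + E)) = S (a + 4 * w)
      rw [← R1 (a + 4 * w) (hodd a w ha), ← R4 (a + 4 * (w + E)) (hodd a _ ha) (hnd _)]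
      · congr 1
        ring
      · intro h
        rw [add_sub_cancel_left] at h
        rw [sub_zero] at hw
        exact hw (hdd _ h)
  have hTA : ∀ w, T (a + 4 * w) = S a := by
    intro w
    rw [R4 _ (hodd a w ha) (hnd w), hA w 0, mul_zero, add_zero]
  -- the class of `u`
  have hU : ∀ w w', S (u + 4 * w) = S (u + 4 * w') := by
    intro w w'
    refine cyc_const N E hN hco (fun w => S (u + 4 * w)) ?_ (-E) ?_ w w'
    · intro w
      show S (u + 4 * (w + N)) = S (u + 4 * w)
      rw [← pS (u + 4 * w)]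
      congr 1
      ring
    · intro w hw
      show S (u + 4 * (w + E)) = S (u + 4 * w)
      rw [← R1 (u + 4 * w) (hodd u w hu) (hnd' w), ← R4 (u + 4 * (w + E)) (hodd u _ hu)]
      · congr 1
        ring
      · intro h
        rw [add_sub_cancel_left] at h
        rw [sub_neg_eq_add] at hw
        exact hw (hdd _ h)
  have hTU : ∀ w, T (u + 4 * w) = S u := by
    intro w
    have h1 := R1 (u + 4 * (w - E)) (hodd u _ hu) (hnd' _)
    rw [show u + 4 * (w - E) + 2 * (2 * E) = u + 4 * w by ring] at h1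
    rw [h1, hU _ 0, mul_zero, add_zero]
  have hau : S a = S u := by
    rcases R2 with h | h
    · rw [h]
      have h1 := hTU 0
      rwa [mul_zero, add_zero] at h1
    · exact h
  have hcl : (∃ w, z = a + 4 * w) ∨ ∃ w, z = u + 4 * w := by
    obtain ⟨i, hi⟩ := ha
    obtain ⟨j, hj⟩ := hu
    obtain ⟨l, hl⟩ := hz
    by_cases h : 4 ∣ z - a
    · obtain ⟨w, hw⟩ := h
      exact Or.inl ⟨w, by omega⟩
    · have h' : 4 ∣ z - u := by omega
      obtain ⟨w, hw⟩ := h'
      exact Or.inr ⟨w, by omega⟩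
  rcases hcl with ⟨w, rfl⟩ | ⟨w, rfl⟩
  · rw [hTA, hA w 0, mul_zero, add_zero]
    exact ⟨hau, hau⟩
  · rw [hTU, hU w 0, mul_zero, add_zero]
    exact ⟨rfl, rfl⟩

theorem strandT {X : Type*} (N E : ℤ) (hN : 0 < N) (hco : IsCoprime E N) (t : ℕ) (ht : Even t)
    (Φ : ℕ → ℤ → X) (k0 : ℕ) (hk0 : 1 ≤ k0) (hk0' : k0 ≤ t)
    (m : ℕ → ℤ) (hm : ∀ y, Odd (m y))
    (per : ∀ y z, Φ y (z + 2 * (2 * N)) = Φ y z)
    (I1 : ∀ y, 1 ≤ y → y ≤ t → y ≠ k0 → ∀ z : ℤ, Even (z + y) → Φ y (z + m y) = Φ y z)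
    (c : ℤ) (hc : Even (c + k0))
    (I1' : ∀ z : ℤ, Even (z + k0) → ¬ 2 * (2 * N) ∣ z - c → Φ k0 (z + m k0) = Φ k0 z)
    (I2 : ∀ y, 1 ≤ y → y < t → ∀ z : ℤ, Odd (z + y) → Φ (y + 1) z = Φ y z)
    (u0 : ℤ) (hu : Odd u0)
    (I3 : ∀ z, Odd z → ¬ 2 * (2 * N) ∣ z - u0 → Φ t z = Φ 1 z)
    (I4 : Φ k0 c = Φ t u0 ∨ Φ k0 c = Φ 1 u0)
    (hE : 2 * (2 * E) = ∑ y ∈ Ico 1 (t + 1), m y)
    (h4 : ¬ 4 ∣ c - (∑ y ∈ Ico 1 k0, m y) - u0)
    (y : ℕ) (hy : 1 ≤ y) (hyt : y ≤ t) (z : ℤ) :
    Φ y z = Φ 1 u0 := by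
  have hte : Even (t : ℤ) := by exact_mod_cast ht
  -- parities of the partial sums
  have par1 : ∀ y : ℕ, 1 ≤ y → Odd ((∑ i ∈ Ico 1 y, m i) + y) := by
    intro y hy
    induction y, hy using Nat.le_induction with
    | base => simp
    | succ y hy ih =>
      rw [sum_Ico_succ_top hy]
      push_cast
      have h : (∑ i ∈ Ico 1 y, m i) + m y + ((y : ℤ) + 1)
          = ((∑ i ∈ Ico 1 y, m i) + y) + (m y + 1) := by ring
      rw [h]
      exact ih.add_even ((hm y).add_odd odd_one)
  have par2 : ∀ d : ℕ, Even ((∑ i ∈ Ico (k0 + 1) (k0 + d + 1), m i) + d) := by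
    intro d
    induction d with
    | zero => simp
    | succ d ih =>
      rw [show k0 + (d + 1) + 1 = (k0 + d + 1) + 1 by ring, sum_Ico_succ_top (by omega)]
      push_cast
      have h : (∑ i ∈ Ico (k0 + 1) (k0 + d + 1), m i) + m (k0 + d + 1) + ((d : ℤ) + 1)
          = ((∑ i ∈ Ico (k0 + 1) (k0 + d + 1), m i) + d) + (m (k0 + d + 1) + 1) := by ring
      rw [h]
      exact ih.add ((hm _).add_odd odd_one)
  -- the lower part of a strand
  have L1 : ∀ y : ℕ, 1 ≤ y → y ≤ k0 → ∀ z : ℤ, Odd z →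
      Φ y (z + ∑ i ∈ Ico 1 y, m i) = Φ 1 z := by
    intro y hy
    induction y, hy using Nat.le_induction with
    | base => intro _ z _; simp
    | succ y hy ih =>
      intro hyk z hz
      have h1 := par1 y hy
      rw [sum_Ico_succ_top hy, I2 y hy (by omega), ← add_assoc, I1 y hy (by omega) (by omega)]
      · exact ih (by omega) z hz
      · rw [add_assoc]
        exact hz.add_odd h1
      · have h : z + ((∑ i ∈ Ico 1 y, m i) + m y) + (y : ℤ)
            = (z + ((∑ i ∈ Ico 1 y, m i) + y)) + m y := by ring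
        rw [h]
        exact (hz.add_odd h1).add_odd (hm y)
  -- the upper part of a strand
  have L2 : ∀ d : ℕ, k0 + d ≤ t → ∀ z : ℤ, Odd (z + k0) →
      Φ (k0 + d) (z + ∑ i ∈ Ico (k0 + 1) (k0 + d + 1), m i) = Φ k0 z := by
    intro d
    induction d with
    | zero => intro _ z _; simp
    | succ d ih =>
      intro hd z hz
      have h1 := par2 d
      rw [show k0 + (d + 1) = (k0 + d) + 1 by ring, sum_Ico_succ_top (by omega), ← add_assoc,
        I1 (k0 + d + 1) (by omega) (by omega) (by omega), I2 (k0 + d) (by omega) (by omega)]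
      · exact ih (by omega) z hz
      · push_cast
        have h : z + (∑ i ∈ Ico (k0 + 1) (k0 + d + 1), m i) + ((k0 : ℤ) + d)
            = (z + k0) + ((∑ i ∈ Ico (k0 + 1) (k0 + d + 1), m i) + d) := by ring
        rw [h]
        exact hz.add_even h1
      · push_cast
        have h : z + (∑ i ∈ Ico (k0 + 1) (k0 + d + 1), m i) + ((k0 : ℤ) + d + 1)
            = ((z + k0) + ((∑ i ∈ Ico (k0 + 1) (k0 + d + 1), m i) + d)) + 1 := by ring
        rw [h]
        exact (hz.add_even h1).add_odd odd_one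
  set a : ℤ := ∑ i ∈ Ico 1 k0, m i with ha
  set b : ℤ := ∑ i ∈ Ico (k0 + 1) (t + 1), m i with hb
  have hab : 2 * (2 * E) = a + m k0 + b := by
    rw [hE, ha, hb, ← sum_Ico_consecutive m hk0 (by omega : k0 ≤ t + 1),
      sum_eq_sum_Ico_succ_bot (by omega : k0 < t + 1)]
    ring
  have hao : Odd (a + k0) := par1 k0 hk0
  have hz0 : Odd (c - a) := by
    rw [show c - a = (c + k0) - (a + k0) by ring]
    exact hc.sub_odd hao
  have hlow : ∀ z : ℤ, Odd z → Φ k0 (z + a) = Φ 1 z := fun z hz => L1 k0 hk0 le_rfl z hz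
  have hup : ∀ z : ℤ, Odd (z + k0) → Φ t (z + b) = Φ k0 z := by
    intro z hz
    have h := L2 (t - k0) (by omega) z hz
    rwa [show k0 + (t - k0) = t by omega] at h
  have key := loop_constT N E hN hco (fun z => Φ 1 z) (fun z => Φ t z) (per 1) (c - a) u0
    hz0 hu h4
    (fun z hz hd => by
      show Φ t (z + 2 * (2 * E)) = Φ 1 z
      have h1 : z + 2 * (2 * E) = (z + a + m k0) + b := by rw [hab]; ring
      have h2 : Even (z + a + k0) := by
        rw [add_assoc]
        exact hz.add_odd hao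
      rw [h1, hup, I1' _ h2, hlow z hz]
      · intro h3
        apply hd
        rwa [show z - (c - a) = z + a - c by ring]
      · rw [show z + a + m k0 + k0 = (z + a + k0) + m k0 by ring]
        exact h2.add_odd (hm k0))
    (by
      show Φ 1 (c - a) = Φ t u0 ∨ Φ 1 (c - a) = Φ 1 u0
      rw [← hlow (c - a) hz0, sub_add_cancel]
      exact I4)
    I3
  have U1 : ∀ y : ℕ, 1 ≤ y → y ≤ k0 → ∀ z : ℤ, Even (z + y) → Φ y z = Φ 1 u0 := by
    intro y hy
    induction y, hy using Nat.le_induction with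
    | base =>
      intro _ z hz
      refine (key z ?_).1
      have h := hz.sub_odd odd_one
      push_cast at h
      rwa [add_sub_cancel_right] at h
    | succ y hy ih =>
      intro hyk z hz
      push_cast at hz
      have hz1 : Odd (z + y) := by
        have h := hz.sub_odd odd_one
        rwa [← add_assoc, add_sub_cancel_right] at h
      have hz2 : Even (z - m y + y) := by
        rw [show z - m y + y = (z + y) - m y by ring]
        exact hz1.sub_odd (hm y)
      rw [I2 y hy (by omega) z hz1, ← ih (by omega) (z - m y) hz2,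
        ← I1 y hy (by omega) (by omega) (z - m y) hz2, sub_add_cancel]
  have U2 : ∀ d : ℕ, k0 + d ≤ t → ∀ z : ℤ, Odd (z + (t - d : ℕ)) → Φ (t - d) z = Φ 1 u0 := by
    intro d
    induction d with
    | zero =>
      intro _ z hz
      refine (key z ?_).2
      have h := hz.sub_even hte
      rwa [Nat.sub_zero, add_sub_cancel_right] at h
    | succ d ih =>
      intro hd z hz
      have h1 : t - d = (t - (d + 1)) + 1 := by omega
      rw [← I2 (t - (d + 1)) (by omega) (by omega) z hz]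
      have hz2 : Even (z + ((t - (d + 1) + 1 : ℕ) : ℤ)) := by
        push_cast
        rw [← add_assoc]
        exact hz.add_odd odd_one
      rw [← I1 (t - (d + 1) + 1) (by omega) (by omega) (by omega) z hz2, ← h1]
      refine ih (by omega) _ ?_
      rw [h1]
      have h3 : z + m (t - (d + 1) + 1) + ((t - (d + 1) + 1 : ℕ) : ℤ)
          = (z + ((t - (d + 1) + 1 : ℕ) : ℤ)) + m (t - (d + 1) + 1) := by ring
      rw [h3]
      exact hz2.add_odd (hm _)
  have U2' : ∀ y : ℕ, k0 ≤ y → y ≤ t → ∀ z : ℤ, Odd (z + y) → Φ y z = Φ 1 u0 := by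
    intro y hy hyt z hz
    have h := U2 (t - y) (by omega) z
    rw [show t - (t - y) = y by omega] at h
    exact h hz
  rcases Int.even_or_odd (z + y) with hz | hz
  · by_cases hyk : y ≤ k0
    · exact U1 y hy hyk z hz
    · rw [← I1 y hy hyt (by omega) z hz]
      refine U2' y (by omega) hyt _ ?_
      rw [show z + m y + y = (z + y) + m y by ring]
      exact hz.add_odd (hm y)
  · by_cases hyk : k0 ≤ y
    · exact U2' y hyk hyt z hz
    · have hz2 : Even (z - m y + y) := by
        rw [show z - m y + y = (z + y) - m y by ring]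
        exact hz.sub_odd (hm y)
      rw [← U1 y hy (by omega) (z - m y) hz2,
        ← I1 y hy hyt (by omega) (z - m y) hz2, sub_add_cancel]

end HX67
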