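import Pool.Agent.HX67.Class1

/-!
# Four exchange rows: the third class is connected
-/

namespace HX67

theorem seg {V W X : Type*} (P : Pres V) (Q : Pres W) (c : V → Prop)
    (hcM : ∀ g, c (P.M g) ↔ ¬ c g) (f : V → W → X)
    (h1 : ∀ g h, ¬ c g → f g (Q.A h) = f g h) (h2 : ∀ g h, c g → f g (Q.B h) = f g h)
    (s : ℤ) (hs : Even s) (e : ℤ) (he : Odd e)
    (h3 : ∀ g, ∀ y : ℤ, s < y → y < e → f (P.M g) (Q.x y) = f g (Q.x y)) (g : V) (hg : c g) :
    ∀ n : ℕ, s + n ≤ e → f g (Q.x (s + n)) = f g (Q.x s) ∧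
      (0 < n → s + n < e → f (P.M g) (Q.x (s + n)) = f g (Q.x s)) := by
  have hMg : ¬ c (P.M g) := fun h => (hcM g).1 h hg
  intro n
  induction n with
  | zero =>
    intro _
    refine ⟨?_, fun h => absurd h (lt_irrefl _)⟩
    simp
  | succ n ih =>
    intro hn
    push_cast at hn ⊢
    obtain ⟨i1, i2⟩ := ih (by omega)
    have e1 : s + ((n : ℤ) + 1) = (s + n) + 1 := by ring
    rw [e1]
    have main : f g (Q.x (s + n + 1)) = f g (Q.x s) := by
      rcases Int.even_or_odd (s + n) with hpar | hpar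
      · rw [← Q.B_even _ hpar, h2 _ _ hg, i1]
      · have hn0 : 0 < n := by
          rcases Nat.eq_zero_or_pos n with h0 | h0
          · exfalso
            rw [h0] at hpar
            simp only [Nat.cast_zero, add_zero] at hpar
            exact (Int.not_even_iff_odd.2 hpar) hs
          · exact h0
        have i3 := i2 hn0 (by omega)
        have i4 : f (P.M g) (Q.x (s + n + 1)) = f g (Q.x s) := by
          rw [← Q.A_odd _ hpar, h1 _ _ hMg, i3]
        have hlt : s + n + 1 < e := by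
          rcases lt_or_eq_of_le (show s + n + 1 ≤ e by omega) with h | h
          · exact h
          · exfalso
            rw [← h] at he
            exact (Int.not_even_iff_odd.2 he) hpar.add_one
        rw [← i4, h3 g _ (by omega) hlt]
    refine ⟨main, fun _ he => ?_⟩
    rw [h3 g _ (by omega) (by omega), main]

theorem class3U {V W X : Type*} (P : Pres V) (Q : Pres W) (hp4 : P.p % 4 = 2) (c : V → Prop)
    (hc : ∀ z, c (P.x z) ↔ Even z) (hcM : ∀ g, c (P.M g) ↔ ¬ c g) (a : ℕ) (ha2 : 2 ≤ a)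
    (haq : (a : ℤ) ≤ Q.p - 2) (hae : Even a) (f : V → W → X)
    (h1 : ∀ g h, ¬ c g → f g (Q.A h) = f g h) (h2 : ∀ g h, c g → f g (Q.B h) = f g h)
    (h3 : ∀ g h, h ≠ Q.x 0 → h ≠ Q.x (-1) → h ≠ Q.x a → h ≠ Q.x ((a : ℤ) - 1) →
      f (P.M g) h = f g h)
    (h4 : ∀ g, f (P.A g) (Q.x 0) = f g (Q.x 0)) (h5 : ∀ g, f (P.A g) (Q.x a) = f g (Q.x a))
    (h6 : ∀ g, f (P.B g) (Q.x (-1)) = f g (Q.x (-1)))
    (h7 : ∀ g, f (P.B g) (Q.x ((a : ℤ) - 1)) = f g (Q.x ((a : ℤ) - 1)))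
    (g : V) (h : W) (g' : V) (h' : W) : f g h = f g' h' := by
  have hp := P.p_ge
  have hq := Q.p_ge
  have haZ : Even (a : ℤ) := by exact_mod_cast hae
  have hao : Odd ((a : ℤ) - 1) := haZ.sub_odd odd_one
  have hqo : Odd (Q.p - 1) := Q.p_even.sub_odd odd_one
  have hm1 : Q.x (Q.p - 1) = Q.x (-1) := by
    rw [← Q.per (-1)]
    congr 1
    ring
  -- inner rows
  have hin : ∀ g, ∀ y : ℤ, 0 < y → y < Q.p - 1 → y ≠ a → y ≠ (a : ℤ) - 1 →
      f (P.M g) (Q.x y) = f g (Q.x y) := by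
    intro g y y1 y2 y3 y4
    refine h3 g _ ?_ ?_ ?_ ?_
    · exact Q.x_ne (by omega) (by omega) (by omega)
    · rw [← hm1]
      exact Q.x_ne (by omega) (by omega) (by omega)
    · exact Q.x_ne (by omega) (by omega) (by omega)
    · exact Q.x_ne (by omega) (by omega) (by omega)
  have seg1 := fun g hg => seg P Q c hcM f h1 h2 0 (by decide) ((a : ℤ) - 1) hao
    (fun g y y1 y2 => hin g y y1 (by omega) (by omega) (by omega)) g hg
  have seg2 := fun g hg => seg P Q c hcM f h1 h2 (a : ℤ) haZ (Q.p - 1) hqo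
    (fun g y y1 y2 => hin g y (by omega) y2 (by omega) (by omega)) g hg
  -- the four rows
  have s1 : ∀ g, c g → f g (Q.x ((a : ℤ) - 1)) = f g (Q.x 0) := by
    intro g hg
    obtain ⟨n, hn⟩ : ∃ n : ℕ, (n : ℤ) = a - 1 := ⟨a - 1, by omega⟩
    have := (seg1 g hg n (by omega)).1
    rwa [zero_add, hn] at this
  have s2 : ∀ g, c g → f g (Q.x (-1)) = f g (Q.x a) := by
    intro g hg
    obtain ⟨n, hn⟩ : ∃ n : ℕ, (n : ℤ) = Q.p - 1 - a := ⟨(Q.p - 1 - a).toNat, by omega⟩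
    have := (seg2 g hg n (by omega)).1
    rwa [hn, show (a : ℤ) + (Q.p - 1 - a) = Q.p - 1 by ring, hm1] at this
  have s3 : ∀ g, ¬ c g → f g (Q.x (-1)) = f g (Q.x 0) := by
    intro g hg
    rw [← Q.A_zero, h1 _ _ hg]
  have s4 : ∀ g, ¬ c g → f g (Q.x a) = f g (Q.x ((a : ℤ) - 1)) := by
    intro g hg
    have := h1 g (Q.x ((a : ℤ) - 1)) hg
    rwa [Q.A_odd _ hao, sub_add_cancel] at this
  -- moving along the rows
  have m0 : ∀ z, Odd z → f (P.x (z + 1)) (Q.x 0) = f (P.x z) (Q.x 0) := by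
    intro z hz
    rw [← P.A_odd z hz, h4]
  have ma : ∀ z, Odd z → f (P.x (z + 1)) (Q.x a) = f (P.x z) (Q.x a) := by
    intro z hz
    rw [← P.A_odd z hz, h5]
  have mm : ∀ z, Even z → f (P.x (z + 1)) (Q.x (-1)) = f (P.x z) (Q.x (-1)) := by
    intro z hz
    rw [← P.B_even z hz, h6]
  have mb : ∀ z, Even z →
      f (P.x (z + 1)) (Q.x ((a : ℤ) - 1)) = f (P.x z) (Q.x ((a : ℤ) - 1)) := by
    intro z hz
    rw [← P.B_even z hz, h7]
  have hce : ∀ z, Even z → c (P.x z) := fun z hz => (hc z).2 hz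
  have hco : ∀ z, Odd z → ¬ c (P.x z) := fun z hz h => (Int.not_even_iff_odd.2 hz) ((hc z).1 h)
  have two : ∀ z, Even z → f (P.x (z + 2)) (Q.x a) = f (P.x z) (Q.x 0) := by
    intro z hz
    have hz1 : Odd (z + 1) := hz.add_one
    rw [show z + 2 = (z + 1) + 1 by ring, ma _ hz1, s4 _ (hco _ hz1), mb _ hz, s1 _ (hce _ hz)]
  have two' : ∀ z, Even z → f (P.x (z + 2)) (Q.x 0) = f (P.x z) (Q.x a) := by
    intro z hz
    have hz1 : Odd (z + 1) := hz.add_one
    rw [show z + 2 = (z + 1) + 1 by ring, m0 _ hz1, ← s3 _ (hco _ hz1), mm _ hz, s2 _ (hce _ hz)]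
  have four : ∀ z, Even z → f (P.x (z + 4)) (Q.x 0) = f (P.x z) (Q.x 0) := by
    intro z hz
    rw [show z + 4 = (z + 2) + 2 by ring, two' _ (hz.add even_two), two z hz]
  have fourn : ∀ n : ℕ, ∀ z, Even z → f (P.x (z + 4 * n)) (Q.x 0) = f (P.x z) (Q.x 0) := by
    intro n
    induction n with
    | zero => intro z _; simp
    | succ n ih =>
      intro z hz
      push_cast
      rw [show z + 4 * ((n : ℤ) + 1) = (z + 4) + 4 * n by ring, ih _ (hz.add (by decide)),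
        four z hz]
  have step : ∀ z, Even z → f (P.x (z + 2)) (Q.x 0) = f (P.x z) (Q.x 0) := by
    intro z hz
    obtain ⟨n, hn⟩ : ∃ n : ℕ, P.p = 4 * n + 2 := ⟨((P.p - 2) / 4).toNat, by omega⟩
    rw [← fourn n (z + 2) (hz.add even_two), show z + 2 + 4 * (n : ℤ) = z + P.p by omega, P.per]
  have all0 : ∀ k : ℤ, f (P.x (2 * k)) (Q.x 0) = f (P.x 0) (Q.x 0) := by
    intro k
    induction k using Int.induction_on with
    | zero => simp
    | succ k ih =>
      rw [show 2 * ((k : ℤ) + 1) = 2 * k + 2 by ring, step _ (even_two_mul _), ih]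
    | pred k ih =>
      rw [← ih, show 2 * (-(k : ℤ)) = 2 * (-k - 1) + 2 by ring, step _ (even_two_mul _)]
  obtain ⟨c0, hc0⟩ : ∃ c0, c0 = f (P.x 0) (Q.x 0) := ⟨_, rfl⟩
  have E0 : ∀ z, Even z → f (P.x z) (Q.x 0) = c0 := by
    intro z hz
    obtain ⟨k, rfl⟩ := hz.two_dvd
    rw [all0, hc0]
  have Ea : ∀ z, Even z → f (P.x z) (Q.x a) = c0 := by
    intro z hz
    rw [← two' z hz, E0 _ (hz.add even_two)]
  have O0 : ∀ z, Odd z → f (P.x z) (Q.x 0) = c0 := by
    intro z hz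
    rw [← m0 z hz, E0 _ hz.add_one]
  have Oa : ∀ z, Odd z → f (P.x z) (Q.x a) = c0 := by
    intro z hz
    rw [← ma z hz, Ea _ hz.add_one]
  have R0 : ∀ g, f g (Q.x 0) = c0 := by
    intro g
    obtain ⟨z, rfl⟩ := P.surj g
    rcases Int.even_or_odd z with hz | hz
    · exact E0 z hz
    · exact O0 z hz
  have Ra : ∀ g, f g (Q.x a) = c0 := by
    intro g
    obtain ⟨z, rfl⟩ := P.surj g
    rcases Int.even_or_odd z with hz | hz
    · exact Ea z hz
    · exact Oa z hz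
  have Rb : ∀ g, f g (Q.x ((a : ℤ) - 1)) = c0 := by
    intro g
    by_cases hg : c g
    · rw [s1 g hg, R0]
    · rw [← s4 g hg, Ra]
  have Rm : ∀ g, f g (Q.x (-1)) = c0 := by
    intro g
    by_cases hg : c g
    · rw [s2 g hg, Ra]
    · rw [s3 g hg, R0]
  have Ec : ∀ g, c g → ∀ h, f g h = c0 := by
    intro g hg h
    obtain ⟨z, rfl⟩ := Q.surj h
    rw [← Q.x_emod z]
    have e0 : 0 ≤ z % Q.p := Int.emod_nonneg z (by omega)
    have e1 : z % Q.p < Q.p := Int.emod_lt_of_pos z (by omega)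
    obtain ⟨k, hk⟩ := Int.eq_ofNat_of_zero_le e0
    rw [hk]
    by_cases hka : (k : ℤ) ≤ a - 1
    · have := (seg1 g hg k (by omega)).1
      rw [zero_add] at this
      rw [this, R0]
    · obtain ⟨n, hn⟩ : ∃ n : ℕ, (n : ℤ) = k - a := ⟨((k : ℤ) - a).toNat, by omega⟩
      have := (seg2 g hg n (by omega)).1
      rw [hn, show (a : ℤ) + (k - a) = k by ring] at this
      rw [this, Ra]
  have En : ∀ g, ¬ c g → ∀ h, f g h = c0 := by
    intro g hg h
    by_cases e0 : h = Q.x 0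
    · rw [e0, R0]
    by_cases e1 : h = Q.x (-1)
    · rw [e1, Rm]
    by_cases e2 : h = Q.x a
    · rw [e2, Ra]
    by_cases e3 : h = Q.x ((a : ℤ) - 1)
    · rw [e3, Rb]
    rw [← h3 g h e0 e1 e2 e3]
    exact Ec _ ((hcM g).2 hg) h
  have all : ∀ g h, f g h = c0 := by
    intro g h
    by_cases hg : c g
    · exact Ec g hg h
    · exact En g hg h
  rw [all g h, all g' h']

end HX67
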