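import Pool.Agent.HX67.Class2

/-!
# Four exchange rows at the ends of an odd chord: the second class is connected
-/

namespace HX67

open Finset

/-- functions constant along the strands of a torus -/
theorem torusPlain {X : Type*} (N E : ℤ) (hco : IsCoprime E N) (t : ℕ) (ht1 : 1 ≤ t) (ht : Even t)
    (Φ : ℕ → ℤ → X) (m : ℕ → ℤ) (hm : ∀ y, Odd (m y)) (per : ∀ y z, Φ y (z + 2 * N) = Φ y z)
    (I1 : ∀ y, 1 ≤ y → y ≤ t → ∀ z : ℤ, Even (z + y) → Φ y (z + m y) = Φ y z)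
    (I2 : ∀ y, 1 ≤ y → y < t → ∀ z : ℤ, Odd (z + y) → Φ (y + 1) z = Φ y z)
    (I3 : ∀ z, Odd z → Φ 1 z = Φ t z) (hE : 2 * E = ∑ y ∈ Ico 1 (t + 1), m y) (y : ℕ)
    (hy : 1 ≤ y) (hyt : y ≤ t) (z : ℤ) : Φ y z = Φ 1 1 := by
  have hteZ : Even (t : ℤ) := by exact_mod_cast ht
  have par1 : ∀ y : ℕ, 1 ≤ y → Odd ((∑ i ∈ Ico 1 y, m i) + y) := by
    intro y hy
    induction y, hy using Nat.le_induction with
    | base => simp
    | succ y hy ih =>
      rw [sum_Ico_succ_top hy]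
      push_cast
      have h : (∑ i ∈ Ico 1 y, m i) + m y + ((y : ℤ) + 1)
          = ((∑ i ∈ Ico 1 y, m i) + y) + (m y + 1) := by ring
      rw [h]
      exact ih.add_even ((hm y).add_odd odd_one)
  have L1 : ∀ y : ℕ, 1 ≤ y → y ≤ t → ∀ z : ℤ, Odd z →
      Φ y (z + ∑ i ∈ Ico 1 y, m i) = Φ 1 z := by
    intro y hy
    induction y, hy using Nat.le_induction with
    | base => intro _ z _; simp
    | succ y hy ih =>
      intro hyk z hz
      have h1 := par1 y hy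
      rw [sum_Ico_succ_top hy, I2 y hy (by omega), ← add_assoc, I1 y hy (by omega)]
      · exact ih (by omega) z hz
      · rw [add_assoc]
        exact hz.add_odd h1
      · have h : z + ((∑ i ∈ Ico 1 y, m i) + m y) + (y : ℤ)
            = (z + ((∑ i ∈ Ico 1 y, m i) + y)) + m y := by ring
        rw [h]
        exact (hz.add_odd h1).add_odd (hm y)
  have stepE : ∀ z, Odd z → Φ 1 (z + 2 * E) = Φ 1 z := by
    intro z hz
    have h1 := par1 t ht1
    have h2 := L1 t ht1 le_rfl z hz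
    have h3 := I1 t ht1 le_rfl (z + ∑ i ∈ Ico 1 t, m i) (by
      rw [add_assoc]
      exact hz.add_odd h1)
    rw [I3 _ (hz.add_even (even_two_mul _)), hE, sum_Ico_succ_top ht1, ← add_assoc, h3, h2]
  have mulE : ∀ k z : ℤ, Odd z → Φ 1 (z + 2 * E * k) = Φ 1 z := by
    intro k
    induction k using Int.induction_on with
    | zero => intro z _; simp
    | succ k ih =>
      intro z hz
      rw [show z + 2 * E * ((k : ℤ) + 1) = (z + 2 * E * k) + 2 * E by ring, stepE, ih z hz]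
      rw [mul_assoc]
      exact hz.add_even (even_two_mul _)
    | pred k ih =>
      intro z hz
      rw [← ih z hz, show z + 2 * E * (-(k : ℤ)) = (z + 2 * E * (-k - 1)) + 2 * E by ring, stepE]
      rw [mul_assoc]
      exact hz.add_even (even_two_mul _)
  have mulN : ∀ k z : ℤ, Φ 1 (z + 2 * N * k) = Φ 1 z := by
    intro k
    induction k using Int.induction_on with
    | zero => intro z; simp
    | succ k ih =>
      intro z
      rw [show z + 2 * N * ((k : ℤ) + 1) = (z + 2 * N * k) + 2 * N by ring, per, ih z]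
    | pred k ih =>
      intro z
      rw [← ih z, show z + 2 * N * (-(k : ℤ)) = (z + 2 * N * (-k - 1)) + 2 * N by ring, per]
  have step2 : ∀ z, Odd z → Φ 1 (z + 2) = Φ 1 z := by
    intro z hz
    obtain ⟨u, v, huv⟩ := hco
    have h1 : z + 2 = (z + 2 * E * u) + 2 * N * v := by linear_combination (-2) * huv
    rw [h1, mulN, mulE _ _ hz]
  have base : ∀ z, Odd z → Φ 1 z = Φ 1 1 := by
    intro z hz
    obtain ⟨k, rfl⟩ := hz
    induction k using Int.induction_on with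
    | zero => simp
    | succ k ih =>
      have := step2 (2 * (k : ℤ) + 1) (odd_two_mul_add_one _)
      rw [show 2 * ((k : ℤ) + 1) + 1 = 2 * k + 1 + 2 by ring, this, ih]
    | pred k ih =>
      have := step2 (2 * (-(k : ℤ) - 1) + 1) (odd_two_mul_add_one _)
      rw [← this, show 2 * (-(k : ℤ) - 1) + 1 + 2 = 2 * -(k : ℤ) + 1 by ring, ih]
  have ev : ∀ y : ℕ, 1 ≤ y → y ≤ t → ∀ z : ℤ, Even (z + y) → Φ y z = Φ 1 1 := by
    intro y hy hyt z hz
    have h1 := par1 y hy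
    have hz' : Odd (z - ∑ i ∈ Ico 1 y, m i) := by
      have := hz.sub_odd h1
      rwa [show z + (y : ℤ) - ((∑ i ∈ Ico 1 y, m i) + y) = z - ∑ i ∈ Ico 1 y, m i by ring] at this
    have h2 := L1 y hy hyt _ hz'
    rw [sub_add_cancel] at h2
    rw [h2, base _ hz']
  rcases Int.even_or_odd (z + y) with hz | hz
  · exact ev y hy hyt z hz
  · have hz2 : Even (z - m y + y) := by
      rw [show z - m y + y = (z + y) - m y by ring]
      exact hz.sub_odd (hm y)
    have h1 := I1 y hy hyt (z - m y) hz2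
    rw [sub_add_cancel] at h1
    rw [h1, ev y hy hyt _ hz2]

theorem classU {V W X : Type*} (P : Pres V) (Q : Pres W) (c : V → Prop) (r : W → Prop)
    (hc : ∀ z, c (P.x z) ↔ Even z) (hcM : ∀ g, c (P.M g) ↔ ¬ c g)
    (hr : ∀ h, r (Q.M h) ↔ ¬ r h) (hr0 : r (Q.x 0)) (hr1 : ¬ r (Q.x (-1)))
    (a l : ℕ) (ha4 : 4 ≤ a) (haq : (a : ℤ) ≤ Q.p - 2) (hae : Even a)
    (ha : Q.M (Q.x 0) = Q.x ((a : ℤ) - 1)) (hl1 : 1 ≤ l) (hl2 : l + 2 ≤ a)
    (hl : Q.M (Q.x a) = Q.x l) (hra : r (Q.x a)) (E : ℤ) (hco : IsCoprime E (P.p / 2 - 1))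
    (hE : 2 * E = ∑ y ∈ Ico 1 (a - 1), dir Q r y)
    (hE2 : ∑ y ∈ Ico (a + 1) (Q.p - 1).toNat, dir Q r y = 0)
    (f : V → W → X)
    (a1 : ∀ g h, h ≠ Q.x 0 → h ≠ Q.x (-1) → h ≠ Q.x a → h ≠ Q.x ((a : ℤ) - 1) → ¬ r h →
      f (P.B g) h = f g h)
    (a2 : ∀ g h, h ≠ Q.x 0 → h ≠ Q.x (-1) → h ≠ Q.x a → h ≠ Q.x ((a : ℤ) - 1) → r h →
      f (P.A g) h = f g h)
    (a3 : ∀ g, f (P.M g) (Q.x 0) = f g (Q.x 0))
    (a4 : ∀ g, f (P.M g) (Q.x (-1)) = f g (Q.x (-1)))
    (a5 : ∀ g, f (P.M g) (Q.x a) = f g (Q.x a))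
    (a6 : ∀ g, f (P.M g) (Q.x ((a : ℤ) - 1)) = f g (Q.x ((a : ℤ) - 1)))
    (b1 : ∀ g h, g ≠ P.x 0 → g ≠ P.x (-1) → ¬ c g → f g (Q.B h) = f g h)
    (b2 : ∀ g h, g ≠ P.x 0 → g ≠ P.x (-1) → c g → f g (Q.A h) = f g h)
    (b3 : ∀ h, f (P.x 0) (Q.M h) = f (P.x 0) h)
    (b4 : ∀ h, f (P.x (-1)) (Q.M h) = f (P.x (-1)) h)
    (g : V) (h : W) (g' : V) (h' : W) : f g h = f g' h' := by
  have hpp := P.p_ge
  have hqq := Q.p_ge
  obtain ⟨N, hN⟩ : ∃ N, P.p = 2 * N + 2 := by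
    obtain ⟨a, ha⟩ := P.p_even
    exact ⟨a - 1, by omega⟩
  have hN2 : P.p / 2 - 1 = N := by omega
  rw [hN2] at hco
  have hN0 : 0 < N := by omega
  have haZ : Even (a : ℤ) := by exact_mod_cast hae
  have hao : Odd ((a : ℤ) - 1) := haZ.sub_odd odd_one
  obtain ⟨q1, hq1⟩ : ∃ q1 : ℕ, (q1 : ℤ) = Q.p - 1 := ⟨(Q.p - 1).toNat, by omega⟩
  have hq1n : (Q.p - 1).toNat = q1 := by omega
  rw [hq1n] at hE2
  have hm1 : Q.x (q1 : ℤ) = Q.x (-1) := by
    rw [← Q.per (-1), hq1]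
    congr 1
    ring
  -- the special vertices
  have hu0n : P.M (P.x 0) ≠ P.x (-1) := by
    rw [← P.A_zero]
    exact P.M_A _
  have hu1n : P.M (P.x (-1)) ≠ P.x 0 := by
    rw [← P.A_neg]
    exact P.M_A _
  obtain ⟨u0, hu0a, hu0b, hu0⟩ := P.exists_inner _ (P.M_ne (P.x 0)) hu0n
  have hMu0 : P.M (P.x u0) = P.x 0 := by rw [hu0, P.M_M]
  have hc0 : c (P.x 0) := (hc 0).2 (by decide)
  have hc1 : ¬ c (P.x (-1)) := fun h => absurd ((hc (-1)).1 h) (by decide)
  have hu0odd : Odd (u0 : ℤ) := by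
    rw [← Int.not_even_iff_odd, ← hc, hu0, hcM]
    exact fun h => h hc0
  have hcu0 : ¬ c (P.M (P.x 0)) := by rw [hcM]; exact fun h => h hc0
  have hcu1 : c (P.M (P.x (-1))) := by rw [hcM]; exact hc1
  have hMb : Q.M (Q.x ((a : ℤ) - 1)) = Q.x 0 := by rw [← ha, Q.M_M]
  have hMl : Q.M (Q.x l) = Q.x a := by rw [← hl, Q.M_M]
  have hrb : ¬ r (Q.x ((a : ℤ) - 1)) := by rw [← ha, hr]; exact fun h => h hr0
  have hrl : ¬ r (Q.x l) := by rw [← hl, hr]; exact fun h => h hra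
  have hrk : r (Q.M (Q.x (-1))) := by rw [hr]; exact hr1
  -- the rows which are not exchange rows
  have inner : ∀ y : ℤ, 1 ≤ y → y ≤ Q.p - 2 → y ≠ a → y ≠ (a : ℤ) - 1 →
      Q.x y ≠ Q.x 0 ∧ Q.x y ≠ Q.x (-1) ∧ Q.x y ≠ Q.x a ∧ Q.x y ≠ Q.x ((a : ℤ) - 1) := by
    intro y y1 y2 y3 y4
    refine ⟨Q.inner_ne_zero y1 y2, Q.inner_ne_neg y1 y2, ?_, ?_⟩
    · exact Q.x_ne (by omega) (by omega) (by omega)
    · exact Q.x_ne (by omega) (by omega) (by omega)
  have hl_in := inner l (by omega) (by omega) (by omega) (by omega)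
  have hk_in : Q.M (Q.x (-1)) ≠ Q.x 0 ∧ Q.M (Q.x (-1)) ≠ Q.x (-1) ∧ Q.M (Q.x (-1)) ≠ Q.x a ∧
      Q.M (Q.x (-1)) ≠ Q.x ((a : ℤ) - 1) := by
    refine ⟨?_, Q.M_ne _, ?_, ?_⟩
    · rw [← Q.A_neg]
      exact Q.M_A _
    · intro h
      have h1 : Q.x (-1) = Q.x l := by rw [← hl, ← h, Q.M_M]
      exact hl_in.2.1 h1.symm
    · intro h
      have h1 : Q.x (-1) = Q.x 0 := by rw [← hMb, ← h, Q.M_M]
      exact Q.zero_ne_neg h1.symm
  -- vertical moves
  have hvert : ∀ ζ y : ℤ, 1 ≤ ζ → ζ ≤ P.p - 2 → Odd (ζ + y) →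
      f (P.x ζ) (Q.x (y + 1)) = f (P.x ζ) (Q.x y) := by
    intro ζ y h1 h2 hpar
    rcases Int.even_or_odd ζ with hζ | hζ
    · have hy : Odd y := by
        have := hpar.sub_even hζ
        rwa [add_sub_cancel_left] at this
      rw [← Q.A_odd y hy]
      exact b2 _ _ (P.inner_ne_zero h1 h2) (P.inner_ne_neg h1 h2) ((hc ζ).2 hζ)
    · have hy : Even y := by
        have := hpar.sub_odd hζ
        rwa [add_sub_cancel_left] at this
      rw [← Q.B_even y hy]
      exact b1 _ _ (P.inner_ne_zero h1 h2) (P.inner_ne_neg h1 h2)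
        (fun h => (Int.not_even_iff_odd.2 hζ) ((hc ζ).1 h))
  have hvA : ∀ v, v ≠ P.x 0 → v ≠ P.x (-1) → c v → f v (Q.x (-1)) = f v (Q.x 0) := by
    intro v h1 h2 h3
    rw [← Q.A_zero]
    exact b2 _ _ h1 h2 h3
  have hvA' : ∀ v, v ≠ P.x 0 → v ≠ P.x (-1) → c v → f v (Q.x a) = f v (Q.x ((a : ℤ) - 1)) := by
    intro v h1 h2 h3
    have := b2 v (Q.x ((a : ℤ) - 1)) h1 h2 h3
    rwa [Q.A_odd _ hao, sub_add_cancel] at this
  have hfm2 : P.x (-1) = P.x (2 * N + 1) := by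
    rw [← P.per (-1)]
    congr 1
    omega
  -- horizontal moves at the ends
  have he0 : ∀ h, h ≠ Q.x 0 → h ≠ Q.x (-1) → h ≠ Q.x a → h ≠ Q.x ((a : ℤ) - 1) → ¬ r h →
      f (P.x 0) h = f (P.x 1) h := by
    intro h h1 h2 h3 h4 h5
    have := a1 (P.x 0) h h1 h2 h3 h4 h5
    rw [P.B_even 0 (by decide), zero_add] at this
    exact this.symm
  have he1 : ∀ h, h ≠ Q.x 0 → h ≠ Q.x (-1) → h ≠ Q.x a → h ≠ Q.x ((a : ℤ) - 1) → ¬ r h →
      f (P.x (-1)) h = f (P.x (2 * N)) h := by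
    intro h h1 h2 h3 h4 h5
    have := a1 (P.x (2 * N)) h h1 h2 h3 h4 h5
    rw [P.B_even _ (even_two_mul N), ← hfm2] at this
    exact this
  have hwrap : ∀ h, h ≠ Q.x 0 → h ≠ Q.x (-1) → h ≠ Q.x a → h ≠ Q.x ((a : ℤ) - 1) → ¬ r h →
      h ≠ Q.x l → f (P.x 1) h = f (P.x (2 * N)) h := by
    intro h h1 h2 h3 h4 h5 h6
    have hMr : r (Q.M h) := (hr h).2 h5
    rw [← he0 h h1 h2 h3 h4 h5, ← he1 h h1 h2 h3 h4 h5, ← b3, ← b4]
    have := a2 (P.x 0) (Q.M h) ?_ ?_ ?_ ?_ hMr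
    · rw [P.A_zero] at this
      exact this.symm
    · intro h7
      apply h4
      rw [← ha, ← h7, Q.M_M]
    · intro h7
      rw [h7] at hMr
      exact hr1 hMr
    · intro h7
      apply h6
      rw [← hl, ← h7, Q.M_M]
    · intro h7
      rw [h7] at hMr
      exact hrb hMr
  -- the coordinates of the bulk
  let col : ℤ → ℤ := fun z => 1 + (z - 1) % (2 * N)
  have col_ge : ∀ z, 1 ≤ col z := by
    intro z
    have := Int.emod_nonneg (z - 1) (by omega : (2 * N) ≠ 0)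
    simp only [col]
    omega
  have col_le : ∀ z, col z ≤ P.p - 2 := by
    intro z
    have := Int.emod_lt_of_pos (z - 1) (by omega : 0 < 2 * N)
    simp only [col]
    omega
  have col_eq : ∀ z, ∃ k, col z = z - 2 * N * k := by
    intro z
    refine ⟨(z - 1) / (2 * N), ?_⟩
    have := Int.emod_add_mul_ediv (z - 1) (2 * N)
    simp only [col]
    linarith
  have col_uniq : ∀ z ζ, 1 ≤ ζ → ζ ≤ 2 * N → 2 * N ∣ z - ζ → col z = ζ := by
    rintro z ζ h1 h2 ⟨j, hj⟩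
    obtain ⟨k, hk⟩ := col_eq z
    have h3 := col_ge z
    have h4 := col_le z
    have h5 : col z - ζ = 2 * N * (j - k) := by
      rw [hk]
      linear_combination hj
    rcases lt_trichotomy (j - k) 0 with ha | ha | ha
    · nlinarith
    · rw [ha, mul_zero] at h5
      omega
    · nlinarith
  have col_dvd : ∀ z, 2 * N ∣ z - col z := by
    intro z
    obtain ⟨k, hk⟩ := col_eq z
    exact ⟨k, by rw [hk]; ring⟩
  have col_par : ∀ z, (Even (col z) ↔ Even z) := by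
    intro z
    have h1 : Even (z - col z) := by
      obtain ⟨k, hk⟩ := col_dvd z
      rw [hk, mul_assoc]
      exact even_two_mul _
    exact (Int.even_sub.1 h1).symm
  have col_par' : ∀ z, Odd z → Odd (col z) := by
    intro z hz
    rw [← Int.not_even_iff_odd, col_par, Int.not_even_iff_odd]
    exact hz
  have col_per : ∀ z, col (z + 2 * N) = col z := by
    intro z
    apply col_uniq _ _ (col_ge z) (by have := col_le z; omega)
    have h1 := dvd_add (col_dvd z) (dvd_refl (2 * N))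
    rwa [show z - col z + 2 * N = z + 2 * N - col z by ring] at h1
  have col_zero : ∀ z, 2 * N ∣ z → col z = 2 * N ∧ col (z + 1) = 1 := by
    intro z hz
    refine ⟨col_uniq _ _ (by omega) le_rfl (dvd_sub_self_right.2 hz), ?_⟩
    apply col_uniq _ _ le_rfl (by omega)
    rwa [add_sub_cancel_right]
  have col_succ : ∀ z, ¬ 2 * N ∣ z → col (z + 1) = col z + 1 := by
    intro z hz
    have h1 := col_ge z
    have h2 := col_le z
    have h3 : col z ≠ 2 * N := by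
      intro h
      have h4 := col_dvd z
      rw [h] at h4
      exact hz (dvd_sub_self_right.1 h4)
    apply col_uniq _ _ (by omega) (by omega)
    have h4 := col_dvd z
    rwa [show z + 1 - (col z + 1) = z - col z by ring]
  let Φ : ℕ → ℤ → X := fun y z => f (P.x (col z)) (Q.x y)
  have hdir : ∀ y : ℕ, dir Q r y = 1 ∨ dir Q r y = -1 := by
    intro y
    unfold dir
    split_ifs
    · exact Or.inl rfl
    · exact Or.inr rfl
  have hdirO : ∀ y : ℕ, Odd (dir Q r y) := by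
    intro y
    rcases hdir y with h | h
    · rw [h]
      exact odd_one
    · rw [h]
      decide
  -- horizontal moves in the bulk
  have HB : ∀ y : ℕ, 1 ≤ y → (y : ℤ) ≤ Q.p - 2 → (y : ℤ) ≠ a → (y : ℤ) ≠ a - 1 → ¬ r (Q.x y) →
      ∀ z, Even z → ¬ 2 * N ∣ z → Φ y (z + 1) = Φ y z := by
    intro y h1 h2 ha1 ha2 h3 z h4 h5
    obtain ⟨h6, h7, h8, h9⟩ := inner y (by omega) h2 ha1 ha2
    simp only [Φ]
    rw [col_succ z h5, ← P.B_even (col z) ((col_par z).2 h4)]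
    exact a1 _ _ h6 h7 h8 h9 h3
  have HA : ∀ y : ℕ, 1 ≤ y → (y : ℤ) ≤ Q.p - 2 → (y : ℤ) ≠ a → (y : ℤ) ≠ a - 1 → r (Q.x y) →
      ∀ z, Odd z → Φ y (z + 1) = Φ y z := by
    intro y h1 h2 ha1 ha2 h3 z h4
    have h5 : ¬ 2 * N ∣ z := by
      rintro ⟨k, hk⟩
      rw [hk, mul_assoc, ← Int.not_even_iff_odd] at h4
      exact h4 (even_two_mul _)
    obtain ⟨h6, h7, h8, h9⟩ := inner y (by omega) h2 ha1 ha2
    simp only [Φ]
    rw [col_succ z h5, ← P.A_odd (col z) (col_par' z h4)]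
    exact a2 _ _ h6 h7 h8 h9 h3
  -- a row whose wrap is closed
  have I1 : ∀ y : ℕ, 1 ≤ y → (y : ℤ) ≤ Q.p - 2 → (y : ℤ) ≠ a → (y : ℤ) ≠ a - 1 →
      (¬ r (Q.x y) → f (P.x 1) (Q.x y) = f (P.x (2 * N)) (Q.x y)) →
      ∀ z : ℤ, Even (z + y) → Φ y (z + dir Q r y) = Φ y z := by
    intro y h1 h2 ha1 ha2 hcl z hz
    have HBw : ¬ r (Q.x y) → ∀ z, Even z → Φ y (z + 1) = Φ y z := by
      intro h3 z h4
      by_cases h5 : 2 * N ∣ z
      · obtain ⟨h8, h9⟩ := col_zero z h5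
        simp only [Φ]
        rw [h8, h9]
        exact hcl h3
      · exact HB y h1 h2 ha1 ha2 h3 z h4 h5
    have hzy : Even z ↔ Even (y : ℤ) := Int.even_add.1 hz
    by_cases hR : r (Q.x y)
    · by_cases hy : Odd (y : ℤ)
      · have hd : dir Q r y = 1 := by
          unfold dir
          rw [if_pos ⟨fun _ => hy, fun _ => hR⟩]
        rw [hd]
        refine HA y h1 h2 ha1 ha2 hR z ?_
        rw [← Int.not_even_iff_odd, hzy, Int.not_even_iff_odd]
        exact hy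
      · have hd : dir Q r y = -1 := by
          unfold dir
          rw [if_neg (fun h => hy (h.1 hR))]
        rw [hd]
        have h5 : Even z := hzy.2 (Int.not_odd_iff_even.1 hy)
        have h6 := HA y h1 h2 ha1 ha2 hR (z + -1) (h5.add_odd (by decide))
        rw [← h6]
        congr 1
        ring
    · by_cases hy : Odd (y : ℤ)
      · have hd : dir Q r y = -1 := by
          unfold dir
          rw [if_neg (fun h => hR (h.2 hy))]
        rw [hd]
        have h5 : Odd z := by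
          rw [← Int.not_even_iff_odd, hzy, Int.not_even_iff_odd]
          exact hy
        have h6 := HBw hR (z + -1) (h5.add_odd (by decide))
        rw [← h6]
        congr 1
        ring
      · have hd : dir Q r y = 1 := by
          unfold dir
          rw [if_pos ⟨fun h => absurd h hR, fun h => absurd h hy⟩]
        rw [hd]
        exact HBw hR z (hzy.2 (Int.not_odd_iff_even.1 hy))
  have I2 : ∀ y : ℕ, ∀ z : ℤ, Odd (z + y) → Φ (y + 1) z = Φ y z := by
    intro y z hz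
    simp only [Φ]
    push_cast
    apply hvert _ _ (col_ge z) (col_le z)
    rw [Int.odd_add'] at hz ⊢
    rw [hz, col_par]
  -- rows above `a`
  have J1 : ∀ y : ℕ, a < y → y < q1 → ∀ z : ℤ, Even (z + y) → Φ y (z + dir Q r y) = Φ y z := by
    intro y h1 h2 z hz
    obtain ⟨h6, h7, h8, h9⟩ := inner y (by omega) (by omega) (by omega) (by omega)
    refine I1 y (by omega) (by omega) (by omega) (by omega) (fun h3 => ?_) z hz
    exact hwrap _ h6 h7 h8 h9 h3 (Q.x_ne (by omega) (by omega) (by omega))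
  have up : ∀ z, Odd z → ∀ n : ℕ, a + n + 1 ≤ q1 →
      Φ (a + n + 1) (z + ∑ i ∈ Ico (a + 1) (a + n + 1), dir Q r i) = Φ a z ∧
      Even (z + (∑ i ∈ Ico (a + 1) (a + n + 1), dir Q r i) + ((a + n + 1 : ℕ) : ℤ)) := by
    intro z hz n
    induction n with
    | zero =>
      intro _
      simp only [add_zero, Ico_self, sum_empty]
      refine ⟨I2 a z (hz.add_even haZ), ?_⟩
      push_cast
      exact (hz.add_odd haZ.add_one)
    | succ n ih =>
      intro hn
      obtain ⟨i1, i2⟩ := ih (by omega)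
      have e1 : a + (n + 1) + 1 = (a + n + 1) + 1 := by ring
      have hs : ∑ i ∈ Ico (a + 1) (a + (n + 1) + 1), dir Q r i
          = (∑ i ∈ Ico (a + 1) (a + n + 1), dir Q r i) + dir Q r ((a + n + 1 : ℕ) : ℤ) := by
        rw [e1, sum_Ico_succ_top (by omega)]
      have j1 := J1 (a + n + 1) (by omega) (by omega) _ i2
      have hpar2 : Odd (z + (∑ i ∈ Ico (a + 1) (a + n + 1), dir Q r i)
          + dir Q r ((a + n + 1 : ℕ) : ℤ) + ((a + n + 1 : ℕ) : ℤ)) := by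
        have := i2.add_odd (hdirO (a + n + 1))
        rwa [show z + (∑ i ∈ Ico (a + 1) (a + n + 1), dir Q r i) + ((a + n + 1 : ℕ) : ℤ)
          + dir Q r ((a + n + 1 : ℕ) : ℤ) = z + (∑ i ∈ Ico (a + 1) (a + n + 1), dir Q r i)
          + dir Q r ((a + n + 1 : ℕ) : ℤ) + ((a + n + 1 : ℕ) : ℤ) by ring] at this
      rw [hs, e1, ← add_assoc]
      refine ⟨?_, ?_⟩
      · rw [I2 (a + n + 1) _ hpar2, j1, i1]
      · have := hpar2.add_odd odd_one
        push_cast at this ⊢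
        rwa [show z + (∑ i ∈ Ico (a + 1) (a + n + 1), dir Q r i) + dir Q r ((a : ℤ) + n + 1)
          + ((a : ℤ) + n + 1) + 1 = z + (∑ i ∈ Ico (a + 1) (a + n + 1), dir Q r i)
          + dir Q r ((a : ℤ) + n + 1) + ((a : ℤ) + n + 1 + 1) by ring] at this
  have gd : ∀ z, Odd z → f (P.x (col z)) (Q.x (-1)) = f (P.x (col z)) (Q.x a) := by
    intro z hz
    obtain ⟨n, hn⟩ : ∃ n : ℕ, a + n + 1 = q1 := ⟨q1 - a - 1, by omega⟩
    have h1 := (up z hz n (by omega)).1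
    rw [hn, hE2, add_zero] at h1
    rw [← hm1]
    exact h1
  -- the seams away from the column `u0`
  have other : ∀ z, Odd z → ¬ 2 * N ∣ z - u0 →
      c (P.M (P.x (col z))) ∧ P.M (P.x (col z)) ≠ P.x 0 ∧ P.M (P.x (col z)) ≠ P.x (-1) := by
    intro z hz hd
    have hcg : ¬ c (P.x (col z)) := by
      rw [hc]
      exact Int.not_even_iff_odd.2 (col_par' z hz)
    have hcg' : c (P.M (P.x (col z))) := (hcM _).2 hcg
    refine ⟨hcg', ?_, ?_⟩
    · intro h0
      apply hd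
      have h1 : P.x (col z) = P.x u0 := by rw [hu0, ← h0, P.M_M]
      have h2 : col z = u0 := by
        by_contra hne
        have h3 := col_ge z
        have h4 := col_le z
        exact P.x_ne hne (by omega) (by omega) h1
      have h3 := col_dvd z
      rwa [h2] at h3
    · intro h0
      rw [h0] at hcg'
      exact hc1 hcg'
  have colu0 : col u0 = u0 := col_uniq u0 u0 (by omega) (by omega) (by simp)
  have colu : ∀ z, 2 * N ∣ z - u0 → col z = u0 := fun z hz => col_uniq z u0 (by omega) (by omega) hz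
  -- the new connections at the column `u0`
  have c1 : f (P.x u0) (Q.x 0) = f (P.x u0) (Q.x ((a : ℤ) - 1)) := by
    rw [← a3, hMu0, ← b3, ha, ← a6, ← hu0]
  have c2 : f (P.x u0) (Q.x (-1)) = f (P.x (-1)) (Q.x (-1)) := by
    have e1 : f (P.x (-1)) (Q.M (Q.x (-1))) = f (P.x 0) (Q.M (Q.x (-1))) := by
      rw [← P.A_zero]
      exact a2 _ _ hk_in.1 hk_in.2.1 hk_in.2.2.1 hk_in.2.2.2 hrk
    rw [← a4, hMu0, ← b3, ← e1, b4]
  have c3 : f (P.x (-1)) (Q.x (-1)) = f (P.x (-1)) (Q.x 0) := by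
    rw [← a4, hvA _ hu1n (P.M_ne _) hcu1, a3]
  have c4 : f (P.x (-1)) (Q.x 0) = f (P.x (-1)) (Q.x ((a : ℤ) - 1)) := by
    rw [← b4, ha]
  have c5 : f (P.x (-1)) (Q.x ((a : ℤ) - 1)) = f (P.x (-1)) (Q.x a) := by
    rw [← a6, ← hvA' _ hu1n (P.M_ne _) hcu1, a5]
  have c6 : f (P.x (-1)) (Q.x a) = f (P.x (2 * N)) (Q.x l) := by
    rw [← b4, hl, he1 _ hl_in.1 hl_in.2.1 hl_in.2.2.1 hl_in.2.2.2 hrl]
  have c7 : f (P.x u0) (Q.x a) = f (P.x 1) (Q.x l) := by
    rw [← a5, hMu0, ← b3, hl, he0 _ hl_in.1 hl_in.2.1 hl_in.2.2.1 hl_in.2.2.2 hrl]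
  have c8 : f (P.x 1) (Q.x l) = f (P.x (2 * N)) (Q.x l) := by
    have h1 := gd u0 hu0odd
    rw [colu0] at h1
    rw [← c7, ← h1, c2, c3, c4, c5, c6]
  -- the torus on the rows `1, …, a - 2`
  have hΦ1 : ∀ z, Odd z → Φ 1 z = f (P.x (col z)) (Q.x 0) := by
    intro z hz
    have := I2 0 z (by simpa using hz)
    simp only [zero_add] at this
    rw [this]
    simp only [Φ, Nat.cast_zero]
  have hΦt : ∀ z, Odd z → f (P.x (col z)) (Q.x ((a : ℤ) - 1)) = Φ (a - 2) z := by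
    intro z hz
    obtain ⟨b, hb⟩ : ∃ b : ℕ, a = b + 2 := ⟨a - 2, by omega⟩
    have hbe : Even (b : ℤ) := by
      have : (a : ℤ) = b + 2 := by exact_mod_cast hb
      rw [this] at haZ
      have := haZ.sub even_two
      rwa [add_sub_cancel_right] at this
    have e1 : a - 2 = b := by omega
    have := I2 b z (hz.add_even hbe)
    rw [e1, ← this]
    simp only [Φ]
    congr 2
    push_cast
    have : (a : ℤ) = b + 2 := by exact_mod_cast hb
    rw [this]
    ring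
  have tor := torusPlain N E hco (a - 2) (by omega) (by
      obtain ⟨b, hb⟩ := hae
      exact ⟨b - 1, by omega⟩) Φ (fun y => dir Q r y) hdirO
    (fun y z => by simp only [Φ]; rw [col_per])
    (fun y h1 h2 z hz => by
      obtain ⟨h6, h7, h8, h9⟩ := inner y (by omega) (by omega) (by omega) (by omega)
      refine I1 y h1 (by omega) (by omega) (by omega) (fun h3 => ?_) z hz
      by_cases hyl : y = l
      · rw [hyl]
        exact c8
      · exact hwrap _ h6 h7 h8 h9 h3 (Q.x_ne (by omega) (by omega) (by omega)))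
    (fun y _ _ z hz => I2 y z hz)
    (fun z hz => by
      rw [hΦ1 z hz, ← hΦt z hz]
      by_cases hd : 2 * N ∣ z - u0
      · rw [colu z hd, c1]
      · obtain ⟨o1, o2, o3⟩ := other z hz hd
        rw [← a3, ← hvA _ o2 o3 o1, a4, gd z hz, ← a5, hvA' _ o2 o3 o1, a6])
    (by
      rw [hE]
      congr 2
      omega)
  -- the value
  obtain ⟨c0, hc0'⟩ : ∃ c0, c0 = Φ 1 1 := ⟨_, rfl⟩
  rw [← hc0'] at tor
  have bulk1 : ∀ ζ : ℤ, 1 ≤ ζ → ζ ≤ P.p - 2 → ∀ y : ℕ, 1 ≤ y → y + 2 ≤ a →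
      f (P.x ζ) (Q.x y) = c0 := by
    intro ζ h1 h2 y h3 h4
    have h5 := tor y h3 (by omega) ζ
    simp only [Φ] at h5
    rwa [col_uniq ζ ζ h1 (by omega) (by simp)] at h5
  have hl2N : f (P.x (2 * N)) (Q.x l) = c0 := bulk1 _ (by omega) (by omega) l hl1 hl2
  -- the exchange rows, odd columns
  have o0 : ∀ z, Odd z → f (P.x (col z)) (Q.x 0) = c0 := by
    intro z hz
    rw [← hΦ1 z hz]
    exact tor 1 le_rfl (by omega) z
  have ob : ∀ z, Odd z → f (P.x (col z)) (Q.x ((a : ℤ) - 1)) = c0 := by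
    intro z hz
    rw [hΦt z hz]
    exact tor (a - 2) (by omega) le_rfl z
  have om : ∀ z, Odd z → f (P.x (col z)) (Q.x (-1)) = c0 := by
    intro z hz
    by_cases hd : 2 * N ∣ z - u0
    · rw [colu z hd, c2, c3, c4, c5, c6, hl2N]
    · obtain ⟨o1, o2, o3⟩ := other z hz hd
      rw [← a4, hvA _ o2 o3 o1, a3, o0 z hz]
  have oa : ∀ z, Odd z → f (P.x (col z)) (Q.x a) = c0 := by
    intro z hz
    rw [← gd z hz, om z hz]
  -- the rows above `a`
  have W1 : ∀ n : ℕ, a + n < q1 → ∀ z : ℤ, Odd (z + ((a + n : ℕ) : ℤ)) → Φ (a + n) z = c0 := by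
    intro n
    induction n with
    | zero =>
      intro _ z hz
      have hz' : Odd z := by
        have := hz.sub_even haZ
        simp only [add_zero] at this
        rwa [add_sub_cancel_right] at this
      exact oa z hz'
    | succ n ih =>
      intro hn z hz
      have i1 := ih (by omega)
      have hz2 : Even ((z - dir Q r ((a + (n + 1) : ℕ) : ℤ)) + ((a + (n + 1) : ℕ) : ℤ)) := by
        have := hz.sub_odd (hdirO (a + (n + 1)))
        rwa [show z + ((a + (n + 1) : ℕ) : ℤ) - dir Q r ((a + (n + 1) : ℕ) : ℤ)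
          = (z - dir Q r ((a + (n + 1) : ℕ) : ℤ)) + ((a + (n + 1) : ℕ) : ℤ) by ring] at this
      have j1 := J1 (a + (n + 1)) (by omega) hn _ hz2
      rw [sub_add_cancel] at j1
      rw [j1]
      have e1 : a + (n + 1) = (a + n) + 1 := by ring
      have hz3 : Odd ((z - dir Q r ((a + (n + 1) : ℕ) : ℤ)) + ((a + n : ℕ) : ℤ)) := by
        have := hz2.sub_odd odd_one
        push_cast at this ⊢
        rwa [show z - dir Q r ((a : ℤ) + (n + 1)) + ((a : ℤ) + (n + 1)) - 1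
          = z - dir Q r ((a : ℤ) + (n + 1)) + ((a : ℤ) + n) by ring] at this
      have j2 := I2 (a + n) _ hz3
      rw [← e1] at j2
      rw [j2]
      exact i1 _ hz3
  have bulk2 : ∀ ζ : ℤ, 1 ≤ ζ → ζ ≤ P.p - 2 → ∀ y : ℕ, a < y → y < q1 →
      f (P.x ζ) (Q.x y) = c0 := by
    intro ζ h1 h2 y h3 h4
    have hcol : col ζ = ζ := col_uniq ζ ζ h1 (by omega) (by simp)
    obtain ⟨n, rfl⟩ : ∃ n, y = a + (n + 1) := ⟨y - a - 1, by omega⟩
    have key : Φ (a + (n + 1)) ζ = c0 := by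
      rcases Int.even_or_odd (ζ + ((a + (n + 1) : ℕ) : ℤ)) with hz | hz
      · have hz3 : Odd (ζ + ((a + n : ℕ) : ℤ)) := by
          have := hz.sub_odd odd_one
          push_cast at this ⊢
          rwa [show ζ + ((a : ℤ) + (n + 1)) - 1 = ζ + ((a : ℤ) + n) by ring] at this
        have j2 := I2 (a + n) _ hz3
        rw [show a + n + 1 = a + (n + 1) by ring] at j2
        rw [j2]
        exact W1 n (by omega) _ hz3
      · exact W1 (n + 1) h4 _ hz
    simp only [Φ] at key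
    rwa [hcol] at key
  have rows : ∀ h, h ≠ Q.x 0 → h ≠ Q.x (-1) → h ≠ Q.x a → h ≠ Q.x ((a : ℤ) - 1) →
      ∀ ζ : ℤ, 1 ≤ ζ → ζ ≤ P.p - 2 → f (P.x ζ) h = c0 := by
    intro h h1 h2 h3 h4 ζ z1 z2
    obtain ⟨y, hy1, hy2, rfl⟩ := Q.exists_inner h h1 h2
    have hya : y ≠ a := fun h0 => h3 (by rw [h0])
    have hyb : y + 1 ≠ a := fun h0 => h4 (by
      congr 1
      omega)
    by_cases hlt : y < a
    · exact bulk1 ζ z1 z2 y hy1 (by omega)
    · exact bulk2 ζ z1 z2 y (by omega) (by omega)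
  have hu0c : ∀ h, (h = Q.x 0 ∨ h = Q.x (-1) ∨ h = Q.x a ∨ h = Q.x ((a : ℤ) - 1)) →
      f (P.x u0) h = c0 := by
    have e1 := o0 u0 hu0odd
    have e2 := om u0 hu0odd
    have e3 := oa u0 hu0odd
    have e4 := ob u0 hu0odd
    rw [colu0] at e1 e2 e3 e4
    rintro h (rfl | rfl | rfl | rfl)
    · exact e1
    · exact e2
    · exact e3
    · exact e4
  -- the column `x 0`
  have col0n : ∀ h, h ≠ Q.x 0 → h ≠ Q.x (-1) → h ≠ Q.x a → h ≠ Q.x ((a : ℤ) - 1) → ¬ r h →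
      f (P.x 0) h = c0 ∧ f (P.x (-1)) h = c0 := by
    intro h h1 h2 h3 h4 h5
    rw [he0 h h1 h2 h3 h4 h5, he1 h h1 h2 h3 h4 h5]
    exact ⟨rows h h1 h2 h3 h4 _ (by omega) (by omega), rows h h1 h2 h3 h4 _ (by omega) (by omega)⟩
  have col00 : f (P.x 0) (Q.x 0) = c0 := by
    rw [← a3, ← hu0]
    exact hu0c _ (Or.inl rfl)
  have col0m : f (P.x 0) (Q.x (-1)) = c0 := by
    rw [← a4, ← hu0]
    exact hu0c _ (Or.inr (Or.inl rfl))
  have col0a : f (P.x 0) (Q.x a) = c0 := by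
    rw [← a5, ← hu0]
    exact hu0c _ (Or.inr (Or.inr (Or.inl rfl)))
  have col0b : f (P.x 0) (Q.x ((a : ℤ) - 1)) = c0 := by
    rw [← a6, ← hu0]
    exact hu0c _ (Or.inr (Or.inr (Or.inr rfl)))
  have col0r : ∀ h, h ≠ Q.x 0 → h ≠ Q.x (-1) → h ≠ Q.x a → h ≠ Q.x ((a : ℤ) - 1) → r h →
      f (P.x 0) h = c0 ∧ f (P.x (-1)) h = c0 := by
    intro h h1 h2 h3 h4 h5
    have e0 : f (P.x (-1)) h = f (P.x 0) h := by
      rw [← P.A_zero]
      exact a2 _ _ h1 h2 h3 h4 h5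
    have e1 : f (P.x 0) h = c0 := by
      rw [← b3]
      have hnr : ¬ r (Q.M h) := by rw [hr]; exact fun h => h h5
      by_cases k0 : Q.M h = Q.x 0
      · rw [k0, col00]
      by_cases k1 : Q.M h = Q.x (-1)
      · rw [k1, col0m]
      by_cases k2 : Q.M h = Q.x a
      · rw [k2, col0a]
      by_cases k3 : Q.M h = Q.x ((a : ℤ) - 1)
      · rw [k3, col0b]
      exact (col0n _ k0 k1 k2 k3 hnr).1
    exact ⟨e1, by rw [e0, e1]⟩
  have colr : ∀ h, h ≠ Q.x 0 → h ≠ Q.x (-1) → h ≠ Q.x a → h ≠ Q.x ((a : ℤ) - 1) →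
      f (P.x 0) h = c0 ∧ f (P.x (-1)) h = c0 := by
    intro h h1 h2 h3 h4
    by_cases h5 : r h
    · exact col0r h h1 h2 h3 h4 h5
    · exact col0n h h1 h2 h3 h4 h5
  have colma : f (P.x (-1)) (Q.x a) = c0 := by rw [c6, hl2N]
  have colmb : f (P.x (-1)) (Q.x ((a : ℤ) - 1)) = c0 := by rw [c5, colma]
  have colm0 : f (P.x (-1)) (Q.x 0) = c0 := by rw [c4, colmb]
  have colmm : f (P.x (-1)) (Q.x (-1)) = c0 := by rw [c3, colm0]
  have C0 : ∀ h, f (P.x 0) h = c0 := by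
    intro h
    by_cases k0 : h = Q.x 0
    · rw [k0, col00]
    by_cases k1 : h = Q.x (-1)
    · rw [k1, col0m]
    by_cases k2 : h = Q.x a
    · rw [k2, col0a]
    by_cases k3 : h = Q.x ((a : ℤ) - 1)
    · rw [k3, col0b]
    exact (colr h k0 k1 k2 k3).1
  have C1 : ∀ h, f (P.x (-1)) h = c0 := by
    intro h
    by_cases k0 : h = Q.x 0
    · rw [k0, colm0]
    by_cases k1 : h = Q.x (-1)
    · rw [k1, colmm]
    by_cases k2 : h = Q.x a
    · rw [k2, colma]
    by_cases k3 : h = Q.x ((a : ℤ) - 1)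
    · rw [k3, colmb]
    exact (colr h k0 k1 k2 k3).2
  -- the exchange rows
  have exO : ∀ v, ¬ c v → ∀ h, (h = Q.x 0 ∨ h = Q.x (-1) ∨ h = Q.x a ∨ h = Q.x ((a : ℤ) - 1)) →
      f v h = c0 := by
    intro v hv h hh
    by_cases v0 : v = P.x 0
    · rw [v0, C0]
    by_cases v1 : v = P.x (-1)
    · rw [v1, C1]
    obtain ⟨ζ, z1, z2, rfl⟩ := P.exists_inner v v0 v1
    rw [hc, Int.not_even_iff_odd] at hv
    have hcol : col ζ = ζ := col_uniq ζ ζ (by omega) (by omega) (by simp)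
    have e1 := o0 ζ hv
    have e2 := om ζ hv
    have e3 := oa ζ hv
    have e4 := ob ζ hv
    rw [hcol] at e1 e2 e3 e4
    rcases hh with rfl | rfl | rfl | rfl
    · exact e1
    · exact e2
    · exact e3
    · exact e4
  have ex : ∀ v, ∀ h, (h = Q.x 0 ∨ h = Q.x (-1) ∨ h = Q.x a ∨ h = Q.x ((a : ℤ) - 1)) →
      f v h = c0 := by
    intro v h hh
    by_cases hv : c v
    · have hv' : ¬ c (P.M v) := fun h0 => (hcM v).1 h0 hv
      have e1 := exO _ hv' h hh
      rcases hh with rfl | rfl | rfl | rfl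
      · rw [← a3, e1]
      · rw [← a4, e1]
      · rw [← a5, e1]
      · rw [← a6, e1]
    · exact exO v hv h hh
  have all : ∀ v h, f v h = c0 := by
    intro v h
    by_cases k0 : h = Q.x 0
    · exact ex v h (Or.inl k0)
    by_cases k1 : h = Q.x (-1)
    · exact ex v h (Or.inr (Or.inl k1))
    by_cases k2 : h = Q.x a
    · exact ex v h (Or.inr (Or.inr (Or.inl k2)))
    by_cases k3 : h = Q.x ((a : ℤ) - 1)
    · exact ex v h (Or.inr (Or.inr (Or.inr k3)))
    by_cases v0 : v = P.x 0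
    · rw [v0, C0]
    by_cases v1 : v = P.x (-1)
    · rw [v1, C1]
    obtain ⟨ζ, z1, z2, rfl⟩ := P.exists_inner v v0 v1
    exact rows h k0 k1 k2 k3 ζ (by omega) (by omega)
  rw [all g h, all g' h']

end HX67
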