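import Pool.Agent.HX67.Defs

/-!
# MP_8634e8_co : existence of a cyclic presentation of a Hamiltonian cubic graph

Written by helper22 for helper67's project HX67.
-/

namespace HX67

open SimpleGraph

theorem exists_mate_iff {V : Type*} (P : Pres V) (v w : V) :
    (∃ i, P.mate i v = w) ↔ (P.A v = w ∨ P.B v = w ∨ P.M v = w) := by
  constructor
  · rintro ⟨i, hi⟩
    fin_cases i
    · exact Or.inl hi
    · exact Or.inr (Or.inl hi)
    · exact Or.inr (Or.inr hi)
  · rintro (h | h | h)
    · exact ⟨0, h⟩
    · exact ⟨1, h⟩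
    · exact ⟨2, h⟩

/-- the cyclic enumeration given by a Hamiltonian cycle -/
theorem exists_enum {V : Type*} [Fintype V] [DecidableEq V] (G : SimpleGraph V) (a : V)
    (c : G.Walk a a) (hc : c.IsHamiltonianCycle) :
    ∃ X : ℤ → V, (∀ z, X (z + (Fintype.card V : ℤ)) = X z) ∧
      (∀ z w, X z = X w → (Fintype.card V : ℤ) ∣ z - w) ∧ (∀ v, ∃ z, X z = v) ∧
      ∀ z, G.Adj (X z) (X (z + 1)) := by
  have hlen : c.length = Fintype.card V := hc.length_eq
  have hpos : 0 < Fintype.card V := Fintype.card_pos_iff.2 ⟨a⟩
  have hposZ : (0 : ℤ) < (Fintype.card V : ℤ) := by exact_mod_cast hpos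
  set n : ℤ := (Fintype.card V : ℤ) with hn
  have hlenZ : (c.length : ℤ) = n := by rw [hlen]
  refine ⟨fun z => c.getVert (z % n).toNat, ?_, ?_, ?_, ?_⟩
  · intro z
    simp only [Int.add_emod_right]
  · intro z w h
    have h1 : 0 ≤ z % n := Int.emod_nonneg _ hposZ.ne'
    have h2 : z % n < n := Int.emod_lt_of_pos _ hposZ
    have h3 : 0 ≤ w % n := Int.emod_nonneg _ hposZ.ne'
    have h4 : w % n < n := Int.emod_lt_of_pos _ hposZ
    have h5 : (z % n).toNat = (w % n).toNat := by
      apply hc.isCycle.getVert_injOn'
      · show (z % n).toNat ≤ c.length - 1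
        omega
      · show (w % n).toNat ≤ c.length - 1
        omega
      · exact h
    have h6 : z % n = w % n := by omega
    exact (Int.emod_emod_of_dvd _ (dvd_refl n) ▸ Int.emod_eq_emod_iff_emod_sub_eq_zero.1 h6 |> Int.dvd_of_emod_eq_zero)
  · intro v
    obtain ⟨i, hi, hil⟩ := Walk.mem_support_iff_exists_getVert.1 (hc.mem_support v)
    rcases Nat.lt_or_ge i c.length with h | h
    · refine ⟨(i : ℤ), ?_⟩
      have : ((i : ℤ) % n) = i := Int.emod_eq_of_lt (by omega) (by omega)
      simp only [this, Int.toNat_natCast]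
      exact hi
    · have hi2 : i = c.length := le_antisymm hil h
      refine ⟨0, ?_⟩
      simp only [Int.zero_emod, Int.toNat_zero, Walk.getVert_zero]
      rw [← hi, hi2, Walk.getVert_length]
  · intro z
    have h1 : 0 ≤ z % n := Int.emod_nonneg _ hposZ.ne'
    have h2 : z % n < n := Int.emod_lt_of_pos _ hposZ
    have hlt : (z % n).toNat < c.length := by omega
    have hadj := c.adj_getVert_succ hlt
    rcases lt_or_ge (z % n + 1) n with h | h
    · have h3 : (z + 1) % n = z % n + 1 := by
        rw [Int.add_emod]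
        rcases lt_or_ge 1 n with h1n | h1n
        · rw [Int.emod_eq_of_lt (by norm_num) h1n, Int.emod_eq_of_lt (by omega) h]
        · omega
      have h4 : ((z + 1) % n).toNat = (z % n).toNat + 1 := by omega
      simp only [h4]
      exact hadj
    · have h3 : (z + 1) % n = 0 := by
        have h4 : z % n = n - 1 := by omega
        have h5 : z + 1 = n * (z / n + 1) := by
          have := Int.emod_add_mul_ediv z n
          rw [h4] at this
          linarith
        rw [h5, Int.mul_emod_right]
      have h4 : (z % n).toNat + 1 = c.length := by omega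
      simp only [h3, Int.toNat_zero, Walk.getVert_zero]
      rw [h4, Walk.getVert_length] at hadj
      exact hadj

theorem exists_pres {V : Type*} [Fintype V] [DecidableEq V] (G : SimpleGraph V)
    [DecidableRel G.Adj] (hreg : G.IsRegularOfDegree 3) (hham : G.IsHamiltonian) :
    ∃ P : Pres V, P.p = Fintype.card V ∧ ∀ v w, G.Adj v w ↔ ∃ i, P.mate i v = w := by
  classical
  -- the number of vertices is at least four and even
  have hne1 : Fintype.card V ≠ 1 := by
    intro h1
    obtain ⟨v, hv⟩ := Fintype.card_eq_one_iff.1 h1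
    have h2 := G.degree_lt_card_verts v
    rw [hreg v, h1] at h2
    omega
  obtain ⟨a, c, hc⟩ := hham hne1
  have hge : 4 ≤ Fintype.card V := by
    have h2 := G.degree_lt_card_verts a
    rw [hreg a] at h2
    omega
  have heven : Even (Fintype.card V) := by
    have h1 := G.sum_degrees_eq_twice_card_edges
    have h2 : ∑ v, G.degree v = 3 * Fintype.card V := by
      rw [Finset.sum_congr rfl (fun v _ => hreg v)]
      simp [mul_comm]
    rw [h2] at h1
    rcases Nat.even_or_odd (Fintype.card V) with h | h
    · exact h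
    · exfalso
      obtain ⟨k, hk⟩ := h
      omega
  obtain ⟨X, hper, hinj, hsurj, hadj⟩ := exists_enum G a c hc
  have hgeZ : (4 : ℤ) ≤ (Fintype.card V : ℤ) := by exact_mod_cast hge
  have hevenZ : Even (Fintype.card V : ℤ) := by exact_mod_cast heven
  set n : ℤ := (Fintype.card V : ℤ) with hn
  -- basic facts on the enumeration
  have hperm : ∀ z k : ℤ, X (z + n * k) = X z := by
    intro z k
    induction k using Int.induction_on with
    | zero => simp
    | succ k ih =>
      have h : z + n * (k + 1) = (z + n * k) + n := by ring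
      rw [h, hper, ih]
    | pred k ih =>
      have h : z + n * (-k) = (z + n * (-k - 1)) + n := by ring
      rw [h, hper] at ih
      exact ih
  choose idx hidx using hsurj
  have hpar : ∀ z w, X z = X w → (Even z ↔ Even w) := by
    intro z w h
    obtain ⟨k, hk⟩ := hinj z w h
    have h2 : Even (z - w) := by
      rw [hk]
      exact hevenZ.mul_right k
    exact Int.even_sub.1 h2
  have hshift : ∀ z w s : ℤ, X z = X w → X (z + s) = X (w + s) := by
    intro z w s h
    obtain ⟨k, hk⟩ := hinj z w h
    have : z + s = (w + s) + n * k := by linarith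
    rw [this, hperm]
  have hxne : ∀ z w : ℤ, z ≠ w → z < w + n → w < z + n → X z ≠ X w := by
    intro z w h h1 h2 h3
    obtain ⟨k, hk⟩ := hinj z w h3
    rcases lt_trichotomy k 0 with hk0 | hk0 | hk0
    · nlinarith
    · rw [hk0, mul_zero] at hk
      omega
    · nlinarith
  -- the two matchings of the cycle
  let A : V → V := fun v => if Odd (idx v) then X (idx v + 1) else X (idx v - 1)
  let B : V → V := fun v => if Even (idx v) then X (idx v + 1) else X (idx v - 1)
  have hAodd : ∀ z, Odd z → A (X z) = X (z + 1) := by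
    intro z hz
    have h1 : X (idx (X z)) = X z := hidx (X z)
    have h2 : Odd (idx (X z)) := by
      rw [← Int.not_even_iff_odd] at hz ⊢
      rwa [hpar _ _ h1]
    show (if Odd (idx (X z)) then X (idx (X z) + 1) else X (idx (X z) - 1)) = X (z + 1)
    rw [if_pos h2]
    exact hshift _ _ 1 h1
  have hAeven : ∀ z, Even z → A (X z) = X (z - 1) := by
    intro z hz
    have h1 : X (idx (X z)) = X z := hidx (X z)
    have h2 : ¬ Odd (idx (X z)) := by
      rw [Int.not_odd_iff_even]
      rwa [hpar _ _ h1]
    show (if Odd (idx (X z)) then X (idx (X z) + 1) else X (idx (X z) - 1)) = X (z - 1)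
    rw [if_neg h2]
    exact hshift _ _ (-1) h1
  have hBeven : ∀ z, Even z → B (X z) = X (z + 1) := by
    intro z hz
    have h1 : X (idx (X z)) = X z := hidx (X z)
    have h2 : Even (idx (X z)) := by
      rwa [hpar _ _ h1]
    show (if Even (idx (X z)) then X (idx (X z) + 1) else X (idx (X z) - 1)) = X (z + 1)
    rw [if_pos h2]
    exact hshift _ _ 1 h1
  have hBodd : ∀ z, Odd z → B (X z) = X (z - 1) := by
    intro z hz
    have h1 : X (idx (X z)) = X z := hidx (X z)
    have h2 : ¬ Even (idx (X z)) := by
      rw [← Int.not_even_iff_odd] at hz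
      rwa [hpar _ _ h1]
    show (if Even (idx (X z)) then X (idx (X z) + 1) else X (idx (X z) - 1)) = X (z - 1)
    rw [if_neg h2]
    exact hshift _ _ (-1) h1
  have hAA : ∀ v, A (A v) = v := by
    intro v
    rw [← hidx v]
    rcases Int.even_or_odd (idx v) with h | h
    · rw [hAeven _ h, hAodd _ (h.sub_odd odd_one)]
      congr 1; ring
    · rw [hAodd _ h, hAeven _ (h.add_odd odd_one)]
      congr 1; ring
  have hBB : ∀ v, B (B v) = v := by
    intro v
    rw [← hidx v]
    rcases Int.even_or_odd (idx v) with h | h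
    · rw [hBeven _ h, hBodd _ (h.add_odd odd_one)]
      congr 1; ring
    · rw [hBodd _ h, hBeven _ (h.sub_odd odd_one)]
      congr 1; ring
  have hadj' : ∀ z, G.Adj (X z) (X (z - 1)) := by
    intro z
    have := hadj (z - 1)
    rw [sub_add_cancel] at this
    exact this.symm
  have hAadj : ∀ v, G.Adj v (A v) := by
    intro v
    obtain ⟨z, hz⟩ : ∃ z, X z = v := ⟨idx v, hidx v⟩
    rw [← hz]
    rcases Int.even_or_odd z with h | h
    · rw [hAeven z h]; exact hadj' z
    · rw [hAodd z h]; exact hadj z
  have hBadj : ∀ v, G.Adj v (B v) := by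
    intro v
    obtain ⟨z, hz⟩ : ∃ z, X z = v := ⟨idx v, hidx v⟩
    rw [← hz]
    rcases Int.even_or_odd z with h | h
    · rw [hBeven z h]; exact hadj z
    · rw [hBodd z h]; exact hadj' z
  have hAneB : ∀ v, A v ≠ B v := by
    intro v
    obtain ⟨z, hz⟩ : ∃ z, X z = v := ⟨idx v, hidx v⟩
    rw [← hz]
    rcases Int.even_or_odd z with h | h
    · rw [hAeven z h, hBeven z h]
      exact hxne _ _ (by omega) (by omega) (by omega)
    · rw [hAodd z h, hBodd z h]
      exact hxne _ _ (by omega) (by omega) (by omega)
  -- the third neighbour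
  have hM : ∀ v, ∃ w, ∀ u, G.Adj v u ↔ (A v = u ∨ B v = u ∨ w = u) := by
    intro v
    have hcard : (G.neighborFinset v).card = 3 := hreg v
    have hAm : A v ∈ G.neighborFinset v := by
      rw [mem_neighborFinset]; exact hAadj v
    have hBm : B v ∈ (G.neighborFinset v).erase (A v) := by
      rw [Finset.mem_erase, mem_neighborFinset]
      exact ⟨(hAneB v).symm, hBadj v⟩
    have hcard1 : (((G.neighborFinset v).erase (A v)).erase (B v)).card = 1 := by
      rw [Finset.card_erase_of_mem hBm, Finset.card_erase_of_mem hAm, hcard]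
    obtain ⟨w, hw⟩ := Finset.card_eq_one.1 hcard1
    refine ⟨w, fun u => ?_⟩
    have hwm : ∀ u, u ∈ ((G.neighborFinset v).erase (A v)).erase (B v) ↔ u = w := by
      intro u
      rw [hw, Finset.mem_singleton]
    have h1 := hwm u
    rw [Finset.mem_erase, Finset.mem_erase, mem_neighborFinset] at h1
    have h2 := (hwm w).2 rfl
    rw [Finset.mem_erase, Finset.mem_erase, mem_neighborFinset] at h2
    constructor
    · intro h
      by_cases ha : A v = u
      · exact Or.inl ha
      · by_cases hb : B v = u
        · exact Or.inr (Or.inl hb)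
        · exact Or.inr (Or.inr (h1.1 ⟨fun h => hb h.symm, fun h => ha h.symm, h⟩).symm)
    · rintro (h | h | h)
      · rw [← h]; exact hAadj v
      · rw [← h]; exact hBadj v
      · rw [← h]; exact h2.2.2
  have hM' : ∀ v, ∃ w, (∀ u, G.Adj v u ↔ (A v = u ∨ B v = u ∨ w = u)) ∧ w ≠ A v ∧ w ≠ B v := by
    intro v
    obtain ⟨w, hw⟩ := hM v
    have hcard : (G.neighborFinset v).card = 3 := hreg v
    have hset : G.neighborFinset v = {A v, B v, w} := by
      ext u
      rw [mem_neighborFinset, hw u]
      simp only [Finset.mem_insert, Finset.mem_singleton]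
      constructor
      · rintro (h | h | h)
        · exact Or.inl h.symm
        · exact Or.inr (Or.inl h.symm)
        · exact Or.inr (Or.inr h.symm)
      · rintro (h | h | h)
        · exact Or.inl h.symm
        · exact Or.inr (Or.inl h.symm)
        · exact Or.inr (Or.inr h.symm)
    refine ⟨w, hw, ?_, ?_⟩
    · intro h
      rw [hset, h] at hcard
      have : ({A v, B v, A v} : Finset V) = {A v, B v} := by
        ext u; simp; tauto
      rw [this] at hcard
      have := Finset.card_le_two (a := A v) (b := B v)
      omega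
    · intro h
      rw [hset, h] at hcard
      have : ({A v, B v, B v} : Finset V) = {A v, B v} := by
        ext u; simp
      rw [this] at hcard
      have := Finset.card_le_two (a := A v) (b := B v)
      omega
  choose M hMadj hMA hMB using hM'
  have hMne : ∀ v, M v ≠ v := by
    intro v h
    have : G.Adj v (M v) := (hMadj v (M v)).2 (Or.inr (Or.inr rfl))
    rw [h] at this
    exact G.loopless.irrefl v this
  have hMM : ∀ v, M (M v) = v := by
    intro v
    have h1 : G.Adj v (M v) := (hMadj v (M v)).2 (Or.inr (Or.inr rfl))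
    rcases (hMadj (M v) v).1 h1.symm with h | h | h
    · exfalso
      have h2 := hAA (M v)
      rw [h] at h2
      exact hMA v h2.symm
    · exfalso
      have h2 := hBB (M v)
      rw [h] at h2
      exact hMB v h2.symm
    · exact h
  refine ⟨⟨n, X, A, B, M, hgeZ, hevenZ, hper, hinj, fun v => ⟨idx v, hidx v⟩, hAodd, hAeven,
    hBeven, hBodd, hMM, hMne, hMA, hMB⟩, rfl, ?_⟩
  intro v w
  rw [exists_mate_iff]
  exact hMadj v w

theorem exists_shift {V : Type*} (P : Pres V) (s : ℤ) :
    ∃ P' : Pres V, P'.p = P.p ∧ P'.M = P.M ∧ (∀ z, P'.x z = P.x (z + s)) ∧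
      ∀ v w, (∃ i, P'.mate i v = w) ↔ ∃ i, P.mate i v = w := by
  have e1 : ∀ z : ℤ, z + 1 + s = z + s + 1 := fun z => by ring
  have e2 : ∀ z : ℤ, z - 1 + s = z + s - 1 := fun z => by ring
  rcases Int.even_or_odd s with hs | hs
  · refine ⟨⟨P.p, fun z => P.x (z + s), P.A, P.B, P.M, P.p_ge, P.p_even, ?_, ?_, ?_, ?_, ?_, ?_,
      ?_, P.M_M, P.M_ne, P.M_A, P.M_B⟩, rfl, rfl, fun z => rfl, fun v w => Iff.rfl⟩
    · intro z
      have h : z + P.p + s = z + s + P.p := by ring
      simp only [h, P.per]
    · intro z w h
      have h1 := P.inj _ _ h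
      have h2 : z + s - (w + s) = z - w := by ring
      rwa [h2] at h1
    · intro v
      obtain ⟨z, hz⟩ := P.surj v
      exact ⟨z - s, by simp only [sub_add_cancel]; exact hz⟩
    · intro z hz
      simp only [e1]
      exact P.A_odd _ (hz.add_even hs)
    · intro z hz
      simp only [e2]
      exact P.A_even _ (hz.add hs)
    · intro z hz
      simp only [e1]
      exact P.B_even _ (hz.add hs)
    · intro z hz
      simp only [e2]
      exact P.B_odd _ (hz.add_even hs)
  · refine ⟨⟨P.p, fun z => P.x (z + s), P.B, P.A, P.M, P.p_ge, P.p_even, ?_, ?_, ?_, ?_, ?_, ?_,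
      ?_, P.M_M, P.M_ne, P.M_B, P.M_A⟩, rfl, rfl, fun z => rfl, ?_⟩
    · intro z
      have h : z + P.p + s = z + s + P.p := by ring
      simp only [h, P.per]
    · intro z w h
      have h1 := P.inj _ _ h
      have h2 : z + s - (w + s) = z - w := by ring
      rwa [h2] at h1
    · intro v
      obtain ⟨z, hz⟩ := P.surj v
      exact ⟨z - s, by simp only [sub_add_cancel]; exact hz⟩
    · intro z hz
      simp only [e1]
      exact P.B_even _ (hz.add_odd hs)
    · intro z hz
      simp only [e2]
      exact P.B_odd _ (hz.add_odd hs)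
    · intro z hz
      simp only [e1]
      exact P.A_odd _ (hz.add_odd hs)
    · intro z hz
      simp only [e2]
      exact P.A_even _ (hz.add_odd hs)
    · intro v w
      rw [exists_mate_iff, exists_mate_iff]
      show (P.B v = w ∨ P.A v = w ∨ P.M v = w) ↔ (P.A v = w ∨ P.B v = w ∨ P.M v = w)
      tauto

theorem adj_succ {V : Type*} (G : SimpleGraph V) (P : Pres V)
    (hadj : ∀ v w, G.Adj v w ↔ ∃ i, P.mate i v = w) (z : ℤ) : G.Adj (P.x z) (P.x (z + 1)) := by
  rw [hadj, exists_mate_iff]
  rcases Int.even_or_odd z with h | h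
  · exact Or.inr (Or.inl (P.B_even z h))
  · exact Or.inl (P.A_odd z h)

theorem parity_of_colorable {V : Type*} (G : SimpleGraph V) (P : Pres V)
    (hadj : ∀ v w, G.Adj v w ↔ ∃ i, P.mate i v = w) (h2 : G.Colorable 2) (z w : ℤ)
    (h : P.M (P.x z) = P.x w) : Even w ↔ ¬ Even z := by
  obtain ⟨C⟩ := h2
  have key : ∀ u v, G.Adj u v → C u ≠ C v := fun u v huv => C.valid huv
  have two : ∀ i j k : Fin 2, i ≠ j → j ≠ k → i = k := by decide
  -- the colour along the cycle
  have hcol : ∀ z : ℤ, (Even z → C (P.x z) = C (P.x 0)) ∧ (¬ Even z → C (P.x z) ≠ C (P.x 0)) := by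
    intro z
    induction z using Int.induction_on with
    | zero => exact ⟨fun _ => rfl, fun h => absurd (by decide) h⟩
    | succ k ih =>
      have h1 := key _ _ (adj_succ G P hadj k)
      constructor
      · intro h3
        have h4 : ¬ Even (k : ℤ) := by
          rw [Int.even_add_one] at h3; exact h3
        exact (two _ _ _ (ih.2 h4).symm h1).symm
      · intro h3
        have h4 : Even (k : ℤ) := by
          rw [Int.even_add_one, not_not] at h3; exact h3
        rw [← ih.1 h4]
        exact h1.symm
    | pred k ih =>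
      have h1 := key _ _ (adj_succ G P hadj (-k - 1))
      rw [sub_add_cancel] at h1
      constructor
      · intro h3
        have h4 : ¬ Even (-k : ℤ) := by
          intro h5
          have : (-(k : ℤ)) = (-k - 1) + 1 := by ring
          rw [this, Int.even_add_one] at h5
          exact h5 h3
        exact two _ _ _ h1 (ih.2 h4)
      · intro h3
        have h4 : Even (-k : ℤ) := by
          have : (-(k : ℤ)) = (-k - 1) + 1 := by ring
          rw [this, Int.even_add_one]
          exact h3
        rw [← ih.1 h4]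
        exact h1
  have hzw : C (P.x z) ≠ C (P.x w) := by
    apply key
    rw [hadj, exists_mate_iff]
    exact Or.inr (Or.inr h)
  constructor
  · intro hw hz
    exact hzw (((hcol z).1 hz).trans ((hcol w).1 hw).symm)
  · intro hz
    by_contra hw
    exact hzw (two _ _ _ ((hcol z).2 hz) ((hcol w).2 hw).symm)

theorem exists_even_chord {V : Type*} (G : SimpleGraph V) (P : Pres V)
    (hadj : ∀ v w, G.Adj v w ↔ ∃ i, P.mate i v = w) (h2 : ¬ G.Colorable 2) :
    ∃ z w, P.M (P.x z) = P.x w ∧ (Even w ↔ Even z) := by
  classical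
  by_contra hcon
  push Not at hcon
  apply h2
  choose idx hidx using P.surj
  have hpar : ∀ z, (Even (idx (P.x z)) ↔ Even z) := fun z => P.parity_of_eq (hidx (P.x z))
  refine ⟨SimpleGraph.Coloring.mk (fun v => if Even (idx v) then (0 : Fin 2) else 1) ?_⟩
  intro v w hvw
  obtain ⟨z, rfl⟩ := P.surj v
  -- it is enough to see that the parities differ
  have suff : ∀ y : ℤ, w = P.x y → (Even y ↔ ¬ Even z) →
      (if Even (idx (P.x z)) then (0 : Fin 2) else 1) ≠ (if Even (idx w) then (0 : Fin 2) else 1) := by
    intro y hy hyz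
    subst hy
    have h3 := hpar z
    have h4 := hpar y
    by_cases hz : Even z
    · have hy : ¬ Even y := by
        rw [hyz, not_not]; exact hz
      rw [if_pos (h3.2 hz), if_neg (fun h => hy (h4.1 h))]
      decide
    · have hy : Even y := hyz.2 hz
      rw [if_neg (fun h => hz (h3.1 h)), if_pos (h4.2 hy)]
      decide
  have hp1 : (Even (z + 1) ↔ ¬ Even z) := Int.even_add_one
  have hm1 : (Even (z - 1) ↔ ¬ Even z) := by
    have := Int.even_add_one (n := z - 1)
    rw [sub_add_cancel] at this
    tauto
  rw [hadj, exists_mate_iff] at hvw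
  rcases hvw with h | h | h
  · rcases Int.even_or_odd z with hz | hz
    · rw [P.A_even z hz] at h
      exact suff (z - 1) h.symm hm1
    · rw [P.A_odd z hz] at h
      exact suff (z + 1) h.symm hp1
  · rcases Int.even_or_odd z with hz | hz
    · rw [P.B_even z hz] at h
      exact suff (z + 1) h.symm hp1
    · rw [P.B_odd z hz] at h
      exact suff (z - 1) h.symm hm1
  · obtain ⟨y, rfl⟩ := P.surj w
    refine suff y rfl ?_
    have := hcon z y h
    tauto

end HX67
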