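import Pool.Agent.HX67.Split
import Pool.Agent.HX67.Signs
import Pool.Agent.HX67.Present

/-!
# The three classes together
-/

namespace HX67

open Finset
open scoped Classical

theorem core {V W : Type*} [Fintype V] [Fintype W] [DecidableEq V] [DecidableEq W]
    (G : SimpleGraph V) (H : SimpleGraph W) (P : Pres V) (Q : Pres W)
    (hG : ∀ v w, G.Adj v w ↔ ∃ i, P.mate i v = w) (hH : ∀ v w, H.Adj v w ↔ ∃ i, Q.mate i v = w)
    (hPb : ∀ z w, P.M (P.x z) = P.x w → (Even w ↔ ¬ Even z))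
    (r : W → Prop) (hr : ∀ h, r (Q.M h) ↔ ¬ r h) (hr0 : r (Q.x 0)) (hr1 : ¬ r (Q.x (-1)))
    (hk : ∃ k, Even k ∧ Q.M (Q.x 0) = Q.x k) (E : ℤ) (hco : IsCoprime E (P.p / 2 - 1))
    (hE : 2 * E = ∑ y ∈ Ico 1 ((Q.p - 2).toNat + 1), dir Q r y) :
    H93HD.HamDecomp (G □ H) 3 := by
  have : Nonempty V := ⟨P.x 0⟩
  have : Nonempty W := ⟨Q.x 0⟩
  obtain ⟨c, hcdef⟩ : ∃ c : V → Prop, c = fun g => ¬ P.par g := ⟨_, rfl⟩
  have hc : ∀ z, c (P.x z) ↔ Even z := by
    intro z
    rw [hcdef]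
    show ¬ P.par (P.x z) ↔ Even z
    rw [P.par_x, Int.not_odd_iff_even]
  have hcM : ∀ g, c (P.M g) ↔ ¬ c g := by
    intro g
    obtain ⟨z, rfl⟩ := P.surj g
    obtain ⟨w, hw⟩ := P.surj (P.M (P.x z))
    rw [← hw, hc, hc]
    exact hPb z w hw.symm
  have hc0 : c (P.x 0) := (hc 0).2 (by decide)
  have hc1 : ¬ c (P.x (-1)) := fun h => absurd ((hc (-1)).1 h) (by decide)
  have hg01 : P.x (-1) ≠ P.x 0 := P.zero_ne_neg.symm
  have hh01 : Q.x (-1) ≠ Q.x 0 := Q.zero_ne_neg.symm
  let ρ : W → Fin 3 → Fin 3 := fun h =>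
    if h = Q.x 0 then ![1, 2, 0] else if h = Q.x (-1) then ![0, 2, 1] else
      if r h then ![1, 0, 2] else ![0, 1, 2]
  let σ : V → Fin 3 → Fin 3 := fun g =>
    if g = P.x 0 then ![0, 2, 1] else if g = P.x (-1) then ![1, 2, 0] else
      if c g then ![2, 0, 1] else ![2, 1, 0]
  have ρ0 : ρ (Q.x 0) = ![1, 2, 0] := by simp only [ρ, if_true]
  have ρ1 : ρ (Q.x (-1)) = ![0, 2, 1] := by simp only [ρ, if_neg hh01, if_true]
  have ρr : ∀ h, h ≠ Q.x 0 → h ≠ Q.x (-1) → r h → ρ h = ![1, 0, 2] := by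
    intro h h1 h2 h3
    simp only [ρ, if_neg h1, if_neg h2, if_pos h3]
  have ρn : ∀ h, h ≠ Q.x 0 → h ≠ Q.x (-1) → ¬ r h → ρ h = ![0, 1, 2] := by
    intro h h1 h2 h3
    simp only [ρ, if_neg h1, if_neg h2, if_neg h3]
  have σ0 : σ (P.x 0) = ![0, 2, 1] := by simp only [σ, if_true]
  have σ1 : σ (P.x (-1)) = ![1, 2, 0] := by simp only [σ, if_neg hg01, if_true]
  have σc : ∀ g, g ≠ P.x 0 → g ≠ P.x (-1) → c g → σ g = ![2, 0, 1] := by
    intro h h1 h2 h3
    simp only [σ, if_neg h1, if_neg h2, if_pos h3]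
  have σn : ∀ g, g ≠ P.x 0 → g ≠ P.x (-1) → ¬ c g → σ g = ![2, 1, 0] := by
    intro h h1 h2 h3
    simp only [σ, if_neg h1, if_neg h2, if_neg h3]
  -- the matchings of the classes
  have ρ_0r : ∀ h, r h → ρ h 0 = 1 := by
    intro h h1
    by_cases h2 : h = Q.x 0
    · rw [h2, ρ0]; rfl
    by_cases h3 : h = Q.x (-1)
    · exact absurd (h3 ▸ h1) hr1
    rw [ρr h h2 h3 h1]; rfl
  have ρ_0n : ∀ h, ¬ r h → ρ h 0 = 0 := by
    intro h h1
    by_cases h2 : h = Q.x 0
    · exact absurd hr0 (h2 ▸ h1)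
    by_cases h3 : h = Q.x (-1)
    · rw [h3, ρ1]; rfl
    rw [ρn h h2 h3 h1]; rfl
  have ρ_2 : ∀ h, h ≠ Q.x 0 → h ≠ Q.x (-1) → ρ h 2 = 2 := by
    intro h h2 h3
    by_cases h1 : r h
    · rw [ρr h h2 h3 h1]; rfl
    · rw [ρn h h2 h3 h1]; rfl
  have σ_0 : ∀ g, g ≠ P.x 0 → g ≠ P.x (-1) → σ g 0 = 2 := by
    intro h h2 h3
    by_cases h1 : c h
    · rw [σc h h2 h3 h1]; rfl
    · rw [σn h h2 h3 h1]; rfl
  have σ_2c : ∀ g, c g → σ g 2 = 1 := by
    intro h h1
    by_cases h2 : h = P.x 0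
    · rw [h2, σ0]; rfl
    by_cases h3 : h = P.x (-1)
    · exact absurd (h3 ▸ h1) hc1
    rw [σc h h2 h3 h1]; rfl
  have σ_2n : ∀ g, ¬ c g → σ g 2 = 0 := by
    intro h h1
    by_cases h2 : h = P.x 0
    · exact absurd hc0 (h2 ▸ h1)
    by_cases h3 : h = P.x (-1)
    · rw [h3, σ1]; rfl
    rw [σn h h2 h3 h1]; rfl
  have bij : ∀ π : Fin 3 → Fin 3, (π = ![1, 2, 0] ∨ π = ![0, 2, 1] ∨ π = ![1, 0, 2] ∨
      π = ![0, 1, 2] ∨ π = ![2, 0, 1] ∨ π = ![2, 1, 0]) → Function.Bijective π := by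
    rintro π (rfl | rfl | rfl | rfl | rfl | rfl) <;> decide
  refine hamDecomp_of_split G H P.mate Q.mate P.mate_mate P.mate_ne Q.mate_mate Q.mate_ne hG hH
    P.mate_inj Q.mate_inj ρ σ (fun h => bij _ ?_) (fun g => bij _ ?_) ?_
  · by_cases h2 : h = Q.x 0
    · rw [h2, ρ0]; tauto
    by_cases h3 : h = Q.x (-1)
    · rw [h3, ρ1]; tauto
    by_cases h1 : r h
    · rw [ρr h h2 h3 h1]; tauto
    · rw [ρn h h2 h3 h1]; tauto
  · by_cases h2 : g = P.x 0
    · rw [h2, σ0]; tauto
    by_cases h3 : g = P.x (-1)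
    · rw [h3, σ1]; tauto
    by_cases h1 : c g
    · rw [σc g h2 h3 h1]; tauto
    · rw [σn g h2 h3 h1]; tauto
  · intro i f hρf hσf
    fin_cases i
    · change ∀ g h, f (P.mate (ρ h 0) g) h = f g h at hρf
      change ∀ g h, f g (Q.mate (σ g 0) h) = f g h at hσf
      refine class1 P Q r hr f ?_ ?_ ?_ ?_ ?_
      · intro g h hh
        have := hρf g h
        rwa [ρ_0n h hh, P.mate_zero] at this
      · intro g h hh
        have := hρf g h
        rwa [ρ_0r h hh, P.mate_one] at this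
      · intro g h h1 h2
        have := hσf g h
        rwa [σ_0 g h1 h2, Q.mate_two] at this
      · intro h
        have := hσf (P.x 0) h
        rw [σ0] at this
        exact this
      · intro h
        have := hσf (P.x (-1)) h
        rw [σ1] at this
        exact this
    · change ∀ g h, f (P.mate (ρ h 1) g) h = f g h at hρf
      change ∀ g h, f g (Q.mate (σ g 1) h) = f g h at hσf
      refine class2 P Q c r hc hcM hr hr0 hr1 hk E hco hE f ?_ ?_ ?_ ?_ ?_ ?_ ?_ ?_
      · intro g h h1 h2 h3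
        have := hρf g h
        rw [ρn h h1 h2 h3] at this
        exact this
      · intro g h h1 h2 h3
        have := hρf g h
        rw [ρr h h1 h2 h3] at this
        exact this
      · intro g
        have := hρf g (Q.x 0)
        rw [ρ0] at this
        exact this
      · intro g
        have := hρf g (Q.x (-1))
        rw [ρ1] at this
        exact this
      · intro g h h1 h2 h3
        have := hσf g h
        rw [σn g h1 h2 h3] at this
        exact this
      · intro g h h1 h2 h3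
        have := hσf g h
        rw [σc g h1 h2 h3] at this
        exact this
      · intro h
        have := hσf (P.x 0) h
        rw [σ0] at this
        exact this
      · intro h
        have := hσf (P.x (-1)) h
        rw [σ1] at this
        exact this
    · change ∀ g h, f (P.mate (ρ h 2) g) h = f g h at hρf
      change ∀ g h, f g (Q.mate (σ g 2) h) = f g h at hσf
      intro g h g' h'
      refine class1 Q P c hcM (fun h g => f g h) ?_ ?_ ?_ ?_ ?_ h g h' g'
      · intro h g hg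
        have := hσf g h
        rwa [σ_2n g hg, Q.mate_zero] at this
      · intro h g hg
        have := hσf g h
        rwa [σ_2c g hg, Q.mate_one] at this
      · intro h g h1 h2
        have := hρf g h
        rwa [ρ_2 h h1 h2, P.mate_two] at this
      · intro g
        have := hρf g (Q.x 0)
        rw [ρ0] at this
        exact this
      · intro g
        have := hρf g (Q.x (-1))
        rw [ρ1] at this
        exact this

end HX67
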