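import Pool.Agent.HX67.Signs

/-!
# The choice of the rows in the bipartite case

Written by helper73 for helper67's project HX67.
-/

namespace HX67

open Finset
open scoped Classical

theorem select_signs {W : Type*} (T S U : Finset W) (c0 c1 c2 : W) (h0 : c0 ∈ U) (h1 : c1 ∈ U)
    (h2 : c2 ∈ T ∨ c2 ∈ U) (hTU : Disjoint T U) (h01 : c0 ≠ c1) (h12 : c1 ≠ c2) (h02 : c0 ≠ c2)
    (hT : Even #T) (hSU : Even (#S + #U)) (hST : S.Nonempty → T.Nonempty) :
    ∃ PT PS PU : Finset W, PT ⊆ T ∧ PS ⊆ S ∧ PU ⊆ U ∧ c1 ∈ PU ∧ c0 ∉ PU ∧ c2 ∉ PT ∧ c2 ∉ PU ∧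
      (2 * (#PT : ℤ) - #T) + 2 * (2 * (#PS : ℤ) - #S) = 0 ∧
      (2 * (#PT : ℤ) - #T) + (2 * (#PS : ℤ) - #S) + (2 * (#PU : ℤ) - #U) = 0 := by
  have hST' : 0 < #S → 0 < #T := fun h => card_pos.2 (hST (card_pos.1 h))
  obtain ⟨t, ht⟩ := hT
  have hU2 : 2 ≤ #U := by
    have h3 : ({c0, c1} : Finset W) ⊆ U := by
      intro x hx
      rw [mem_insert, mem_singleton] at hx
      rcases hx with rfl | rfl
      · exact h0
      · exact h1
    have h4 := card_le_card h3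
    rwa [card_pair h01] at h4
  -- it is enough to find the cardinalities
  have key : ∀ nT nS nU : ℕ, nT ≤ #(T.erase c2) → nS ≤ #S → 1 ≤ nU →
      nU ≤ #((U.erase c0).erase c2) → (2 * (nT : ℤ) - #T) + 2 * (2 * (nS : ℤ) - #S) = 0 →
      (2 * (nT : ℤ) - #T) + (2 * (nS : ℤ) - #S) + (2 * (nU : ℤ) - #U) = 0 →
      ∃ PT PS PU : Finset W, PT ⊆ T ∧ PS ⊆ S ∧ PU ⊆ U ∧ c1 ∈ PU ∧ c0 ∉ PU ∧ c2 ∉ PT ∧ c2 ∉ PU ∧
      (2 * (#PT : ℤ) - #T) + 2 * (2 * (#PS : ℤ) - #S) = 0 ∧
      (2 * (#PT : ℤ) - #T) + (2 * (#PS : ℤ) - #S) + (2 * (#PU : ℤ) - #U) = 0 := by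
    intro nT nS nU g1 g2 g3 g4 g5 g6
    obtain ⟨PT, a1, a2⟩ := exists_subset_card_eq g1
    obtain ⟨PS, b1, b2⟩ := exists_subset_card_eq g2
    have hc : ({c1} : Finset W) ⊆ (U.erase c0).erase c2 := by
      intro x hx
      rw [mem_singleton] at hx
      subst hx
      exact mem_erase.2 ⟨h12, mem_erase.2 ⟨h01.symm, h1⟩⟩
    obtain ⟨PU, e1, e2, e3⟩ := exists_subsuperset_card_eq hc (by rw [card_singleton]; exact g3) g4
    refine ⟨PT, PS, PU, a1.trans (erase_subset _ _), b1,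
      e2.trans ((erase_subset _ _).trans (erase_subset _ _)), e1 (mem_singleton_self _), ?_, ?_, ?_,
      ?_, ?_⟩
    · intro h
      exact (mem_erase.1 (mem_erase.1 (e2 h)).2).1 rfl
    · intro h
      exact (mem_erase.1 (a1 h)).1 rfl
    · intro h
      exact (mem_erase.1 (e2 h)).1 rfl
    · rw [a2, b2]
      exact g5
    · rw [a2, b2, e3]
      exact g6
  have hU0 : #(U.erase c0) = #U - 1 := card_erase_of_mem h0
  obtain ⟨w, hw⟩ := hSU
  rcases h2 with h2 | h2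
  · -- the last chord has one end in `I`
    have hc2U : c2 ∉ U := fun h => (disjoint_left.1 hTU h2) h
    have hU1 : #((U.erase c0).erase c2) = #U - 1 := by
      rw [erase_eq_of_notMem (fun h => hc2U (mem_erase.1 h).2), hU0]
    have hT1 : #(T.erase c2) = #T - 1 := card_erase_of_mem h2
    have hTpos : 0 < #T := card_pos.2 ⟨c2, h2⟩
    rcases Nat.even_or_odd' #S with ⟨s, hs | hs⟩
    · exact key t s (w - s) (by omega) (by omega) (by omega) (by omega) (by omega) (by omega)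
    · exact key (t - 1) (s + 1) (w - s) (by omega) (by omega) (by omega) (by omega) (by omega)
        (by omega)
  · have hc2T : c2 ∉ T := fun h => (disjoint_left.1 hTU h) h2
    have hU1 : #((U.erase c0).erase c2) = #U - 2 := by
      rw [card_erase_of_mem (mem_erase.2 ⟨h02.symm, h2⟩), hU0]
      omega
    have hU3 : 3 ≤ #U := by
      have h3 : ({c0, c1, c2} : Finset W) ⊆ U := by
        intro x hx
        rw [mem_insert, mem_insert, mem_singleton] at hx
        rcases hx with rfl | rfl | rfl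
        · exact h0
        · exact h1
        · exact h2
      have h4 := card_le_card h3
      rwa [card_eq_three.2 ⟨c0, c1, c2, h01, h02, h12, rfl⟩] at h4
    have hT1 : #(T.erase c2) = #T := by
      rw [erase_eq_of_notMem hc2T]
    rcases Nat.even_or_odd' #S with ⟨s, hs | hs⟩
    · exact key t s (w - s) (by omega) (by omega) (by omega) (by omega) (by omega) (by omega)
    · exact key (t + 1) s (w - s - 1) (by omega) (by omega) (by omega) (by omega) (by omega)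
        (by omega)

theorem exists_signs2 {W : Type*} [Fintype W] (Q : Pres W)
    (hb : ∀ h, Q.par (Q.M h) ↔ ¬ Q.par h) (h4 : 4 ∣ Q.p) (k a : ℕ) (hk1 : 1 ≤ k)
    (hk2 : (k : ℤ) ≤ Q.p - 2) (hk : Q.x k = Q.M (Q.x 0)) (ha1 : 2 ≤ a) (ha2 : (a : ℤ) ≤ Q.p - 2)
    (ha : Q.x a = Q.M (Q.x 1))
    (hI : Finset.Ioo (min a k) (max a k) = ∅ ∨ ∃ i ∈ Finset.Ioo (min a k) (max a k),
      ∃ j : ℕ, (j : ℤ) < Q.p ∧ j ∉ Finset.Ioo (min a k) (max a k) ∧ Q.M (Q.x i) = Q.x j) :
    ∃ r : W → Prop, (∀ h, r (Q.M h) ↔ ¬ r h) ∧ r (Q.x 0) ∧ r (Q.x 1) ∧ ¬ r (Q.x (-1)) ∧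
      ∑ y ∈ Ico 1 ((Q.p - 2).toNat + 1), dir Q r y = 2 ∧
      ∑ y ∈ Finset.Ioo (min a k) (max a k), dir Q r y = 0 := by
  have hp := Q.p_ge
  obtain ⟨q, hq⟩ : ∃ q : ℕ, (q : ℤ) = Q.p := ⟨Q.p.toNat, by omega⟩
  obtain ⟨lo, hlo⟩ : ∃ lo, lo = min a k := ⟨_, rfl⟩
  obtain ⟨hi, hhi⟩ : ∃ hi, hi = max a k := ⟨_, rfl⟩
  rw [← hlo, ← hhi] at hI ⊢
  -- parities
  have hxpar : ∀ z : ℤ, (Q.par (Q.x z) ↔ Odd z) := Q.par_x
  have hp0 : ¬ Q.par (Q.x 0) := by
    rw [hxpar]
    decide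
  have hp1 : Q.par (Q.x 1) := by
    rw [hxpar]
    decide
  have hpm : Q.par (Q.x (-1)) := by
    rw [hxpar]
    decide
  have hko : Odd (k : ℤ) := by
    rw [← hxpar, hk, hb]
    exact hp0
  have hae : ¬ Odd (a : ℤ) := by
    rw [← hxpar, ha, hb, not_not]
    exact hp1
  have hxm : Q.x (-1) = Q.x ((q - 1 : ℕ) : ℤ) := by
    rw [← Q.per (-1)]
    congr 1
    omega
  have xinj : ∀ i j : ℕ, i < q → j < q → Q.x i = Q.x j → i = j := by
    intro i j hi hj hij
    by_contra hne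
    exact Q.x_ne (z := i) (w := j) (by omega) (by omega) (by omega) hij
  have xsurj : ∀ h : W, ∃ i : ℕ, i < q ∧ Q.x i = h := by
    intro h
    obtain ⟨e, he⟩ := Q.exists_equiv q hq
    exact ⟨(e.symm h : ℕ), (e.symm h).2, by rw [← he, e.apply_symm_apply]⟩
  -- the vertices with an index in the interval
  obtain ⟨inJ, hinJ⟩ : ∃ inJ : W → Prop, inJ = fun h => ∃ i : ℕ, i < q ∧ (lo < i ∧ i < hi) ∧
    Q.x i = h := ⟨_, rfl⟩
  have inJ_x : ∀ y : ℕ, y < q → (inJ (Q.x y) ↔ lo < y ∧ y < hi) := by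
    intro y hy
    rw [hinJ]
    constructor
    · rintro ⟨i, hi1, hi2, hi3⟩
      rw [xinj i y hi1 hy hi3] at hi2
      exact hi2
    · intro h
      exact ⟨y, hy, h, rfl⟩
  have F : ∀ g : W → ℤ, ∑ y ∈ Ioo lo hi, g (Q.x y) = ∑ h, if inJ h then g h else 0 := by
    intro g
    rw [Q.sum_eq q hq, ← sum_filter]
    refine sum_congr ?_ fun y _ => rfl
    ext y
    rw [mem_filter, mem_range, mem_Ioo]
    constructor
    · intro h
      have hy : y < q := by omega
      exact ⟨hy, (inJ_x y hy).2 h⟩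
    · rintro ⟨hy, h⟩
      exact (inJ_x y hy).1 h
  obtain ⟨O, hO⟩ : ∃ O : Finset W, O = univ.filter (fun h => ¬ Q.par h) := ⟨_, rfl⟩
  have memO : ∀ h, h ∈ O ↔ ¬ Q.par h := by
    intro h
    rw [hO, mem_filter]
    exact ⟨fun h => h.2, fun h => ⟨mem_univ _, h⟩⟩
  have E : ∀ g : W → ℤ, ∑ h, g h = ∑ h ∈ O, (g h + g (Q.M h)) := by
    intro g
    rw [sum_add_distrib, ← sum_filter_add_sum_filter_not univ (fun h => Q.par h), add_comm, ← hO]
    congr 1
    refine sum_nbij' Q.M Q.M ?_ ?_ ?_ ?_ ?_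
    · intro h hh
      rw [memO, hb, not_not]
      exact (mem_filter.1 hh).2
    · intro h hh
      rw [mem_filter, hb]
      exact ⟨mem_univ _, (memO h).1 hh⟩
    · intro h _
      exact Q.M_M h
    · intro h _
      exact Q.M_M h
    · intro h _
      rw [Q.M_M]
  obtain ⟨T, hT⟩ : ∃ T, T = O.filter (fun h => ¬ (inJ h ↔ inJ (Q.M h))) := ⟨_, rfl⟩
  obtain ⟨S, hS⟩ : ∃ S, S = O.filter (fun h => inJ h ∧ inJ (Q.M h)) := ⟨_, rfl⟩
  obtain ⟨U, hU⟩ : ∃ U, U = O.filter (fun h => ¬ inJ h ∧ ¬ inJ (Q.M h)) := ⟨_, rfl⟩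
  have memT : ∀ h, h ∈ T ↔ h ∈ O ∧ ¬ (inJ h ↔ inJ (Q.M h)) := by
    intro h
    rw [hT, mem_filter]
  have memS : ∀ h, h ∈ S ↔ h ∈ O ∧ inJ h ∧ inJ (Q.M h) := by
    intro h
    rw [hS, mem_filter]
  have memU : ∀ h, h ∈ U ↔ h ∈ O ∧ ¬ inJ h ∧ ¬ inJ (Q.M h) := by
    intro h
    rw [hU, mem_filter]
  have split : ∀ g : W → ℤ, ∑ h ∈ O, g h = ∑ h ∈ T, g h + ∑ h ∈ S, g h + ∑ h ∈ U, g h := by
    intro g
    rw [hT, hS, hU, sum_filter, sum_filter, sum_filter, ← sum_add_distrib, ← sum_add_distrib]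
    refine sum_congr rfl fun h _ => ?_
    by_cases h1 : inJ h <;> by_cases h2 : inJ (Q.M h) <;> simp [h1, h2]
  -- cardinalities
  have cardI : (#T : ℤ) + 2 * #S = hi - lo - 1 ∨ hi ≤ lo := by
    rcases Nat.lt_or_ge lo hi with hlt | hge
    · left
      have h1 := F (fun _ => 1)
      rw [E, split] at h1
      have e1 : ∑ h ∈ T, ((if inJ h then (1 : ℤ) else 0) + (if inJ (Q.M h) then 1 else 0)) =
          #T := by
        rw [sum_congr rfl (g := fun _ => (1 : ℤ)), sum_const, nsmul_one]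
        intro h hh
        have h2 := ((memT h).1 hh).2
        by_cases h3 : inJ h <;> by_cases h5 : inJ (Q.M h) <;> simp [h3, h5] at h2 ⊢
      have e2 : ∑ h ∈ S, ((if inJ h then (1 : ℤ) else 0) + (if inJ (Q.M h) then 1 else 0)) =
          2 * #S := by
        rw [sum_congr rfl (g := fun _ => (2 : ℤ)), sum_const, nsmul_eq_mul, mul_comm]
        intro h hh
        have h2 := ((memS h).1 hh).2
        simp [h2.1, h2.2]
      have e3 : ∑ h ∈ U, ((if inJ h then (1 : ℤ) else 0) + (if inJ (Q.M h) then 1 else 0)) =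
          0 := by
        refine sum_eq_zero fun h hh => ?_
        have h2 := ((memU h).1 hh).2
        simp [h2.1, h2.2]
      rw [e1, e2, e3, sum_const, nsmul_one, Nat.card_Ioo] at h1
      omega
    · exact Or.inr hge
  have cardO : (#T : ℤ) + #S + #U = Q.p / 2 := by
    have h1 := Q.card_par (Q.p / 2) (by omega)
    rw [← hO] at h1
    rw [← h1]
    have h2 := split (fun _ => 1)
    simp only [sum_const, nsmul_one] at h2
    exact h2.symm
  have hlohi : lo < hi := by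
    have h1 : (k : ℤ) ≠ a := fun h => hae (h ▸ hko)
    omega
  have hodd : Even #T := by
    have h1 : (#T : ℤ) + 2 * #S = hi - lo - 1 := by
      rcases cardI with h | h
      · exact h
      · omega
    rw [Int.not_odd_iff_even] at hae
    obtain ⟨u, hu⟩ := hko
    obtain ⟨v, hv⟩ := hae
    rw [Nat.even_iff]
    omega
  have hSU : Even (#S + #U) := by
    rw [Nat.even_iff] at hodd ⊢
    omega
  -- the special chords
  have j0 : ¬ inJ (Q.x 0) := by
    have h1 := inJ_x 0 (by omega)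
    push_cast at h1
    rw [h1]
    omega
  have jk : ¬ inJ (Q.x k) := by
    rw [inJ_x k (by omega)]
    omega
  have ja : ¬ inJ (Q.x a) := by
    rw [inJ_x a (by omega)]
    omega
  have j1 : ¬ inJ (Q.x 1) := by
    have h1 := inJ_x 1 (by omega)
    push_cast at h1
    rw [h1]
    omega
  have jm : ¬ inJ (Q.x (-1)) := by
    rw [hxm, inJ_x (q - 1) (by omega)]
    omega
  have c0U : Q.x 0 ∈ U := by
    rw [memU, memO, ← hk]
    exact ⟨hp0, j0, jk⟩
  have c1U : Q.M (Q.x 1) ∈ U := by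
    rw [memU, memO, Q.M_M, hb, not_not, ← ha]
    exact ⟨hp1, ja, j1⟩
  have c2TU : Q.M (Q.x (-1)) ∈ T ∨ Q.M (Q.x (-1)) ∈ U := by
    rw [memT, memU, memO, Q.M_M, hb, not_not]
    by_cases h : inJ (Q.M (Q.x (-1)))
    · exact Or.inl ⟨hpm, fun h' => jm (h'.1 h)⟩
    · exact Or.inr ⟨hpm, h, jm⟩
  have hTU : Disjoint T U := by
    rw [disjoint_left]
    intro h h1 h2
    rw [memT] at h1
    rw [memU] at h2
    exact h1.2 (iff_of_false h2.2.1 h2.2.2)
  have c01 : Q.x 0 ≠ Q.M (Q.x 1) := by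
    rw [← ha]
    exact Q.x_ne (by omega) (by omega) (by omega)
  have c12 : Q.M (Q.x 1) ≠ Q.M (Q.x (-1)) := by
    intro h
    have h1 := congrArg Q.M h
    rw [Q.M_M, Q.M_M] at h1
    exact Q.x_ne (z := 1) (w := -1) (by omega) (by omega) (by omega) h1
  have c02 : Q.x 0 ≠ Q.M (Q.x (-1)) := by
    intro h
    have h1 := congrArg Q.M h
    rw [Q.M_M, ← hk] at h1
    exact Q.x_ne (z := k) (w := -1) (by omega) (by omega) (by omega) h1
  have hST : S.Nonempty → T.Nonempty := by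
    rintro ⟨h, hh⟩
    rw [memS] at hh
    have hne : Ioo lo hi ≠ ∅ := by
      intro h0
      have h1 := hh.2.1
      rw [hinJ] at h1
      obtain ⟨i, _, hi2, _⟩ := h1
      have h2 : i ∈ Ioo lo hi := mem_Ioo.2 hi2
      rw [h0] at h2
      exact absurd h2 (notMem_empty _)
    rcases hI with hI | ⟨i, hi1, j, hj1, hj2, hij⟩
    · exact absurd hI hne
    · rw [mem_Ioo] at hi1 hj2
      have hiJ : inJ (Q.x i) := (inJ_x i (by omega)).2 hi1
      have hjJ : ¬ inJ (Q.x j) := fun h => hj2 ((inJ_x j (by omega)).1 h)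
      by_cases hpi : Q.par (Q.x i)
      · refine ⟨Q.x j, ?_⟩
        rw [memT, memO, ← hij, hb, not_not, Q.M_M, hij]
        exact ⟨hpi, fun h' => hjJ (h'.2 hiJ)⟩
      · refine ⟨Q.x i, ?_⟩
        rw [memT, memO, hij]
        exact ⟨hpi, fun h' => hjJ (h'.1 hiJ)⟩
  obtain ⟨PT, PS, PU, hPT, hPS, hPU, g1, g0, g2, g3, sumI, sumA⟩ :=
    select_signs T S U (Q.x 0) (Q.M (Q.x 1)) (Q.M (Q.x (-1))) c0U c1U c2TU hTU c01 c12 c02 hodd hSU
      hST
  -- the chords with sign `1`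
  obtain ⟨P, hP⟩ : ∃ P : W → Prop, P = fun h => h ∈ PT ∨ h ∈ PS ∨ h ∈ PU := ⟨_, rfl⟩
  have hTS : ∀ h, h ∈ T → h ∉ S := by
    intro h h1 h2
    rw [memT] at h1
    rw [memS] at h2
    exact h1.2 (iff_of_true h2.2.1 h2.2.2)
  have hSU' : ∀ h, h ∈ S → h ∉ U := by
    intro h h1 h2
    rw [memS] at h1
    rw [memU] at h2
    exact h2.2.1 h1.2.1
  have P_T : ∀ h ∈ T, (P h ↔ h ∈ PT) := by
    intro h hh
    rw [hP]
    constructor
    · rintro (h1 | h1 | h1)
      · exact h1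
      · exact absurd (hPS h1) (hTS h hh)
      · exact absurd (hPU h1) (disjoint_left.1 hTU hh)
    · exact Or.inl
  have P_S : ∀ h ∈ S, (P h ↔ h ∈ PS) := by
    intro h hh
    rw [hP]
    constructor
    · rintro (h1 | h1 | h1)
      · exact absurd hh (hTS h (hPT h1))
      · exact h1
      · exact absurd (hPU h1) (hSU' h hh)
    · exact fun h1 => Or.inr (Or.inl h1)
  have P_U : ∀ h ∈ U, (P h ↔ h ∈ PU) := by
    intro h hh
    rw [hP]
    constructor
    · rintro (h1 | h1 | h1)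
      · exact absurd hh (disjoint_left.1 hTU (hPT h1))
      · exact absurd hh (hSU' h (hPS h1))
      · exact h1
    · exact fun h1 => Or.inr (Or.inr h1)
  have sum_sub : ∀ (X Y : Finset W), Y ⊆ X → (∀ h ∈ X, (P h ↔ h ∈ Y)) →
      ∑ h ∈ X, (if P h then (1 : ℤ) else -1) = 2 * (#Y : ℤ) - #X := by
    intro X Y hYX hXY
    have h1 : ∀ h ∈ X, (if P h then (1 : ℤ) else -1) = 2 * (if h ∈ Y then 1 else 0) - 1 := by
      intro h hh
      by_cases h2 : h ∈ Y
      · rw [if_pos ((hXY h hh).2 h2), if_pos h2]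
        norm_num
      · rw [if_neg (fun h3 => h2 ((hXY h hh).1 h3)), if_neg h2]
        norm_num
    rw [sum_congr rfl h1, sum_sub_distrib, ← mul_sum, sum_ite_mem, inter_eq_right.2 hYX]
    simp
  have sT := sum_sub T PT hPT P_T
  have sS := sum_sub S PS hPS P_S
  have sU := sum_sub U PU hPU P_U
  obtain ⟨r, hrdef⟩ : ∃ r : W → Prop, r = fun h => if Q.par h then P (Q.M h) else ¬ P h :=
    ⟨_, rfl⟩
  have r1 : ∀ h, Q.par h → (r h ↔ P (Q.M h)) := by
    intro h h1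
    simp [hrdef, h1]
  have r0 : ∀ h, ¬ Q.par h → (r h ↔ ¬ P h) := by
    intro h h1
    simp [hrdef, h1]
  have hr : ∀ h, r (Q.M h) ↔ ¬ r h := by
    intro h
    by_cases h1 : Q.par h
    · rw [r1 h h1, r0 (Q.M h) (fun h2 => (hb h).1 h2 h1)]
    · rw [r0 h h1, r1 (Q.M h) ((hb h).2 h1), Q.M_M, not_not]
  have hr0 : r (Q.x 0) := by
    rw [r0 _ hp0, P_U _ c0U]
    exact g0
  have hr1 : r (Q.x 1) := by
    rw [r1 _ hp1, P_U _ c1U]
    exact g1
  have hrm : ¬ r (Q.x (-1)) := by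
    rw [r1 _ hpm]
    rcases c2TU with h | h
    · rw [P_T _ h]
      exact g2
    · rw [P_U _ h]
      exact g3
  -- the sums
  let d : W → ℤ := fun h => if (r h ↔ Q.par h) then 1 else -1
  have hdir : ∀ y : ℤ, dir Q r y = d (Q.x y) := by
    intro y
    simp only [dir, d]
    rw [Q.par_x]
    split_ifs <;> rfl
  have d0 : ∀ h ∈ O, d h = if P h then 1 else -1 := by
    intro h hh
    rw [memO] at hh
    simp only [d]
    have h1 := r0 h hh
    by_cases h2 : P h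
    · rw [if_pos h2, if_pos (iff_of_false (fun h3 => (h1.1 h3) h2) hh)]
    · rw [if_neg h2, if_neg (fun h3 => hh (h3.1 (h1.2 h2)))]
  have dM : ∀ h ∈ O, d (Q.M h) = if P h then 1 else -1 := by
    intro h hh
    rw [memO] at hh
    have hM : Q.par (Q.M h) := (hb h).2 hh
    simp only [d]
    have h1 := r1 (Q.M h) hM
    rw [Q.M_M] at h1
    by_cases h2 : P h
    · rw [if_pos h2, if_pos (iff_of_true (h1.2 h2) hM)]
    · rw [if_neg h2, if_neg (fun h3 => h2 (h1.1 (h3.2 hM)))]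
  refine ⟨r, hr, hr0, hr1, hrm, ?_, ?_⟩
  · have htot : ∑ y ∈ range q, d (Q.x y) = 0 := by
      rw [← Q.sum_eq q hq d, E, sum_congr rfl (fun h hh => by rw [d0 h hh, dM h hh]), split,
        sum_add_distrib, sum_add_distrib, sum_add_distrib, sT, sS, sU]
      linarith
    have hd0 : d (Q.x 0) = -1 := by
      simp only [d]
      rw [if_neg (fun h => hp0 (h.1 hr0))]
    have hd1 : d (Q.x ((q - 1 : ℕ) : ℤ)) = -1 := by
      rw [← hxm]
      simp only [d]
      rw [if_neg (fun h => hrm (h.2 hpm))]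
    have ht : (Q.p - 2).toNat + 1 = q - 1 := by omega
    have hsum : ∑ y ∈ range q, d (Q.x y) =
        d (Q.x 0) + ∑ y ∈ Ico 1 (q - 1), d (Q.x y) + d (Q.x ((q - 1 : ℕ) : ℤ)) := by
      rw [range_eq_Ico, sum_eq_sum_Ico_succ_bot (by omega), zero_add,
        show q = (q - 1) + 1 by omega, sum_Ico_succ_top (by omega)]
      simp only [Nat.add_sub_cancel]
      push_cast
      ring
    rw [ht]
    have h3 : ∑ y ∈ Ico 1 (q - 1), dir Q r y = ∑ y ∈ Ico 1 (q - 1), d (Q.x y) :=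
      sum_congr rfl fun y _ => hdir y
    rw [h3]
    rw [hd0, hd1, htot] at hsum
    linarith
  · have h3 : ∑ y ∈ Ioo lo hi, dir Q r y = ∑ y ∈ Ioo lo hi, d (Q.x y) :=
      sum_congr rfl fun y _ => hdir y
    rw [h3, F, E]
    have h5 : ∀ h ∈ O, ((if inJ h then d h else 0) + (if inJ (Q.M h) then d (Q.M h) else 0)) =
        (if inJ h then (if P h then (1 : ℤ) else -1) else 0) +
          (if inJ (Q.M h) then (if P h then (1 : ℤ) else -1) else 0) := by
      intro h hh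
      rw [d0 h hh, dM h hh]
    rw [sum_congr rfl h5, split]
    have e1 : ∑ h ∈ T, ((if inJ h then (if P h then (1 : ℤ) else -1) else 0) +
          (if inJ (Q.M h) then (if P h then (1 : ℤ) else -1) else 0)) =
        ∑ h ∈ T, (if P h then (1 : ℤ) else -1) := by
      refine sum_congr rfl fun h hh => ?_
      have h2 := ((memT h).1 hh).2
      by_cases h3 : inJ h <;> by_cases h5 : inJ (Q.M h) <;> simp [h3, h5] at h2 ⊢
    have e2 : ∑ h ∈ S, ((if inJ h then (if P h then (1 : ℤ) else -1) else 0) +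
          (if inJ (Q.M h) then (if P h then (1 : ℤ) else -1) else 0)) =
        2 * ∑ h ∈ S, (if P h then (1 : ℤ) else -1) := by
      rw [mul_sum]
      refine sum_congr rfl fun h hh => ?_
      have h2 := ((memS h).1 hh).2
      rw [if_pos h2.1, if_pos h2.2]
      ring
    have e3 : ∑ h ∈ U, ((if inJ h then (if P h then (1 : ℤ) else -1) else 0) +
          (if inJ (Q.M h) then (if P h then (1 : ℤ) else -1) else 0)) = 0 := by
      refine sum_eq_zero fun h hh => ?_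
      have h2 := ((memU h).1 hh).2
      rw [if_neg h2.1, if_neg h2.2, add_zero]
    rw [e1, e2, e3, sT, sS]
    linarith

end HX67
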