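import Pool.Agent.H93HD.HamConv

/-!
# Three classes in the product of two cubic graphs, after switching one alternating eight-cycle
-/

namespace HX67

open Finset
open scoped Classical

/-- Switching a set `C` of edges in which every vertex has no edge, or one edge of each of the two
classes, keeps a class two-regular. -/
theorem twoReg_switch {α : Type*} (X Y : Sym2 α → ZMod 2) (hX : H93HD.TwoReg X)
    (hdis : ∀ e, X e = 1 → Y e = 1 → False) (C : Set (Sym2 α))
    (hC : ∀ p, (∀ q, s(p, q) ∉ C) ∨ ∃ q0 q1, (∀ q, s(p, q) ∈ C ↔ (q = q0 ∨ q = q1)) ∧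
      X s(p, q0) = 1 ∧ Y s(p, q1) = 1 ∧ q1 ≠ p) :
    H93HD.TwoReg (fun e => if e ∈ C then Y e else X e) := by
  intro p
  obtain ⟨b, c, hbc, hb, hc, hd⟩ := hX p
  rcases hC p with h | ⟨q0, q1, hq, hX0, hY1, hq1⟩
  · refine ⟨b, c, hbc, hb, hc, fun d => ?_⟩
    simp only [if_neg (h d)]
    exact hd d
  · have key : ∀ b c : α, b ≠ c → c ≠ p → (∀ d, X s(p, d) = 1 ↔ (d = b ∨ d = c)) → q0 = b →
        q1 ≠ c ∧ ∀ d, (if s(p, d) ∈ C then Y s(p, d) else X s(p, d)) = 1 ↔ (d = q1 ∨ d = c) := by
      intro b c hbc hc hd h0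
      subst h0
      have hXc : X s(p, c) = 1 := (hd c).2 (Or.inr rfl)
      have h1c : q1 ≠ c := by
        rintro rfl
        exact hdis _ hXc hY1
      have h10 : q0 ≠ q1 := by
        rintro rfl
        exact hdis _ hX0 hY1
      refine ⟨h1c, fun d => ?_⟩
      by_cases hdC : s(p, d) ∈ C
      · rw [if_pos hdC]
        rcases (hq d).1 hdC with rfl | rfl
        · constructor
          · intro h
            exact absurd h (fun h => hdis _ hX0 h)
          · rintro (h | h)
            · exact absurd h h10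
            · exact absurd h hbc
        · exact ⟨fun _ => Or.inl rfl, fun _ => hY1⟩
      · rw [if_neg hdC, hd d]
        have hd0 : d ≠ q0 := fun h => hdC ((hq d).2 (Or.inl h))
        have hd1 : d ≠ q1 := fun h => hdC ((hq d).2 (Or.inr h))
        constructor
        · rintro (h | h)
          · exact absurd h hd0
          · exact Or.inr h
        · rintro (h | h)
          · exact absurd h hd1
          · exact Or.inr h
    rcases (hd q0).1 hX0 with h0 | h0
    · obtain ⟨h1, h2⟩ := key b c hbc hc hd h0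
      exact ⟨q1, c, h1, hq1, hc, h2⟩
    · obtain ⟨h1, h2⟩ := key c b hbc.symm hb (fun d => by rw [hd d]; exact or_comm) h0
      exact ⟨q1, b, h1, hq1, hb, h2⟩

/-- connectedness of a class from the constancy of the functions constant along it -/
theorem conn_of_const {α : Type*} (X : Sym2 α → ZMod 2)
    (h : ∀ f : α → ZMod 2, (∀ p q, X s(p, q) = 1 → f q = f p) → ∀ p q, f p = f q) (x y : α) :
    H93HD.Conn X x y := by
  let f : α → ZMod 2 := fun p => if H93HD.Conn X x p then 0 else 1
  have hstep : ∀ p q, X s(p, q) = 1 → f q = f p := by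
    intro p q h
    have : H93HD.Conn X x q ↔ H93HD.Conn X x p :=
      ⟨fun h' => h'.trans (H93HD.Conn.single h).symm, fun h' => h'.trans (H93HD.Conn.single h)⟩
    simp only [f, this]
  have h1 := h f hstep x y
  have h2 : f x = 0 := if_pos (H93HD.Conn.refl x)
  rw [h2] at h1
  by_contra hc
  have h3 : f y = 1 := if_neg hc
  rw [h3] at h1
  exact absurd h1 (by decide)

theorem hamDecomp_of_switch {V W : Type*} [Fintype V] [Fintype W] [instV : DecidableEq V]
    [instW : DecidableEq W] [Nonempty V] [Nonempty W]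
    (G : SimpleGraph V) (H : SimpleGraph W) (m : Fin 3 → V → V) (n : Fin 3 → W → W)
    (hm : ∀ i v, m i (m i v) = v) (hm' : ∀ i v, m i v ≠ v)
    (hn : ∀ i v, n i (n i v) = v) (hn' : ∀ i v, n i v ≠ v)
    (hadj : ∀ v w, G.Adj v w ↔ ∃ i, m i v = w) (hadj' : ∀ v w, H.Adj v w ↔ ∃ i, n i v = w)
    (hinj : ∀ i j v, m i v = m j v → i = j) (hinj' : ∀ i j v, n i v = n j v → i = j)
    (ρ : W → Fin 3 → Fin 3) (σ : V → Fin 3 → Fin 3)
    (hρ : ∀ h, Function.Bijective (ρ h)) (hσ : ∀ g, Function.Bijective (σ g))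
    (v : Fin 8 → V × W) (hv : Function.Injective v)
    (v1 : v 1 = (m (ρ (v 0).2 0) (v 0).1, (v 0).2))
    (v2 : v 2 = (m (ρ (v 1).2 1) (v 1).1, (v 1).2))
    (v3 : v 3 = ((v 2).1, n (σ (v 2).1 0) (v 2).2))
    (v4 : v 4 = ((v 3).1, n (σ (v 3).1 1) (v 3).2))
    (v5 : v 5 = (m (ρ (v 4).2 0) (v 4).1, (v 4).2))
    (v6 : v 6 = (m (ρ (v 5).2 1) (v 5).1, (v 5).2))
    (v7 : v 7 = ((v 6).1, n (σ (v 6).1 0) (v 6).2))
    (v0 : v 0 = ((v 7).1, n (σ (v 7).1 1) (v 7).2))
    (hconn0 : ∀ f : V × W → ZMod 2,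
      (∀ p, p ≠ v 0 → p ≠ v 1 → p ≠ v 4 → p ≠ v 5 → f (m (ρ p.2 0) p.1, p.2) = f p) →
      (∀ p, p ≠ v 2 → p ≠ v 3 → p ≠ v 6 → p ≠ v 7 → f (p.1, n (σ p.1 0) p.2) = f p) →
      f (v 1) = f (v 2) → f (v 3) = f (v 4) → f (v 5) = f (v 6) → f (v 7) = f (v 0) →
      ∀ p q, f p = f q)
    (hconn1 : ∀ f : V × W → ZMod 2,
      (∀ p, p ≠ v 1 → p ≠ v 2 → p ≠ v 5 → p ≠ v 6 → f (m (ρ p.2 1) p.1, p.2) = f p) →
      (∀ p, p ≠ v 3 → p ≠ v 4 → p ≠ v 7 → p ≠ v 0 → f (p.1, n (σ p.1 1) p.2) = f p) →
      f (v 0) = f (v 1) → f (v 2) = f (v 3) → f (v 4) = f (v 5) → f (v 6) = f (v 7) →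
      ∀ p q, f p = f q)
    (hconn2 : ∀ f : V × W → ZMod 2, (∀ p, f (m (ρ p.2 2) p.1, p.2) = f p) →
      (∀ p, f (p.1, n (σ p.1 2) p.2) = f p) → ∀ p q, f p = f q) :
    H93HD.HamDecomp (G □ H) 3 := by
  let al : Fin 3 → V × W → V × W := fun i p => (m (ρ p.2 i) p.1, p.2)
  let be : Fin 3 → V × W → V × W := fun i p => (p.1, n (σ p.1 i) p.2)
  have hal : ∀ i p, al i (al i p) = p := fun i p => by
    simp only [al]
    rw [hm]
  have hbe : ∀ i p, be i (be i p) = p := fun i p => by
    simp only [be]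
    rw [hn]
  have hal1 : ∀ i p, (al i p).1 ≠ p.1 := fun i p => hm' _ _
  have hbe2 : ∀ i p, (be i p).2 ≠ p.2 := fun i p => hn' _ _
  let X : Fin 3 → Sym2 (V × W) → ZMod 2 := fun i e =>
    if (∃ p, e = s(p, al i p)) ∨ (∃ p, e = s(p, be i p)) then 1 else 0
  have hX1 : ∀ i e, X i e = 1 ↔ (∃ p, e = s(p, al i p)) ∨ (∃ p, e = s(p, be i p)) := by
    intro i e
    simp only [X]
    split_ifs with h
    · exact ⟨fun _ => h, fun _ => rfl⟩
    · exact ⟨fun h' => absurd h' (by decide), fun h' => absurd h' h⟩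
  have hX : ∀ i p q, X i s(p, q) = 1 ↔ (q = al i p ∨ q = be i p) := by
    intro i p q
    rw [hX1]
    constructor
    · rintro (⟨r, hr⟩ | ⟨r, hr⟩)
      · rcases Sym2.eq_iff.1 hr with ⟨rfl, rfl⟩ | ⟨rfl, rfl⟩
        · exact Or.inl rfl
        · exact Or.inl (hal i _).symm
      · rcases Sym2.eq_iff.1 hr with ⟨rfl, rfl⟩ | ⟨rfl, rfl⟩
        · exact Or.inr rfl
        · exact Or.inr (hbe i _).symm
    · rintro (rfl | rfl)
      · exact Or.inl ⟨p, rfl⟩
      · exact Or.inr ⟨p, rfl⟩
  have htwo : ∀ i, H93HD.TwoReg (X i) := by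
    intro i p
    refine ⟨al i p, be i p, fun h => ?_, fun h => ?_, fun h => ?_, fun q => hX i p q⟩
    · have h' : (al i p).1 = (be i p).1 := congrArg Prod.fst h
      exact hal1 i p h'
    · exact hal1 i p (congrArg Prod.fst h)
    · exact hbe2 i p (congrArg Prod.snd h)
  have hle : ∀ i e, X i e = 1 → e ∈ (G □ H).edgeSet := by
    intro i e he
    rcases (hX1 i e).1 he with ⟨p, rfl⟩ | ⟨p, rfl⟩
    · rw [SimpleGraph.mem_edgeSet, SimpleGraph.boxProd_adj]
      exact Or.inl ⟨(hadj _ _).2 ⟨_, rfl⟩, rfl⟩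
    · rw [SimpleGraph.mem_edgeSet, SimpleGraph.boxProd_adj]
      exact Or.inr ⟨(hadj' _ _).2 ⟨_, rfl⟩, rfl⟩
  have huq : ∀ e ∈ (G □ H).edgeSet, ∃! i, X i e = 1 := by
    intro e he
    induction e with
    | _ p q =>
      rw [SimpleGraph.mem_edgeSet, SimpleGraph.boxProd_adj] at he
      rcases he with ⟨h1, h2⟩ | ⟨h1, h2⟩
      · obtain ⟨j, hj⟩ := (hadj _ _).1 h1
        obtain ⟨i, hi⟩ := (hρ p.2).2 j
        refine ⟨i, ?_, fun i' hi' => ?_⟩
        · simp only
          rw [hX]
          left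
          refine Prod.ext ?_ h2.symm
          simp only [al]
          rw [hi, hj]
        · simp only at hi'
          rw [hX] at hi'
          rcases hi' with hi' | hi'
          · have h3 : m (ρ p.2 i') p.1 = m j p.1 := by
              rw [hj]
              exact (congrArg Prod.fst hi').symm
            apply (hρ p.2).1
            rw [hi, hinj _ _ _ h3]
          · exact absurd (by rw [← hi']; exact h2.symm) (hbe2 i' p)
      · obtain ⟨j, hj⟩ := (hadj' _ _).1 h1
        obtain ⟨i, hi⟩ := (hσ p.1).2 j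
        refine ⟨i, ?_, fun i' hi' => ?_⟩
        · simp only
          rw [hX]
          right
          refine Prod.ext h2.symm ?_
          simp only [be]
          rw [hi, hj]
        · simp only at hi'
          rw [hX] at hi'
          rcases hi' with hi' | hi'
          · exact absurd (by rw [← hi']; exact h2.symm) (hal1 i' p)
          · have h3 : n (σ p.1 i') p.2 = n j p.2 := by
              rw [hj]
              exact (congrArg Prod.snd hi').symm
            apply (hσ p.1).1
            rw [hi, hinj' _ _ _ h3]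
  have hdis : ∀ i j, i ≠ j → ∀ e, X i e = 1 → X j e = 1 → False := by
    intro i j hij e h1 h2
    obtain ⟨k, hk, hu⟩ := huq e (hle i e h1)
    exact hij ((hu i h1).trans (hu j h2).symm)
  -- the edges of the eight-cycle
  have hXal : ∀ i p, X i s(p, al i p) = 1 := fun i p => (hX i _ _).2 (Or.inl rfl)
  have hXbe : ∀ i p, X i s(p, be i p) = 1 := fun i p => (hX i _ _).2 (Or.inr rfl)
  have w1 : v 1 = al 0 (v 0) := v1
  have w2 : v 2 = al 1 (v 1) := v2
  have w3 : v 3 = be 0 (v 2) := v3
  have w4 : v 4 = be 1 (v 3) := v4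
  have w5 : v 5 = al 0 (v 4) := v5
  have w6 : v 6 = al 1 (v 5) := v6
  have w7 : v 7 = be 0 (v 6) := v7
  have w0 : v 0 = be 1 (v 7) := v0
  let c : Fin 8 → Fin 3 := ![0, 1, 0, 1, 0, 1, 0, 1]
  have c0 : ∀ j : Fin 8, 0 = c j → j = 0 ∨ j = 2 ∨ j = 4 ∨ j = 6 := by decide
  have c1 : ∀ j : Fin 8, 1 = c j → j = 1 ∨ j = 3 ∨ j = 5 ∨ j = 7 := by decide
  have hc01 : ∀ j, (c j = 0 ∧ c (j - 1) = 1) ∨ (c j = 1 ∧ c (j - 1) = 0) := by decide
  have hedge : ∀ j : Fin 8, X (c j) s(v j, v (j + 1)) = 1 := by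
    intro j
    fin_cases j
    · show X 0 s(v 0, v 1) = 1
      rw [w1]; exact hXal _ _
    · show X 1 s(v 1, v 2) = 1
      rw [w2]; exact hXal _ _
    · show X 0 s(v 2, v 3) = 1
      rw [w3]; exact hXbe _ _
    · show X 1 s(v 3, v 4) = 1
      rw [w4]; exact hXbe _ _
    · show X 0 s(v 4, v 5) = 1
      rw [w5]; exact hXal _ _
    · show X 1 s(v 5, v 6) = 1
      rw [w6]; exact hXal _ _
    · show X 0 s(v 6, v 7) = 1
      rw [w7]; exact hXbe _ _
    · show X 1 s(v 7, v 0) = 1
      rw [w0]; exact hXbe _ _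
  have hedge' : ∀ j : Fin 8, X (c (j - 1)) s(v j, v (j - 1)) = 1 := by
    intro j
    have h := hedge (j - 1)
    rw [sub_add_cancel, Sym2.eq_swap] at h
    exact h
  obtain ⟨C, hCdef⟩ : ∃ C : Set (Sym2 (V × W)), C = {e | ∃ j : Fin 8, e = s(v j, v (j + 1))} :=
    ⟨_, rfl⟩
  have hCin : ∀ e, e ∈ C ↔ ∃ j : Fin 8, e = s(v j, v (j + 1)) := fun e => by
    rw [hCdef]
    exact Iff.rfl
  have hCmem : ∀ j q, s(v j, q) ∈ C ↔ (q = v (j + 1) ∨ q = v (j - 1)) := by
    intro j q
    rw [hCin]
    constructor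
    · rintro ⟨k, hk⟩
      rcases Sym2.eq_iff.1 hk with ⟨h1, h2⟩ | ⟨h1, h2⟩
      · rw [hv h1]
        exact Or.inl h2
      · right
        rw [hv h1, add_sub_cancel_right]
        exact h2
    · rintro (rfl | rfl)
      · exact ⟨j, rfl⟩
      · exact ⟨j - 1, by rw [sub_add_cancel, Sym2.eq_swap]⟩
  have hCnot : ∀ p, (∀ j, p ≠ v j) → ∀ q, s(p, q) ∉ C := by
    intro p hp q hq
    obtain ⟨k, hk⟩ := (hCin _).1 hq
    rcases Sym2.eq_iff.1 hk with ⟨h1, h2⟩ | ⟨h1, h2⟩
    · exact hp _ h1
    · exact hp _ h1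
  have h81 : ∀ j : Fin 8, j + 1 ≠ j := by decide
  have h82 : ∀ j : Fin 8, j - 1 ≠ j := by decide
  have hne1 : ∀ j : Fin 8, v (j + 1) ≠ v j := fun j h => h81 j (hv h)
  have hne2 : ∀ j : Fin 8, v (j - 1) ≠ v j := fun j h => h82 j (hv h)
  let X' : Fin 3 → Sym2 (V × W) → ZMod 2 :=
    ![fun e => if e ∈ C then X 1 e else X 0 e, fun e => if e ∈ C then X 0 e else X 1 e, X 2]
  have hX'0 : ∀ e, X' 0 e = if e ∈ C then X 1 e else X 0 e := fun e => rfl
  have hX'1 : ∀ e, X' 1 e = if e ∈ C then X 0 e else X 1 e := fun e => rfl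
  have hX'2 : ∀ e, X' 2 e = X 2 e := fun e => rfl
  have htwo' : ∀ i, H93HD.TwoReg (X' i) := by
    intro i
    fin_cases i
    · refine twoReg_switch (X 0) (X 1) (htwo 0) (hdis 0 1 (by decide)) C (fun p => ?_)
      by_cases hp : ∀ j, p ≠ v j
      · exact Or.inl (hCnot p hp)
      · push Not at hp
        obtain ⟨j, rfl⟩ := hp
        right
        have h1 := hedge j
        have h2 := hedge' j
        rcases hc01 j with ⟨ha, hb⟩ | ⟨ha, hb⟩
        · rw [ha] at h1
          rw [hb] at h2
          exact ⟨v (j + 1), v (j - 1), hCmem j, h1, h2, hne2 j⟩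
        · rw [ha] at h1
          rw [hb] at h2
          exact ⟨v (j - 1), v (j + 1), fun q => by rw [hCmem j q]; exact or_comm, h2, h1, hne1 j⟩
    · refine twoReg_switch (X 1) (X 0) (htwo 1) (hdis 1 0 (by decide)) C (fun p => ?_)
      by_cases hp : ∀ j, p ≠ v j
      · exact Or.inl (hCnot p hp)
      · push Not at hp
        obtain ⟨j, rfl⟩ := hp
        right
        have h1 := hedge j
        have h2 := hedge' j
        rcases hc01 j with ⟨ha, hb⟩ | ⟨ha, hb⟩
        · rw [ha] at h1
          rw [hb] at h2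
          exact ⟨v (j - 1), v (j + 1), fun q => by rw [hCmem j q]; exact or_comm, h2, h1, hne1 j⟩
        · rw [ha] at h1
          rw [hb] at h2
          exact ⟨v (j + 1), v (j - 1), hCmem j, h1, h2, hne2 j⟩
    · exact htwo 2
  have hle' : ∀ i e, X' i e = 1 → e ∈ (G □ H).edgeSet := by
    intro i e he
    fin_cases i
    · change X' 0 e = 1 at he
      rw [hX'0] at he
      split_ifs at he
      · exact hle _ _ he
      · exact hle _ _ he
    · change X' 1 e = 1 at he
      rw [hX'1] at he
      split_ifs at he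
      · exact hle _ _ he
      · exact hle _ _ he
    · exact hle 2 e he
  have huq' : ∀ e ∈ (G □ H).edgeSet, ∃! i, X' i e = 1 := by
    intro e he
    obtain ⟨i, hi, hu⟩ := huq e he
    by_cases hC : e ∈ C
    · have g0 : X' 0 e = X 1 e := by rw [hX'0, if_pos hC]
      have g1 : X' 1 e = X 0 e := by rw [hX'1, if_pos hC]
      have key : ∀ j, X' j e = X (Equiv.swap 0 1 j) e := by
        intro j
        fin_cases j
        · show X' 0 e = X (Equiv.swap 0 1 0) e
          rw [Equiv.swap_apply_left, g0]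
        · show X' 1 e = X (Equiv.swap 0 1 1) e
          rw [Equiv.swap_apply_right, g1]
        · show X' 2 e = X (Equiv.swap 0 1 2) e
          rw [Equiv.swap_apply_of_ne_of_ne (by decide) (by decide)]
          rfl
      refine ⟨Equiv.swap 0 1 i, ?_, fun j hj => ?_⟩
      · show X' (Equiv.swap 0 1 i) e = 1
        rw [key, Equiv.swap_apply_self]
        exact hi
      · have hj' : X (Equiv.swap 0 1 j) e = 1 := by
          rw [← key]
          exact hj
        have := hu _ hj'
        rw [← this, Equiv.swap_apply_self]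
    · have key : ∀ j, X' j e = X j e := by
        intro j
        fin_cases j
        · show X' 0 e = X 0 e
          rw [hX'0, if_neg hC]
        · show X' 1 e = X 1 e
          rw [hX'1, if_neg hC]
        · rfl
      refine ⟨i, ?_, fun j hj => ?_⟩
      · show X' i e = 1
        rw [key]
        exact hi
      · apply hu
        show X j e = 1
        rw [← key]
        exact hj
  have hal_be : ∀ i j p, al i p ≠ be j p := by
    intro i j p h
    have h' : (al i p).1 = (be j p).1 := congrArg Prod.fst h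
    exact hal1 i p h'
  -- an edge of class `i` in `C` has the right parity
  have hCc : ∀ i j, X i s(v j, v (j + 1)) = 1 → i = c j := by
    intro i j h
    by_contra hne
    exact hdis i (c j) hne _ h (hedge j)
  have hcn' : ∀ i, ∀ x y, H93HD.Conn (X' i) x y := by
    intro i
    refine conn_of_const (X' i) (fun f hf => ?_)
    fin_cases i
    · change ∀ p q, X' 0 s(p, q) = 1 → f q = f p at hf
      have hin : ∀ j, c j = 1 → f (v (j + 1)) = f (v j) := by
        intro j hj
        apply hf
        rw [hX'0, if_pos ((hCin _).2 ⟨j, rfl⟩)]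
        have := hedge j
        rwa [hj] at this
      refine hconn0 f ?_ ?_ (hin 1 rfl).symm (hin 3 rfl).symm (hin 5 rfl).symm (hin 7 rfl).symm
      · intro p h0 h1 h4 h5
        show f (al 0 p) = f p
        apply hf
        rw [hX'0, if_neg]
        · exact hXal _ _
        · intro hjC
          obtain ⟨j, hj⟩ := (hCin _).1 hjC
          have hcj : 0 = c j := hCc 0 j (by rw [← hj]; exact hXal _ _)
          have hj4 := c0 j hcj
          rcases hj4 with rfl | rfl | rfl | rfl
          · rcases Sym2.eq_iff.1 hj with ⟨ha, hb⟩ | ⟨ha, hb⟩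
            · exact h0 ha
            · exact h1 ha
          · change s(p, al 0 p) = s(v 2, v 3) at hj
            have hw3 : v 2 = be 0 (v 3) := by rw [w3, hbe]
            rcases Sym2.eq_iff.1 hj with ⟨ha, hb⟩ | ⟨ha, hb⟩
            · rw [← ha] at w3
              exact hal_be 0 0 p (hb.trans w3)
            · rw [← ha] at hw3
              exact hal_be 0 0 p (hb.trans hw3)
          · rcases Sym2.eq_iff.1 hj with ⟨ha, hb⟩ | ⟨ha, hb⟩
            · exact h4 ha
            · exact h5 ha
          · change s(p, al 0 p) = s(v 6, v 7) at hj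
            have hw3 : v 6 = be 0 (v 7) := by rw [w7, hbe]
            rcases Sym2.eq_iff.1 hj with ⟨ha, hb⟩ | ⟨ha, hb⟩
            · rw [← ha] at w7
              exact hal_be 0 0 p (hb.trans w7)
            · rw [← ha] at hw3
              exact hal_be 0 0 p (hb.trans hw3)
      · intro p h2 h3 h6 h7
        show f (be 0 p) = f p
        apply hf
        rw [hX'0, if_neg]
        · exact hXbe _ _
        · intro hjC
          obtain ⟨j, hj⟩ := (hCin _).1 hjC
          have hcj : 0 = c j := hCc 0 j (by rw [← hj]; exact hXbe _ _)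
          have hj4 := c0 j hcj
          rcases hj4 with rfl | rfl | rfl | rfl
          · change s(p, be 0 p) = s(v 0, v 1) at hj
            have hw3 : v 0 = al 0 (v 1) := by rw [w1, hal]
            rcases Sym2.eq_iff.1 hj with ⟨ha, hb⟩ | ⟨ha, hb⟩
            · rw [← ha] at w1
              exact hal_be 0 0 p (hb.trans w1).symm
            · rw [← ha] at hw3
              exact hal_be 0 0 p (hb.trans hw3).symm
          · rcases Sym2.eq_iff.1 hj with ⟨ha, hb⟩ | ⟨ha, hb⟩
            · exact h2 ha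
            · exact h3 ha
          · change s(p, be 0 p) = s(v 4, v 5) at hj
            have hw3 : v 4 = al 0 (v 5) := by rw [w5, hal]
            rcases Sym2.eq_iff.1 hj with ⟨ha, hb⟩ | ⟨ha, hb⟩
            · rw [← ha] at w5
              exact hal_be 0 0 p (hb.trans w5).symm
            · rw [← ha] at hw3
              exact hal_be 0 0 p (hb.trans hw3).symm
          · rcases Sym2.eq_iff.1 hj with ⟨ha, hb⟩ | ⟨ha, hb⟩
            · exact h6 ha
            · exact h7 ha
    · change ∀ p q, X' 1 s(p, q) = 1 → f q = f p at hf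
      have hin : ∀ j, c j = 0 → f (v (j + 1)) = f (v j) := by
        intro j hj
        apply hf
        rw [hX'1, if_pos ((hCin _).2 ⟨j, rfl⟩)]
        have := hedge j
        rwa [hj] at this
      refine hconn1 f ?_ ?_ (hin 0 rfl).symm (hin 2 rfl).symm (hin 4 rfl).symm (hin 6 rfl).symm
      · intro p h1 h2 h5 h6
        show f (al 1 p) = f p
        apply hf
        rw [hX'1, if_neg]
        · exact hXal _ _
        · intro hjC
          obtain ⟨j, hj⟩ := (hCin _).1 hjC
          have hcj : 1 = c j := hCc 1 j (by rw [← hj]; exact hXal _ _)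
          have hj4 := c1 j hcj
          rcases hj4 with rfl | rfl | rfl | rfl
          · rcases Sym2.eq_iff.1 hj with ⟨ha, hb⟩ | ⟨ha, hb⟩
            · exact h1 ha
            · exact h2 ha
          · change s(p, al 1 p) = s(v 3, v 4) at hj
            have hw3 : v 3 = be 1 (v 4) := by rw [w4, hbe]
            rcases Sym2.eq_iff.1 hj with ⟨ha, hb⟩ | ⟨ha, hb⟩
            · rw [← ha] at w4
              exact hal_be 1 1 p (hb.trans w4)
            · rw [← ha] at hw3
              exact hal_be 1 1 p (hb.trans hw3)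
          · rcases Sym2.eq_iff.1 hj with ⟨ha, hb⟩ | ⟨ha, hb⟩
            · exact h5 ha
            · exact h6 ha
          · change s(p, al 1 p) = s(v 7, v 0) at hj
            have hw3 : v 7 = be 1 (v 0) := by rw [w0, hbe]
            rcases Sym2.eq_iff.1 hj with ⟨ha, hb⟩ | ⟨ha, hb⟩
            · rw [← ha] at w0
              exact hal_be 1 1 p (hb.trans w0)
            · rw [← ha] at hw3
              exact hal_be 1 1 p (hb.trans hw3)
      · intro p h3 h4 h7 h0
        show f (be 1 p) = f p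
        apply hf
        rw [hX'1, if_neg]
        · exact hXbe _ _
        · intro hjC
          obtain ⟨j, hj⟩ := (hCin _).1 hjC
          have hcj : 1 = c j := hCc 1 j (by rw [← hj]; exact hXbe _ _)
          have hj4 := c1 j hcj
          rcases hj4 with rfl | rfl | rfl | rfl
          · change s(p, be 1 p) = s(v 1, v 2) at hj
            have hw3 : v 1 = al 1 (v 2) := by rw [w2, hal]
            rcases Sym2.eq_iff.1 hj with ⟨ha, hb⟩ | ⟨ha, hb⟩
            · rw [← ha] at w2
              exact hal_be 1 1 p (hb.trans w2).symm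
            · rw [← ha] at hw3
              exact hal_be 1 1 p (hb.trans hw3).symm
          · rcases Sym2.eq_iff.1 hj with ⟨ha, hb⟩ | ⟨ha, hb⟩
            · exact h3 ha
            · exact h4 ha
          · change s(p, be 1 p) = s(v 5, v 6) at hj
            have hw3 : v 5 = al 1 (v 6) := by rw [w6, hal]
            rcases Sym2.eq_iff.1 hj with ⟨ha, hb⟩ | ⟨ha, hb⟩
            · rw [← ha] at w6
              exact hal_be 1 1 p (hb.trans w6).symm
            · rw [← ha] at hw3
              exact hal_be 1 1 p (hb.trans hw3).symm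
          · rcases Sym2.eq_iff.1 hj with ⟨ha, hb⟩ | ⟨ha, hb⟩
            · exact h7 ha
            · exact h0 ha
    · change ∀ p q, X' 2 s(p, q) = 1 → f q = f p at hf
      exact hconn2 f (fun p => hf p (al 2 p) (hXal 2 p)) (fun p => hf p (be 2 p) (hXbe 2 p))
  have h1 := fun i => H93HD.hamCycle_of_class _ (X' i) (htwo' i) (hcn' i) (hle' i)
  choose a c hc hce using h1
  refine ⟨a, c, hc, fun e he => ?_⟩
  simp only [hce]
  exact huq' e he

end HX67
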