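import Pool.Agent.HX67.Split
import Pool.Agent.HX67.Switch
import Pool.Agent.HX67.Class1S
import Pool.Agent.HX67.Class2S
import Pool.Agent.HX67.Signs2
import Pool.Agent.HX67.Base2
import Pool.Agent.HX67.Present

/-!
# The three classes together, with the switch of an 8-cycle
-/

namespace HX67

open Finset
open scoped Classical

theorem coreS {V W : Type*} [Fintype V] [Fintype W] [DecidableEq V] [DecidableEq W]
    (G : SimpleGraph V) (H : SimpleGraph W) (P : Pres V) (Q : Pres W)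
    (hG : ∀ v w, G.Adj v w ↔ ∃ i, P.mate i v = w) (hH : ∀ v w, H.Adj v w ↔ ∃ i, Q.mate i v = w)
    (hPb : ∀ z w, P.M (P.x z) = P.x w → (Even w ↔ ¬ Even z))
    (r : W → Prop) (hr : ∀ h, r (Q.M h) ↔ ¬ r h) (hr0 : r (Q.x 0)) (hr1 : ¬ r (Q.x (-1)))
    (hr2 : r (Q.x 1)) (k0 a : ℕ) (hk0a : 1 ≤ k0) (hk0b : (k0 : ℤ) ≤ Q.p - 2)
    (hk0 : Q.x k0 = Q.M (Q.x 0)) (hko : Odd k0) (ha1 : 2 ≤ a) (ha2 : (a : ℤ) ≤ Q.p - 2)
    (ha : Q.x a = Q.M (Q.x 1)) (hae : Even a) (E : ℤ) (hco : IsCoprime E (P.p / 2 - 1))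
    (hE : 2 * E = ∑ y ∈ Ico 1 ((Q.p - 2).toNat + 1), dir Q r y)
    (hsame : ∑ y ∈ Ioo (min a k0) (max a k0), dir Q r y = 0) :
    H93HD.HamDecomp (G □ H) 3 := by
  have hpp := P.p_ge
  have hqq := Q.p_ge
  have : Nonempty V := ⟨P.x 0⟩
  have : Nonempty W := ⟨Q.x 0⟩
  obtain ⟨c, hcdef⟩ : ∃ c : V → Prop, c = fun g => ¬ P.par g := ⟨_, rfl⟩
  have hc : ∀ z, c (P.x z) ↔ Even z := by
    intro z
    rw [hcdef]
    show ¬ P.par (P.x z) ↔ Even z
    rw [P.par_x, Int.not_odd_iff_even]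
  have hcM : ∀ g, c (P.M g) ↔ ¬ c g := by
    intro g
    obtain ⟨z, rfl⟩ := P.surj g
    obtain ⟨w, hw⟩ := P.surj (P.M (P.x z))
    rw [← hw, hc, hc]
    exact hPb z w hw.symm
  have hc0 : c (P.x 0) := (hc 0).2 (by decide)
  have hc1 : ¬ c (P.x (-1)) := fun h => absurd ((hc (-1)).1 h) (by decide)
  have hg01 : P.x (-1) ≠ P.x 0 := P.zero_ne_neg.symm
  have hh01 : Q.x (-1) ≠ Q.x 0 := Q.zero_ne_neg.symm
  let ρ : W → Fin 3 → Fin 3 := fun h =>
    if h = Q.x 0 then ![1, 2, 0] else if h = Q.x (-1) then ![0, 2, 1] else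
      if r h then ![1, 0, 2] else ![0, 1, 2]
  let σ : V → Fin 3 → Fin 3 := fun g =>
    if g = P.x 0 then ![0, 2, 1] else if g = P.x (-1) then ![1, 2, 0] else
      if c g then ![2, 0, 1] else ![2, 1, 0]
  have ρ0 : ρ (Q.x 0) = ![1, 2, 0] := by simp only [ρ, if_true]
  have ρ1 : ρ (Q.x (-1)) = ![0, 2, 1] := by simp only [ρ, if_neg hh01, if_true]
  have ρr : ∀ h, h ≠ Q.x 0 → h ≠ Q.x (-1) → r h → ρ h = ![1, 0, 2] := by
    intro h h1 h2 h3
    simp only [ρ, if_neg h1, if_neg h2, if_pos h3]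
  have ρn : ∀ h, h ≠ Q.x 0 → h ≠ Q.x (-1) → ¬ r h → ρ h = ![0, 1, 2] := by
    intro h h1 h2 h3
    simp only [ρ, if_neg h1, if_neg h2, if_neg h3]
  have σ0 : σ (P.x 0) = ![0, 2, 1] := by simp only [σ, if_true]
  have σ1 : σ (P.x (-1)) = ![1, 2, 0] := by simp only [σ, if_neg hg01, if_true]
  have σc : ∀ g, g ≠ P.x 0 → g ≠ P.x (-1) → c g → σ g = ![2, 0, 1] := by
    intro h h1 h2 h3
    simp only [σ, if_neg h1, if_neg h2, if_pos h3]
  have σn : ∀ g, g ≠ P.x 0 → g ≠ P.x (-1) → ¬ c g → σ g = ![2, 1, 0] := by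
    intro h h1 h2 h3
    simp only [σ, if_neg h1, if_neg h2, if_neg h3]
  -- the matchings of the classes
  have ρ_0r : ∀ h, r h → ρ h 0 = 1 := by
    intro h h1
    by_cases h2 : h = Q.x 0
    · rw [h2, ρ0]; rfl
    by_cases h3 : h = Q.x (-1)
    · exact absurd (h3 ▸ h1) hr1
    rw [ρr h h2 h3 h1]; rfl
  have ρ_0n : ∀ h, ¬ r h → ρ h 0 = 0 := by
    intro h h1
    by_cases h2 : h = Q.x 0
    · exact absurd hr0 (h2 ▸ h1)
    by_cases h3 : h = Q.x (-1)
    · rw [h3, ρ1]; rfl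
    rw [ρn h h2 h3 h1]; rfl
  have ρ_2 : ∀ h, h ≠ Q.x 0 → h ≠ Q.x (-1) → ρ h 2 = 2 := by
    intro h h2 h3
    by_cases h1 : r h
    · rw [ρr h h2 h3 h1]; rfl
    · rw [ρn h h2 h3 h1]; rfl
  have σ_0 : ∀ g, g ≠ P.x 0 → g ≠ P.x (-1) → σ g 0 = 2 := by
    intro h h2 h3
    by_cases h1 : c h
    · rw [σc h h2 h3 h1]; rfl
    · rw [σn h h2 h3 h1]; rfl
  have σ_2c : ∀ g, c g → σ g 2 = 1 := by
    intro h h1
    by_cases h2 : h = P.x 0
    · rw [h2, σ0]; rfl
    by_cases h3 : h = P.x (-1)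
    · exact absurd (h3 ▸ h1) hc1
    rw [σc h h2 h3 h1]; rfl
  have σ_2n : ∀ g, ¬ c g → σ g 2 = 0 := by
    intro h h1
    by_cases h2 : h = P.x 0
    · exact absurd hc0 (h2 ▸ h1)
    by_cases h3 : h = P.x (-1)
    · rw [h3, σ1]; rfl
    rw [σn h h2 h3 h1]; rfl
  have bij : ∀ π : Fin 3 → Fin 3, (π = ![1, 2, 0] ∨ π = ![0, 2, 1] ∨ π = ![1, 0, 2] ∨
      π = ![0, 1, 2] ∨ π = ![2, 0, 1] ∨ π = ![2, 1, 0]) → Function.Bijective π := by
    rintro π (rfl | rfl | rfl | rfl | rfl | rfl) <;> decide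
  have bρ : ∀ h, Function.Bijective (ρ h) := by
    intro h
    apply bij
    by_cases h2 : h = Q.x 0
    · rw [h2, ρ0]; tauto
    by_cases h3 : h = Q.x (-1)
    · rw [h3, ρ1]; tauto
    by_cases h1 : r h
    · rw [ρr h h2 h3 h1]; tauto
    · rw [ρn h h2 h3 h1]; tauto
  have bσ : ∀ g, Function.Bijective (σ g) := by
    intro g
    apply bij
    by_cases h2 : g = P.x 0
    · rw [h2, σ0]; tauto
    by_cases h3 : g = P.x (-1)
    · rw [h3, σ1]; tauto
    by_cases h1 : c g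
    · rw [σc g h2 h3 h1]; tauto
    · rw [σn g h2 h3 h1]; tauto
  -- the special vertices
  obtain ⟨K, hK⟩ : ∃ K, K = Q.M (Q.x 0) := ⟨_, rfl⟩
  have hg0 : P.x 0 ≠ P.x (-1) := P.zero_ne_neg
  have hg1 : P.x 1 ≠ P.x 0 := P.x_ne (by omega) (by omega) (by omega)
  have hg2 : P.x 1 ≠ P.x (-1) := P.x_ne (by omega) (by omega) (by omega)
  have hrK : ¬ r K := by rw [hK, hr]; exact fun h => h hr0
  have hK0 : K ≠ Q.x 0 := fun h => hrK (h ▸ hr0)
  have hK1 : K ≠ Q.x 1 := fun h => hrK (h ▸ hr2)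
  have hKm : K ≠ Q.x (-1) := by
    rw [hK, ← hk0]
    exact Q.inner_ne_neg (by omega) hk0b
  have hy10 : Q.x 1 ≠ Q.x 0 := Q.x_ne (by omega) (by omega) (by omega)
  have hy1m : Q.x 1 ≠ Q.x (-1) := fun h => hr1 (h ▸ hr2)
  have hcx1 : ¬ c (P.x 1) := fun h => absurd ((hc 1).1 h) (by decide)
  have hB0 : P.B (P.x 0) = P.x 1 := by rw [P.B_even 0 (by decide), zero_add]
  have hB1 : P.B (P.x 1) = P.x 0 := by rw [P.B_odd 1 (by decide)]; rfl
  have hQB0 : Q.B (Q.x 0) = Q.x 1 := by rw [Q.B_even 0 (by decide), zero_add]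
  have hQB1 : Q.B (Q.x 1) = Q.x 0 := by rw [Q.B_odd 1 (by decide)]; rfl
  have hQK : Q.M K = Q.x 0 := by rw [hK, Q.M_M]
  let v : Fin 8 → V × W := ![(P.x (-1), K), (P.x 0, K), (P.x 1, K), (P.x 1, Q.x 0),
    (P.x 1, Q.x 1), (P.x 0, Q.x 1), (P.x (-1), Q.x 1), (P.x (-1), Q.x 0)]
  have hv : Function.Injective v := by
    intro i j hij
    fin_cases i <;> fin_cases j <;> first
      | rfl
      | (exfalso
         simp [v, Prod.ext_iff, hg0, hg1, hg2, hg0.symm, hg1.symm, hg2.symm, hK0, hK1, hK0.symm,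
           hK1.symm, hy10, hy10.symm] at hij)
  refine hamDecomp_of_switch G H P.mate Q.mate P.mate_mate P.mate_ne Q.mate_mate Q.mate_ne hG hH
    P.mate_inj Q.mate_inj ρ σ bρ bσ v hv ?_ ?_ ?_ ?_ ?_ ?_ ?_ ?_ ?_ ?_ ?_
  · show (P.x 0, K) = (P.mate (ρ K 0) (P.x (-1)), K)
    rw [ρ_0n K hrK, P.mate_zero, P.A_neg]
  · show (P.x 1, K) = (P.mate (ρ K 1) (P.x 0), K)
    rw [ρn K hK0 hKm hrK]
    show (P.x 1, K) = (P.B (P.x 0), K)
    rw [hB0]
  · show (P.x 1, Q.x 0) = (P.x 1, Q.mate (σ (P.x 1) 0) K)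
    rw [σ_0 _ hg1 hg2, Q.mate_two, hQK]
  · show (P.x 1, Q.x 1) = (P.x 1, Q.mate (σ (P.x 1) 1) (Q.x 0))
    rw [σn _ hg1 hg2 hcx1]
    show (P.x 1, Q.x 1) = (P.x 1, Q.B (Q.x 0))
    rw [hQB0]
  · show (P.x 0, Q.x 1) = (P.mate (ρ (Q.x 1) 0) (P.x 1), Q.x 1)
    rw [ρ_0r _ hr2, P.mate_one, hB1]
  · show (P.x (-1), Q.x 1) = (P.mate (ρ (Q.x 1) 1) (P.x 0), Q.x 1)
    rw [ρr _ hy10 hy1m hr2]
    show (P.x (-1), Q.x 1) = (P.A (P.x 0), Q.x 1)
    rw [P.A_zero]
  · show (P.x (-1), Q.x 0) = (P.x (-1), Q.mate (σ (P.x (-1)) 0) (Q.x 1))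
    rw [σ1]
    show (P.x (-1), Q.x 0) = (P.x (-1), Q.B (Q.x 1))
    rw [hQB1]
  · show (P.x (-1), K) = (P.x (-1), Q.mate (σ (P.x (-1)) 1) (Q.x 0))
    rw [σ1]
    show (P.x (-1), K) = (P.x (-1), Q.M (Q.x 0))
    rw [hK]
  · intro f hρf hσf e1 e2 e3 e4
    have w0 : v 0 = (P.x (-1), K) := rfl
    have w1 : v 1 = (P.x 0, K) := rfl
    have w2 : v 2 = (P.x 1, K) := rfl
    have w3 : v 3 = (P.x 1, Q.x 0) := rfl
    have w4 : v 4 = (P.x 1, Q.x 1) := rfl
    have w5 : v 5 = (P.x 0, Q.x 1) := rfl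
    have w6 : v 6 = (P.x (-1), Q.x 1) := rfl
    have w7 : v 7 = (P.x (-1), Q.x 0) := rfl
    rw [w0, w1, w4, w5] at hρf
    rw [w2, w3, w6, w7] at hσf
    rw [w1, w2] at e1
    rw [w3, w4] at e2
    rw [w5, w6] at e3
    rw [w7, w0] at e4
    have hne : ∀ (g g' : V) (h h' : W), (g ≠ g' ∨ h ≠ h') → (g, h) ≠ (g', h') := by
      intro g g' h h' h1 h2
      rw [Prod.mk.injEq] at h2
      rcases h1 with h1 | h1
      · exact h1 h2.1
      · exact h1 h2.2
    rintro ⟨g, h⟩ ⟨g', h'⟩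
    refine class1s P Q r hr hr0 hr2 (fun g h => f (g, h)) ?_ ?_ ?_ ?_ ?_ ?_ ?_ ?_ ?_ g h g' h'
    · intro g h hh hex
      have := hρf (g, h)
      simp only at this
      rw [ρ_0n h hh, P.mate_zero] at this
      rw [← hK] at hex
      have hh1 : h ≠ Q.x 1 := fun h0 => hh (h0 ▸ hr2)
      refine this (hne _ _ _ _ ?_) (hne _ _ _ _ ?_) (hne _ _ _ _ (Or.inr hh1))
        (hne _ _ _ _ (Or.inr hh1))
      · by_cases h0 : h = K
        · exact Or.inl fun h1 => hex ⟨h0, Or.inr h1⟩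
        · exact Or.inr h0
      · by_cases h0 : h = K
        · exact Or.inl fun h1 => hex ⟨h0, Or.inl h1⟩
        · exact Or.inr h0
    · intro g h hh hex
      have := hρf (g, h)
      simp only at this
      rw [ρ_0r h hh, P.mate_one] at this
      have hhK : h ≠ K := fun h0 => hrK (h0 ▸ hh)
      refine this (hne _ _ _ _ (Or.inr hhK)) (hne _ _ _ _ (Or.inr hhK)) (hne _ _ _ _ ?_)
        (hne _ _ _ _ ?_)
      · by_cases h0 : h = Q.x 1
        · exact Or.inl fun h1 => hex ⟨h0, Or.inr h1⟩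
        · exact Or.inr h0
      · by_cases h0 : h = Q.x 1
        · exact Or.inl fun h1 => hex ⟨h0, Or.inl h1⟩
        · exact Or.inr h0
    · intro g h h1 h2 hex
      have := hσf (g, h)
      simp only at this
      rw [σ_0 g h1 h2, Q.mate_two] at this
      rw [← hK] at hex
      refine this (hne _ _ _ _ ?_) (hne _ _ _ _ ?_) (hne _ _ _ _ (Or.inl h2))
        (hne _ _ _ _ (Or.inl h2))
      · by_cases h0 : g = P.x 1
        · exact Or.inr fun h3 => hex ⟨h0, Or.inr h3⟩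
        · exact Or.inl h0
      · by_cases h0 : g = P.x 1
        · exact Or.inr fun h3 => hex ⟨h0, Or.inl h3⟩
        · exact Or.inl h0
    · intro h
      have := hσf (P.x 0, h)
      simp only at this
      rw [σ0] at this
      exact this (hne _ _ _ _ (Or.inl hg1.symm)) (hne _ _ _ _ (Or.inl hg1.symm))
        (hne _ _ _ _ (Or.inl hg0)) (hne _ _ _ _ (Or.inl hg0))
    · intro h hh0 hh1
      have := hσf (P.x (-1), h)
      simp only at this
      rw [σ1] at this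
      exact this (hne _ _ _ _ (Or.inl hg2.symm)) (hne _ _ _ _ (Or.inl hg2.symm))
        (hne _ _ _ _ (Or.inr hh1)) (hne _ _ _ _ (Or.inr hh0))
    · rw [← hK]; exact e1
    · exact e2
    · exact e3
    · rw [← hK]; exact e4
  · intro f hρf hσf e1 e2 e3 e4
    have w0 : v 0 = (P.x (-1), K) := rfl
    have w1 : v 1 = (P.x 0, K) := rfl
    have w2 : v 2 = (P.x 1, K) := rfl
    have w3 : v 3 = (P.x 1, Q.x 0) := rfl
    have w4 : v 4 = (P.x 1, Q.x 1) := rfl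
    have w5 : v 5 = (P.x 0, Q.x 1) := rfl
    have w6 : v 6 = (P.x (-1), Q.x 1) := rfl
    have w7 : v 7 = (P.x (-1), Q.x 0) := rfl
    rw [w1, w2, w5, w6] at hρf
    rw [w3, w4, w7, w0] at hσf
    rw [w0, w1] at e1
    rw [w2, w3] at e2
    rw [w4, w5] at e3
    rw [w6, w7] at e4
    have hne : ∀ (g g' : V) (h h' : W), (g ≠ g' ∨ h ≠ h') → (g, h) ≠ (g', h') := by
      intro g g' h h' h1 h2
      rw [Prod.mk.injEq] at h2
      rcases h1 with h1 | h1
      · exact h1 h2.1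
      · exact h1 h2.2
    rintro ⟨g, h⟩ ⟨g', h'⟩
    refine class2s P Q c r hc hcM hr hr0 hr1 hr2 k0 a hk0a hk0b hk0 hko ha1 ha2 ha hae E hco hE
      hsame (fun g h => f (g, h)) ?_ ?_ ?_ ?_ ?_ ?_ ?_ ?_ ?_ ?_ ?_ ?_ g h g' h'
    · intro g h h1 h2 h3 hex
      have := hρf (g, h)
      simp only at this
      rw [ρn h h1 h2 h3] at this
      rw [← hK] at hex
      have hh1 : h ≠ Q.x 1 := fun h0 => h3 (h0 ▸ hr2)
      refine this (hne _ _ _ _ ?_) (hne _ _ _ _ ?_) (hne _ _ _ _ (Or.inr hh1))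
        (hne _ _ _ _ (Or.inr hh1))
      · by_cases h0 : h = K
        · exact Or.inl fun h1 => hex ⟨h0, Or.inl h1⟩
        · exact Or.inr h0
      · by_cases h0 : h = K
        · exact Or.inl fun h1 => hex ⟨h0, Or.inr h1⟩
        · exact Or.inr h0
    · intro g h h1 h2 h3 hex
      have := hρf (g, h)
      simp only at this
      rw [ρr h h1 h2 h3] at this
      have hhK : h ≠ K := fun h0 => hrK (h0 ▸ h3)
      refine this (hne _ _ _ _ (Or.inr hhK)) (hne _ _ _ _ (Or.inr hhK)) (hne _ _ _ _ ?_)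
        (hne _ _ _ _ ?_)
      · by_cases h0 : h = Q.x 1
        · exact Or.inl fun h1 => hex ⟨h0, Or.inl h1⟩
        · exact Or.inr h0
      · by_cases h0 : h = Q.x 1
        · exact Or.inl fun h1 => hex ⟨h0, Or.inr h1⟩
        · exact Or.inr h0
    · intro g
      have := hρf (g, Q.x 0)
      simp only at this
      rw [ρ0] at this
      exact this (hne _ _ _ _ (Or.inr hK0.symm)) (hne _ _ _ _ (Or.inr hK0.symm))
        (hne _ _ _ _ (Or.inr hy10.symm)) (hne _ _ _ _ (Or.inr hy10.symm))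
    · intro g
      have := hρf (g, Q.x (-1))
      simp only at this
      rw [ρ1] at this
      exact this (hne _ _ _ _ (Or.inr hKm.symm)) (hne _ _ _ _ (Or.inr hKm.symm))
        (hne _ _ _ _ (Or.inr hy1m.symm)) (hne _ _ _ _ (Or.inr hy1m.symm))
    · intro g h h1 h2 h3 hex
      have := hσf (g, h)
      simp only at this
      rw [σn g h1 h2 h3] at this
      refine this (hne _ _ _ _ ?_) (hne _ _ _ _ ?_) (hne _ _ _ _ (Or.inl h2))
        (hne _ _ _ _ (Or.inl h2))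
      · by_cases h0 : g = P.x 1
        · exact Or.inr fun h4 => hex ⟨h0, Or.inl h4⟩
        · exact Or.inl h0
      · by_cases h0 : g = P.x 1
        · exact Or.inr fun h4 => hex ⟨h0, Or.inr h4⟩
        · exact Or.inl h0
    · intro g h h1 h2 h3
      have := hσf (g, h)
      simp only at this
      rw [σc g h1 h2 h3] at this
      have hgx1 : g ≠ P.x 1 := fun h0 => hcx1 (h0 ▸ h3)
      exact this (hne _ _ _ _ (Or.inl hgx1)) (hne _ _ _ _ (Or.inl hgx1))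
        (hne _ _ _ _ (Or.inl h2)) (hne _ _ _ _ (Or.inl h2))
    · intro h
      have := hσf (P.x 0, h)
      simp only at this
      rw [σ0] at this
      exact this (hne _ _ _ _ (Or.inl hg1.symm)) (hne _ _ _ _ (Or.inl hg1.symm))
        (hne _ _ _ _ (Or.inl hg0)) (hne _ _ _ _ (Or.inl hg0))
    · intro h h1 h2
      have := hσf (P.x (-1), h)
      simp only at this
      rw [σ1] at this
      rw [← hK] at h2
      exact this (hne _ _ _ _ (Or.inl hg2.symm)) (hne _ _ _ _ (Or.inl hg2.symm))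
        (hne _ _ _ _ (Or.inr h1)) (hne _ _ _ _ (Or.inr h2))
    · rw [← hK]; exact e1
    · rw [← hK]; exact e2
    · exact e3
    · exact e4
  · intro f hρf hσf
    rintro ⟨g, h⟩ ⟨g', h'⟩
    refine class1 Q P c hcM (fun h g => f (g, h)) ?_ ?_ ?_ ?_ ?_ h g h' g'
    · intro h g hg
      have := hσf (g, h)
      simp only at this
      rwa [σ_2n g hg, Q.mate_zero] at this
    · intro h g hg
      have := hσf (g, h)
      simp only at this
      rwa [σ_2c g hg, Q.mate_one] at this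
    · intro h g h1 h2
      have := hρf (g, h)
      simp only at this
      rwa [ρ_2 h h1 h2, P.mate_two] at this
    · intro g
      have := hρf (g, Q.x 0)
      simp only at this
      rw [ρ0] at this
      exact this
    · intro g
      have := hρf (g, Q.x (-1))
      simp only at this
      rw [ρ1] at this
      exact this

end HX67
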