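import Mathlib

/-!
# MP_8634e8_co : products of Hamiltonian cubic graphs, definitions

A cubic graph with a Hamiltonian cycle is presented cyclically: `x : ℤ → V` runs around the cycle,
`A` and `B` are the two perfect matchings of the cycle and `M` is the matching of the chords.
-/

namespace HX67

/-- a cubic graph with a Hamiltonian cycle, presented cyclically -/
structure Pres (V : Type*) where
  p : ℤ
  x : ℤ → V
  A : V → V
  B : V → V
  M : V → V
  p_ge : 4 ≤ p
  p_even : Even p
  per : ∀ z, x (z + p) = x z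
  inj : ∀ z w, x z = x w → p ∣ z - w
  surj : ∀ v, ∃ z, x z = v
  A_odd : ∀ z, Odd z → A (x z) = x (z + 1)
  A_even : ∀ z, Even z → A (x z) = x (z - 1)
  B_even : ∀ z, Even z → B (x z) = x (z + 1)
  B_odd : ∀ z, Odd z → B (x z) = x (z - 1)
  M_M : ∀ v, M (M v) = v
  M_ne : ∀ v, M v ≠ v
  M_A : ∀ v, M v ≠ A v
  M_B : ∀ v, M v ≠ B v

namespace Pres

variable {V : Type*} (P : Pres V)

/-- the three mate functions -/
def mate (i : Fin 3) : V → V := ![P.A, P.B, P.M] i

theorem mate_zero : P.mate 0 = P.A := rfl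
theorem mate_one : P.mate 1 = P.B := rfl
theorem mate_two : P.mate 2 = P.M := rfl

theorem per_mul (z k : ℤ) : P.x (z + P.p * k) = P.x z := by
  induction k using Int.induction_on with
  | zero => simp
  | succ k ih =>
    have h : z + P.p * (k + 1) = (z + P.p * k) + P.p := by ring
    rw [h, P.per, ih]
  | pred k ih =>
    have h : z + P.p * (-k) = (z + P.p * (-k - 1)) + P.p := by ring
    rw [h, P.per] at ih
    exact ih

theorem x_eq_iff (z w : ℤ) : P.x z = P.x w ↔ P.p ∣ z - w := by
  refine ⟨P.inj z w, ?_⟩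
  rintro ⟨k, hk⟩
  have h : z = w + P.p * k := by omega
  rw [h, P.per_mul]

theorem parity_of_eq {z w : ℤ} (h : P.x z = P.x w) : (Even z ↔ Even w) := by
  obtain ⟨k, hk⟩ := P.inj z w h
  have h2 : Even (z - w) := by
    rw [hk]
    exact P.p_even.mul_right k
  exact Int.even_sub.1 h2

theorem A_A (v : V) : P.A (P.A v) = v := by
  obtain ⟨z, rfl⟩ := P.surj v
  rcases Int.even_or_odd z with h | h
  · rw [P.A_even z h, P.A_odd (z - 1) (h.sub_odd odd_one)]
    congr 1; ring
  · rw [P.A_odd z h, P.A_even (z + 1) (h.add_odd odd_one)]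
    congr 1; ring

theorem B_B (v : V) : P.B (P.B v) = v := by
  obtain ⟨z, rfl⟩ := P.surj v
  rcases Int.even_or_odd z with h | h
  · rw [P.B_even z h, P.B_odd (z + 1) (h.add_odd odd_one)]
    congr 1; ring
  · rw [P.B_odd z h, P.B_even (z - 1) (h.sub_odd odd_one)]
    congr 1; ring

theorem not_dvd {k : ℤ} (h : k ≠ 0) (h1 : -P.p < k) (h2 : k < P.p) : ¬ P.p ∣ k := by
  rintro ⟨a, rfl⟩
  have hp := P.p_ge
  rcases lt_trichotomy a 0 with ha | ha | ha
  · nlinarith
  · exact h (by rw [ha, mul_zero])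
  · nlinarith

theorem x_ne {z w : ℤ} (h : z ≠ w) (h1 : z < w + P.p) (h2 : w < z + P.p) : P.x z ≠ P.x w := by
  intro h0
  exact P.not_dvd (k := z - w) (by omega) (by omega) (by omega) (P.inj z w h0)

theorem A_ne (v : V) : P.A v ≠ v := by
  have hp := P.p_ge
  obtain ⟨z, rfl⟩ := P.surj v
  rcases Int.even_or_odd z with h | h
  · rw [P.A_even z h]
    exact P.x_ne (by omega) (by omega) (by omega)
  · rw [P.A_odd z h]
    exact P.x_ne (by omega) (by omega) (by omega)

theorem B_ne (v : V) : P.B v ≠ v := by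
  have hp := P.p_ge
  obtain ⟨z, rfl⟩ := P.surj v
  rcases Int.even_or_odd z with h | h
  · rw [P.B_even z h]
    exact P.x_ne (by omega) (by omega) (by omega)
  · rw [P.B_odd z h]
    exact P.x_ne (by omega) (by omega) (by omega)

theorem A_ne_B (v : V) : P.A v ≠ P.B v := by
  have hp := P.p_ge
  obtain ⟨z, rfl⟩ := P.surj v
  rcases Int.even_or_odd z with h | h
  · rw [P.A_even z h, P.B_even z h]
    exact P.x_ne (by omega) (by omega) (by omega)
  · rw [P.A_odd z h, P.B_odd z h]
    exact P.x_ne (by omega) (by omega) (by omega)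

theorem mate_mate (i : Fin 3) (v : V) : P.mate i (P.mate i v) = v := by
  fin_cases i
  · exact P.A_A v
  · exact P.B_B v
  · exact P.M_M v

theorem mate_ne (i : Fin 3) (v : V) : P.mate i v ≠ v := by
  fin_cases i
  · exact P.A_ne v
  · exact P.B_ne v
  · exact P.M_ne v

theorem mate_inj (i j : Fin 3) (v : V) (h : P.mate i v = P.mate j v) : i = j := by
  have h1 := P.A_ne_B v
  have h2 := P.M_A v
  have h3 := P.M_B v
  fin_cases i <;> fin_cases j <;> first | rfl | (exfalso; simp [mate] at h; first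
    | exact h1 h | exact h1 h.symm | exact h2 h | exact h2 h.symm | exact h3 h | exact h3 h.symm)

end Pres

end HX67
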