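import Pool.Agent.H93HD.HamConv

/-!
# MP_8634e8_co : the product of two even cycles decomposes into two Hamiltonian cycles

The even case of Kotzig's theorem, in the form needed for the union argument (HX67).
-/

namespace HX67

open Finset
open scoped Classical

/-- `d` connected classes give a decomposition (the case `d = 3` is `hamDecomp_of_split`) -/
theorem hamDecomp_of_splitD {V W : Type*} [Fintype V] [Fintype W] [instV : DecidableEq V]
    [instW : DecidableEq W] [Nonempty V] [Nonempty W] (d : ℕ)
    (G : SimpleGraph V) (H : SimpleGraph W) (m : Fin d → V → V) (n : Fin d → W → W)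
    (hm : ∀ i v, m i (m i v) = v) (hm' : ∀ i v, m i v ≠ v)
    (hn : ∀ i v, n i (n i v) = v) (hn' : ∀ i v, n i v ≠ v)
    (hadj : ∀ v w, G.Adj v w ↔ ∃ i, m i v = w) (hadj' : ∀ v w, H.Adj v w ↔ ∃ i, n i v = w)
    (hinj : ∀ i j v, m i v = m j v → i = j) (hinj' : ∀ i j v, n i v = n j v → i = j)
    (ρ : W → Fin d → Fin d) (σ : V → Fin d → Fin d)
    (hρ : ∀ h, Function.Bijective (ρ h)) (hσ : ∀ g, Function.Bijective (σ g))
    (hconn : ∀ (i : Fin d) (f : V → W → ZMod 2), (∀ g h, f (m (ρ h i) g) h = f g h) →
        (∀ g h, f g (n (σ g i) h) = f g h) → ∀ g h g' h', f g h = f g' h') :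
    H93HD.HamDecomp (G □ H) d := by
  let al : Fin d → V × W → V × W := fun i p => (m (ρ p.2 i) p.1, p.2)
  let be : Fin d → V × W → V × W := fun i p => (p.1, n (σ p.1 i) p.2)
  have hal : ∀ i p, al i (al i p) = p := fun i p => by
    simp only [al]
    rw [hm]
  have hbe : ∀ i p, be i (be i p) = p := fun i p => by
    simp only [be]
    rw [hn]
  have hal1 : ∀ i p, (al i p).1 ≠ p.1 := fun i p => hm' _ _
  have hbe2 : ∀ i p, (be i p).2 ≠ p.2 := fun i p => hn' _ _
  let X : Fin d → Sym2 (V × W) → ZMod 2 := fun i e =>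
    if (∃ p, e = s(p, al i p)) ∨ (∃ p, e = s(p, be i p)) then 1 else 0
  have hX1 : ∀ i e, X i e = 1 ↔ (∃ p, e = s(p, al i p)) ∨ (∃ p, e = s(p, be i p)) := by
    intro i e
    simp only [X]
    split_ifs with h
    · exact ⟨fun _ => h, fun _ => rfl⟩
    · exact ⟨fun h' => absurd h' (by decide), fun h' => absurd h' h⟩
  have hX : ∀ i p q, X i s(p, q) = 1 ↔ (q = al i p ∨ q = be i p) := by
    intro i p q
    rw [hX1]
    constructor
    · rintro (⟨r, hr⟩ | ⟨r, hr⟩)
      · rcases Sym2.eq_iff.1 hr with ⟨rfl, rfl⟩ | ⟨rfl, rfl⟩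
        · exact Or.inl rfl
        · exact Or.inl (hal i _).symm
      · rcases Sym2.eq_iff.1 hr with ⟨rfl, rfl⟩ | ⟨rfl, rfl⟩
        · exact Or.inr rfl
        · exact Or.inr (hbe i _).symm
    · rintro (rfl | rfl)
      · exact Or.inl ⟨p, rfl⟩
      · exact Or.inr ⟨p, rfl⟩
  have htwo : ∀ i, H93HD.TwoReg (X i) := by
    intro i p
    refine ⟨al i p, be i p, fun h => ?_, fun h => ?_, fun h => ?_, fun q => hX i p q⟩
    · have h' : (al i p).1 = (be i p).1 := congrArg Prod.fst h
      exact hal1 i p h'
    · exact hal1 i p (congrArg Prod.fst h)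
    · exact hbe2 i p (congrArg Prod.snd h)
  have hcn : ∀ i, ∀ x y, H93HD.Conn (X i) x y := by
    intro i x y
    let f : V → W → ZMod 2 := fun g h => if H93HD.Conn (X i) x (g, h) then 0 else 1
    have hstep : ∀ p q : V × W, X i s(p, q) = 1 → f q.1 q.2 = f p.1 p.2 := by
      intro p q h
      have : H93HD.Conn (X i) x (q.1, q.2) ↔ H93HD.Conn (X i) x (p.1, p.2) :=
        ⟨fun h' => h'.trans (H93HD.Conn.single h).symm, fun h' => h'.trans (H93HD.Conn.single h)⟩
      simp only [f, this]
    have h1 := hconn i f (fun g h => hstep (g, h) (al i (g, h)) ((hX i _ _).2 (Or.inl rfl)))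
      (fun g h => hstep (g, h) (be i (g, h)) ((hX i _ _).2 (Or.inr rfl))) x.1 x.2 y.1 y.2
    have h2 : f x.1 x.2 = 0 := if_pos (H93HD.Conn.refl x)
    rw [h2] at h1
    by_contra hc
    have h3 : f y.1 y.2 = 1 := if_neg hc
    rw [h3] at h1
    exact absurd h1 (by decide)
  have hle : ∀ i e, X i e = 1 → e ∈ (G □ H).edgeSet := by
    intro i e he
    rcases (hX1 i e).1 he with ⟨p, rfl⟩ | ⟨p, rfl⟩
    · rw [SimpleGraph.mem_edgeSet, SimpleGraph.boxProd_adj]
      exact Or.inl ⟨(hadj _ _).2 ⟨_, rfl⟩, rfl⟩
    · rw [SimpleGraph.mem_edgeSet, SimpleGraph.boxProd_adj]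
      exact Or.inr ⟨(hadj' _ _).2 ⟨_, rfl⟩, rfl⟩
  have huq : ∀ e ∈ (G □ H).edgeSet, ∃! i, X i e = 1 := by
    intro e he
    induction e with
    | _ p q =>
      rw [SimpleGraph.mem_edgeSet, SimpleGraph.boxProd_adj] at he
      rcases he with ⟨h1, h2⟩ | ⟨h1, h2⟩
      · obtain ⟨j, hj⟩ := (hadj _ _).1 h1
        obtain ⟨i, hi⟩ := (hρ p.2).2 j
        refine ⟨i, ?_, fun i' hi' => ?_⟩
        · simp only
          rw [hX]
          left
          refine Prod.ext ?_ h2.symm
          simp only [al]
          rw [hi, hj]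
        · simp only at hi'
          rw [hX] at hi'
          rcases hi' with hi' | hi'
          · have h3 : m (ρ p.2 i') p.1 = m j p.1 := by
              rw [hj]
              exact (congrArg Prod.fst hi').symm
            apply (hρ p.2).1
            rw [hi, hinj _ _ _ h3]
          · exact absurd (by rw [← hi']; exact h2.symm) (hbe2 i' p)
      · obtain ⟨j, hj⟩ := (hadj' _ _).1 h1
        obtain ⟨i, hi⟩ := (hσ p.1).2 j
        refine ⟨i, ?_, fun i' hi' => ?_⟩
        · simp only
          rw [hX]
          right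
          refine Prod.ext h2.symm ?_
          simp only [be]
          rw [hi, hj]
        · simp only at hi'
          rw [hX] at hi'
          rcases hi' with hi' | hi'
          · exact absurd (by rw [← hi']; exact h2.symm) (hal1 i' p)
          · have h3 : n (σ p.1 i') p.2 = n j p.2 := by
              rw [hj]
              exact (congrArg Prod.snd hi').symm
            apply (hσ p.1).1
            rw [hi, hinj' _ _ _ h3]
  have h1 := fun i => H93HD.hamCycle_of_class _ (X i) (htwo i) (hcn i) (hle i)
  choose a c hc hce using h1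
  refine ⟨a, c, hc, fun e he => ?_⟩
  simp only [hce]
  exact huq e he

/-- the two perfect matchings of an even cycle -/
theorem exists_two_mates {V : Type*} (x : ℤ → V) (p : ℤ) (hp : 3 ≤ p) (hpe : Even p)
    (per : ∀ z, x (z + p) = x z) (inj : ∀ z w, x z = x w → p ∣ z - w) (surj : ∀ v, ∃ z, x z = v) :
    ∃ m : Fin 2 → V → V, (∀ i v, m i (m i v) = v) ∧ (∀ i v, m i v ≠ v) ∧
      (∀ i j v, m i v = m j v → i = j) ∧
      (∀ v w, (∃ i, m i v = w) ↔ ∃ z, (v = x z ∧ w = x (z + 1)) ∨ (v = x (z + 1) ∧ w = x z)) ∧
      (∀ z, Odd z → m 0 (x z) = x (z + 1)) ∧ (∀ z, Even z → m 0 (x z) = x (z - 1)) ∧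
      (∀ z, Even z → m 1 (x z) = x (z + 1)) ∧ (∀ z, Odd z → m 1 (x z) = x (z - 1)) := by
  have perm : ∀ z k : ℤ, x (z + p * k) = x z := by
    intro z k
    induction k using Int.induction_on with
    | zero => simp
    | succ k ih =>
      have h : z + p * (k + 1) = (z + p * k) + p := by ring
      rw [h, per, ih]
    | pred k ih =>
      have h : z + p * (-k) = (z + p * (-k - 1)) + p := by ring
      rw [h, per] at ih
      exact ih
  have par : ∀ z w, x z = x w → (Even z ↔ Even w) := by
    intro z w h
    obtain ⟨k, hk⟩ := inj z w h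
    have h2 : Even (z - w) := by
      rw [hk]
      exact hpe.mul_right k
    exact Int.even_sub.1 h2
  have shift : ∀ z w d, x z = x w → x (z + d) = x (w + d) := by
    intro z w d h
    obtain ⟨k, hk⟩ := inj z w h
    rw [show z + d = (w + d) + p * k by omega, perm]
  have ne1 : ∀ z w, z - w = 1 ∨ z - w = -1 ∨ z - w = 2 ∨ z - w = -2 → x z ≠ x w := by
    intro z w h h0
    obtain ⟨k, hk⟩ := inj z w h0
    rcases lt_trichotomy k 0 with hk0 | hk0 | hk0
    · have : p * k ≤ p * (-1) := by
        apply mul_le_mul_of_nonneg_left _ (by omega)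
        omega
      omega
    · rw [hk0, mul_zero] at hk
      omega
    · have : p * 1 ≤ p * k := by
        apply mul_le_mul_of_nonneg_left _ (by omega)
        omega
      omega
  choose idx hidx using surj
  let m : Fin 2 → V → V := fun i v =>
    if (Even (idx v) ↔ i = 1) then x (idx v + 1) else x (idx v - 1)
  have key : ∀ i z, m i (x z) = if (Even z ↔ i = 1) then x (z + 1) else x (z - 1) := by
    intro i z
    have h1 : x (idx (x z)) = x z := hidx (x z)
    have h2 := par _ _ h1
    have h3 := shift _ _ 1 h1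
    have h4 := shift _ _ (-1) h1
    simp only [m, h2, h3]
    rw [sub_eq_add_neg, sub_eq_add_neg, h4]
  have kp : ∀ i z, (Even z ↔ i = 1) → m i (x z) = x (z + 1) := by
    intro i z h
    rw [key, if_pos h]
  have kn : ∀ i z, ¬ (Even z ↔ i = 1) → m i (x z) = x (z - 1) := by
    intro i z h
    rw [key, if_neg h]
  have ev1 : ∀ z : ℤ, Even (z + 1) ↔ ¬ Even z := fun z => by
    rw [Int.even_add_one]
  have ev2 : ∀ z : ℤ, Even (z - 1) ↔ ¬ Even z := fun z => by
    rw [Int.even_sub_one]
  refine ⟨m, ?_, ?_, ?_, ?_, ?_, ?_, ?_, ?_⟩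
  · intro i v
    obtain ⟨z, rfl⟩ : ∃ z, x z = v := ⟨idx v, hidx v⟩
    by_cases h : (Even z ↔ i = 1)
    · rw [kp i z h, kn i (z + 1) (by rw [ev1]; tauto)]
      congr 1; ring
    · rw [kn i z h, kp i (z - 1) (by rw [ev2]; tauto)]
      congr 1; ring
  · intro i v
    obtain ⟨z, rfl⟩ : ∃ z, x z = v := ⟨idx v, hidx v⟩
    by_cases h : (Even z ↔ i = 1)
    · rw [kp i z h]
      exact ne1 _ _ (by omega)
    · rw [kn i z h]
      exact ne1 _ _ (by omega)
  · intro i j v hij
    obtain ⟨z, rfl⟩ : ∃ z, x z = v := ⟨idx v, hidx v⟩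
    have h01 : ∀ i : Fin 2, i = 1 ∨ i = 0 := by decide
    by_cases h : (Even z ↔ i = 1)
    · by_cases h' : (Even z ↔ j = 1)
      · rcases h01 i with hi | hi <;> rcases h01 j with hj | hj <;> subst hi <;> subst hj
        · rfl
        · exfalso
          simp at h h'
          exact (Int.not_even_iff_odd.2 h') h
        · exfalso
          simp at h h'
          exact (Int.not_even_iff_odd.2 h) h'
        · rfl
      · rw [kp i z h, kn j z h'] at hij
        exact absurd hij (ne1 _ _ (by omega))
    · by_cases h' : (Even z ↔ j = 1)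
      · rw [kn i z h, kp j z h'] at hij
        exact absurd hij (ne1 _ _ (by omega))
      · rcases h01 i with hi | hi <;> rcases h01 j with hj | hj <;> subst hi <;> subst hj
        · rfl
        · exfalso
          simp at h h'
          exact (Int.not_even_iff_odd.2 h) h'
        · exfalso
          simp at h h'
          exact (Int.not_even_iff_odd.2 h') h
        · rfl
  · intro v w
    constructor
    · rintro ⟨i, rfl⟩
      obtain ⟨z, rfl⟩ : ∃ z, x z = v := ⟨idx v, hidx v⟩
      by_cases h : (Even z ↔ i = 1)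
      · exact ⟨z, Or.inl ⟨rfl, kp i z h⟩⟩
      · refine ⟨z - 1, Or.inr ⟨?_, kn i z h⟩⟩
        congr 1; ring
    · rintro ⟨z, ⟨rfl, rfl⟩ | ⟨rfl, rfl⟩⟩
      · by_cases h : Even z
        · exact ⟨1, kp 1 z (by simp [h])⟩
        · exact ⟨0, kp 0 z (by simp [h])⟩
      · by_cases h : Even z
        · refine ⟨1, ?_⟩
          rw [kn 1 (z + 1) (by rw [ev1]; simp [h])]
          congr 1; ring
        · refine ⟨0, ?_⟩
          rw [kn 0 (z + 1) (by rw [ev1]; simp [h])]
          congr 1; ring
  · intro z hz
    exact kp 0 z (by simp [Int.not_even_iff_odd.2 hz])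
  · intro z hz
    exact kn 0 z (by simp [hz])
  · intro z hz
    exact kp 1 z (by simp [hz])
  · intro z hz
    exact kn 1 z (by simp [Int.not_even_iff_odd.2 hz])

/-- a function constant along the first class of the torus is constant -/
theorem torus_const {X : Type*} (F : ℤ → ℤ → X) (p : ℤ) (hp : 0 < p) (hpe : Even p)
    (per : ∀ k j, F (k + p) j = F k j)
    (hor : ∀ k j, Odd (k + j) → F (k + 1) j = F k j)
    (v1 : ∀ k j, ¬ p ∣ k → Odd j → F k (j + 1) = F k j)
    (v2 : ∀ j, Even j → F 0 (j + 1) = F 0 j) : ∀ k j, F k j = F 0 0 := by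
  have C : ∀ n : ℕ, (n : ℤ) < p → ∀ j, Odd j →
      (Even n → F n j = F 0 j) ∧ (Odd n → F n (j + 1) = F 0 j) := by
    intro n
    induction n with
    | zero =>
      intro _ j _
      exact ⟨fun _ => rfl, fun h => absurd h (by simp)⟩
    | succ n ih =>
      intro hn j hj
      push_cast at hn ⊢
      have hnd : ¬ p ∣ ((n : ℤ) + 1) := by
        intro h
        have := Int.le_of_dvd (by omega) h
        omega
      obtain ⟨h1, h2⟩ := ih (by omega) j hj
      constructor
      · intro he
        have ho : Odd n := by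
          rcases Nat.even_or_odd n with h | h
          · exact absurd (h.add_one) (Nat.not_odd_iff_even.2 he)
          · exact h
        have hoZ : Odd (n : ℤ) := by exact_mod_cast ho
        have h3 := h2 ho
        have h4 := hor n (j + 1) (by rw [← add_assoc]; exact (hoZ.add_odd hj).add_one)
        have h5 := v1 (n + 1) j hnd hj
        rw [← h5, h4, h3]
      · intro ho
        have he : Even n := by
          rcases Nat.even_or_odd n with h | h
          · exact h
          · exact absurd ho (Nat.not_odd_iff_even.2 h.add_one)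
        have heZ : Even (n : ℤ) := by exact_mod_cast he
        have h3 := h1 he
        have h4 := hor n j (heZ.add_odd hj)
        have h5 := v1 (n + 1) j hnd hj
        rw [h5, h4, h3]
  -- the first column is constant
  have S : ∀ j, F 0 (j + 1) = F 0 j := by
    intro j
    rcases Int.even_or_odd j with hj | hj
    · exact v2 j hj
    · obtain ⟨n, hn⟩ : ∃ n : ℕ, (n : ℤ) = p - 1 := ⟨(p - 1).toNat, by omega⟩
      have hno : Odd (n : ℤ) := by
        rw [hn]
        exact hpe.sub_odd odd_one
      have h1 := (C n (by omega) j hj).2 (by exact_mod_cast hno)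
      have h2 := hor n (j + 1) (by rw [← add_assoc]; exact (hno.add_odd hj).add_one)
      have h3 := per 0 (j + 1)
      rw [show (n : ℤ) + 1 = 0 + p by omega, h3, h1] at h2
      exact h2
  have S0 : ∀ j, F 0 j = F 0 0 := by
    intro j
    induction j using Int.induction_on with
    | zero => rfl
    | succ j ih => rw [S, ih]
    | pred j ih =>
      have h := S (-j - 1)
      rw [sub_add_cancel] at h
      rw [← h, ih]
  have D1 : ∀ n : ℕ, (n : ℤ) < p → ∀ j, Odd ((n : ℤ) + j) → F n j = F 0 0 := by
    intro n hn j hj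
    rcases Nat.even_or_odd n with h | h
    · have hZ : Even (n : ℤ) := by exact_mod_cast h
      have hjo : Odd j := by
        have := hj.sub_even hZ
        rwa [add_sub_cancel_left] at this
      rw [(C n hn j hjo).1 h, S0]
    · have hZ : Odd (n : ℤ) := by exact_mod_cast h
      have hje : Even j := by
        have := hj.sub_odd hZ
        rwa [add_sub_cancel_left] at this
      have h3 := (C n hn (j - 1) (hje.sub_odd odd_one)).2 h
      rw [sub_add_cancel] at h3
      rw [h3, S0]
  have D2 : ∀ n : ℕ, (n : ℤ) < p → ∀ j, F n j = F 0 0 := by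
    intro n hn j
    rcases Int.even_or_odd ((n : ℤ) + j) with h | h
    · rcases Nat.eq_zero_or_pos n with h0 | h0
      · subst h0
        exact S0 j
      · obtain ⟨k, rfl⟩ : ∃ k, n = k + 1 := ⟨n - 1, by omega⟩
        push_cast at h hn ⊢
        have hk : Odd ((k : ℤ) + j) := by
          have := h.sub_odd odd_one
          rwa [show (k : ℤ) + 1 + j - 1 = k + j by ring] at this
        rw [hor k j hk]
        exact D1 k (by omega) j hk
    · exact D1 n hn j h
  have perm : ∀ k a j : ℤ, F (k + p * a) j = F k j := by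
    intro k a j
    induction a using Int.induction_on with
    | zero => simp
    | succ a ih =>
      have h : k + p * (a + 1) = (k + p * a) + p := by ring
      rw [h, per, ih]
    | pred a ih =>
      have h : k + p * (-a) = (k + p * (-a - 1)) + p := by ring
      rw [h, per] at ih
      exact ih
  intro k j
  have h1 : 0 ≤ k % p := Int.emod_nonneg _ hp.ne'
  have h2 : k % p < p := Int.emod_lt_of_pos _ hp
  have h3 : k = k % p + p * (k / p) := (Int.emod_add_mul_ediv k p).symm
  rw [h3, perm]
  obtain ⟨n, hn⟩ : ∃ n : ℕ, (n : ℤ) = k % p := ⟨(k % p).toNat, by omega⟩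
  rw [← hn]
  exact D2 n (by omega) j

/-- The Cartesian product of two cycles of even lengths decomposes into two Hamiltonian cycles. -/
theorem even_torus {V W : Type*} [Fintype V] [Fintype W] [instV : DecidableEq V]
    [instW : DecidableEq W] (G : SimpleGraph V) (H : SimpleGraph W) (x : ℤ → V) (y : ℤ → W)
    (p q : ℤ) (hp : 3 ≤ p) (hpe : Even p) (hq : 3 ≤ q) (hqe : Even q)
    (xper : ∀ z, x (z + p) = x z) (xinj : ∀ z w, x z = x w → p ∣ z - w)
    (xsurj : ∀ v, ∃ z, x z = v)
    (yper : ∀ z, y (z + q) = y z) (yinj : ∀ z w, y z = y w → q ∣ z - w)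
    (ysurj : ∀ v, ∃ z, y z = v)
    (hG : ∀ v w, G.Adj v w ↔ ∃ z, (v = x z ∧ w = x (z + 1)) ∨ (v = x (z + 1) ∧ w = x z))
    (hH : ∀ v w, H.Adj v w ↔ ∃ z, (v = y z ∧ w = y (z + 1)) ∨ (v = y (z + 1) ∧ w = y z)) :
    H93HD.HamDecomp (G □ H) 2 := by
  have : Nonempty V := ⟨x 0⟩
  have : Nonempty W := ⟨y 0⟩
  obtain ⟨m, hm, hm', minj, madj, m0o, m0e, m1e, m1o⟩ :=
    exists_two_mates x p hp hpe xper xinj xsurj
  obtain ⟨n, hn, hn', ninj, nadj, n0o, n0e, n1e, n1o⟩ :=
    exists_two_mates y q hq hqe yper yinj ysurj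
  -- parity of the rows
  have ypar : ∀ z w, y z = y w → (Even z ↔ Even w) := by
    intro z w h
    obtain ⟨k, hk⟩ := yinj z w h
    have h2 : Even (z - w) := by
      rw [hk]
      exact hqe.mul_right k
    exact Int.even_sub.1 h2
  have sw : Function.Bijective (fun i : Fin 2 => i + 1) := by decide
  let ρ : W → Fin 2 → Fin 2 := fun h i => if (∃ z, Even z ∧ y z = h) then i else i + 1
  let σ : V → Fin 2 → Fin 2 := fun g i => if g = x 0 then i + 1 else i
  have rhoe : ∀ z, Even z → ∀ i, ρ (y z) i = i := fun z hz i => by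
    simp only [ρ]
    rw [if_pos ⟨z, hz, rfl⟩]
  have rhoo : ∀ z, Odd z → ∀ i, ρ (y z) i = i + 1 := fun z hz i => by
    simp only [ρ]
    rw [if_neg]
    rintro ⟨w, hw, hwz⟩
    exact (Int.not_even_iff_odd.2 hz) ((ypar _ _ hwz).1 hw)
  have sig0 : ∀ i, σ (x 0) i = i + 1 := fun i => if_pos rfl
  have sig1 : ∀ k, ¬ p ∣ k → ∀ i, σ (x k) i = i := fun k hk i => by
    refine if_neg ?_
    intro h
    have := xinj _ _ h
    rw [sub_zero] at this
    exact hk this
  refine hamDecomp_of_splitD 2 G H m n hm hm' hn hn'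
    (fun v w => by rw [hG, madj]) (fun v w => by rw [hH, nadj]) minj ninj ρ σ
    (fun h => ?_) (fun g => ?_) ?_
  · simp only [ρ]
    split_ifs
    · exact Function.bijective_id
    · exact sw
  · simp only [σ]
    split_ifs
    · exact sw
    · exact Function.bijective_id
  · intro i f hf1 hf2
    have hp0 : (0 : ℤ) < p := by omega
    -- it is enough to see that `f (x k) (y j)` does not depend on `k, j`
    suffices hc : ∃ a, ∀ k j, f (x k) (y j) = a by
      obtain ⟨a, ha⟩ := hc
      intro g h g' h'
      obtain ⟨k, rfl⟩ := xsurj g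
      obtain ⟨j, rfl⟩ := ysurj h
      obtain ⟨k', rfl⟩ := xsurj g'
      obtain ⟨j', rfl⟩ := ysurj h'
      rw [ha, ha]
    have h01 : i = 0 ∨ i = 1 := by
      revert i
      intro i _ _
      fin_cases i
      · exact Or.inl rfl
      · exact Or.inr rfl
    rcases h01 with rfl | rfl
    · refine ⟨f (x 0) (y 0), torus_const (fun k j => f (x k) (y j)) p hp0 hpe ?_ ?_ ?_ ?_⟩
      · intro k j
        simp only [xper]
      · intro k j hkj
        show f (x (k + 1)) (y j) = f (x k) (y j)
        rcases Int.even_or_odd j with hj | hj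
        · have hk : Odd k := by
            have := hkj.sub_even hj
            rwa [add_sub_cancel_right] at this
          have h1 := hf1 (x k) (y j)
          rw [rhoe j hj, m0o k hk] at h1
          exact h1
        · have hk : Even k := by
            have := hkj.sub_odd hj
            rwa [add_sub_cancel_right] at this
          have h1 := hf1 (x k) (y j)
          rw [rhoo j hj, show (0 : Fin 2) + 1 = 1 by rfl, m1e k hk] at h1
          exact h1
      · intro k j hk hj
        show f (x k) (y (j + 1)) = f (x k) (y j)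
        have h1 := hf2 (x k) (y j)
        rw [sig1 k hk, n0o j hj] at h1
        exact h1
      · intro j hj
        show f (x 0) (y (j + 1)) = f (x 0) (y j)
        have h1 := hf2 (x 0) (y j)
        rw [sig0, show (0 : Fin 2) + 1 = 1 by rfl, n1e j hj] at h1
        exact h1
    · have hT := torus_const (fun k j => f (x k) (y (j + 1))) p hp0 hpe ?_ ?_ ?_ ?_
      · refine ⟨f (x 0) (y (0 + 1)), fun k j => ?_⟩
        have := hT k (j - 1)
        simp only [sub_add_cancel] at this
        exact this
      · intro k j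
        simp only [xper]
      · intro k j hkj
        show f (x (k + 1)) (y (j + 1)) = f (x k) (y (j + 1))
        rcases Int.even_or_odd j with hj | hj
        · have hk : Odd k := by
            have := hkj.sub_even hj
            rwa [add_sub_cancel_right] at this
          have h1 := hf1 (x k) (y (j + 1))
          rw [rhoo (j + 1) hj.add_one, show (1 : Fin 2) + 1 = 0 by rfl, m0o k hk] at h1
          exact h1
        · have hk : Even k := by
            have := hkj.sub_odd hj
            rwa [add_sub_cancel_right] at this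
          have h1 := hf1 (x k) (y (j + 1))
          rw [rhoe (j + 1) hj.add_one, m1e k hk] at h1
          exact h1
      · intro k j hk hj
        show f (x k) (y (j + 1 + 1)) = f (x k) (y (j + 1))
        have h1 := hf2 (x k) (y (j + 1))
        rw [sig1 k hk, n1e (j + 1) hj.add_one] at h1
        exact h1
      · intro j hj
        show f (x 0) (y (j + 1 + 1)) = f (x 0) (y (j + 1))
        have h1 := hf2 (x 0) (y (j + 1))
        rw [sig0, show (1 : Fin 2) + 1 = 0 by rfl, n0o (j + 1) hj.add_one] at h1
        exact h1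

end HX67
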