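import Pool.Agent.H93HD.HamDef

/-!
# Union of decompositions of products
-/

namespace HX67

/-- If `G` is the edge-disjoint union of the `Gs i` and `H` of the `Hs i`, Hamiltonian
decompositions of the products `Gs i □ Hs i` give one of `G □ H`. -/
theorem hamDecomp_union {V W : Type*} [DecidableEq V] [DecidableEq W] (n : ℕ)
    (G : SimpleGraph V) (H : SimpleGraph W) (Gs : Fin n → SimpleGraph V)
    (Hs : Fin n → SimpleGraph W) (d : Fin n → ℕ)
    (hG : ∀ v w, G.Adj v w ↔ ∃ i, (Gs i).Adj v w)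
    (hGd : ∀ i j v w, (Gs i).Adj v w → (Gs j).Adj v w → i = j)
    (hH : ∀ v w, H.Adj v w ↔ ∃ i, (Hs i).Adj v w)
    (hHd : ∀ i j v w, (Hs i).Adj v w → (Hs j).Adj v w → i = j)
    (hdec : ∀ i, H93HD.HamDecomp (Gs i □ Hs i) (d i)) :
    H93HD.HamDecomp (G □ H) (∑ i, d i) := by
  have hle : ∀ i, (Gs i □ Hs i) ≤ (G □ H) := by
    intro i p q h
    rw [SimpleGraph.boxProd_adj] at h ⊢
    rcases h with ⟨h1, h2⟩ | ⟨h1, h2⟩
    · exact Or.inl ⟨(hG _ _).2 ⟨i, h1⟩, h2⟩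
    · exact Or.inr ⟨(hH _ _).2 ⟨i, h1⟩, h2⟩
  have hex : ∀ e ∈ (G □ H).edgeSet, ∃ i, e ∈ (Gs i □ Hs i).edgeSet := by
    intro e he
    induction e with
    | _ p q =>
      rw [SimpleGraph.mem_edgeSet, SimpleGraph.boxProd_adj] at he
      rcases he with ⟨h1, h2⟩ | ⟨h1, h2⟩
      · obtain ⟨i, hi⟩ := (hG _ _).1 h1
        exact ⟨i, SimpleGraph.boxProd_adj.2 (Or.inl ⟨hi, h2⟩)⟩
      · obtain ⟨i, hi⟩ := (hH _ _).1 h1
        exact ⟨i, SimpleGraph.boxProd_adj.2 (Or.inr ⟨hi, h2⟩)⟩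
  have huq : ∀ e i j, e ∈ (Gs i □ Hs i).edgeSet → e ∈ (Gs j □ Hs j).edgeSet → i = j := by
    intro e i j hi hj
    induction e with
    | _ p q =>
      rw [SimpleGraph.mem_edgeSet, SimpleGraph.boxProd_adj] at hi hj
      rcases hi with ⟨h1, h2⟩ | ⟨h1, h2⟩ <;> rcases hj with ⟨h3, h4⟩ | ⟨h3, h4⟩
      · exact hGd i j _ _ h1 h3
      · exact absurd h4 h1.ne
      · exact absurd h2 h3.ne
      · exact hHd i j _ _ h1 h3
  choose a c hc hce using hdec
  let eqv : (Σ i : Fin n, Fin (d i)) ≃ Fin (∑ i, d i) := finSigmaFinEquiv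
  refine ⟨fun k => a (eqv.symm k).1 (eqv.symm k).2,
    fun k => (c (eqv.symm k).1 (eqv.symm k).2).mapLe (hle (eqv.symm k).1), ?_, ?_⟩
  · intro k
    exact (hc (eqv.symm k).1 (eqv.symm k).2).map
      (f := SimpleGraph.Hom.ofLE (hle (eqv.symm k).1)) Function.bijective_id
  · intro e he
    obtain ⟨i, hi⟩ := hex e he
    obtain ⟨j, hj, hju⟩ := hce i e hi
    let Q : (Σ i : Fin n, Fin (d i)) → Prop := fun t => e ∈ (c t.1 t.2).edges
    have hQ : ∀ k : Fin (∑ i, d i), e ∈ ((c (eqv.symm k).1 (eqv.symm k).2).mapLe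
        (hle (eqv.symm k).1)).edges ↔ Q (eqv.symm k) := by
      intro k
      rw [SimpleGraph.Walk.edges_mapLe_eq_edges]
    have hQu : ∀ t : (Σ i : Fin n, Fin (d i)), Q t → t = ⟨i, j⟩ := by
      rintro ⟨i', j'⟩ hk
      have h1 : i' = i := huq e i' i (SimpleGraph.Walk.edges_subset_edgeSet _ hk) hi
      subst h1
      rw [hju j' hk]
    refine ⟨eqv ⟨i, j⟩, ?_, ?_⟩
    · refine (hQ _).2 ?_
      rw [Equiv.symm_apply_apply]
      exact hj
    · intro k hk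
      rw [← hQu _ ((hQ k).1 hk), Equiv.apply_symm_apply]

end HX67
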