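import Pool.Agent.HX67.HamDefs
import Pool.Agent.HX67.Present
import Pool.Agent.HX67.Torus
import Pool.Agent.HX67.Union

/-!
# MP_8634e8_co : from cubic graphs to all odd degrees

Written by helper73 for helper67's project HX67.
-/

namespace HX67

open SimpleGraph Finset

/-- the cyclic enumeration given by a Hamiltonian cycle, together with its edges -/
theorem exists_enum_edges {V : Type*} [Fintype V] [DecidableEq V] (G : SimpleGraph V) (a : V)
    (c : G.Walk a a) (hc : c.IsHamiltonianCycle) :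
    ∃ X : ℤ → V, (∀ z, X (z + (Fintype.card V : ℤ)) = X z) ∧
      (∀ z w, X z = X w → (Fintype.card V : ℤ) ∣ z - w) ∧ (∀ v, ∃ z, X z = v) ∧
      ∀ v w, s(v, w) ∈ c.edges ↔
        ∃ z, (v = X z ∧ w = X (z + 1)) ∨ (v = X (z + 1) ∧ w = X z) := by
  have hlen : c.length = Fintype.card V := hc.length_eq
  have hpos : 0 < Fintype.card V := Fintype.card_pos_iff.2 ⟨a⟩
  have hposZ : (0 : ℤ) < (Fintype.card V : ℤ) := by exact_mod_cast hpos
  set n : ℤ := (Fintype.card V : ℤ) with hn
  have hlenZ : (c.length : ℤ) = n := by rw [hlen]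
  -- the successor
  have hsucc : ∀ z : ℤ, c.getVert ((z + 1) % n).toNat = c.getVert ((z % n).toNat + 1) := by
    intro z
    have h1 : 0 ≤ z % n := Int.emod_nonneg _ hposZ.ne'
    have h2 : z % n < n := Int.emod_lt_of_pos _ hposZ
    rcases lt_or_ge (z % n + 1) n with h | h
    · have h3 : (z + 1) % n = z % n + 1 := by
        rw [Int.add_emod]
        rcases lt_or_ge 1 n with h1n | h1n
        · rw [Int.emod_eq_of_lt (by norm_num) h1n, Int.emod_eq_of_lt (by omega) h]
        · omega
      have h4 : ((z + 1) % n).toNat = (z % n).toNat + 1 := by omega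
      rw [h4]
    · have h3 : (z + 1) % n = 0 := by
        have h4 : z % n = n - 1 := by omega
        have h5 : z + 1 = n * (z / n + 1) := by
          have := Int.emod_add_mul_ediv z n
          rw [h4] at this
          linarith
        rw [h5, Int.mul_emod_right]
      have h4 : (z % n).toNat + 1 = c.length := by omega
      rw [h3, h4, Walk.getVert_length, Int.toNat_zero, Walk.getVert_zero]
  refine ⟨fun z => c.getVert (z % n).toNat, ?_, ?_, ?_, ?_⟩
  · intro z
    simp only [Int.add_emod_right]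
  · intro z w h
    have h1 : 0 ≤ z % n := Int.emod_nonneg _ hposZ.ne'
    have h2 : z % n < n := Int.emod_lt_of_pos _ hposZ
    have h3 : 0 ≤ w % n := Int.emod_nonneg _ hposZ.ne'
    have h4 : w % n < n := Int.emod_lt_of_pos _ hposZ
    have h5 : (z % n).toNat = (w % n).toNat := by
      apply hc.isCycle.getVert_injOn'
      · show (z % n).toNat ≤ c.length - 1
        omega
      · show (w % n).toNat ≤ c.length - 1
        omega
      · exact h
    have h6 : z % n = w % n := by omega
    exact (Int.emod_emod_of_dvd _ (dvd_refl n) ▸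
      Int.emod_eq_emod_iff_emod_sub_eq_zero.1 h6 |> Int.dvd_of_emod_eq_zero)
  · intro v
    obtain ⟨i, hi, hil⟩ := Walk.mem_support_iff_exists_getVert.1 (hc.mem_support v)
    rcases Nat.lt_or_ge i c.length with h | h
    · refine ⟨(i : ℤ), ?_⟩
      have : ((i : ℤ) % n) = i := Int.emod_eq_of_lt (by omega) (by omega)
      simp only [this, Int.toNat_natCast]
      exact hi
    · have hi2 : i = c.length := le_antisymm hil h
      refine ⟨0, ?_⟩
      simp only [Int.zero_emod, Int.toNat_zero, Walk.getVert_zero]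
      rw [← hi, hi2, Walk.getVert_length]
  · intro v w
    rw [Walk.mk_mem_edges_iff_exists]
    constructor
    · rintro ⟨i, hi, he⟩
      refine ⟨(i : ℤ), ?_⟩
      have h1 : ((i : ℤ) % n) = i := Int.emod_eq_of_lt (by omega) (by omega)
      simp only [hsucc, h1, Int.toNat_natCast]
      rcases Sym2.eq_iff.1 he with ⟨h2, h3⟩ | ⟨h2, h3⟩
      · exact Or.inl ⟨h2.symm, h3.symm⟩
      · exact Or.inr ⟨h3.symm, h2.symm⟩
    · rintro ⟨z, hz⟩
      have h1 : 0 ≤ z % n := Int.emod_nonneg _ hposZ.ne'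
      have h2 : z % n < n := Int.emod_lt_of_pos _ hposZ
      refine ⟨(z % n).toNat, by omega, ?_⟩
      simp only [hsucc] at hz
      rcases hz with ⟨h3, h4⟩ | ⟨h3, h4⟩
      · rw [h3, h4]
      · rw [h3, h4, Sym2.eq_swap]

/-- the graph of the edges of a walk -/
def cyc {V : Type*} {G : SimpleGraph V} {a : V} (c : G.Walk a a) : SimpleGraph V where
  Adj v w := s(v, w) ∈ c.edges
  symm := ⟨fun v w h => by
    rw [Sym2.eq_swap]
    exact h⟩
  loopless := ⟨fun v h => G.loopless.irrefl v (Walk.adj_of_mem_edges c h)⟩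

theorem cyc_adj {V : Type*} {G : SimpleGraph V} {a : V} (c : G.Walk a a) (v w : V) :
    (cyc c).Adj v w ↔ s(v, w) ∈ c.edges := Iff.rfl

/-- the edges outside the walks -/
def rest {V : Type*} (G : SimpleGraph V) {k : ℕ} (a : Fin k → V) (c : ∀ i, G.Walk (a i) (a i)) :
    SimpleGraph V where
  Adj v w := G.Adj v w ∧ ∀ i, s(v, w) ∉ (c i).edges
  symm := ⟨fun v w h => ⟨h.1.symm, fun i => by
    rw [Sym2.eq_swap]
    exact h.2 i⟩⟩
  loopless := ⟨fun v h => G.loopless.irrefl v h.1⟩

theorem card_nbr {V : Type*} [Fintype V] [DecidableEq V] (G : SimpleGraph V) (a : V)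
    (c : G.Walk a a) (hc : c.IsHamiltonianCycle) (h3 : 3 ≤ Fintype.card V) (v : V) :
    #(univ.filter (fun w => s(v, w) ∈ c.edges)) = 2 := by
  obtain ⟨X, hper, hinj, hsurj, hadj⟩ := exists_enum_edges G a c hc
  obtain ⟨z, rfl⟩ := hsurj v
  have h3Z : (3 : ℤ) ≤ (Fintype.card V : ℤ) := by exact_mod_cast h3
  have hperm : ∀ z k : ℤ, X (z + (Fintype.card V : ℤ) * k) = X z := by
    intro z k
    induction k using Int.induction_on with
    | zero => simp
    | succ k ih =>
      have h : z + (Fintype.card V : ℤ) * (k + 1)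
          = (z + (Fintype.card V : ℤ) * k) + (Fintype.card V : ℤ) := by ring
      rw [h, hper, ih]
    | pred k ih =>
      have h : z + (Fintype.card V : ℤ) * (-k)
          = (z + (Fintype.card V : ℤ) * (-k - 1)) + (Fintype.card V : ℤ) := by ring
      rw [h, hper] at ih
      exact ih
  have hshift : ∀ z w s : ℤ, X z = X w → X (z + s) = X (w + s) := by
    intro z w s h
    obtain ⟨k, hk⟩ := hinj z w h
    have : z + s = (w + s) + (Fintype.card V : ℤ) * k := by linarith
    rw [this, hperm]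
  have hne : X (z + 1) ≠ X (z - 1) := by
    intro h
    obtain ⟨k, hk⟩ := hinj _ _ h
    rcases lt_trichotomy k 0 with hk0 | hk0 | hk0
    · nlinarith
    · rw [hk0, mul_zero] at hk
      omega
    · nlinarith
  have hset : univ.filter (fun w => s(X z, w) ∈ c.edges) = {X (z + 1), X (z - 1)} := by
    ext w
    rw [mem_filter, hadj, mem_insert, mem_singleton]
    constructor
    · rintro ⟨_, y, ⟨h1, h2⟩ | ⟨h1, h2⟩⟩
      · left
        rw [h2, hshift z y 1 h1]
      · right
        have h4 := hshift z (y + 1) (-1) h1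
        rw [h2, sub_eq_add_neg, h4]
        congr 1
        ring
    · rintro (h | h)
      · exact ⟨mem_univ _, z, Or.inl ⟨rfl, h⟩⟩
      · refine ⟨mem_univ _, z - 1, Or.inr ⟨?_, h⟩⟩
        congr 1
        ring
  rw [hset, card_pair hne]

theorem regular_part {V : Type*} [Fintype V] [DecidableEq V] (G : SimpleGraph V)
    [DecidableRel G.Adj] (m : ℕ) (hG : G.IsRegularOfDegree (2 * (m + 1) + 1))
    (a : Fin (m + 1) → V) (c : ∀ i, G.Walk (a i) (a i)) (hham : ∀ i, (c i).IsHamiltonianCycle)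
    (hdis : ∀ i j e, e ∈ (c i).edges → e ∈ (c j).edges → i = j)
    [DecidableRel (cyc (c 0) ⊔ rest G a c).Adj] :
    (cyc (c 0) ⊔ rest G a c).IsRegularOfDegree 3 := by
  intro v
  have h3 : 3 ≤ Fintype.card V := by
    have h2 := G.degree_lt_card_verts v
    rw [hG v] at h2
    omega
  have hN : ∀ i, #(univ.filter (fun w => s(v, w) ∈ (c i).edges)) = 2 := fun i =>
    card_nbr G (a i) (c i) (hham i) h3 v
  have hU : #((univ : Finset (Fin (m + 1))).biUnion
      (fun i => univ.filter (fun w => s(v, w) ∈ (c i).edges))) = 2 * (m + 1) := by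
    rw [card_biUnion]
    · rw [sum_congr rfl (fun i _ => hN i)]
      simp [mul_comm]
    · intro i _ j _ hij
      show Disjoint (univ.filter (fun w => s(v, w) ∈ (c i).edges))
        (univ.filter (fun w => s(v, w) ∈ (c j).edges))
      rw [Finset.disjoint_left]
      intro w h1 h2
      rw [mem_filter] at h1 h2
      exact hij (hdis i j _ h1.2 h2.2)
  have hsub : (univ : Finset (Fin (m + 1))).biUnion
      (fun i => univ.filter (fun w => s(v, w) ∈ (c i).edges)) ⊆ G.neighborFinset v := by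
    intro w hw
    rw [mem_biUnion] at hw
    obtain ⟨i, _, hi⟩ := hw
    rw [mem_filter] at hi
    rw [mem_neighborFinset]
    exact (c i).adj_of_mem_edges hi.2
  have hrest : #(G.neighborFinset v \ (univ : Finset (Fin (m + 1))).biUnion
      (fun i => univ.filter (fun w => s(v, w) ∈ (c i).edges))) = 1 := by
    rw [card_sdiff_of_subset hsub, hU, card_neighborFinset_eq_degree, hG v]
    omega
  have hset : (cyc (c 0) ⊔ rest G a c).neighborFinset v =
      univ.filter (fun w => s(v, w) ∈ (c 0).edges) ∪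
      (G.neighborFinset v \ (univ : Finset (Fin (m + 1))).biUnion
      (fun i => univ.filter (fun w => s(v, w) ∈ (c i).edges))) := by
    ext w
    rw [mem_neighborFinset, mem_union, mem_filter, mem_sdiff, mem_neighborFinset, mem_biUnion]
    show (s(v, w) ∈ (c 0).edges ∨ (G.Adj v w ∧ ∀ i, s(v, w) ∉ (c i).edges)) ↔ _
    constructor
    · rintro (h | ⟨h, h'⟩)
      · exact Or.inl ⟨mem_univ _, h⟩
      · refine Or.inr ⟨h, ?_⟩
        rintro ⟨i, _, hi⟩
        rw [mem_filter] at hi
        exact h' i hi.2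
    · rintro (⟨_, h⟩ | ⟨h, h'⟩)
      · exact Or.inl h
      · refine Or.inr ⟨h, fun i hi => h' ⟨i, mem_univ _, ?_⟩⟩
        rw [mem_filter]
        exact ⟨mem_univ _, hi⟩
  have hdisj : Disjoint (univ.filter (fun w => s(v, w) ∈ (c 0).edges))
      (G.neighborFinset v \ (univ : Finset (Fin (m + 1))).biUnion
      (fun i => univ.filter (fun w => s(v, w) ∈ (c i).edges))) := by
    rw [Finset.disjoint_left]
    intro w h1 h2
    rw [mem_sdiff, mem_biUnion] at h2
    exact h2.2 ⟨0, mem_univ _, h1⟩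
  rw [← card_neighborFinset_eq_degree, hset, card_union_of_disjoint hdisj, hN 0, hrest]

/-- the splitting of a graph of odd degree -/
theorem exists_parts {V : Type*} [Fintype V] [DecidableEq V] (G : SimpleGraph V)
    [DecidableRel G.Adj] (m : ℕ) (hG : G.IsRegularOfDegree (2 * (m + 1) + 1))
    (hc : DisjHam G (m + 1)) :
    ∃ Gs : Fin (m + 1) → SimpleGraph V, (∀ v w, G.Adj v w ↔ ∃ i, (Gs i).Adj v w) ∧
      (∀ i j v w, (Gs i).Adj v w → (Gs j).Adj v w → i = j) ∧
      (∀ [DecidableRel (Gs 0).Adj], (Gs 0).IsRegularOfDegree 3) ∧ (Gs 0).IsHamiltonian ∧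
      ∀ i, i ≠ 0 → ∃ X : ℤ → V, (∀ z, X (z + (Fintype.card V : ℤ)) = X z) ∧
        (∀ z w, X z = X w → (Fintype.card V : ℤ) ∣ z - w) ∧ (∀ v, ∃ z, X z = v) ∧
        ∀ v w, (Gs i).Adj v w ↔
          ∃ z, (v = X z ∧ w = X (z + 1)) ∨ (v = X (z + 1) ∧ w = X z) := by
  obtain ⟨a, c, hham, hdis⟩ := hc
  have h3 : 3 ≤ Fintype.card V := by
    have h2 := G.degree_lt_card_verts (a 0)
    rw [hG (a 0)] at h2
    omega
  refine ⟨fun i => if i = 0 then cyc (c 0) ⊔ rest G a c else cyc (c i), ?_, ?_, ?_, ?_, ?_⟩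
  · intro v w
    constructor
    · intro h
      by_cases h1 : ∃ i, s(v, w) ∈ (c i).edges
      · obtain ⟨i, hi⟩ := h1
        refine ⟨i, ?_⟩
        by_cases h0 : i = 0
        · subst h0
          simp only [if_true]
          exact Or.inl hi
        · simp only [if_neg h0]
          exact hi
      · push Not at h1
        refine ⟨0, ?_⟩
        simp only [if_true]
        exact Or.inr ⟨h, h1⟩
    · rintro ⟨i, hi⟩
      by_cases h0 : i = 0
      · simp only [if_pos h0] at hi
        rcases hi with hi | hi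
        · exact (c 0).adj_of_mem_edges hi
        · exact hi.1
      · simp only [if_neg h0] at hi
        exact (c i).adj_of_mem_edges hi
  · have key : ∀ i v w, (if i = 0 then cyc (c 0) ⊔ rest G a c else cyc (c i)).Adj v w →
        s(v, w) ∈ (c i).edges ∨ (i = 0 ∧ ∀ j, s(v, w) ∉ (c j).edges) := by
      intro i v w hi
      by_cases h0 : i = 0
      · rw [if_pos h0] at hi
        rcases hi with hi | hi
        · left
          rw [h0]
          exact hi
        · exact Or.inr ⟨h0, hi.2⟩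
      · rw [if_neg h0] at hi
        exact Or.inl hi
    intro i j v w hi hj
    rcases key i v w hi with h1 | ⟨h1, h2⟩
    · rcases key j v w hj with h3 | ⟨h3, h4⟩
      · exact hdis i j _ h1 h3
      · exact absurd h1 (h4 i)
    · rcases key j v w hj with h3 | ⟨h3, h4⟩
      · exact absurd h3 (h2 j)
      · rw [h1, h3]
  · show ∀ [DecidableRel (if (0 : Fin (m + 1)) = 0 then cyc (c 0) ⊔ rest G a c
      else cyc (c 0)).Adj], (if (0 : Fin (m + 1)) = 0 then cyc (c 0) ⊔ rest G a c
      else cyc (c 0)).IsRegularOfDegree 3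
    rw [if_pos rfl]
    intro inst
    exact regular_part G m hG a c hham hdis
  · simp only [if_true]
    intro _
    have hle : ∀ e ∈ (c 0).edges, e ∈ (cyc (c 0) ⊔ rest G a c).edgeSet := by
      intro e
      induction e using Sym2.ind with
      | _ v w =>
        intro h
        rw [mem_edgeSet]
        exact Or.inl h
    refine ⟨a 0, (c 0).transfer _ hle, ?_⟩
    rw [Walk.isHamiltonianCycle_iff_isCycle_and_length_eq]
    refine ⟨(hham 0).isCycle.transfer hle, ?_⟩
    rw [Walk.length_transfer]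
    exact (hham 0).length_eq
  · intro i hi
    obtain ⟨X, h1, h2, h3, h4⟩ := exists_enum_edges G (a i) (c i) (hham i)
    refine ⟨X, h1, h2, h3, fun v w => ?_⟩
    simp only [if_neg hi]
    exact h4 v w

/-- a regular graph of odd degree has an even number of vertices -/
theorem even_card {V : Type*} [Fintype V] (G : SimpleGraph V) [DecidableRel G.Adj] (m : ℕ)
    (hG : G.IsRegularOfDegree (2 * (m + 1) + 1)) : Even (Fintype.card V) := by
  have h1 := G.sum_degrees_eq_twice_card_edges
  rw [sum_congr rfl (fun v _ => hG v), sum_const, card_univ, smul_eq_mul] at h1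
  have h2 : Even (Fintype.card V * (2 * (m + 1) + 1)) := ⟨#G.edgeFinset, by omega⟩
  rcases Nat.even_mul.1 h2 with h | h
  · exact h
  · exfalso
    rw [Nat.even_iff] at h
    omega

/-- THE ODD CASE from the union lemma, the even torus and the cubic case -/
theorem odd_aux {V W : Type*} [Fintype V] [Fintype W] [DecidableEq V] [DecidableEq W]
    (union : ∀ (n : ℕ) (G : SimpleGraph V) (H : SimpleGraph W) (Gs : Fin n → SimpleGraph V)
      (Hs : Fin n → SimpleGraph W) (d : Fin n → ℕ),
      (∀ v w, G.Adj v w ↔ ∃ i, (Gs i).Adj v w) →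
      (∀ i j v w, (Gs i).Adj v w → (Gs j).Adj v w → i = j) →
      (∀ v w, H.Adj v w ↔ ∃ i, (Hs i).Adj v w) →
      (∀ i j v w, (Hs i).Adj v w → (Hs j).Adj v w → i = j) →
      (∀ i, H93HD.HamDecomp (Gs i □ Hs i) (d i)) → H93HD.HamDecomp (G □ H) (∑ i, d i))
    (torus : ∀ (G : SimpleGraph V) (H : SimpleGraph W) (x : ℤ → V) (y : ℤ → W) (p q : ℤ),
      4 ≤ p → 4 ≤ q → Even p → Even q →
      (∀ z, x (z + p) = x z) → (∀ z w, x z = x w → p ∣ z - w) → (∀ v, ∃ z, x z = v) →
      (∀ z, y (z + q) = y z) → (∀ z w, y z = y w → q ∣ z - w) → (∀ v, ∃ z, y z = v) →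
      (∀ v w, G.Adj v w ↔ ∃ z, (v = x z ∧ w = x (z + 1)) ∨ (v = x (z + 1) ∧ w = x z)) →
      (∀ v w, H.Adj v w ↔ ∃ z, (v = y z ∧ w = y (z + 1)) ∨ (v = y (z + 1) ∧ w = y z)) →
      H93HD.HamDecomp (G □ H) 2)
    (cubic : ∀ (G : SimpleGraph V) (H : SimpleGraph W) [DecidableRel G.Adj] [DecidableRel H.Adj],
      G.IsRegularOfDegree 3 → H.IsRegularOfDegree 3 → G.IsHamiltonian → H.IsHamiltonian →
      G.Colorable 2 → H93HD.HamDecomp (G □ H) 3)
    (k : ℕ) (hk : 1 ≤ k) (G : SimpleGraph V) (H : SimpleGraph W)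
    [DecidableRel G.Adj] [DecidableRel H.Adj]
    (hG : G.IsRegularOfDegree (2 * k + 1)) (hH : H.IsRegularOfDegree (2 * k + 1))
    (hGc : DisjHam G k) (hHc : DisjHam H k) (hG2 : G.Colorable 2) :
    H93HD.HamDecomp (G □ H) (2 * k + 1) := by
  classical
  obtain ⟨m, rfl⟩ : ∃ m, k = m + 1 := ⟨k - 1, by omega⟩
  obtain ⟨Gs, hGs, hGd, hG3, hGham, hGcyc⟩ := exists_parts G m hG hGc
  obtain ⟨Hs, hHs, hHd, hH3, hHham, hHcyc⟩ := exists_parts H m hH hHc
  have hsum : (∑ i : Fin (m + 1), if i = 0 then 3 else 2) = 2 * (m + 1) + 1 := by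
    rw [Fin.sum_univ_succ, if_pos rfl]
    have : ∀ i : Fin m, (if (i.succ : Fin (m + 1)) = 0 then 3 else 2) = 2 := fun i =>
      if_neg (Fin.succ_ne_zero i)
    rw [sum_congr rfl (fun i _ => this i)]
    simp
    ring
  rw [← hsum]
  refine union (m + 1) G H Gs Hs _ hGs hGd hHs hHd ?_
  intro i
  by_cases h0 : i = 0
  · subst h0
    rw [if_pos rfl]
    refine cubic (Gs 0) (Hs 0) hG3 hH3 hGham hHham ?_
    refine hG2.mono_left ?_
    intro v w h
    exact (hGs v w).2 ⟨0, h⟩
  · rw [if_neg h0]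
    obtain ⟨x, hx1, hx2, hx3, hx4⟩ := hGcyc i h0
    obtain ⟨y, hy1, hy2, hy3, hy4⟩ := hHcyc i h0
    obtain ⟨v0, _⟩ : ∃ v : V, v = x 0 := ⟨x 0, rfl⟩
    obtain ⟨w0, _⟩ : ∃ w : W, w = y 0 := ⟨y 0, rfl⟩
    have hV : 4 ≤ Fintype.card V := by
      have h2 := G.degree_lt_card_verts v0
      rw [hG v0] at h2
      omega
    have hW : 4 ≤ Fintype.card W := by
      have h2 := H.degree_lt_card_verts w0
      rw [hH w0] at h2
      omega
    have hVe := even_card G m hG
    have hWe := even_card H m hH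
    exact torus (Gs i) (Hs i) x y (Fintype.card V : ℤ) (Fintype.card W : ℤ) (by exact_mod_cast hV)
      (by exact_mod_cast hW) (by exact_mod_cast hVe) (by exact_mod_cast hWe) hx1 hx2 hx3 hy1 hy2 hy3
      hx4 hy4

/-- THE ODD CASE from the cubic case -/
theorem odd {V W : Type*} [Fintype V] [Fintype W] [DecidableEq V] [DecidableEq W]
    (cubic : ∀ (G : SimpleGraph V) (H : SimpleGraph W) [DecidableRel G.Adj] [DecidableRel H.Adj],
      G.IsRegularOfDegree 3 → H.IsRegularOfDegree 3 → G.IsHamiltonian → H.IsHamiltonian →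
      G.Colorable 2 → H93HD.HamDecomp (G □ H) 3)
    (k : ℕ) (hk : 1 ≤ k) (G : SimpleGraph V) (H : SimpleGraph W)
    [DecidableRel G.Adj] [DecidableRel H.Adj]
    (hG : G.IsRegularOfDegree (2 * k + 1)) (hH : H.IsRegularOfDegree (2 * k + 1))
    (hGc : DisjHam G k) (hHc : DisjHam H k) (hG2 : G.Colorable 2) :
    H93HD.HamDecomp (G □ H) (2 * k + 1) :=
  odd_aux (fun n G H Gs Hs d h1 h2 h3 h4 h5 => hamDecomp_union n G H Gs Hs d h1 h2 h3 h4 h5)
    (fun G H x y p q hp hq hpe hqe x1 x2 x3 y1 y2 y3 h1 h2 =>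
      even_torus G H x y p q (by omega) hpe (by omega) hqe x1 x2 x3 y1 y2 y3 h1 h2)
    cubic k hk G H hG hH hGc hHc hG2

end HX67
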