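import Pool.Agent.HX67.Main8
import Pool.Agent.HX67.Odd

/-!
# All odd degrees, `8 ∣ |G| |H|`
-/

namespace HX67

theorem final8 {V W : Type*} [Fintype V] [Fintype W] [DecidableEq V] [DecidableEq W]
    (k : ℕ) (hk : 1 ≤ k) (G : SimpleGraph V) (H : SimpleGraph W)
    [DecidableRel G.Adj] [DecidableRel H.Adj]
    (hG : G.IsRegularOfDegree (2 * k + 1)) (hH : H.IsRegularOfDegree (2 * k + 1))
    (hGc : DisjHam G k) (hHc : DisjHam H k) (hG2 : G.Colorable 2)
    (h8 : 8 ∣ Fintype.card V * Fintype.card W) :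
    H93HD.HamDecomp (G □ H) (2 * k + 1) :=
  odd (fun G H _ _ h1 h2 h3 h4 h5 => main8 G H h1 h2 h3 h4 h5 h8) k hk G H hG hH hGc hHc hG2

end HX67
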