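import Pool.Agent.HX67.Odd

/-!
# The odd case: only a cubic part of the first factor has to be bipartite

Adapted from helper73's Odd.lean.
-/

namespace HX67

open SimpleGraph Finset

theorem exists_partsB {V : Type*} [Fintype V] [DecidableEq V] (G : SimpleGraph V)
    [DecidableRel G.Adj] (m : ℕ) (hG : G.IsRegularOfDegree (2 * (m + 1) + 1))
    (hc : BipHam G (m + 1)) :
    ∃ Gs : Fin (m + 1) → SimpleGraph V, (∀ v w, G.Adj v w ↔ ∃ i, (Gs i).Adj v w) ∧
      (∀ i j v w, (Gs i).Adj v w → (Gs j).Adj v w → i = j) ∧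
      (∀ [DecidableRel (Gs 0).Adj], (Gs 0).IsRegularOfDegree 3) ∧ (Gs 0).IsHamiltonian ∧
      (Gs 0).Colorable 2 ∧
      ∀ i, i ≠ 0 → ∃ X : ℤ → V, (∀ z, X (z + (Fintype.card V : ℤ)) = X z) ∧
        (∀ z w, X z = X w → (Fintype.card V : ℤ) ∣ z - w) ∧ (∀ v, ∃ z, X z = v) ∧
        ∀ v w, (Gs i).Adj v w ↔
          ∃ z, (v = X z ∧ w = X (z + 1)) ∨ (v = X (z + 1) ∧ w = X z) := by
  obtain ⟨a, c, f, hham, hdis, hf⟩ := hc
  have h3 : 3 ≤ Fintype.card V := by
    have h2 := G.degree_lt_card_verts (a 0)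
    rw [hG (a 0)] at h2
    omega
  refine ⟨fun i => if i = 0 then cyc (c 0) ⊔ rest G a c else cyc (c i), ?_, ?_, ?_, ?_, ?_, ?_⟩
  · intro v w
    constructor
    · intro h
      by_cases h1 : ∃ i, s(v, w) ∈ (c i).edges
      · obtain ⟨i, hi⟩ := h1
        refine ⟨i, ?_⟩
        by_cases h0 : i = 0
        · subst h0
          simp only [if_true]
          exact Or.inl hi
        · simp only [if_neg h0]
          exact hi
      · push Not at h1
        refine ⟨0, ?_⟩
        simp only [if_true]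
        exact Or.inr ⟨h, h1⟩
    · rintro ⟨i, hi⟩
      by_cases h0 : i = 0
      · simp only [if_pos h0] at hi
        rcases hi with hi | hi
        · exact (c 0).adj_of_mem_edges hi
        · exact hi.1
      · simp only [if_neg h0] at hi
        exact (c i).adj_of_mem_edges hi
  · have key : ∀ i v w, (if i = 0 then cyc (c 0) ⊔ rest G a c else cyc (c i)).Adj v w →
        s(v, w) ∈ (c i).edges ∨ (i = 0 ∧ ∀ j, s(v, w) ∉ (c j).edges) := by
      intro i v w hi
      by_cases h0 : i = 0
      · rw [if_pos h0] at hi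
        rcases hi with hi | hi
        · left
          rw [h0]
          exact hi
        · exact Or.inr ⟨h0, hi.2⟩
      · rw [if_neg h0] at hi
        exact Or.inl hi
    intro i j v w hi hj
    rcases key i v w hi with h1 | ⟨h1, h2⟩
    · rcases key j v w hj with h3 | ⟨h3, h4⟩
      · exact hdis i j _ h1 h3
      · exact absurd h1 (h4 i)
    · rcases key j v w hj with h3 | ⟨h3, h4⟩
      · exact absurd h3 (h2 j)
      · rw [h1, h3]
  · show ∀ [DecidableRel (if (0 : Fin (m + 1)) = 0 then cyc (c 0) ⊔ rest G a c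
      else cyc (c 0)).Adj], (if (0 : Fin (m + 1)) = 0 then cyc (c 0) ⊔ rest G a c
      else cyc (c 0)).IsRegularOfDegree 3
    rw [if_pos rfl]
    intro inst
    exact regular_part G m hG a c hham hdis
  · simp only [if_true]
    intro _
    have hle : ∀ e ∈ (c 0).edges, e ∈ (cyc (c 0) ⊔ rest G a c).edgeSet := by
      intro e
      induction e using Sym2.ind with
      | _ v w =>
        intro h
        rw [mem_edgeSet]
        exact Or.inl h
    refine ⟨a 0, (c 0).transfer _ hle, ?_⟩
    rw [Walk.isHamiltonianCycle_iff_isCycle_and_length_eq]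
    refine ⟨(hham 0).isCycle.transfer hle, ?_⟩
    rw [Walk.length_transfer]
    exact (hham 0).length_eq
  · simp only [if_true]
    refine ⟨Coloring.mk f ?_⟩
    intro v w h
    rcases h with h | h
    · refine hf v w ((c 0).adj_of_mem_edges h) (fun i hi h1 => hi ?_)
      rw [hdis i 0 _ h1 h]
      rfl
    · exact hf v w h.1 (fun i _ => h.2 i)
  · intro i hi
    obtain ⟨X, h1, h2, h3, h4⟩ := exists_enum_edges G (a i) (c i) (hham i)
    refine ⟨X, h1, h2, h3, fun v w => ?_⟩
    simp only [if_neg hi]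
    exact h4 v w

theorem oddB {V W : Type*} [Fintype V] [Fintype W] [DecidableEq V] [DecidableEq W]
    (cubic : ∀ (G : SimpleGraph V) (H : SimpleGraph W) [DecidableRel G.Adj] [DecidableRel H.Adj],
      G.IsRegularOfDegree 3 → H.IsRegularOfDegree 3 → G.IsHamiltonian → H.IsHamiltonian →
      G.Colorable 2 → H93HD.HamDecomp (G □ H) 3)
    (k : ℕ) (hk : 1 ≤ k) (G : SimpleGraph V) (H : SimpleGraph W)
    [DecidableRel G.Adj] [DecidableRel H.Adj]
    (hG : G.IsRegularOfDegree (2 * k + 1)) (hH : H.IsRegularOfDegree (2 * k + 1))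
    (hGc : BipHam G k) (hHc : DisjHam H k) :
    H93HD.HamDecomp (G □ H) (2 * k + 1) := by
  classical
  obtain ⟨m, rfl⟩ : ∃ m, k = m + 1 := ⟨k - 1, by omega⟩
  obtain ⟨Gs, hGs, hGd, hG3, hGham, hG2, hGcyc⟩ := exists_partsB G m hG hGc
  obtain ⟨Hs, hHs, hHd, hH3, hHham, hHcyc⟩ := exists_parts H m hH hHc
  have hsum : (∑ i : Fin (m + 1), if i = 0 then 3 else 2) = 2 * (m + 1) + 1 := by
    rw [Fin.sum_univ_succ, if_pos rfl]
    have : ∀ i : Fin m, (if (i.succ : Fin (m + 1)) = 0 then 3 else 2) = 2 := fun i =>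
      if_neg (Fin.succ_ne_zero i)
    rw [sum_congr rfl (fun i _ => this i)]
    simp
    ring
  rw [← hsum]
  refine hamDecomp_union (m + 1) G H Gs Hs _ hGs hGd hHs hHd ?_
  intro i
  by_cases h0 : i = 0
  · subst h0
    rw [if_pos rfl]
    exact cubic (Gs 0) (Hs 0) hG3 hH3 hGham hHham hG2
  · rw [if_neg h0]
    obtain ⟨x, hx1, hx2, hx3, hx4⟩ := hGcyc i h0
    obtain ⟨y, hy1, hy2, hy3, hy4⟩ := hHcyc i h0
    have hVe : Even (Fintype.card V : ℤ) := by exact_mod_cast even_card G m hG
    have hWe : Even (Fintype.card W : ℤ) := by exact_mod_cast even_card H m hH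
    have hV : 3 ≤ Fintype.card V := by
      have h2 := G.degree_lt_card_verts (x 0)
      rw [hG (x 0)] at h2
      omega
    have hW : 3 ≤ Fintype.card W := by
      have h2 := H.degree_lt_card_verts (y 0)
      rw [hH (y 0)] at h2
      omega
    exact even_torus (Gs i) (Hs i) x y (Fintype.card V : ℤ) (Fintype.card W : ℤ) (by omega) hVe
      (by omega) hWe hx1 hx2 hx3 hy1 hy2 hy3 hx4 hy4

end HX67
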