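import Pool.Agent.HX67.MainT
import Pool.Agent.HX67.OddB

/-!
# All odd degrees
-/

namespace HX67

theorem cubicT {V W : Type*} [Fintype V] [Fintype W] [DecidableEq V] [DecidableEq W]
    (G : SimpleGraph V) (H : SimpleGraph W) [DecidableRel G.Adj] [DecidableRel H.Adj]
    (hG3 : G.IsRegularOfDegree 3) (hH3 : H.IsRegularOfDegree 3)
    (hGh : G.IsHamiltonian) (hHh : H.IsHamiltonian) (hG2 : G.Colorable 2) :
    H93HD.HamDecomp (G □ H) 3 := by
  obtain ⟨P, hPp, -⟩ := exists_pres G hG3 hGh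
  obtain ⟨Q, hQp, -⟩ := exists_pres H hH3 hHh
  have hP := Int.even_iff.1 P.p_even
  have hQ := Int.even_iff.1 Q.p_even
  by_cases h1 : Fintype.card V % 4 = 2
  · by_cases h2 : Fintype.card W % 4 = 2
    · exact mainT G H hG3 hH3 hGh hHh hG2 h1 h2
    · refine main8 G H hG3 hH3 hGh hHh hG2 ?_
      exact mul_dvd_mul (show 2 ∣ Fintype.card V by omega) (show 4 ∣ Fintype.card W by omega)
  · refine main8 G H hG3 hH3 hGh hHh hG2 ?_
    exact mul_dvd_mul (show 4 ∣ Fintype.card V by omega) (show 2 ∣ Fintype.card W by omega)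

theorem finalT {V W : Type*} [Fintype V] [Fintype W] [DecidableEq V] [DecidableEq W]
    (k : ℕ) (hk : 1 ≤ k) (G : SimpleGraph V) (H : SimpleGraph W)
    [DecidableRel G.Adj] [DecidableRel H.Adj]
    (hG : G.IsRegularOfDegree (2 * k + 1)) (hH : H.IsRegularOfDegree (2 * k + 1))
    (hGc : BipHam G k) (hHc : DisjHam H k) :
    H93HD.HamDecomp (G □ H) (2 * k + 1) :=
  oddB (fun G H _ _ h1 h2 h3 h4 h5 => cubicT G H h1 h2 h3 h4 h5) k hk G H hG hH hGc hHc

end HX67
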