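import Pool.Agent.HX67.CoreT
import Pool.Agent.HX67.BaseO

/-!
# The exceptional graph with ten vertices
-/

namespace HX67

open Finset
open scoped Classical

/-- signs given by a set of positions -/
theorem signs_of_set {W : Type*} (Q : Pres W) (n : ℕ) (hp : Q.p = n) (S : Finset ℤ)
    (hS : ∀ z ∈ S, 0 ≤ z ∧ z < n) :
    ∃ r : W → Prop, ∀ z : ℤ, 0 ≤ z → z < n → (r (Q.x z) ↔ z ∈ S) := by
  refine ⟨fun h => ∃ z ∈ S, Q.x z = h, fun w h0 h1 => ⟨?_, fun h => ⟨w, h, rfl⟩⟩⟩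
  rintro ⟨z, hz, hzw⟩
  have h2 := hS z hz
  by_cases h3 : z = w
  · rw [← h3]; exact hz
  · exact absurd hzw (Q.x_ne h3 (by omega) (by omega))

theorem h10 {V W : Type*} [Fintype V] [Fintype W] [DecidableEq V] [DecidableEq W]
    (G : SimpleGraph V) (H : SimpleGraph W) (P : Pres V) (Q : Pres W)
    (hG : ∀ v w, G.Adj v w ↔ ∃ i, P.mate i v = w) (hH : ∀ v w, H.Adj v w ↔ ∃ i, Q.mate i v = w)
    (hPb : ∀ z w, P.M (P.x z) = P.x w → (Even w ↔ ¬ Even z)) (hP4 : P.p % 4 = 2)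
    (u0 : ℤ) (hu0a : 1 ≤ u0) (hu0b : u0 ≤ P.p - 2) (hu0 : P.x u0 = P.M (P.x 0))
    (hp : Q.p = 10) (m0 : Q.M (Q.x 0) = Q.x 5) (m1 : Q.M (Q.x 1) = Q.x 3)
    (m2 : Q.M (Q.x 2) = Q.x 4) (m6 : Q.M (Q.x 6) = Q.x 8) (m7 : Q.M (Q.x 7) = Q.x 9) :
    H93HD.HamDecomp (G □ H) 3 := by
  have hu : Odd u0 := by
    have h1 := hPb 0 u0 hu0.symm
    rw [← Int.not_even_iff_odd, h1]
    simp
  have m5 : Q.M (Q.x 5) = Q.x 0 := by rw [← m0, Q.M_M]
  have m3 : Q.M (Q.x 3) = Q.x 1 := by rw [← m1, Q.M_M]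
  have m4 : Q.M (Q.x 4) = Q.x 2 := by rw [← m2, Q.M_M]
  have m8 : Q.M (Q.x 8) = Q.x 6 := by rw [← m6, Q.M_M]
  have m9 : Q.M (Q.x 9) = Q.x 7 := by rw [← m7, Q.M_M]
  rw [Int.odd_iff] at hu
  -- the final step
  have fin : ∀ (Q' : Pres W), Q'.p = 10 → (∀ v w, (∃ i, Q'.mate i v = w) ↔ ∃ i, Q.mate i v = w) →
      ∀ (S : Finset ℤ), (∀ z ∈ S, 0 ≤ z ∧ z < ((10 : ℕ) : ℤ)) → (0 : ℤ) ∈ S → (9 : ℤ) ∉ S →
      (∀ z : ℤ, 0 ≤ z → z < 10 → ∃ w, 0 ≤ w ∧ w < 10 ∧ Q'.M (Q'.x z) = Q'.x w ∧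
        (w ∈ S ↔ z ∉ S)) →
      (∑ y ∈ Ico 1 9, (if (((y : ℕ) : ℤ) ∈ S ↔ Odd ((y : ℕ) : ℤ)) then (1 : ℤ) else -1)) = 4 →
      ∀ k0 : ℕ, 1 ≤ k0 → k0 ≤ 8 → Even k0 → Q'.x k0 = Q'.M (Q'.x 0) → ∀ s : ℤ,
      (∑ y ∈ Ico 1 k0, (if (((y : ℕ) : ℤ) ∈ S ↔ Odd ((y : ℕ) : ℤ)) then (1 : ℤ) else -1)) = s →
      ¬ 4 ∣ 0 - s - u0 → H93HD.HamDecomp (G □ H) 3 := by
    intro Q' hp' hQ' S hS hS0 hS9 hM hsum k0 hk1 hk8 hke hk0 s hs hnd
    obtain ⟨r, hr⟩ := signs_of_set Q' 10 (by rw [hp']; rfl) S hS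
    push_cast at hr
    have hdir : ∀ y : ℕ, y < 10 → dir Q' r y =
        if (((y : ℕ) : ℤ) ∈ S ↔ Odd ((y : ℕ) : ℤ)) then (1 : ℤ) else -1 := by
      intro y hy
      unfold dir
      have h1 := hr y (by omega) (by omega)
      by_cases h2 : (((y : ℕ) : ℤ) ∈ S ↔ Odd ((y : ℕ) : ℤ))
      · rw [if_pos h2, if_pos (h1.trans h2)]
      · rw [if_neg h2, if_neg (fun h3 => h2 (h1.symm.trans h3))]
    refine coreT G H P Q' hG (fun v w => by rw [hH, hQ']) hPb r ?_ ?_ ?_ u0 hu0a hu0b hu0 k0 hk1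
      (by omega) hk0 ((P.p / 2 - 1) / 2) 1 (by omega) isCoprime_one_left ?_ ?_
    · intro h
      obtain ⟨z, hz0, hz1, rfl⟩ := exists_index' Q' h
      obtain ⟨w, hw0, hw1, hw2, hw3⟩ := hM z hz0 (by omega)
      rw [hw2, hr w hw0 hw1, hr z hz0 (by omega), hw3]
    · rw [hr 0 le_rfl (by norm_num)]
      exact hS0
    · rw [← Q'.per (-1), hp', show (-1 : ℤ) + 10 = 9 by norm_num, hr 9 (by norm_num) (by norm_num)]
      exact hS9
    · rw [hp', show ((10 : ℤ) - 2).toNat + 1 = 9 by rfl,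
        sum_congr rfl (fun y hy => hdir y (by rw [mem_Ico] at hy; omega)), hsum]
      norm_num
    · rw [if_pos hke, sum_congr rfl (fun y hy => hdir y (by rw [mem_Ico] at hy; omega)), hs]
      exact hnd
  have per : ∀ z, Q.x (z + 10) = Q.x z := by
    intro z
    rw [← hp, Q.per]
  have e10 : Q.x 10 = Q.x 0 := by rw [← per 0]; rfl
  have e11 : Q.x 11 = Q.x 1 := by rw [← per 1]; rfl
  have f1 : Q.x (-1) = Q.x 9 := by rw [← per (-1)]; rfl
  have f2 : Q.x (-2) = Q.x 8 := by rw [← per (-2)]; rfl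
  have f3 : Q.x (-3) = Q.x 7 := by rw [← per (-3)]; rfl
  have f4 : Q.x (-4) = Q.x 6 := by rw [← per (-4)]; rfl
  have f5 : Q.x (-5) = Q.x 5 := by rw [← per (-5)]; rfl
  have f6 : Q.x (-6) = Q.x 4 := by rw [← per (-6)]; rfl
  have f7 : Q.x (-7) = Q.x 3 := by rw [← per (-7)]; rfl
  have f8 : Q.x (-8) = Q.x 2 := by rw [← per (-8)]; rfl
  by_cases hu1 : u0 % 4 = 1
  · obtain ⟨Q', q1, q2, q3, q4⟩ := exists_shift Q 2
    have g0 : Q'.x 0 = Q.x 2 := by rw [q3]; rfl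
    have g1 : Q'.x 1 = Q.x 3 := by rw [q3]; rfl
    have g2 : Q'.x 2 = Q.x 4 := by rw [q3]; rfl
    have g3 : Q'.x 3 = Q.x 5 := by rw [q3]; rfl
    have g4 : Q'.x 4 = Q.x 6 := by rw [q3]; rfl
    have g5 : Q'.x 5 = Q.x 7 := by rw [q3]; rfl
    have g6 : Q'.x 6 = Q.x 8 := by rw [q3]; rfl
    have g7 : Q'.x 7 = Q.x 9 := by rw [q3]; rfl
    have g8 : Q'.x 8 = Q.x 0 := by rw [q3, ← e10]; rfl
    have g9 : Q'.x 9 = Q.x 1 := by rw [q3, ← e11]; rfl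
    refine fin Q' (q1.trans hp) q4 {0, 1, 3, 4, 5} (by decide) (by decide) (by decide) ?_
      (by decide) 2 (by norm_num) (by norm_num) (by decide) ?_ 1 (by decide) (by omega)
    · intro z hz0 hz1
      interval_cases z
      · exact ⟨2, by norm_num, by norm_num, by rw [q2, g0, g2, m2], by decide⟩
      · exact ⟨9, by norm_num, by norm_num, by rw [q2, g1, g9, m3], by decide⟩
      · exact ⟨0, by norm_num, by norm_num, by rw [q2, g2, g0, m4], by decide⟩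
      · exact ⟨8, by norm_num, by norm_num, by rw [q2, g3, g8, m5], by decide⟩
      · exact ⟨6, by norm_num, by norm_num, by rw [q2, g4, g6, m6], by decide⟩
      · exact ⟨7, by norm_num, by norm_num, by rw [q2, g5, g7, m7], by decide⟩
      · exact ⟨4, by norm_num, by norm_num, by rw [q2, g6, g4, m8], by decide⟩
      · exact ⟨5, by norm_num, by norm_num, by rw [q2, g7, g5, m9], by decide⟩
      · exact ⟨3, by norm_num, by norm_num, by rw [q2, g8, g3, m0], by decide⟩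
      · exact ⟨1, by norm_num, by norm_num, by rw [q2, g9, g1, m1], by decide⟩
    · push_cast
      rw [q2, g0, g2, m2]
  · obtain ⟨Q', q1, q2, q3, q4⟩ := exists_reflectA Q 1
    have g0 : Q'.x 0 = Q.x 1 := by rw [q3]; rfl
    have g1 : Q'.x 1 = Q.x 0 := by rw [q3]; rfl
    have g2 : Q'.x 2 = Q.x 9 := by rw [q3, ← f1]; rfl
    have g3 : Q'.x 3 = Q.x 8 := by rw [q3, ← f2]; rfl
    have g4 : Q'.x 4 = Q.x 7 := by rw [q3, ← f3]; rfl
    have g5 : Q'.x 5 = Q.x 6 := by rw [q3, ← f4]; rfl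
    have g6 : Q'.x 6 = Q.x 5 := by rw [q3, ← f5]; rfl
    have g7 : Q'.x 7 = Q.x 4 := by rw [q3, ← f6]; rfl
    have g8 : Q'.x 8 = Q.x 3 := by rw [q3, ← f7]; rfl
    have g9 : Q'.x 9 = Q.x 2 := by rw [q3, ← f8]; rfl
    refine fin Q' (q1.trans hp) q4 {0, 1, 2, 3, 7} (by decide) (by decide) (by decide) ?_
      (by decide) 8 (by norm_num) (by norm_num) (by decide) ?_ 3 (by decide) (by omega)
    · intro z hz0 hz1
      interval_cases z
      · exact ⟨8, by norm_num, by norm_num, by rw [q2, g0, g8, m1], by decide⟩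
      · exact ⟨6, by norm_num, by norm_num, by rw [q2, g1, g6, m0], by decide⟩
      · exact ⟨4, by norm_num, by norm_num, by rw [q2, g2, g4, m9], by decide⟩
      · exact ⟨5, by norm_num, by norm_num, by rw [q2, g3, g5, m8], by decide⟩
      · exact ⟨2, by norm_num, by norm_num, by rw [q2, g4, g2, m7], by decide⟩
      · exact ⟨3, by norm_num, by norm_num, by rw [q2, g5, g3, m6], by decide⟩
      · exact ⟨1, by norm_num, by norm_num, by rw [q2, g6, g1, m5], by decide⟩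
      · exact ⟨9, by norm_num, by norm_num, by rw [q2, g7, g9, m4], by decide⟩
      · exact ⟨0, by norm_num, by norm_num, by rw [q2, g8, g0, m3], by decide⟩
      · exact ⟨7, by norm_num, by norm_num, by rw [q2, g9, g7, m2], by decide⟩
    · push_cast
      rw [q2, g0, g8, m1]

end HX67
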