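import Mathlib

/-!
# Edge disjoint Hamiltonian cycles
-/

namespace HX67

/-- `k` pairwise edge disjoint Hamiltonian cycles -/
def DisjHam {V : Type*} [DecidableEq V] (G : SimpleGraph V) (k : ℕ) : Prop :=
  ∃ (a : Fin k → V) (c : ∀ i, G.Walk (a i) (a i)), (∀ i, (c i).IsHamiltonianCycle) ∧
    ∀ i j e, e ∈ (c i).edges → e ∈ (c j).edges → i = j

/-- `k` pairwise edge disjoint Hamiltonian cycles `c 0, …, c (k - 1)` of `G`, such that the edges
of `G` which are on none of `c 1, …, c (k - 1)` form a bipartite graph (with parts given by `f`) -/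
def BipHam {V : Type*} [DecidableEq V] (G : SimpleGraph V) (k : ℕ) : Prop :=
  ∃ (a : Fin k → V) (c : ∀ i, G.Walk (a i) (a i)) (f : V → Fin 2),
    (∀ i, (c i).IsHamiltonianCycle) ∧
    (∀ i j e, e ∈ (c i).edges → e ∈ (c j).edges → i = j) ∧
    ∀ v w, G.Adj v w → (∀ i : Fin k, (i : ℕ) ≠ 0 → s(v, w) ∉ (c i).edges) → f v ≠ f w

end HX67
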