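import Pool.Agent.HX67.Parts2

/-!
# Hamiltonian cubic graph times a cubic graph with a perfect 1-factorization

`C false`, `C true` are the two matchings of the Hamiltonian cycle of the first factor, `M` is the
matching of its chords; `N false`, `N true`, `K` are the three matchings of the second factor, any
two of which form a Hamiltonian cycle.
-/

namespace HX67

/-- three perfect matchings with union `H`, any two of which form a Hamiltonian cycle -/
def PerfectFact {W : Type*} [Fintype W] [DecidableEq W] (H : SimpleGraph W) : Prop :=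
  ∃ N : Fin 3 → SimpleGraph W, (∀ i v, ∃! w, (N i).Adj v w) ∧
    (∀ v w, H.Adj v w ↔ ∃ i, (N i).Adj v w) ∧ ∀ i j, i ≠ j → (N i ⊔ N j).IsHamiltonian

/-- `y` runs around the cycle formed by the matchings `K` and `N`, of length `q` -/
structure Alt {W : Type*} (K N : W → W) (q : ℤ) (y : ℤ → W) : Prop where
  q_ge : 4 ≤ q
  q_even : Even q
  per : ∀ z, y (z + q) = y z
  inj : ∀ z w, y z = y w → q ∣ z - w
  surj : ∀ h, ∃ z, y z = h
  K_even : ∀ z, Even z → K (y z) = y (z + 1)
  K_odd : ∀ z, Odd z → K (y z) = y (z - 1)
  N_odd : ∀ z, Odd z → N (y z) = y (z + 1)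
  N_even : ∀ z, Even z → N (y z) = y (z - 1)

/-- the vertices `(v, h)` of the switched squares of class `i` -/
def Sw {V W : Type*} (N : Bool → W → W) (F : Bool → Bool → W) (t : V → Bool)
    (S : Bool → V → Prop) (i : Bool) (v : V) (h : W) : Prop :=
  S i v ∧ (h = F i (t v) ∨ h = N (t v) (F i (t v)))

end HX67
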