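import Pool.Agent.HX67.KzDefs

/-!
# The chords of the third matching, parities of two enumerations
-/

namespace HX67

open SimpleGraph

theorem alt_mod {W : Type*} {K N : W → W} {q : ℤ} {y : ℤ → W} (A : Alt K N q y)
    {z w : ℤ} (h : y z = y w) : (Even z ↔ Even w) := by
  obtain ⟨k, hk⟩ := A.inj z w h
  have h2 : Even (z - w) := by
    rw [hk]
    exact A.q_even.mul_right k
  exact Int.even_sub.1 h2

theorem alt_KK {W : Type*} {K N : W → W} {q : ℤ} {y : ℤ → W} (A : Alt K N q y) (v : W) :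
    K (K v) = v := by
  obtain ⟨z, rfl⟩ := A.surj v
  rcases Int.even_or_odd z with h | h
  · rw [A.K_even z h, A.K_odd (z + 1) (h.add_odd odd_one)]
    congr 1; ring
  · rw [A.K_odd z h, A.K_even (z - 1) (h.sub_odd odd_one)]
    congr 1; ring

/-- the even class of the enumeration -/
def EvC {W : Type*} (y : ℤ → W) (v : W) : Prop := ∃ z, Even z ∧ y z = v

theorem evC_iff {W : Type*} {K N : W → W} {q : ℤ} {y : ℤ → W} (A : Alt K N q y) (z : ℤ) :
    EvC y (y z) ↔ Even z := by
  constructor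
  · rintro ⟨w, hw, h⟩
    exact (alt_mod A h).1 hw
  · intro h
    exact ⟨z, h, rfl⟩

theorem evC_K {W : Type*} {K N : W → W} {q : ℤ} {y : ℤ → W} (A : Alt K N q y) (v : W) :
    EvC y (K v) ↔ ¬ EvC y v := by
  obtain ⟨z, rfl⟩ := A.surj v
  rw [evC_iff A]
  rcases Int.even_or_odd z with h | h
  · rw [A.K_even z h, evC_iff A, Int.even_add_one]
  · rw [A.K_odd z h, evC_iff A, Int.even_sub_one]

theorem evC_N {W : Type*} {K N : W → W} {q : ℤ} {y : ℤ → W} (A : Alt K N q y) (v : W) :
    EvC y (N v) ↔ ¬ EvC y v := by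
  obtain ⟨z, rfl⟩ := A.surj v
  rw [evC_iff A]
  rcases Int.even_or_odd z with h | h
  · rw [A.N_even z h, evC_iff A, Int.even_sub_one]
  · rw [A.N_odd z h, evC_iff A, Int.even_add_one]

/-- if the involution `L` maps the class `c` into its complement, and `K` exchanges the classes,
then `L` exchanges the classes too -/
theorem swap_of_le {W : Type*} [Finite W] (c : W → Prop) (K L : W → W)
    (hK : ∀ v, K (K v) = v) (hL : ∀ v, L (L v) = v) (hc : ∀ v, c (K v) ↔ ¬ c v)
    (h : ∀ v, c v → ¬ c (L v)) : ∀ v, ¬ c v → c (L v) := by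
  classical
  set g : W → W := fun v => if c v then L v else K v with hg
  have hinj : Function.Injective g := by
    intro v w hvw
    simp only [hg] at hvw
    by_cases hv : c v <;> by_cases hw : c w
    · rw [if_pos hv, if_pos hw] at hvw
      rw [← hL v, hvw, hL]
    · rw [if_pos hv, if_neg hw] at hvw
      exact absurd ((hc w).2 hw) (hvw ▸ h v hv)
    · rw [if_neg hv, if_pos hw] at hvw
      exact absurd ((hc v).2 hv) (hvw ▸ h w hw)
    · rw [if_neg hv, if_neg hw] at hvw
      rw [← hK v, hvw, hK]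
  have hsurj : Function.Surjective g := Finite.surjective_of_injective hinj
  intro v hv
  obtain ⟨w, hw⟩ := hsurj v
  simp only [hg] at hw
  by_cases hcw : c w
  · rw [if_pos hcw] at hw
    rw [← hw, hL]
    exact hcw
  · rw [if_neg hcw] at hw
    exact absurd (hw ▸ (hc w).2 hcw) hv

theorem exists_chords83 {W : Type*} [Fintype W] (H : SimpleGraph W) (K N L : W → W) (q : ℤ)
    (y : ℤ → W) (A : Alt K N q y) (hL : ∀ v, L (L v) = v) (_hL1 : ∀ v, L v ≠ v)
    (hH : ∀ v w, H.Adj v w → w = K v ∨ w = N v ∨ w = L v) (hn : ¬ H.Colorable 2) :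
    ∃ e o : W, (∃ z w, Even z ∧ Even w ∧ y z = e ∧ y w = L e) ∧
      (∃ z w, Odd z ∧ Odd w ∧ y z = o ∧ y w = L o) := by
  classical
  have key : ¬ ((∀ v, EvC y v → ¬ EvC y (L v)) ∧ (∀ v, ¬ EvC y v → EvC y (L v))) := by
    rintro ⟨h1, h2⟩
    apply hn
    have hLc : ∀ v, EvC y (L v) ↔ ¬ EvC y v := fun v =>
      ⟨fun h hv => h1 v hv h, fun h => h2 v h⟩
    refine ⟨SimpleGraph.Coloring.mk (fun v => if EvC y v then (0 : Fin 2) else 1) ?_⟩
    intro v w hvw
    have hw : EvC y w ↔ ¬ EvC y v := by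
      rcases hH v w hvw with h | h | h
      · rw [h]; exact evC_K A v
      · rw [h]; exact evC_N A v
      · rw [h]; exact hLc v
    by_cases hv : EvC y v
    · have : ¬ EvC y w := fun h => (hw.1 h) hv
      simp [hv, this]
    · have : EvC y w := hw.2 hv
      simp [hv, this]
  have he : ∃ e, EvC y e ∧ EvC y (L e) := by
    by_contra hne
    push Not at hne
    exact key ⟨hne, swap_of_le (EvC y) K L (alt_KK A) hL (evC_K A) hne⟩
  have ho : ∃ o, ¬ EvC y o ∧ ¬ EvC y (L o) := by
    by_contra hne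
    push Not at hne
    have h3 := swap_of_le (fun v => ¬ EvC y v) K L (alt_KK A) hL
      (fun v => by rw [evC_K A v]) (fun v hv => not_not.2 (hne v hv))
    exact key ⟨fun v hv => h3 v (not_not.2 hv), hne⟩
  obtain ⟨e, ⟨z, hz, hze⟩, ⟨w, hw, hwe⟩⟩ := he
  obtain ⟨o, ho1, ho2⟩ := ho
  obtain ⟨z', hz'⟩ := A.surj o
  obtain ⟨w', hw'⟩ := A.surj (L o)
  refine ⟨e, o, ⟨z, w, hz, hw, hze, hwe⟩, ⟨z', w', ?_, ?_, hz', hw'⟩⟩
  · rw [← hz', evC_iff A] at ho1
    exact Int.not_even_iff_odd.1 ho1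
  · rw [← hw', evC_iff A] at ho2
    exact Int.not_even_iff_odd.1 ho2

theorem alt_shift {W : Type*} {K N : W → W} {q : ℤ} {y y' : ℤ → W} (A : Alt K N q y)
    (A' : Alt K N q y') (z z' : ℤ) (hz : y z = y' z') (hp : Even z ↔ Even z') (n : ℤ) :
    y (z + n) = y' (z' + n) := by
  have hpar : ∀ k : ℤ, (Even (z + k) ↔ Even (z' + k)) := by
    intro k
    rw [Int.even_add, Int.even_add, hp]
  induction n using Int.induction_on with
  | zero => simpa using hz
  | succ k ih =>
    have e1 : z + ((k : ℤ) + 1) = (z + k) + 1 := by ring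
    have e2 : z' + ((k : ℤ) + 1) = (z' + k) + 1 := by ring
    rw [e1, e2]
    by_cases h : Even (z + (k : ℤ))
    · rw [← A.K_even _ h, ← A'.K_even _ ((hpar _).1 h), ih]
    · have h' : ¬ Even (z' + (k : ℤ)) := fun h' => h ((hpar _).2 h')
      rw [← A.N_odd _ (Int.not_even_iff_odd.1 h), ← A'.N_odd _ (Int.not_even_iff_odd.1 h'), ih]
  | pred k ih =>
    have e1 : z + (-(k : ℤ) - 1) = (z + -(k : ℤ)) - 1 := by ring
    have e2 : z' + (-(k : ℤ) - 1) = (z' + -(k : ℤ)) - 1 := by ring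
    rw [e1, e2]
    by_cases h : Even (z + -(k : ℤ))
    · rw [← A.N_even _ h, ← A'.N_even _ ((hpar _).1 h), ih]
    · have h' : ¬ Even (z' + -(k : ℤ)) := fun h' => h ((hpar _).2 h')
      rw [← A.K_odd _ (Int.not_even_iff_odd.1 h), ← A'.K_odd _ (Int.not_even_iff_odd.1 h'), ih]

theorem alt_refl {W : Type*} {K N : W → W} {q : ℤ} {y y' : ℤ → W} (A : Alt K N q y)
    (A' : Alt K N q y') (z z' : ℤ) (hz : y z = y' z') (hp : Even z ↔ ¬ Even z') (n : ℤ) :
    y (z + n) = y' (z' - n) := by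
  have hpar : ∀ k : ℤ, (Even (z + k) ↔ ¬ Even (z' - k)) := by
    intro k
    rw [Int.even_add, Int.even_sub, hp]
    tauto
  induction n using Int.induction_on with
  | zero => simpa using hz
  | succ k ih =>
    have e1 : z + ((k : ℤ) + 1) = (z + k) + 1 := by ring
    have e2 : z' - ((k : ℤ) + 1) = (z' - k) - 1 := by ring
    rw [e1, e2]
    by_cases h : Even (z + (k : ℤ))
    · rw [← A.K_even _ h, ← A'.K_odd _ (Int.not_even_iff_odd.1 ((hpar _).1 h)), ih]
    · have h' : Even (z' - (k : ℤ)) := by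
        by_contra h'
        exact h ((hpar _).2 h')
      rw [← A.N_odd _ (Int.not_even_iff_odd.1 h), ← A'.N_even _ h', ih]
  | pred k ih =>
    have e1 : z + (-(k : ℤ) - 1) = (z + -(k : ℤ)) - 1 := by ring
    have e2 : z' - (-(k : ℤ) - 1) = (z' - -(k : ℤ)) + 1 := by ring
    rw [e1, e2]
    by_cases h : Even (z + -(k : ℤ))
    · rw [← A.N_even _ h, ← A'.N_odd _ (Int.not_even_iff_odd.1 ((hpar _).1 h)), ih]
    · have h' : Even (z' - -(k : ℤ)) := by
        by_contra h'
        exact h ((hpar _).2 h')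
      rw [← A.K_odd _ (Int.not_even_iff_odd.1 h), ← A'.K_even _ h', ih]

theorem alt_parity83 {W : Type*} {K N : W → W} {q : ℤ} {y y' : ℤ → W} (A : Alt K N q y)
    (A' : Alt K N q y') (z w z' w' : ℤ) (hz : y z = y' z') (hw : y w = y' w')
    (h : Even (z - w)) : Even (z' - w') := by
  have hq := A.q_even
  by_cases hp : Even z ↔ Even z'
  · have h1 := alt_shift A A' z z' hz hp (w - z)
    have e : z + (w - z) = w := by ring
    rw [e, hw] at h1
    have h2 := (alt_mod A' h1)
    rw [Int.even_add, Int.even_sub] at h2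
    rw [Int.even_sub] at h ⊢
    tauto
  · have hp' : Even z ↔ ¬ Even z' := by tauto
    have h1 := alt_refl A A' z z' hz hp' (w - z)
    have e : z + (w - z) = w := by ring
    rw [e, hw] at h1
    have h2 := (alt_mod A' h1)
    rw [Int.even_sub, Int.even_sub] at h2
    rw [Int.even_sub] at h ⊢
    tauto

end HX67
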