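import Pool.Agent.HX67.KzDefs

/-!
# Enumerations of the two-coloured Hamiltonian cycles (helper80)
-/

namespace HX67

open SimpleGraph

theorem kzt_alt {W : Type*} {K N : W → W} {q : ℤ} {y : ℤ → W} (hK : ∀ v, K (K v) = v)
    (hN : ∀ v, N (N v) = v) (q_ge : 4 ≤ q) (q_even : Even q) (per : ∀ z, y (z + q) = y z)
    (inj : ∀ z w, y z = y w → q ∣ z - w) (surj : ∀ h, ∃ z, y z = h)
    (h1 : ∀ z, Even z → K (y z) = y (z + 1)) (h2 : ∀ z, Odd z → N (y z) = y (z + 1)) :
    Alt K N q y where
  q_ge := q_ge
  q_even := q_even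
  per := per
  inj := inj
  surj := surj
  K_even := h1
  K_odd := by
    intro z hz
    have h3 := h1 (z - 1) (hz.sub_odd odd_one)
    rw [sub_add_cancel] at h3
    rw [← h3, hK]
  N_odd := h2
  N_even := by
    intro z hz
    have h3 := h2 (z - 1) (hz.sub_odd odd_one)
    rw [sub_add_cancel] at h3
    rw [← h3, hN]

theorem kzt_cycle {W : Type*} {K N : W → W} {q : ℤ} {X : ℤ → W} (hK : ∀ v, K (K v) = v)
    (hN : ∀ v, N (N v) = v) (q_ge : 4 ≤ q) (per : ∀ z, X (z + q) = X z)
    (inj : ∀ z w, X z = X w → q ∣ z - w) (surj : ∀ h, ∃ z, X z = h)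
    (hs : ∀ z, X (z + 1) = K (X z) ∨ X (z + 1) = N (X z)) (a : W) :
    ∃ y, Alt K N q y ∧ y 0 = a := by
  -- `P z`: the edge `z, z + 1` belongs to `K`
  have hne : ∀ z, X z ≠ X (z + 1 + 1) := by
    intro z h
    have h1 := inj _ _ h.symm
    have h2 : z + 1 + 1 - z = 2 := by ring
    rw [h2] at h1
    have := Int.le_of_dvd (by norm_num) h1
    omega
  have hP1 : ∀ z, K (X z) = X (z + 1) → N (X (z + 1)) = X (z + 1 + 1) := by
    intro z h
    rcases hs (z + 1) with h1 | h1
    · exfalso
      apply hne z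
      rw [h1, ← h, hK]
    · exact h1.symm
  have hP2 : ∀ z, N (X z) = X (z + 1) → K (X (z + 1)) = X (z + 1 + 1) := by
    intro z h
    rcases hs (z + 1) with h1 | h1
    · exact h1.symm
    · exfalso
      apply hne z
      rw [h1, ← h, hN]
  -- not both
  have hnb : ∀ z, K (X z) = X (z + 1) → N (X z) = X (z + 1) → False := by
    intro z h1 h2
    apply hne z
    rw [← hP1 z h1, ← h2, hN]
  have hback1 : ∀ z, K (X (z + 1)) = X (z + 1 + 1) → N (X z) = X (z + 1) := by
    intro z h
    rcases hs z with h1 | h1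
    · exact absurd (hP1 z h1.symm) (fun h2 => hnb (z + 1) h h2)
    · exact h1.symm
  have hback2 : ∀ z, N (X (z + 1)) = X (z + 1 + 1) → K (X z) = X (z + 1) := by
    intro z h
    rcases hs z with h1 | h1
    · exact h1.symm
    · exact absurd (hP2 z h1.symm) (fun h2 => hnb (z + 1) h2 h)
  -- parity
  have hpar : ∀ z0, K (X z0) = X (z0 + 1) → ∀ z, (Even z → K (X (z0 + z)) = X (z0 + z + 1)) ∧
      (Odd z → N (X (z0 + z)) = X (z0 + z + 1)) := by
    intro z0 h0 z
    induction z using Int.induction_on with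
    | zero =>
      refine ⟨fun _ => by rw [add_zero]; exact h0, fun h => absurd h (by decide)⟩
    | succ m ih =>
      have e : z0 + ((m : ℤ) + 1) = z0 + m + 1 := by ring
      rw [e]
      constructor
      · intro hm
        have hm' : Odd (m : ℤ) := by
          rw [← Int.not_even_iff_odd]
          intro h
          exact (Int.not_even_iff_odd.mpr h.add_one) hm
        exact hP2 _ (ih.2 hm')
      · intro hm
        have hm' : Even (m : ℤ) := by
          rw [← Int.not_odd_iff_even]
          intro h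
          exact (Int.not_odd_iff_even.mpr h.add_one) hm
        exact hP1 _ (ih.1 hm')
    | pred m ih =>
      have e : z0 + (-(m : ℤ)) = z0 + (-(m : ℤ) - 1) + 1 := by ring
      rw [e] at ih
      constructor
      · intro hm
        have hm' : Odd (-(m : ℤ)) := by
          have := hm.add_one
          rwa [sub_add_cancel] at this
        exact hback2 _ (ih.2 hm')
      · intro hm
        have hm' : Even (-(m : ℤ)) := by
          have := hm.add_one
          rwa [sub_add_cancel] at this
        exact hback1 _ (ih.1 hm')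
  -- there is a `K`-edge
  obtain ⟨z1, hz1⟩ : ∃ z1, K (X z1) = X (z1 + 1) := by
    rcases hs 0 with h | h
    · exact ⟨0, h.symm⟩
    · exact ⟨0 + 1, hP2 0 h.symm⟩
  have hqe : Even q := by
    by_contra hq
    have h1 := (hpar z1 hz1 q).2 (Int.not_even_iff_odd.mp hq)
    have e : z1 + q + 1 = z1 + 1 + q := by ring
    rw [e, per, per] at h1
    exact hnb z1 hz1 h1
  obtain ⟨z0, rfl⟩ := surj a
  rcases hs z0 with h0 | h0
  · refine ⟨fun z => X (z0 + z), kzt_alt hK hN q_ge hqe ?_ ?_ ?_ ?_ ?_, by simp⟩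
    · intro z
      show X (z0 + (z + q)) = X (z0 + z)
      rw [← add_assoc, per]
    · intro z w h
      have := inj _ _ h
      have e : z0 + z - (z0 + w) = z - w := by ring
      rwa [e] at this
    · intro h
      obtain ⟨z, rfl⟩ := surj h
      exact ⟨z - z0, by simp⟩
    · intro z hz
      show K (X (z0 + z)) = X (z0 + (z + 1))
      rw [← add_assoc]
      exact (hpar z0 h0.symm z).1 hz
    · intro z hz
      show N (X (z0 + z)) = X (z0 + (z + 1))
      rw [← add_assoc]
      exact (hpar z0 h0.symm z).2 hz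
  · -- reversed
    have hk : K (X (z0 - 1)) = X (z0 - 1 + 1) := by
      apply hback2
      rw [sub_add_cancel]
      exact h0.symm
    refine ⟨fun z => X (z0 - z), kzt_alt hK hN q_ge hqe ?_ ?_ ?_ ?_ ?_, by simp⟩
    · intro z
      show X (z0 - (z + q)) = X (z0 - z)
      have e : z0 - z = z0 - (z + q) + q := by ring
      rw [e, per]
    · intro z w h
      have := inj _ _ h.symm
      have e : z0 - w - (z0 - z) = z - w := by ring
      rwa [e] at this
    · intro h
      obtain ⟨z, rfl⟩ := surj h
      exact ⟨z0 - z, by simp⟩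
    · intro z hz
      show K (X (z0 - z)) = X (z0 - (z + 1))
      have h1 := (hpar (z0 - 1) hk (-z)).1 hz.neg
      have e1 : z0 - 1 + -z = z0 - (z + 1) := by ring
      have e2 : z0 - (z + 1) + 1 = z0 - z := by ring
      rw [e1, e2] at h1
      rw [← h1, hK]
    · intro z hz
      show N (X (z0 - z)) = X (z0 - (z + 1))
      have h1 := (hpar (z0 - 1) hk (-z)).2 hz.neg
      have e1 : z0 - 1 + -z = z0 - (z + 1) := by ring
      have e2 : z0 - (z + 1) + 1 = z0 - z := by ring
      rw [e1, e2] at h1
      rw [← h1, hN]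

theorem exists_alt80 {W : Type*} [Fintype W] [DecidableEq W] (H : SimpleGraph W)
    [DecidableRel H.Adj] (h3 : H.IsRegularOfDegree 3) (hK : PerfectFact H) :
    ∃ n : Fin 3 → W → W, (∀ i v, n i (n i v) = v) ∧ (∀ i v, n i v ≠ v) ∧
      (∀ i j v, n i v = n j v → i = j) ∧ (∀ v w, H.Adj v w ↔ ∃ i, n i v = w) ∧
      ∀ i j, i ≠ j → ∀ a, ∃ y, Alt (n i) (n j) (Fintype.card W : ℤ) y ∧ y 0 = a := by
  classical
  obtain ⟨M, hM, hH, hham⟩ := hK
  choose n hn hu using hM
  have hu' : ∀ i v w, (M i).Adj v w → n i v = w := fun i v w h => (hu i v w h).symm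
  have hinv : ∀ i v, n i (n i v) = v := fun i v => hu' i _ _ (hn i v).symm
  have hne : ∀ i v, n i v ≠ v := fun i v => (hn i v).ne'
  have hadj : ∀ v w, H.Adj v w ↔ ∃ i, n i v = w := by
    intro v w
    rw [hH]
    constructor
    · rintro ⟨i, h⟩
      exact ⟨i, hu' i v w h⟩
    · rintro ⟨i, rfl⟩
      exact ⟨i, hn i v⟩
  have hinj : ∀ i j v, n i v = n j v → i = j := by
    intro i j v hij
    have h1 : H.neighborFinset v = Finset.univ.image (fun i => n i v) := by
      ext w
      rw [mem_neighborFinset, hadj, Finset.mem_image]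
      simp
    have h2 : (Finset.univ.image (fun i => n i v)).card = (Finset.univ : Finset (Fin 3)).card := by
      rw [← h1]
      have := h3 v
      rw [← H.card_neighborFinset_eq_degree v] at this
      rw [this]
      rfl
    have h4 := Finset.card_image_iff.mp h2
    exact h4 (by simp) (by simp) hij
  refine ⟨n, hinv, hne, hinj, hadj, fun i j hij a => ?_⟩
  have hcard : 4 ≤ Fintype.card W := by
    have h1 := H.degree_lt_card_verts a
    rw [h3 a] at h1
    omega
  have hGadj : ∀ v w, (M i ⊔ M j).Adj v w ↔ (w = n i v ∨ w = n j v) := by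
    intro v w
    rw [sup_adj]
    constructor
    · rintro (h | h)
      · exact Or.inl (hu' i v w h).symm
      · exact Or.inr (hu' j v w h).symm
    · rintro (rfl | rfl)
      · exact Or.inl (hn i v)
      · exact Or.inr (hn j v)
  have hreg : (M i ⊔ M j).IsRegularOfDegree 2 := by
    intro v
    rw [← card_neighborFinset_eq_degree]
    have h1 : (M i ⊔ M j).neighborFinset v = {n i v, n j v} := by
      ext w
      rw [mem_neighborFinset, hGadj]
      simp
    rw [h1, Finset.card_pair (fun h => hij (hinj i j v h))]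
  obtain ⟨X, hX1, hX2, hX3, hX4⟩ := cycle_part (M i ⊔ M j) hreg (hham i j hij) (by omega)
  refine kzt_cycle (hinv i) (hinv j) (by exact_mod_cast hcard) hX1 hX2 hX3 (fun z => ?_) a
  rw [← hGadj, hX4]
  exact ⟨z, Or.inl ⟨rfl, rfl⟩⟩

end HX67
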