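import Pool.Agent.HX67.KzDefs
import Pool.Agent.HX67.KzEnumB83
import Pool.Agent.HX67.KzEnumT80

/-!
# Enumerations of the two-coloured Hamiltonian cycles, choice of the rows
-/

namespace HX67

open SimpleGraph

/-- PROOF. `n i v` := the neighbour of `v` in `N i`. `H` is 3-regular, so the three neighbours are
distinct. The graph `N i ⊔ N j` (`i ≠ j`) is 2-regular and Hamiltonian: `cycle_part` gives an
enumeration `X` with `Adj` iff consecutive; `{X (z-1), X (z+1)} = {n i (X z), n j (X z)}` and
`X (z-1) ≠ X (z+1)` (`q ≥ 3`), so by induction the edges alternate; if `n i (X 0) = X 1` take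
`y = X`, else `y z = X (-z)`. `q` is even: otherwise `n i (X q) = X (q-1)` is `X 1`, so
`q ∣ q - 2`. Start at `a = X z0`: `y z = X (z0 + z)` for `z0` even, `y z = X (z0 - z)` for `z0`
odd. -/
theorem exists_alt {W : Type*} [Fintype W] [DecidableEq W] (H : SimpleGraph W)
    [DecidableRel H.Adj] (h3 : H.IsRegularOfDegree 3) (hK : PerfectFact H) :
    ∃ n : Fin 3 → W → W, (∀ i v, n i (n i v) = v) ∧ (∀ i v, n i v ≠ v) ∧
      (∀ i j v, n i v = n j v → i = j) ∧ (∀ v w, H.Adj v w ↔ ∃ i, n i v = w) ∧
      ∀ i j, i ≠ j → ∀ a, ∃ y, Alt (n i) (n j) (Fintype.card W : ℤ) y ∧ y 0 = a :=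
  exists_alt80 H h3 hK

/-- PROOF. Let `y` be the enumeration of the cycle of `K` and `N` from any point, and `χ (y z) :=`
parity of `z` (well defined as `q` is even). `K` and `N` change `χ`. If `L` always changed `χ`, the
three matchings would all change `χ` and `H` would be 2-colourable. So some `L`-edge keeps `χ`;
as `L` is a bijection and both classes of `χ` have the same size (`K` exchanges them), there is one
in each class. -/
theorem exists_chords {W : Type*} [Fintype W] (H : SimpleGraph W) (K N L : W → W) (q : ℤ)
    (y : ℤ → W) (A : Alt K N q y) (hL : ∀ v, L (L v) = v) (hL1 : ∀ v, L v ≠ v)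
    (hH : ∀ v w, H.Adj v w → w = K v ∨ w = N v ∨ w = L v) (hn : ¬ H.Colorable 2) :
    ∃ e o : W, (∃ z w, Even z ∧ Even w ∧ y z = e ∧ y w = L e) ∧
      (∃ z w, Odd z ∧ Odd w ∧ y z = o ∧ y w = L o) := by
  exact exists_chords83 H K N L q y A hL hL1 hH hn

/-- Two enumerations of the same alternating cycle (with different starting points): points of
equal parity in the first have equal parity in the second. PROOF. `χ' (y' z) :=` parity of `z`;
`K` and `N` change both parities, so `χ + χ'` is constant along the cycle. -/
theorem alt_parity {W : Type*} {K N : W → W} {q : ℤ} {y y' : ℤ → W} (A : Alt K N q y)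
    (A' : Alt K N q y') (z w z' w' : ℤ) (hz : y z = y' z') (hw : y w = y' w')
    (h : Even (z - w)) : Even (z' - w') := by
  exact alt_parity83 A A' z w z' w' hz hw h

end HX67
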