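import Pool.Agent.HX67.KzMain
import Pool.Agent.HX67.KzEnum

/-!
# Hamiltonian cubic times cubic with a perfect 1-factorization
-/

namespace HX67

open Finset
open scoped Classical

theorem kotzig {V W : Type*} [Fintype V] [Fintype W] [instV : DecidableEq V]
    [instW : DecidableEq W] (G : SimpleGraph V) (H : SimpleGraph W) [dG : DecidableRel G.Adj]
    [dH : DecidableRel H.Adj]
    (hG3 : G.IsRegularOfDegree 3) (hH3 : H.IsRegularOfDegree 3)
    (hGh : G.IsHamiltonian) (hHK : PerfectFact H) (hW : 10 ≤ Fintype.card W) :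
    H93HD.HamDecomp (G □ H) 3 := by
  by_cases hH2 : H.Colorable 2
  · -- the bipartite case
    have hHh : H.IsHamiltonian := by
      obtain ⟨N, h1, h2, h3⟩ := hHK
      have h4 := h3 0 1 (by decide)
      have hle : N 0 ⊔ N 1 ≤ H := by
        intro v w h
        rw [SimpleGraph.sup_adj] at h
        rcases h with h | h
        · exact (h2 v w).2 ⟨0, h⟩
        · exact (h2 v w).2 ⟨1, h⟩
      exact h4.mono hle
    exact hamDecomp_swap G H 3 (cubicT H G hH3 hG3 hHh hGh hH2)
  obtain ⟨P, hPp, hG⟩ := exists_pres G hG3 hGh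
  obtain ⟨n, hn, hn1, hninj, hH, henum⟩ := exists_alt H hH3 hHK
  obtain ⟨w0⟩ : Nonempty W := Fintype.card_pos_iff.1 (by omega)
  let N : Bool → W → W := fun s => n (cond s 1 0)
  let K : W → W := n 2
  have hNf : N false = n 0 := rfl
  have hNt : N true = n 1 := rfl
  have hne : ∀ s : Bool, (2 : Fin 3) ≠ cond s 1 0 := by decide
  have hadj : ∀ v w, H.Adj v w ↔ (w = K v ∨ ∃ s, w = N s v) := by
    intro v w
    rw [hH]
    constructor
    · rintro ⟨i, rfl⟩
      fin_cases i
      · exact Or.inr ⟨false, rfl⟩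
      · exact Or.inr ⟨true, rfl⟩
      · exact Or.inl rfl
    · rintro (rfl | ⟨s, rfl⟩)
      · exact ⟨2, rfl⟩
      · exact ⟨_, rfl⟩
  -- the chords
  have hch : ∀ t : Bool, ∃ e o : W, (∃ y z w, Alt K (N (!t)) (Fintype.card W : ℤ) y ∧
      Even z ∧ Even w ∧ y z = e ∧ y w = N t e) ∧
      (∃ y z w, Alt K (N (!t)) (Fintype.card W : ℤ) y ∧
      Even z ∧ Even w ∧ y z = e ∧ y w = N t e ∧ ∃ z' w', Odd z' ∧ Odd w' ∧ y z' = o ∧ y w' = N t o) := by
    intro t
    obtain ⟨y, A, -⟩ := henum 2 (cond (!t) 1 0) (hne _) w0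
    obtain ⟨e, o, ⟨z, w, h1, h2, h3, h4⟩, z', w', h5, h6, h7, h8⟩ :=
      exists_chords H K (N (!t)) (N t) _ y A (fun v => hn _ v) (fun v => hn1 _ v) (by
        intro v w hvw
        rcases (hadj v w).1 hvw with h | ⟨s, h⟩
        · exact Or.inl h
        · by_cases hs : s = t
          · subst hs
            exact Or.inr (Or.inr h)
          · have : s = !t := by
              revert hs
              cases s <;> cases t <;> simp
            rw [this] at h
            exact Or.inr (Or.inl h)) hH2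
    exact ⟨e, o, ⟨y, z, w, A, h1, h2, h3, h4⟩, y, z, w, A, h1, h2, h3, h4, z', w', h5, h6, h7, h8⟩
  choose e o he ho using hch
  let F : Bool → Bool → W := fun i t => cond i (o t) (e t)
  have hF0 : ∀ t, F false t = e t := fun t => rfl
  have hF1 : ∀ t, F true t = o t := fun t => rfl
  have hdist : ∀ t, F true t ≠ F false t ∧ F true t ≠ N t (F false t) := by
    intro t
    rw [hF0, hF1]
    obtain ⟨y, z, w, A, h1, h2, h3, h4, z', w', h5, h6, h7, h8⟩ := ho t
    have hpar : ∀ a b : ℤ, Even a → Odd b → y a ≠ y b := by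
      intro a b ha hb hab
      have h9 := A.inj a b hab
      have h10 : Even (a - b) := by
        obtain ⟨k, hk⟩ := h9
        rw [hk]
        exact A.q_even.mul_right k
      have h11 : Odd (a - b) := ha.sub_odd hb
      exact (Int.not_even_iff_odd.2 h11) h10
    constructor
    · rw [← h3, ← h7]
      exact (hpar z z' h1 h5).symm
    · rw [← h4, ← h7]
      exact (hpar w z' h2 h5).symm
  -- the row `a`
  obtain ⟨a, ha⟩ : ∃ a, ∀ i t, F i t ≠ a ∧ N t (F i t) ≠ a := by
    let U : Finset W := univ.image (fun x : Bool × Bool × Bool =>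
      if x.1 then F x.2.1 x.2.2 else N x.2.2 (F x.2.1 x.2.2))
    have hU : U.card ≤ 8 := by
      refine card_image_le.trans ?_
      decide
    obtain ⟨a, -, ha⟩ := exists_mem_notMem_of_card_lt_card (s := U) (t := univ)
      (by rw [card_univ]; omega)
    refine ⟨a, fun i t => ⟨?_, ?_⟩⟩
    · rintro rfl
      exact ha (mem_image.2 ⟨(true, i, t), mem_univ _, by simp⟩)
    · intro h
      refine ha (mem_image.2 ⟨(false, i, t), mem_univ _, ?_⟩)
      simpa using h
  obtain ⟨y01, A01, -⟩ := henum 0 1 (by decide) w0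
  refine kz_core G H P hG K N (fun h => hn _ h) (fun s h => hn _ h) (fun s h => hn1 _ h)
    (fun s h he => hne s (hninj _ _ h he).symm) (fun h he => absurd (hninj _ _ h he) (by decide))
    hadj (Fintype.card W : ℤ) (fun s a => henum 2 _ (hne s) a)
    (fun s0 e g hg => path_const (N := N) A01 s0 e g hg) F a ha hdist ?_
  intro i t y A z w hz hw
  obtain ⟨y', z1, w1, A', h1, h2, h3, h4, z2, w2, h5, h6, h7, h8⟩ := ho t
  cases i
  · rw [hF0] at hz hw
    refine alt_parity A' A z1 w1 z w (h3.trans hz.symm) (h4.trans hw.symm) (h1.sub h2)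
  · rw [hF1] at hz hw
    refine alt_parity A' A z2 w2 z w (h7.trans hz.symm) (h8.trans hw.symm) (h5.sub_odd h6)

end HX67
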