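import Pool.Agent.HX67.KzDefs

/-!
# Decomposition from pairs of involutions
-/

namespace HX67

open Finset
open scoped Classical

/-- PROOF: as in `hamDecomp_of_switch` (file Switch.lean): `X i e = 1` iff `e = s(p, α i p)` or
`e = s(p, β i p)` for some `p`, else `0`; then `X i s(p, q) = 1 ↔ q = α i p ∨ q = β i p` (both are
involutions), so `X i` is `TwoReg`; `conn_of_const` gives `Conn`, and
`H93HD.hamCycle_of_class` the Hamiltonian cycle. -/
theorem hamDecomp_of_invs {X : Type*} [Finite X] [Nonempty X] [instX : DecidableEq X]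
    (Γ : SimpleGraph X) (d : ℕ) (α β : Fin d → X → X)
    (hα : ∀ i p, α i (α i p) = p) (hβ : ∀ i p, β i (β i p) = p)
    (hne : ∀ i p, α i p ≠ β i p)
    (hαa : ∀ i p, Γ.Adj p (α i p)) (hβa : ∀ i p, Γ.Adj p (β i p))
    (hcov : ∀ p q, Γ.Adj p q → ∃! i, q = α i p ∨ q = β i p)
    (hconn : ∀ i (f : X → ZMod 2), (∀ p, f (α i p) = f p) → (∀ p, f (β i p) = f p) →
      ∀ p q, f p = f q) :
    H93HD.HamDecomp Γ d := by
  let Y : Fin d → Sym2 X → ZMod 2 := fun i e =>
    if (∃ p, e = s(p, α i p)) ∨ (∃ p, e = s(p, β i p)) then 1 else 0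
  have hY1 : ∀ i e, Y i e = 1 ↔ (∃ p, e = s(p, α i p)) ∨ (∃ p, e = s(p, β i p)) := by
    intro i e
    simp only [Y]
    split_ifs with h
    · exact ⟨fun _ => h, fun _ => rfl⟩
    · exact ⟨fun h' => absurd h' (by decide), fun h' => absurd h' h⟩
  have hY : ∀ i p q, Y i s(p, q) = 1 ↔ (q = α i p ∨ q = β i p) := by
    intro i p q
    rw [hY1]
    constructor
    · rintro (⟨r, hr⟩ | ⟨r, hr⟩)
      · rcases Sym2.eq_iff.1 hr with ⟨rfl, rfl⟩ | ⟨rfl, rfl⟩
        · exact Or.inl rfl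
        · exact Or.inl (hα i _).symm
      · rcases Sym2.eq_iff.1 hr with ⟨rfl, rfl⟩ | ⟨rfl, rfl⟩
        · exact Or.inr rfl
        · exact Or.inr (hβ i _).symm
    · rintro (rfl | rfl)
      · exact Or.inl ⟨p, rfl⟩
      · exact Or.inr ⟨p, rfl⟩
  have htwo : ∀ i, H93HD.TwoReg (Y i) := by
    intro i p
    exact ⟨α i p, β i p, hne i p, (hαa i p).ne', (hβa i p).ne', fun q => hY i p q⟩
  have hle : ∀ i e, Y i e = 1 → e ∈ Γ.edgeSet := by
    intro i e he
    rcases (hY1 i e).1 he with ⟨p, rfl⟩ | ⟨p, rfl⟩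
    · rw [SimpleGraph.mem_edgeSet]
      exact hαa i p
    · rw [SimpleGraph.mem_edgeSet]
      exact hβa i p
  have huq : ∀ e ∈ Γ.edgeSet, ∃! i, Y i e = 1 := by
    intro e he
    induction e with
    | _ p q =>
      rw [SimpleGraph.mem_edgeSet] at he
      obtain ⟨i, hi, hu⟩ := hcov p q he
      exact ⟨i, (hY i p q).2 hi, fun j hj => hu j ((hY j p q).1 hj)⟩
  have hcn : ∀ i, ∀ x y, H93HD.Conn (Y i) x y := by
    intro i
    refine conn_of_const (Y i) (fun f hf => ?_)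
    exact hconn i f (fun p => hf p (α i p) ((hY i _ _).2 (Or.inl rfl)))
      (fun p => hf p (β i p) ((hY i _ _).2 (Or.inr rfl)))
  have h1 := fun i => H93HD.hamCycle_of_class _ (Y i) (htwo i) (hcn i) (hle i)
  choose a c hc hce using h1
  refine ⟨a, c, hc, fun e he => ?_⟩
  simp only [hce]
  exact huq e he

end HX67
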