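import Pool.Agent.HX67.KzDefs

/-!
# Functions on the two columns of an edge
-/

namespace HX67

theorem kzl_red {W : Type*} {K N : W → W} {q : ℤ} {y : ℤ → W} (A : Alt K N q y) (w z : ℤ) :
    ∃ n : ℤ, 0 ≤ n ∧ n < q ∧ y (w + n) = y z := by
  have hq : 0 < q := by have := A.q_ge; omega
  refine ⟨(z - w) % q, Int.emod_nonneg _ hq.ne', Int.emod_lt_of_pos _ hq, ?_⟩
  have hper : Function.Periodic y q := A.per
  have h1 : w + (z - w) % q = z - ((z - w) / q) • q := by
    rw [Int.emod_def, smul_eq_mul]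
    ring
  rw [h1]
  exact hper.sub_zsmul_eq _

theorem kzl_ne {W : Type*} {K N : W → W} {q : ℤ} {y : ℤ → W} (A : Alt K N q y) {a b : ℤ}
    (h0 : 0 < a - b) (h1 : a - b < q) : y a ≠ y b := by
  intro h
  have h2 := Int.le_of_dvd h0 (A.inj a b h)
  omega

/-- the value on the edge `y z, y (z + 1)` -/
theorem kzl_phi {W : Type*} {K N : W → W} {q : ℤ} {y : ℤ → W} (A : Alt K N q y)
    (φ : W → ZMod 2) (hφ : ∀ h, φ (K h) = φ h) {z : ℤ} (hz : Even z) :
    φ (y (z + 1)) = φ (y z) := by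
  rw [← A.K_even z hz, hφ]

theorem kzl_psi {W : Type*} {K N : W → W} {q : ℤ} {y : ℤ → W} (A : Alt K N q y)
    (ψ : W → ZMod 2) (hψ : ∀ h, ψ (N h) = ψ h) {z : ℤ} (hz : ¬ Even z) :
    ψ (y (z + 1)) = ψ (y z) := by
  rw [← A.N_odd z (Int.not_even_iff_odd.mp hz), hψ]

open Classical in
/-- value of the edge -/
noncomputable def kzc {W : Type*} (y : ℤ → W) (φ ψ : W → ZMod 2) (z : ℤ) : ZMod 2 :=
  if Even z then φ (y z) else ψ (y z)

theorem kzc_even {W : Type*} (y : ℤ → W) (φ ψ : W → ZMod 2) {z : ℤ} (h : Even z) :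
    kzc y φ ψ z = φ (y z) := if_pos h

theorem kzc_odd {W : Type*} (y : ℤ → W) (φ ψ : W → ZMod 2) {z : ℤ} (h : ¬ Even z) :
    kzc y φ ψ z = ψ (y z) := if_neg h

theorem kzc_step {W : Type*} {K N : W → W} {q : ℤ} {y : ℤ → W} (A : Alt K N q y)
    (φ ψ : W → ZMod 2) (hφ : ∀ h, φ (K h) = φ h) (hψ : ∀ h, ψ (N h) = ψ h) {z : ℤ}
    (h : φ (y (z + 1)) = ψ (y (z + 1))) : kzc y φ ψ (z + 1) = kzc y φ ψ z := by
  by_cases hz : Even z
  · have hz1 : ¬ Even (z + 1) := by
      rw [Int.not_even_iff_odd]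
      exact hz.add_one
    rw [kzc_even y φ ψ hz, kzc_odd y φ ψ hz1, ← h, kzl_phi A φ hφ hz]
  · have hz1 : Even (z + 1) := (Int.not_even_iff_odd.mp hz).add_one
    rw [kzc_odd y φ ψ hz, kzc_even y φ ψ hz1, h, kzl_psi A ψ hψ hz]

theorem kzl_all {W : Type*} {K N : W → W} {q : ℤ} {y : ℤ → W} (A : Alt K N q y)
    (φ ψ : W → ZMod 2) (hφ : ∀ h, φ (K h) = φ h) (hψ : ∀ h, ψ (N h) = ψ h)
    (hc : ∀ z, 0 ≤ z → z < q → kzc y φ ψ z = kzc y φ ψ 0) :
    ∀ h, φ h = φ (y 0) ∧ ψ h = φ (y 0) := by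
  have hq := A.q_ge
  have h0 : kzc y φ ψ 0 = φ (y 0) := kzc_even y φ ψ (by simp)
  intro h
  obtain ⟨z0, rfl⟩ := A.surj h
  obtain ⟨n, hn0, hnq, hn⟩ := kzl_red A 0 z0
  rw [zero_add] at hn
  rw [← hn]
  rcases hn0.eq_or_lt with h1 | h1
  · rw [← h1]
    refine ⟨rfl, ?_⟩
    have hodd : ¬ Even (q - 1) := by
      rw [Int.not_even_iff_odd]
      exact A.q_even.sub_odd odd_one
    have h2 := kzl_psi A ψ hψ hodd
    rw [sub_add_cancel] at h2
    have h3 : y q = y 0 := by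
      have := A.per 0
      rwa [zero_add] at this
    rw [h3, ← kzc_odd y φ ψ hodd, hc (q - 1) (by omega) (by omega), h0] at h2
    exact h2
  · have e1 := hc n hn0 hnq
    have e2 := hc (n - 1) (by omega) (by omega)
    by_cases hz : Even n
    · have hz1 : ¬ Even (n - 1) := by
        rw [Int.not_even_iff_odd]
        exact hz.sub_odd odd_one
      have h2 := kzl_psi A ψ hψ hz1
      rw [sub_add_cancel] at h2
      rw [kzc_even y φ ψ hz, h0] at e1
      rw [kzc_odd y φ ψ hz1, h0] at e2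
      exact ⟨e1, h2.trans e2⟩
    · have hz1 : Even (n - 1) := (Int.not_even_iff_odd.mp hz).sub_odd odd_one
      have h2 := kzl_phi A φ hφ hz1
      rw [sub_add_cancel] at h2
      rw [kzc_odd y φ ψ hz, h0] at e1
      rw [kzc_even y φ ψ hz1, h0] at e2
      exact ⟨h2.trans e2, e1⟩

/-- constant on an interval -/
theorem kzl_const {f : ℤ → ZMod 2} {a b : ℤ} (h : ∀ z, a ≤ z → z + 1 ≤ b → f (z + 1) = f z) :
    ∀ z, a ≤ z → z ≤ b → f z = f a := by
  intro z hz
  induction z, hz using Int.le_induction with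
  | base => intro _; rfl
  | succ n hn ih =>
    intro hb
    rw [h n hn hb, ih (by omega)]


/-- `φ` is constant along the `K`-edges, `ψ` along the `N`-edges, and `φ = ψ` outside of `y 0`.
PROOF. `c z := if Even z then φ (y z) else ψ (y z)` (value on the edge `y z, y (z+1)`). For
`0 ≤ z`, `z + 1 < q`: `c (z + 1) = c z` since `y (z + 1) ≠ y 0`. So `c z = c 0` for `0 ≤ z < q`.
For `0 < z < q` both `φ (y z)` and `ψ (y z)` are one of `c z`, `c (z - 1)`; for `z = 0`:
`φ (y 0) = c 0`, `ψ (y 0) = ψ (y (q - 1)) = c (q - 1)`. -/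
theorem loc {W : Type*} {K N : W → W} {q : ℤ} {y : ℤ → W} (A : Alt K N q y)
    (φ ψ : W → ZMod 2) (hφ : ∀ h, φ (K h) = φ h) (hψ : ∀ h, ψ (N h) = ψ h)
    (h1 : ∀ h, h ≠ y 0 → φ h = ψ h) : ∀ h, φ h = φ (y 0) ∧ ψ h = φ (y 0) := by
  apply kzl_all A φ ψ hφ hψ
  intro z hz hzq
  refine kzl_const (a := 0) (b := q - 1) (fun z h2 h3 => ?_) z hz (by omega)
  exact kzc_step A φ ψ hφ hψ (h1 _ (kzl_ne A (by omega) (by omega)))

/-- The same if `φ = ψ` outside of `y 0, y j, y l` only, where `0 < j < l < q`, `l - j` is even and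
`φ (y j) = φ (y l)`, `ψ (y j) = ψ (y l)`.
PROOF. With `c` as above: `c` is constant on `[0, j-1]`, `[j, l-1]`, `[l, q-1]`. `j, l` odd:
`φ (y j) = c (j-1)`, `φ (y l) = c (l-1)`, `ψ (y j) = c j`, `ψ (y l) = c l`; even: `φ` and `ψ`
exchanged. So the three constants agree. -/
theorem loc_sw {W : Type*} {K N : W → W} {q : ℤ} {y : ℤ → W} (A : Alt K N q y)
    (φ ψ : W → ZMod 2) (hφ : ∀ h, φ (K h) = φ h) (hψ : ∀ h, ψ (N h) = ψ h)
    (j l : ℤ) (hj : 0 < j) (hjl : j < l) (hl : l < q) (hpar : Even (l - j))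
    (h1 : ∀ h, h ≠ y 0 → h ≠ y j → h ≠ y l → φ h = ψ h)
    (hφ2 : φ (y j) = φ (y l)) (hψ2 : ψ (y j) = ψ (y l)) :
    ∀ h, φ h = φ (y 0) ∧ ψ h = φ (y 0) := by
  apply kzl_all A φ ψ hφ hψ
  have hstep : ∀ z, 0 ≤ z → z + 1 < q → z + 1 ≠ j → z + 1 ≠ l →
      kzc y φ ψ (z + 1) = kzc y φ ψ z := by
    intro z h2 h3 h4 h5
    refine kzc_step A φ ψ hφ hψ (h1 _ (kzl_ne A (by omega) (by omega)) ?_ ?_)
    · rcases lt_or_gt_of_ne h4 with h6 | h6
      · exact (kzl_ne A (by omega) (by omega)).symm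
      · exact kzl_ne A (by omega) (by omega)
    · rcases lt_or_gt_of_ne h5 with h6 | h6
      · exact (kzl_ne A (by omega) (by omega)).symm
      · exact kzl_ne A (by omega) (by omega)
  have c1 : ∀ z, 0 ≤ z → z ≤ j - 1 → kzc y φ ψ z = kzc y φ ψ 0 :=
    kzl_const (fun z h2 h3 => hstep z h2 (by omega) (by omega) (by omega))
  have c2 : ∀ z, j ≤ z → z ≤ l - 1 → kzc y φ ψ z = kzc y φ ψ j :=
    kzl_const (fun z h2 h3 => hstep z (by omega) (by omega) (by omega) (by omega))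
  have c3 : ∀ z, l ≤ z → z ≤ q - 1 → kzc y φ ψ z = kzc y φ ψ l :=
    kzl_const (fun z h2 h3 => hstep z (by omega) (by omega) (by omega) (by omega))
  have hl2 : j + 2 ≤ l := by
    obtain ⟨k, hk⟩ := hpar
    omega
  have hjl' : kzc y φ ψ (j - 1) = kzc y φ ψ (l - 1) ∧ kzc y φ ψ j = kzc y φ ψ l := by
    by_cases hje : Even j
    · have hle : Even l := by
        have := hpar.add hje
        rwa [sub_add_cancel] at this
      have hj1 : ¬ Even (j - 1) := by
        rw [Int.not_even_iff_odd]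
        exact hje.sub_odd odd_one
      have hl1 : ¬ Even (l - 1) := by
        rw [Int.not_even_iff_odd]
        exact hle.sub_odd odd_one
      have e1 := kzl_psi A ψ hψ hj1
      have e2 := kzl_psi A ψ hψ hl1
      rw [sub_add_cancel] at e1 e2
      rw [kzc_odd y φ ψ hj1, kzc_odd y φ ψ hl1, kzc_even y φ ψ hje, kzc_even y φ ψ hle,
        ← e1, ← e2]
      exact ⟨hψ2, hφ2⟩
    · have hle : ¬ Even l := by
        intro h
        apply hje
        have := h.sub hpar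
        rwa [sub_sub_cancel] at this
      have hj1 : Even (j - 1) := (Int.not_even_iff_odd.mp hje).sub_odd odd_one
      have hl1 : Even (l - 1) := (Int.not_even_iff_odd.mp hle).sub_odd odd_one
      have e1 := kzl_phi A φ hφ hj1
      have e2 := kzl_phi A φ hφ hl1
      rw [sub_add_cancel] at e1 e2
      rw [kzc_even y φ ψ hj1, kzc_even y φ ψ hl1, kzc_odd y φ ψ hje, kzc_odd y φ ψ hle,
        ← e1, ← e2]
      exact ⟨hφ2, hψ2⟩
  have d1 : kzc y φ ψ j = kzc y φ ψ 0 := by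
    rw [← c2 (l - 1) (by omega) le_rfl, ← hjl'.1, c1 (j - 1) (by omega) le_rfl]
  have d2 : kzc y φ ψ l = kzc y φ ψ 0 := by rw [← hjl'.2, d1]
  intro z hz hzq
  by_cases g1 : z ≤ j - 1
  · exact c1 z hz g1
  · by_cases g2 : z ≤ l - 1
    · rw [c2 z (by omega) g2, d1]
    · rw [c3 z (by omega) (by omega), d2]

/-- A cycle minus one edge is connected. PROOF. If `e = y z0` and the removed edge is
`y z0, y (z0 ± 1)`: go around from one end to the other. -/
theorem path_const {W : Type*} {N : Bool → W → W} {q : ℤ} {y : ℤ → W}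
    (A : Alt (N false) (N true) q y) (s0 : Bool) (e : W) (g : W → ZMod 2)
    (hg : ∀ s h, ¬ (s = s0 ∧ (h = e ∨ h = N s0 e)) → g (N s h) = g h) :
    ∀ h h', g h = g h' := by
  have hq := A.q_ge
  obtain ⟨w, hw, hw'⟩ : ∃ w : ℤ, (s0 = false ↔ Even w) ∧
      ((e = y w ∧ N s0 e = y (w + 1)) ∨ (e = y (w + 1) ∧ N s0 e = y w)) := by
    obtain ⟨z0, rfl⟩ := A.surj e
    rcases Int.even_or_odd z0 with hz | hz
    · cases s0 with
      | false => exact ⟨z0, by simp [hz], Or.inl ⟨rfl, A.K_even z0 hz⟩⟩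
      | true =>
        refine ⟨z0 - 1, ?_, Or.inr ⟨by rw [sub_add_cancel], A.N_even z0 hz⟩⟩
        have : ¬ Even (z0 - 1) := by
          rw [Int.not_even_iff_odd]
          exact hz.sub_odd odd_one
        simp [this]
    · cases s0 with
      | false =>
        refine ⟨z0 - 1, ?_, Or.inr ⟨by rw [sub_add_cancel], A.K_odd z0 hz⟩⟩
        have : Even (z0 - 1) := hz.sub_odd odd_one
        simp [this]
      | true =>
        refine ⟨z0, ?_, Or.inl ⟨rfl, A.N_odd z0 hz⟩⟩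
        have : ¬ Even z0 := Int.not_even_iff_odd.mpr hz
        simp [this]
  have hstep : ∀ z, w + 1 ≤ z → z + 1 ≤ w + q → g (y (z + 1)) = g (y z) := by
    intro z h1 h2
    obtain ⟨s, hs, hs'⟩ : ∃ s : Bool, (s = false ↔ Even z) ∧ N s (y z) = y (z + 1) := by
      rcases Int.even_or_odd z with hz | hz
      · exact ⟨false, by simp [hz], A.K_even z hz⟩
      · have : ¬ Even z := Int.not_even_iff_odd.mpr hz
        exact ⟨true, by simp [this], A.N_odd z hz⟩
    rw [← hs']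
    apply hg
    rintro ⟨hss, h3⟩
    have hpar : Even z ↔ Even w := by rw [← hs, ← hw, hss]
    have hne1 : y z ≠ y w := kzl_ne A (by omega) (by omega)
    have hne2 : y z ≠ y (w + 1) := by
      intro h4
      have h5 := A.inj _ _ h4
      obtain ⟨k, hk⟩ := h5
      obtain ⟨r, hr⟩ := A.q_even
      have h6 : Even (z - (w + 1)) := by
        rw [hk, hr]
        exact ⟨r * k, by ring⟩
      have h7 : z - w = (z - (w + 1)) + 1 := by ring
      have h8 : ¬ Even (z - w) := by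
        rw [h7, Int.not_even_iff_odd]
        exact h6.add_one
      apply h8
      rw [Int.even_sub]
      exact hpar
    rcases hw' with ⟨h4, h5⟩ | ⟨h4, h5⟩
    · rcases h3 with h3 | h3
      · exact hne1 (h3.trans h4)
      · exact hne2 (h3.trans h5)
    · rcases h3 with h3 | h3
      · exact hne2 (h3.trans h4)
      · exact hne1 (h3.trans h5)
  have hc : ∀ z, w + 1 ≤ z → z ≤ w + q → g (y z) = g (y (w + 1)) :=
    kzl_const (f := fun z => g (y z)) hstep
  have hall : ∀ h, g h = g (y (w + 1)) := by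
    intro h
    obtain ⟨z0, rfl⟩ := A.surj h
    obtain ⟨n, hn0, hnq, hn⟩ := kzl_red A (w + 1) z0
    rw [← hn]
    exact hc _ (by omega) (by omega)
  intro h h'
  rw [hall h, hall h']

end HX67
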