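import Pool.Agent.HX67.KzTree
import Pool.Agent.HX67.KzLoc
import Pool.Agent.HX67.KzInv

/-!
# Hamiltonian cubic times cubic with a perfect 1-factorization: assembly
-/

namespace HX67

open Finset
open scoped Classical

section Data

variable {V W : Type*} (P : Pres V)

/-- the two matchings of the Hamiltonian cycle -/
def cy (i : Bool) : V → V := cond i P.B P.A

/-- parity of the vertices of the cycle, `true` for even -/
noncomputable def ev (v : V) : Bool := decide (∃ z, Even z ∧ P.x z = v)

theorem ev_x (z : ℤ) : ev P (P.x z) = decide (Even z) := by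
  unfold ev
  by_cases h : Even z
  · have : ∃ w, Even w ∧ P.x w = P.x z := ⟨z, h, rfl⟩
    simp [this, h]
  · have : ¬ ∃ w, Even w ∧ P.x w = P.x z := by
      rintro ⟨w, hw, he⟩
      exact h ((P.parity_of_eq he).1 hw)
    simp [this, h]

theorem cy_x (i : Bool) (z : ℤ) :
    cy P i (P.x z) = if ev P (P.x z) = i then P.x (z + 1) else P.x (z - 1) := by
  rw [ev_x]
  cases i
  · show P.A (P.x z) = _
    by_cases h : Even z
    · rw [P.A_even z h]
      simp [h]
    · rw [P.A_odd z (Int.not_even_iff_odd.1 h)]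
      simp [h]
  · show P.B (P.x z) = _
    by_cases h : Even z
    · rw [P.B_even z h]
      simp [h]
    · rw [P.B_odd z (Int.not_even_iff_odd.1 h)]
      simp [h]

theorem cy_cy (i : Bool) (v : V) : cy P i (cy P i v) = v := by
  cases i
  · exact P.A_A v
  · exact P.B_B v

theorem cy_ne (i : Bool) (v : V) : cy P i v ≠ v := by
  cases i
  · exact P.A_ne v
  · exact P.B_ne v

theorem cy_M (i : Bool) (v : V) : P.M v ≠ cy P i v := by
  cases i
  · exact P.M_A v
  · exact P.M_B v

theorem cy_ne_cy (v : V) : cy P false v ≠ cy P true v := P.A_ne_B v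

theorem ev_cy (i : Bool) (v : V) : ev P (cy P i v) = !(ev P v) := by
  obtain ⟨z, rfl⟩ := P.surj v
  rw [cy_x]
  have h1 : decide (Even (z + 1)) = !(decide (Even z)) := by
    by_cases h : Even z
    · have : ¬ Even (z + 1) := by
        rw [Int.even_add_one]; exact fun h' => h' h
      simp [this, h]
    · have : Even (z + 1) := Int.even_add_one.2 h
      simp [this, h]
  have h2 : decide (Even (z - 1)) = !(decide (Even z)) := by
    by_cases h : Even z
    · have : ¬ Even (z - 1) := by
        rw [Int.not_even_iff_odd]; exact h.sub_odd odd_one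
      simp [this, h]
    · have : Even (z - 1) := (Int.not_even_iff_odd.1 h).sub_odd odd_one
      simp [this, h]
  split_ifs
  · rw [ev_x, ev_x, h1]
  · rw [ev_x, ev_x, h2]

theorem cy_const (g : V → ZMod 2) (hg : ∀ i v, g (cy P i v) = g v) (v w : V) : g v = g w := by
  have h : ∀ z, g (P.x (z + 1)) = g (P.x z) := by
    intro z
    have := hg (ev P (P.x z)) (P.x z)
    rwa [cy_x, if_pos rfl] at this
  have h' : ∀ z, g (P.x z) = g (P.x 0) := by
    intro z
    induction z using Int.induction_on with
    | zero => rfl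
    | succ k ih => rw [h, ih]
    | pred k ih =>
      rw [← ih, ← h (-k - 1), sub_add_cancel]
  obtain ⟨z, rfl⟩ := P.surj v
  obtain ⟨z', rfl⟩ := P.surj w
  rw [h' z, h' z']

theorem cy_set (U : Set V) (hne : U.Nonempty) (hU : ∀ i, ∀ v ∈ U, cy P i v ∈ U) (v : V) :
    v ∈ U := by
  obtain ⟨u, hu⟩ := hne
  have := cy_const P (fun v => if v ∈ U then 0 else 1) (fun i v => by
    have : cy P i v ∈ U ↔ v ∈ U := ⟨fun h => by rw [← cy_cy P i v]; exact hU i _ h, hU i v⟩
    simp only [this]) v u
  simp only [if_pos hu] at this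
  by_contra hv
  rw [if_neg hv] at this
  exact absurd this (by decide)

end Data

/-- the classes `0` and `1` are connected -/
theorem class_conn {V W : Type*} (P : Pres V) (K : W → W) (N : Bool → W → W) (q : ℤ)
    (hN1 : ∀ s h, N s h ≠ h)
    (henum : ∀ s a, ∃ y, Alt K (N s) q y ∧ y 0 = a)
    (F : Bool → Bool → W) (a : W) (hFa : ∀ i t, F i t ≠ a ∧ N t (F i t) ≠ a)
    (hFp : ∀ i t y, Alt K (N (!t)) q y → ∀ z w, y z = F i t → y w = N t (F i t) → Even (z - w))
    (t : V → Bool) (S : Bool → V → Prop) (hSC : ∀ i v, S i (cy P i v) ↔ S i v)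
    (hSt : ∀ i v, S i v → t (cy P i v) = t v) (i : Bool) (f : V → W → ZMod 2)
    (h1 : ∀ v h, ¬ Sw N F t S i v h → h ≠ a → f (cy P i v) h = f v h)
    (h2 : ∀ v, f (cy P (!i) v) a = f v a)
    (h3 : ∀ v h, Sw N F t S i v h → f v (N (t v) h) = f v h)
    (h4 : ∀ v h, ev P v = i → f v (K h) = f v h)
    (h5 : ∀ v h, ev P v ≠ i → f v (N (!(t v)) h) = f v h) :
    ∀ v h v' h', f v h = f v' h' := by
  have key : ∀ v, ev P v = i → ∀ h, f v h = f v a ∧ f (cy P i v) h = f v a := by
    intro v hv
    have hv' : ev P (cy P i v) ≠ i := by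
      rw [ev_cy, hv]
      cases i <;> decide
    obtain ⟨y, A, hy0⟩ := henum (!(t (cy P i v))) a
    by_cases hS : S i v
    · have htt := hSt i v hS
      obtain ⟨z0, hz0⟩ := A.surj (F i (t v))
      obtain ⟨w0, hw0⟩ := A.surj (N (t v) (F i (t v)))
      have hq : 0 < q := by have := A.q_ge; omega
      have hper : ∀ z k : ℤ, y (z + q * k) = y z := by
        intro z k
        induction k using Int.induction_on with
        | zero => simp
        | succ k ih =>
          have h : z + q * (k + 1) = (z + q * k) + q := by ring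
          rw [h, A.per, ih]
        | pred k ih =>
          have h : z + q * (-k) = (z + q * (-k - 1)) + q := by ring
          rw [h, A.per] at ih
          exact ih
      have hmod : ∀ z : ℤ, y (z % q) = y z := by
        intro z
        conv_rhs => rw [← Int.emod_add_mul_ediv z q, hper]
      obtain ⟨z, hz, hz1, hz2⟩ : ∃ z, y z = F i (t v) ∧ 0 ≤ z ∧ z < q :=
        ⟨z0 % q, by rw [hmod, hz0], Int.emod_nonneg _ (by omega), Int.emod_lt_of_pos _ hq⟩
      obtain ⟨w, hw, hw1, hw2⟩ : ∃ z, y z = N (t v) (F i (t v)) ∧ 0 ≤ z ∧ z < q :=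
        ⟨w0 % q, by rw [hmod, hw0], Int.emod_nonneg _ (by omega), Int.emod_lt_of_pos _ hq⟩
      have hz0' : z ≠ 0 := by
        rintro rfl
        exact (hFa i (t v)).1 (hz.symm.trans hy0)
      have hw0' : w ≠ 0 := by
        rintro rfl
        exact (hFa i (t v)).2 (hw.symm.trans hy0)
      have hzw : z ≠ w := by
        rintro rfl
        exact hN1 _ _ (hw.symm.trans hz)
      have hpar : Even (z - w) := hFp i (t v) y (by rw [← htt]; exact A) z w hz hw
      have e1 : ∀ h, h ≠ a → h ≠ F i (t v) → h ≠ N (t v) (F i (t v)) → f v h = f (cy P i v) h := by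
        intro h ha hb hc
        refine (h1 v h ?_ ha).symm
        rintro ⟨-, h' | h'⟩
        · exact hb h'
        · exact hc h'
      have e2 : f v (F i (t v)) = f v (N (t v) (F i (t v))) :=
        (h3 v _ ⟨hS, Or.inl rfl⟩).symm
      have e3 : f (cy P i v) (F i (t v)) = f (cy P i v) (N (t v) (F i (t v))) := by
        have := h3 (cy P i v) (F i (t v)) ⟨(hSC i v).2 hS, Or.inl (by rw [htt])⟩
        rw [htt] at this
        exact this.symm
      have hφ : ∀ h, f v (K h) = f v h := fun h => h4 v h hv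
      have hψ : ∀ h, f (cy P i v) (N (!(t (cy P i v))) h) = f (cy P i v) h :=
        fun h => h5 _ h hv'
      rw [← hy0]
      rcases lt_or_gt_of_ne hzw with hlt | hlt
      · refine loc_sw A (f v) (f (cy P i v)) hφ hψ z w (by omega) hlt hw2 ?_ ?_ ?_ ?_
        · have : w - z = -(z - w) := by ring
          rw [this]
          exact hpar.neg
        · intro h ha hb hc
          exact e1 h (by rwa [hy0] at ha) (by rwa [hz] at hb) (by rwa [hw] at hc)
        · rw [hz, hw]; exact e2
        · rw [hz, hw]; exact e3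
      · refine loc_sw A (f v) (f (cy P i v)) hφ hψ w z (by omega) hlt hz2 hpar ?_ ?_ ?_
        · intro h ha hb hc
          exact e1 h (by rwa [hy0] at ha) (by rwa [hz] at hc) (by rwa [hw] at hb)
        · rw [hz, hw]; exact e2.symm
        · rw [hz, hw]; exact e3.symm
    · rw [← hy0]
      refine loc A (f v) (f (cy P i v)) (fun h => h4 v h hv) (fun h => h5 _ h hv') ?_
      intro h ha
      refine (h1 v h (fun h' => hS h'.1) ?_).symm
      rwa [hy0] at ha
  have hrow : ∀ v h, f v h = f v a := by
    intro v h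
    by_cases hv : ev P v = i
    · exact (key v hv h).1
    · have hu : ev P (cy P i v) = i := by
        rw [ev_cy]
        revert hv
        generalize ev P v = b
        cases b <;> cases i <;> simp
      have k1 := (key _ hu h).2
      have k2 := (key _ hu a).2
      rw [cy_cy] at k1 k2
      rw [k1, k2]
  have hcy : ∀ j v, f (cy P j v) a = f v a := by
    intro j v
    by_cases hj : j = i
    · subst hj
      by_cases hv : ev P v = j
      · exact (key v hv a).2
      · have hu : ev P (cy P j v) = j := by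
          rw [ev_cy]
          revert hv
          generalize ev P v = b
          cases b <;> cases j <;> simp
        have k2 := (key _ hu a).2
        rw [cy_cy] at k2
        exact k2.symm
    · have : j = !i := by
        revert hj
        cases i <;> cases j <;> simp
      rw [this]
      exact h2 v
  intro v h v' h'
  rw [hrow v h, hrow v' h']
  exact cy_const P (fun v => f v a) hcy v v'

theorem kz_core {V W : Type*} [Fintype V] [Fintype W] [instV : DecidableEq V]
    [instW : DecidableEq W] (G : SimpleGraph V) (H : SimpleGraph W) (P : Pres V)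
    (hG : ∀ v w, G.Adj v w ↔ ∃ i, P.mate i v = w)
    (K : W → W) (N : Bool → W → W) (hK : ∀ h, K (K h) = h)
    (hN : ∀ s h, N s (N s h) = h) (hN1 : ∀ s h, N s h ≠ h) (hNK : ∀ s h, N s h ≠ K h)
    (hNN : ∀ h, N false h ≠ N true h)
    (hH : ∀ v w, H.Adj v w ↔ (w = K v ∨ ∃ s, w = N s v)) (q : ℤ)
    (henum : ∀ s a, ∃ y, Alt K (N s) q y ∧ y 0 = a)
    (hpath : ∀ (s0 : Bool) (e : W) (g : W → ZMod 2),
      (∀ s h, ¬ (s = s0 ∧ (h = e ∨ h = N s0 e)) → g (N s h) = g h) → ∀ h h', g h = g h')
    (F : Bool → Bool → W) (a : W) (hFa : ∀ i t, F i t ≠ a ∧ N t (F i t) ≠ a)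
    (hFF : ∀ t, F true t ≠ F false t ∧ F true t ≠ N t (F false t))
    (hFp : ∀ i t y, Alt K (N (!t)) q y → ∀ z w, y z = F i t → y w = N t (F i t) →
      Even (z - w)) :
    H93HD.HamDecomp (G □ H) 3 := by
  have : Nonempty V := ⟨P.x 0⟩
  have : Nonempty W := ⟨a⟩
  obtain ⟨t, S, htM, hSC, hSt, htree⟩ := exists_tree (cy P) P.M (cy_cy P) P.M_M P.M_ne
    (fun U h1 h2 h3 => cy_set P U h1 h3) N hN F hpath
  -- facts on the switched squares
  have swC : ∀ i v h, Sw N F t S i v h → Sw N F t S i (cy P i v) h := by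
    rintro i v h ⟨h1, h2⟩
    refine ⟨(hSC i v).2 h1, ?_⟩
    rw [hSt i v h1]
    exact h2
  have swC' : ∀ i v h, Sw N F t S i (cy P i v) h ↔ Sw N F t S i v h := by
    intro i v h
    refine ⟨fun h1 => ?_, swC i v h⟩
    have := swC i _ h h1
    rwa [cy_cy] at this
  have swN : ∀ i v h, Sw N F t S i v h → Sw N F t S i v (N (t v) h) := by
    rintro i v h ⟨h1, rfl | rfl⟩
    · exact ⟨h1, Or.inr rfl⟩
    · exact ⟨h1, Or.inl (hN _ _)⟩
  have swN' : ∀ i v h, Sw N F t S i v (N (t v) h) ↔ Sw N F t S i v h := by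
    intro i v h
    refine ⟨fun h1 => ?_, swN i v h⟩
    have := swN i v _ h1
    rwa [hN] at this
  have swa : ∀ i v h, Sw N F t S i v h → h ≠ a := by
    rintro i v h ⟨-, rfl | rfl⟩
    · exact (hFa i _).1
    · exact (hFa i _).2
  have sw2 : ∀ v h, Sw N F t S false v h → Sw N F t S true v h → False := by
    rintro v h ⟨-, h1⟩ ⟨-, h2⟩
    obtain ⟨k1, k2⟩ := hFF (t v)
    rcases h1 with rfl | rfl
    · rcases h2 with h2 | h2
      · exact k1 h2.symm
      · exact k2 (by rw [h2, hN])
    · rcases h2 with h2 | h2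
      · exact k2 h2.symm
      · refine k1 ?_
        rw [← hN (t v) (F true (t v)), ← h2, hN]
  have sw3 : ∀ i v h, Sw N F t S i v h → ¬ Sw N F t S (!i) v h := by
    intro i v h h1 h2
    cases i
    · exact sw2 v h h1 h2
    · exact sw2 v h h2 h1
  -- the classes
  let al : Bool → V × W → V × W := fun i p =>
    if Sw N F t S i p.1 p.2 then (p.1, N (t p.1) p.2)
    else (cy P (if p.2 = a then !i else i) p.1, p.2)
  let be : Bool → V × W → V × W := fun i p =>
    (p.1, if ev P p.1 = i then K p.2 else N (!(t p.1)) p.2)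
  let be2 : V × W → V × W := fun p =>
    if Sw N F t S false p.1 p.2 then (cy P false p.1, p.2)
    else if Sw N F t S true p.1 p.2 then (cy P true p.1, p.2) else (p.1, N (t p.1) p.2)
  have al_sw : ∀ i v h, Sw N F t S i v h → al i (v, h) = (v, N (t v) h) :=
    fun i v h hs => if_pos hs
  have al_a : ∀ i v, al i (v, a) = (cy P (!i) v, a) := by
    intro i v
    show (if Sw N F t S i v a then _ else (cy P (if a = a then !i else i) v, a)) = _
    rw [if_neg (fun h => swa i v a h rfl), if_pos rfl]
  have al_n : ∀ i v h, ¬ Sw N F t S i v h → h ≠ a → al i (v, h) = (cy P i v, h) := by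
    intro i v h h1 h2
    show (if Sw N F t S i v h then _ else (cy P (if h = a then !i else i) v, h)) = _
    rw [if_neg h1, if_neg h2]
  have be_K : ∀ i v h, ev P v = i → be i (v, h) = (v, K h) := by
    intro i v h h1
    show (v, if ev P v = i then K h else _) = _
    rw [if_pos h1]
  have be_N : ∀ i v h, ev P v ≠ i → be i (v, h) = (v, N (!(t v)) h) := by
    intro i v h h1
    show (v, if ev P v = i then K h else _) = _
    rw [if_neg h1]
  have be2_sw : ∀ i v h, Sw N F t S i v h → be2 (v, h) = (cy P i v, h) := by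
    intro i v h h1
    cases i
    · exact if_pos h1
    · show (if Sw N F t S false v h then _ else if Sw N F t S true v h then _ else _) = _
      rw [if_neg (fun h' => sw2 v h h' h1), if_pos h1]
  have be2_n : ∀ v h, (∀ i, ¬ Sw N F t S i v h) → be2 (v, h) = (v, N (t v) h) := by
    intro v h h1
    show (if Sw N F t S false v h then _ else if Sw N F t S true v h then _ else _) = _
    rw [if_neg (h1 false), if_neg (h1 true)]
  let α : Fin 3 → V × W → V × W := ![al false, al true, fun p => (P.M p.1, p.2)]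
  let β : Fin 3 → V × W → V × W := ![be false, be true, be2]
  have alal : ∀ i p, al i (al i p) = p := by
    rintro i ⟨v, h⟩
    by_cases h1 : Sw N F t S i v h
    · rw [al_sw i v h h1, al_sw i v _ (swN i v h h1), hN]
    · by_cases h2 : h = a
      · subst h2
        rw [al_a, al_a, cy_cy]
      · rw [al_n i v h h1 h2, al_n i _ h (fun h' => h1 ((swC' i v h).1 h')) h2, cy_cy]
  have bebe : ∀ i p, be i (be i p) = p := by
    rintro i ⟨v, h⟩
    by_cases h1 : ev P v = i
    · rw [be_K i v h h1, be_K i v _ h1, hK]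
    · rw [be_N i v h h1, be_N i v _ h1, hN]
  have be2be2 : ∀ p, be2 (be2 p) = p := by
    rintro ⟨v, h⟩
    by_cases h1 : ∃ i, Sw N F t S i v h
    · obtain ⟨i, h1⟩ := h1
      rw [be2_sw i v h h1, be2_sw i _ h (swC i v h h1), cy_cy]
    · have h1 : ∀ i, ¬ Sw N F t S i v h := fun i hi => h1 ⟨i, hi⟩
      rw [be2_n v h h1, be2_n v _ (fun i hi => h1 i ((swN' i v h).1 hi)), hN]
  -- adjacency
  have adjC : ∀ i v h, (G □ H).Adj (v, h) (cy P i v, h) := by
    intro i v h
    rw [SimpleGraph.boxProd_adj]
    refine Or.inl ⟨(hG _ _).2 ?_, rfl⟩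
    cases i
    · exact ⟨0, rfl⟩
    · exact ⟨1, rfl⟩
  have adjM : ∀ v h, (G □ H).Adj (v, h) (P.M v, h) := by
    intro v h
    rw [SimpleGraph.boxProd_adj]
    exact Or.inl ⟨(hG _ _).2 ⟨2, rfl⟩, rfl⟩
  have adjK : ∀ v h, (G □ H).Adj (v, h) (v, K h) := by
    intro v h
    rw [SimpleGraph.boxProd_adj]
    exact Or.inr ⟨(hH _ _).2 (Or.inl rfl), rfl⟩
  have adjN : ∀ s v h, (G □ H).Adj (v, h) (v, N s h) := by
    intro s v h
    rw [SimpleGraph.boxProd_adj]
    exact Or.inr ⟨(hH _ _).2 (Or.inr ⟨s, rfl⟩), rfl⟩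
  have hMC : ∀ i v, P.M v ≠ cy P i v := cy_M P
  have hCC : ∀ v, cy P false v ≠ cy P true v := cy_ne_cy P
  -- values of the classes
  have hCC' : ∀ j v, cy P (!j) v ≠ cy P j v := by
    intro j v
    cases j
    · exact (hCC v).symm
    · exact hCC v
  have hNs : ∀ s h, N (!s) h ≠ N s h := by
    intro s h
    cases s
    · exact (hNN h).symm
    · exact hNN h
  have hNs' : ∀ s h, N s h ≠ N (!s) h := fun s h => (hNs s h).symm
  have hb : ∀ i j : Bool, i ≠ j → i = !j := by decide
  have hCj : ∀ i j v, cy P i v = cy P j v → i = j := by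
    intro i j v h
    by_contra hij
    rw [hb i j hij] at h
    exact hCC' j v h
  have exb : ∀ p q, ∀ i, (q = al i p ∨ q = be i p) → (∀ i', (q = al i' p ∨ q = be i' p) → i' = i) →
      ¬ (q = (P.M p.1, p.2) ∨ q = be2 p) → ∃! i, q = α i p ∨ q = β i p := by
    intro p q i h1 h2 h3
    refine ⟨cond i 1 0, ?_, ?_⟩
    · cases i
      · exact h1
      · exact h1
    · intro j hj
      fin_cases j
      · have := h2 false hj
        subst this
        rfl
      · have := h2 true hj
        subst this
        rfl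
      · exact absurd hj h3
  have ex2 : ∀ p q, (q = (P.M p.1, p.2) ∨ q = be2 p) → (∀ i, ¬ (q = al i p ∨ q = be i p)) →
      ∃! i, q = α i p ∨ q = β i p := by
    intro p q h1 h2
    refine ⟨2, h1, ?_⟩
    intro j hj
    fin_cases j
    · exact absurd hj (h2 false)
    · exact absurd hj (h2 true)
    · rfl
  -- the possible values
  have al_or : ∀ i v h, (Sw N F t S i v h ∧ al i (v, h) = (v, N (t v) h)) ∨
      (¬ Sw N F t S i v h ∧ ((h = a ∧ al i (v, h) = (cy P (!i) v, h)) ∨
        (h ≠ a ∧ al i (v, h) = (cy P i v, h)))) := by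
    intro i v h
    by_cases h1 : Sw N F t S i v h
    · exact Or.inl ⟨h1, al_sw i v h h1⟩
    · refine Or.inr ⟨h1, ?_⟩
      by_cases h2 : h = a
      · exact Or.inl ⟨h2, by rw [h2, al_a]⟩
      · exact Or.inr ⟨h2, al_n i v h h1 h2⟩
  have be_or : ∀ i v h, (ev P v = i ∧ be i (v, h) = (v, K h)) ∨
      (ev P v ≠ i ∧ be i (v, h) = (v, N (!(t v)) h)) := by
    intro i v h
    by_cases h1 : ev P v = i
    · exact Or.inl ⟨h1, be_K i v h h1⟩
    · exact Or.inr ⟨h1, be_N i v h h1⟩
  have be2_or : ∀ v h, (∃ i, Sw N F t S i v h ∧ be2 (v, h) = (cy P i v, h)) ∨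
      ((∀ i, ¬ Sw N F t S i v h) ∧ be2 (v, h) = (v, N (t v) h)) := by
    intro v h
    by_cases h1 : ∃ i, Sw N F t S i v h
    · obtain ⟨i, h1⟩ := h1
      exact Or.inl ⟨i, h1, be2_sw i v h h1⟩
    · exact Or.inr ⟨fun i hi => h1 ⟨i, hi⟩, be2_n v h (fun i hi => h1 ⟨i, hi⟩)⟩
  -- which class contains which edge
  have al_M : ∀ i v h, (P.M v, h) ≠ al i (v, h) := by
    intro i v h he
    rcases al_or i v h with ⟨-, h2⟩ | ⟨-, ⟨-, h2⟩ | ⟨-, h2⟩⟩ <;> rw [h2] at he
    · exact P.M_ne v (congrArg Prod.fst he)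
    · exact hMC _ v (congrArg Prod.fst he)
    · exact hMC _ v (congrArg Prod.fst he)
  have be_1 : ∀ i u v h k, u ≠ v → (u, k) ≠ be i (v, h) := by
    intro i u v h k hu he
    exact hu (congrArg Prod.fst he)
  have al_V : ∀ i v h k, (v, k) = al i (v, h) → Sw N F t S i v h ∧ k = N (t v) h := by
    intro i v h k he
    rcases al_or i v h with ⟨h1, h2⟩ | ⟨-, ⟨-, h2⟩ | ⟨-, h2⟩⟩ <;> rw [h2] at he
    · exact ⟨h1, congrArg Prod.snd he⟩
    · exact absurd (congrArg Prod.fst he).symm (cy_ne P _ v)
    · exact absurd (congrArg Prod.fst he).symm (cy_ne P _ v)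
  have al_C : ∀ i j v h, (cy P j v, h) = al i (v, h) →
      ¬ Sw N F t S i v h ∧ ((h = a ∧ j = !i) ∨ (h ≠ a ∧ j = i)) := by
    intro i j v h he
    rcases al_or i v h with ⟨h1, h2⟩ | ⟨h1, ⟨h3, h2⟩ | ⟨h3, h2⟩⟩ <;> rw [h2] at he
    · exact absurd (congrArg Prod.fst he) (cy_ne P _ v)
    · exact ⟨h1, Or.inl ⟨h3, hCj _ _ v (congrArg Prod.fst he)⟩⟩
    · exact ⟨h1, Or.inr ⟨h3, hCj _ _ v (congrArg Prod.fst he)⟩⟩
  have be2_C : ∀ j v h, (cy P j v, h) = be2 (v, h) → Sw N F t S j v h := by
    intro j v h he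
    rcases be2_or v h with ⟨i, h1, h2⟩ | ⟨-, h2⟩ <;> rw [h2] at he
    · have := hCj _ _ v (congrArg Prod.fst he)
      rw [this]
      exact h1
    · exact absurd (congrArg Prod.fst he) (cy_ne P _ v)
  have be2_V : ∀ v h k, (v, k) = be2 (v, h) → (∀ i, ¬ Sw N F t S i v h) ∧ k = N (t v) h := by
    intro v h k he
    rcases be2_or v h with ⟨i, h1, h2⟩ | ⟨h1, h2⟩ <;> rw [h2] at he
    · exact absurd (congrArg Prod.fst he).symm (cy_ne P _ v)
    · exact ⟨h1, congrArg Prod.snd he⟩
  have be_V : ∀ i v h k, (v, k) = be i (v, h) →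
      (ev P v = i ∧ k = K h) ∨ (ev P v ≠ i ∧ k = N (!(t v)) h) := by
    intro i v h k he
    rcases be_or i v h with ⟨h1, h2⟩ | ⟨h1, h2⟩ <;> rw [h2] at he
    · exact Or.inl ⟨h1, congrArg Prod.snd he⟩
    · exact Or.inr ⟨h1, congrArg Prod.snd he⟩
  have M_V : ∀ (v : V) (h k : W), (v, k) ≠ (P.M v, h) := by
    intro v h k he
    have h1 : v = P.M v := congrArg Prod.fst he
    exact P.M_ne v h1.symm
  have val : ∀ p q, (G □ H).Adj p q → ∃! i, q = α i p ∨ q = β i p := by
    rintro ⟨v, h⟩ ⟨u, k⟩ hadj
    rw [SimpleGraph.boxProd_adj] at hadj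
    rcases hadj with ⟨h1, h2⟩ | ⟨h1, h2⟩
    · change h = k at h2
      subst h2
      have h3 : u = P.M v ∨ ∃ j, u = cy P j v := by
        obtain ⟨i, hi⟩ := (hG _ _).1 h1
        fin_cases i
        · exact Or.inr ⟨false, hi.symm⟩
        · exact Or.inr ⟨true, hi.symm⟩
        · exact Or.inl hi.symm
      rcases h3 with rfl | ⟨j, rfl⟩
      · refine ex2 (v, h) _ (Or.inl rfl) ?_
        rintro i (h4 | h4)
        · exact al_M i v h h4
        · exact be_1 i _ v h h (P.M_ne v) h4
      · have hbe : ∀ i, (cy P j v, h) ≠ be i (v, h) := fun i => be_1 i _ v h h (cy_ne P j v)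
        have hM' : (cy P j v, h) ≠ (P.M v, h) := fun he => hMC j v (congrArg Prod.fst he).symm
        by_cases hs : Sw N F t S j v h
        · refine ex2 (v, h) _ (Or.inr (be2_sw j v h hs).symm) ?_
          rintro i (h4 | h4)
          · obtain ⟨h5, ⟨h6, h7⟩ | ⟨h6, h7⟩⟩ := al_C i j v h h4
            · exact swa j v h hs h6
            · rw [h7] at hs
              exact h5 hs
          · exact hbe i h4
        · by_cases ha : h = a
          · refine exb (v, h) _ (!j) (Or.inl ?_) ?_ ?_
            · rw [ha, al_a, Bool.not_not]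
            · rintro i (h4 | h4)
              · obtain ⟨h5, ⟨h6, h7⟩ | ⟨h6, h7⟩⟩ := al_C i j v h h4
                · rw [h7, Bool.not_not]
                · exact absurd ha h6
              · exact absurd h4 (hbe i)
            · rintro (h4 | h4)
              · exact hM' h4
              · exact hs (be2_C j v h h4)
          · refine exb (v, h) _ j (Or.inl (al_n j v h hs ha).symm) ?_ ?_
            · rintro i (h4 | h4)
              · obtain ⟨h5, ⟨h6, h7⟩ | ⟨h6, h7⟩⟩ := al_C i j v h h4
                · exact absurd h6 ha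
                · exact h7.symm
              · exact absurd h4 (hbe i)
            · rintro (h4 | h4)
              · exact hM' h4
              · exact hs (be2_C j v h h4)
    · change v = u at h2
      subst h2
      rcases (hH _ _).1 h1 with h3 | ⟨s, h3⟩
      · change k = K h at h3
        subst h3
        refine exb (v, h) _ (ev P v) (Or.inr (be_K _ v h rfl).symm) ?_ ?_
        · rintro i (h4 | h4)
          · exact absurd (al_V i v h _ h4).2.symm (hNK _ h)
          · rcases be_V i v h _ h4 with ⟨h5, -⟩ | ⟨-, h5⟩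
            · exact h5.symm
            · exact absurd h5.symm (hNK _ h)
        · rintro (h4 | h4)
          · exact M_V v h _ h4
          · exact absurd (be2_V v h _ h4).2.symm (hNK _ h)
      · change k = N s h at h3
        subst h3
        by_cases hst : s = t v
        · subst hst
          by_cases hs : ∃ i, Sw N F t S i v h
          · obtain ⟨i, hs⟩ := hs
            refine exb (v, h) _ i (Or.inl (al_sw i v h hs).symm) ?_ ?_
            · rintro j (h4 | h4)
              · have h5 := (al_V j v h _ h4).1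
                by_contra hij
                rw [hb j i hij] at h5
                exact sw3 i v h hs h5
              · rcases be_V j v h _ h4 with ⟨-, h5⟩ | ⟨-, h5⟩
                · exact absurd h5 (hNK _ h)
                · exact absurd h5 (hNs' _ h)
            · rintro (h4 | h4)
              · exact M_V v h _ h4
              · exact (be2_V v h _ h4).1 i hs
          · have hs' : ∀ i, ¬ Sw N F t S i v h := fun i hi => hs ⟨i, hi⟩
            refine ex2 (v, h) _ (Or.inr (be2_n v h hs').symm) ?_
            rintro j (h4 | h4)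
            · exact hs' j (al_V j v h _ h4).1
            · rcases be_V j v h _ h4 with ⟨-, h5⟩ | ⟨-, h5⟩
              · exact absurd h5 (hNK _ h)
              · exact absurd h5 (hNs' _ h)
        · have hst' := hb s (t v) hst
          rw [hst']
          refine exb (v, h) _ (!(ev P v)) (Or.inr (be_N _ v h ?_).symm) ?_ ?_
          · generalize ev P v = b
            cases b <;> decide
          · rintro i (h4 | h4)
            · exact absurd (al_V i v h _ h4).2 (hNs _ h)
            · rcases be_V i v h _ h4 with ⟨-, h5⟩ | ⟨h5, -⟩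
              · exact absurd h5 (hNK _ h)
              · exact hb i _ (Ne.symm h5)
          · rintro (h4 | h4)
            · exact M_V v h _ h4
            · exact absurd (be2_V v h _ h4).2 (hNs _ h)
  have adjal : ∀ i p, (G □ H).Adj p (al i p) := by
    rintro i ⟨v, h⟩
    rcases al_or i v h with ⟨-, h2⟩ | ⟨-, ⟨-, h2⟩ | ⟨-, h2⟩⟩ <;> rw [h2]
    · exact adjN _ v h
    · exact adjC _ v h
    · exact adjC _ v h
  have adjbe : ∀ i p, (G □ H).Adj p (be i p) := by
    rintro i ⟨v, h⟩
    rcases be_or i v h with ⟨-, h2⟩ | ⟨-, h2⟩ <;> rw [h2]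
    · exact adjK v h
    · exact adjN _ v h
  have adjbe2 : ∀ p, (G □ H).Adj p (be2 p) := by
    rintro ⟨v, h⟩
    rcases be2_or v h with ⟨i, -, h2⟩ | ⟨-, h2⟩ <;> rw [h2]
    · exact adjC _ v h
    · exact adjN _ v h
  have nealbe : ∀ i p, al i p ≠ be i p := by
    rintro i ⟨v, h⟩ he
    have hbe : be i (v, h) = (v, (be i (v, h)).2) := rfl
    rw [hbe] at he
    obtain ⟨h1, h2⟩ := al_V i v h _ he.symm
    rcases be_or i v h with ⟨-, h3⟩ | ⟨-, h3⟩
    · rw [h3] at h2
      exact hNK _ h h2.symm
    · rw [h3] at h2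
      exact hNs _ h h2
  refine hamDecomp_of_invs (G □ H) 3 α β ?_ ?_ ?_ ?_ ?_ val ?_
  · intro i
    fin_cases i
    · exact alal false
    · exact alal true
    · rintro ⟨v, h⟩
      show (P.M (P.M v), h) = (v, h)
      rw [P.M_M]
  · intro i
    fin_cases i
    · exact bebe false
    · exact bebe true
    · exact be2be2
  · intro i
    fin_cases i
    · exact nealbe false
    · exact nealbe true
    · rintro ⟨v, h⟩ he
      change (P.M v, h) = be2 (v, h) at he
      rcases be2_or v h with ⟨i, -, h2⟩ | ⟨-, h2⟩ <;> rw [h2] at he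
      · exact hMC i v (congrArg Prod.fst he)
      · exact P.M_ne v (congrArg Prod.fst he)
  · intro i
    fin_cases i
    · exact adjal false
    · exact adjal true
    · exact fun p => adjM p.1 p.2
  · intro i
    fin_cases i
    · exact adjbe false
    · exact adjbe true
    · exact adjbe2
  · intro i f hfα hfβ
    have hcl : ∀ i : Bool, ∀ f : V × W → ZMod 2, (∀ p, f (al i p) = f p) →
        (∀ p, f (be i p) = f p) → ∀ p q, f p = f q := by
      rintro i f ha hb ⟨v, h⟩ ⟨v', h'⟩
      refine class_conn P K N q hN1 henum F a hFa hFp t S hSC hSt i (fun v h => f (v, h))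
        ?_ ?_ ?_ ?_ ?_ v h v' h'
      · intro v h h1 h2
        have := ha (v, h)
        rwa [al_n i v h h1 h2] at this
      · intro v
        have := ha (v, a)
        rwa [al_a] at this
      · intro v h h1
        have := ha (v, h)
        rwa [al_sw i v h h1] at this
      · intro v h h1
        have := hb (v, h)
        rwa [be_K i v h h1] at this
      · intro v h h1
        have := hb (v, h)
        rwa [be_N i v h h1] at this
    fin_cases i
    · exact hcl false f hfα hfβ
    · exact hcl true f hfα hfβ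
    · rintro ⟨v, h⟩ ⟨v', h'⟩
      change ∀ p, f (be2 p) = f p at hfβ
      refine htree (fun v h => f (v, h)) (fun v h => hfα (v, h)) ?_ ?_ v h v' h'
      · intro v h h1
        have := hfβ (v, h)
        rwa [be2_n v h h1] at this
      · intro i v h h1
        have := hfβ (v, h)
        rwa [be2_sw i v h h1] at this

end HX67
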