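import Pool.Agent.HX67.KzDefs

/-!
# The tree of switches of the third class
-/

namespace HX67

open Finset
open scoped Classical

/-- the property of a set `U` of vertices, closed under `M` -/
private def Good {V W : Type*} (C : Bool → V → V) (M : V → V) (N : Bool → W → W)
    (F : Bool → Bool → W) (U : Finset V) : Prop :=
  (∀ v ∈ U, M v ∈ U) ∧ ∃ (t : V → Bool) (S : Bool → V → Prop), (∀ v ∈ U, t (M v) = !t v) ∧
    (∀ i v, S i v → v ∈ U) ∧
    (∀ i v, S i (C i v) ↔ S i v) ∧ (∀ i v, S i v → t (C i v) = t v) ∧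
    ∀ f : V → W → ZMod 2, (∀ v ∈ U, ∀ h, f (M v) h = f v h) →
      (∀ v ∈ U, ∀ h, (∀ i, ¬ Sw N F t S i v h) → f v (N (t v) h) = f v h) →
      (∀ i, ∀ v ∈ U, ∀ h, Sw N F t S i v h → f (C i v) h = f v h) →
      ∀ v ∈ U, ∀ h, ∀ v' ∈ U, ∀ h', f v h = f v' h'

private theorem good_base {V W : Type*} [Fintype V] (C : Bool → V → V) (M : V → V)
    (hM : ∀ v, M (M v) = v) (hM1 : ∀ v, M v ≠ v)
    (N : Bool → W → W) (F : Bool → Bool → W)
    (hpath : ∀ (s0 : Bool) (e : W) (g : W → ZMod 2),
      (∀ s h, ¬ (s = s0 ∧ (h = e ∨ h = N s0 e)) → g (N s h) = g h) → ∀ h h', g h = g h')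
    (v0 : V) : Good C M N F {v0, M v0} := by
  refine ⟨?_, fun v => decide (v = v0), fun _ _ => False, ?_, ?_, ?_, ?_, ?_⟩
  · intro v hv
    rw [mem_insert, mem_singleton] at hv ⊢
    rcases hv with rfl | rfl
    · exact Or.inr rfl
    · exact Or.inl (hM _)
  · intro v hv
    rw [mem_insert, mem_singleton] at hv
    rcases hv with rfl | rfl
    · simp [hM1]
    · simp [hM, hM1]
  · intro i v h
    exact h.elim
  · intro i v
    exact Iff.rfl
  · intro i v h
    exact h.elim
  · intro f h1 h2 h3
    have hv0 : v0 ∈ ({v0, M v0} : Finset V) := mem_insert_self _ _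
    have hMv0 : M v0 ∈ ({v0, M v0} : Finset V) := mem_insert_of_mem (mem_singleton_self _)
    have hg : ∀ h h', f v0 h = f v0 h' := by
      by_cases hW : Nonempty W
      · obtain ⟨e⟩ := hW
        refine hpath true e (f v0) ?_
        rintro s h -
        cases s
        · have := h2 (M v0) hMv0 h (fun i hi => hi.1)
          have ht : (decide (M v0 = v0)) = false := by simp [hM1]
          simp only [ht] at this
          rw [h1 v0 hv0, h1 v0 hv0] at this
          exact this
        · have := h2 v0 hv0 h (fun i hi => hi.1)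
          simpa using this
      · intro h
        exact absurd ⟨h⟩ hW
    have hall : ∀ v ∈ ({v0, M v0} : Finset V), ∀ h, f v h = f v0 h := by
      intro v hv h
      rw [mem_insert, mem_singleton] at hv
      rcases hv with rfl | rfl
      · rfl
      · exact h1 v0 hv0 h
    intro v hv h v' hv' h'
    rw [hall v hv, hall v' hv']
    exact hg _ _

private theorem good_step {V W : Type*} [Fintype V] (C : Bool → V → V) (M : V → V)
    (hC : ∀ i v, C i (C i v) = v) (hM : ∀ v, M (M v) = v) (hM1 : ∀ v, M v ≠ v)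
    (N : Bool → W → W) (hN : ∀ s h, N s (N s h) = h) (F : Bool → Bool → W)
    (hpath : ∀ (s0 : Bool) (e : W) (g : W → ZMod 2),
      (∀ s h, ¬ (s = s0 ∧ (h = e ∨ h = N s0 e)) → g (N s h) = g h) → ∀ h h', g h = g h')
    (U : Finset V) (hU : Good C M N F U) (i : Bool) (v : V) (hv : v ∈ U) (hw : C i v ∉ U) :
    Good C M N F (insert (C i v) (insert (M (C i v)) U)) := by
  obtain ⟨hUM, t, S, ht, hSU, hSC, hSt, hf⟩ := hU
  obtain ⟨w, hwdef⟩ : ∃ w, w = C i v := ⟨_, rfl⟩
  rw [← hwdef] at hw ⊢
  have hwv : C i w = v := by rw [hwdef, hC]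
  have hMw : M w ∉ U := fun h => hw (by rw [← hM w]; exact hUM _ h)
  have hvw : v ≠ w := fun h => hw (h ▸ hv)
  have hvMw : v ≠ M w := fun h => hMw (h ▸ hv)
  have hwMw : w ≠ M w := (hM1 w).symm
  have hne : ∀ x ∈ U, x ≠ w ∧ x ≠ M w :=
    fun x hx => ⟨fun h => hw (h ▸ hx), fun h => hMw (h ▸ hx)⟩
  let t' : V → Bool := fun x => if x = w then t v else if x = M w then !t v else t x
  have t'w : t' w = t v := by simp only [t', if_true]
  have t'Mw : t' (M w) = !t v := by simp only [t', if_neg hwMw.symm, if_true]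
  have t'U : ∀ x ∈ U, t' x = t x := by
    intro x hx
    simp only [t', if_neg (hne x hx).1, if_neg (hne x hx).2]
  let S' : Bool → V → Prop := fun j x => S j x ∨ (j = i ∧ (x = v ∨ x = w))
  have hSw : ∀ j, ¬ S j w := fun j h => hw (hSU j w h)
  have hSMw : ∀ j, ¬ S j (M w) := fun j h => hMw (hSU j _ h)
  refine ⟨?_, t', S', ?_, ?_, ?_, ?_, ?_⟩
  · intro x hx
    rw [mem_insert, mem_insert] at hx ⊢
    rcases hx with rfl | rfl | hx
    · exact Or.inr (Or.inl rfl)
    · exact Or.inl (hM _)
    · exact Or.inr (Or.inr (hUM x hx))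
  · intro x hx
    rw [mem_insert, mem_insert] at hx
    rcases hx with rfl | rfl | hx
    · rw [t'w, t'Mw]
    · rw [hM, t'w, t'Mw, Bool.not_not]
    · rw [t'U _ (hUM x hx), t'U _ hx]
      exact ht x hx
  · rintro j x (h | ⟨-, rfl | rfl⟩)
    · exact mem_insert_of_mem (mem_insert_of_mem (hSU j x h))
    · exact mem_insert_of_mem (mem_insert_of_mem hv)
    · exact mem_insert_self _ _
  · intro j x
    show (S j (C j x) ∨ (j = i ∧ (C j x = v ∨ C j x = w))) ↔ (S j x ∨ (j = i ∧ (x = v ∨ x = w)))
    rw [hSC]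
    refine or_congr Iff.rfl (and_congr_right ?_)
    rintro rfl
    constructor
    · rintro (h | h)
      · right
        rw [hwdef, ← h, hC]
      · left
        rw [← hwv, ← h, hC]
    · rintro (h | h)
      · right
        rw [hwdef, h]
      · left
        rw [h, hwv]
  · rintro j x (h | ⟨rfl, rfl | rfl⟩)
    · have hx := hSU j x h
      have hCx := hSU j _ ((hSC j x).2 h)
      rw [t'U _ hx, t'U _ hCx]
      exact hSt j x h
    · rw [← hwdef, t'w, t'U _ hv]
    · rw [hwv, t'w, t'U _ hv]
  · intro f h1 h2 h3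
    have mU : ∀ x ∈ U, x ∈ insert w (insert (M w) U) :=
      fun x hx => mem_insert_of_mem (mem_insert_of_mem hx)
    have mw : w ∈ insert w (insert (M w) U) := mem_insert_self _ _
    have mMw : M w ∈ insert w (insert (M w) U) := mem_insert_of_mem (mem_insert_self _ _)
    -- the new chord
    have hcw : ∀ h h', f w h = f w h' := by
      refine hpath (t v) (F i (t v)) (f w) ?_
      intro s h hs
      by_cases hst : s = t v
      · subst hst
        have := h2 w mw h ?_
        · rw [t'w] at this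
          exact this
        · rintro j ⟨hj1, hj2⟩
          rcases hj1 with hj1 | ⟨rfl, -⟩
          · exact hSw j hj1
          · rw [t'w] at hj2
            exact hs ⟨rfl, hj2⟩
      · have hst' : s = !t v := by
          clear hs hf h1 h2 h3 ht hSt
          revert hst
          generalize t v = b
          cases s <;> cases b <;> simp
        have := h2 (M w) mMw h ?_
        · rw [t'Mw, ← hst', h1 w mw, h1 w mw] at this
          exact this
        · rintro j ⟨hj1, -⟩
          rcases hj1 with hj1 | ⟨-, hj1 | hj1⟩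
          · exact hSMw j hj1
          · exact hvMw hj1.symm
          · exact hwMw hj1.symm
    -- the rows of the switch
    have hvw' : ∀ h, (h = F i (t v) ∨ h = N (t v) (F i (t v))) → f v h = f w (F i (t v)) := by
      intro h hh
      have h4 : Sw N F t' S' i w h := by
        refine ⟨Or.inr ⟨rfl, Or.inr rfl⟩, ?_⟩
        rw [t'w]
        exact hh
      have := h3 i w mw h h4
      rw [hwv] at this
      rw [this]
      exact hcw _ _
    have key : ∀ x ∈ U, ∀ h, ∀ x' ∈ U, ∀ h', f x h = f x' h' := by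
      refine hf f (fun x hx h => h1 x (mU x hx) h) ?_ ?_
      · intro x hx h hns
        by_cases hxs : x = v ∧ (h = F i (t v) ∨ h = N (t v) (F i (t v)))
        · obtain ⟨rfl, hh⟩ := hxs
          rw [hvw' h hh]
          apply hvw'
          rcases hh with rfl | rfl
          · exact Or.inr rfl
          · exact Or.inl (hN _ _)
        · have := h2 x (mU x hx) h ?_
          · rwa [t'U x hx] at this
          · rintro j ⟨hj1, hj2⟩
            rw [t'U x hx] at hj2
            rcases hj1 with hj1 | ⟨rfl, hj1 | hj1⟩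
            · exact hns j ⟨hj1, hj2⟩
            · subst hj1
              exact hxs ⟨rfl, hj2⟩
            · exact (hne x hx).1 hj1
      · rintro j x hx h ⟨hj1, hj2⟩
        refine h3 j x (mU x hx) h ⟨Or.inl hj1, ?_⟩
        rw [t'U x hx]
        exact hj2
    have hall : ∀ x ∈ insert w (insert (M w) U), ∀ h, f x h = f v (F i (t v)) := by
      intro x hx h
      have hw1 : ∀ h, f w h = f v (F i (t v)) := by
        intro h
        rw [hvw' _ (Or.inl rfl)]
        exact hcw _ _
      rw [mem_insert, mem_insert] at hx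
      rcases hx with rfl | rfl | hx
      · exact hw1 h
      · rw [h1 w mw]
        exact hw1 h
      · exact key x hx h v hv _
    intro x hx h x' hx' h'
    rw [hall x hx, hall x' hx']

/-- PROOF: induction over the sets `U` closed under `M`: start with `U = {v0, M v0}`, `S = ∅`; if
`v ∈ U`, `w = C i v ∉ U`, put `t w = t v`, `t (M w) = !t v`, and add `v, w` to `S i`. -/
theorem exists_tree {V W : Type*} [Fintype V] [Nonempty V] (C : Bool → V → V) (M : V → V)
    (hC : ∀ i v, C i (C i v) = v) (hM : ∀ v, M (M v) = v) (hM1 : ∀ v, M v ≠ v)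
    (hconn : ∀ U : Set V, U.Nonempty → (∀ v ∈ U, M v ∈ U) → (∀ i, ∀ v ∈ U, C i v ∈ U) →
      ∀ v, v ∈ U)
    (N : Bool → W → W) (hN : ∀ s h, N s (N s h) = h) (F : Bool → Bool → W)
    (hpath : ∀ (s0 : Bool) (e : W) (g : W → ZMod 2),
      (∀ s h, ¬ (s = s0 ∧ (h = e ∨ h = N s0 e)) → g (N s h) = g h) → ∀ h h', g h = g h') :
    ∃ (t : V → Bool) (S : Bool → V → Prop), (∀ v, t (M v) = !t v) ∧
      (∀ i v, S i (C i v) ↔ S i v) ∧ (∀ i v, S i v → t (C i v) = t v) ∧
      ∀ f : V → W → ZMod 2, (∀ v h, f (M v) h = f v h) →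
        (∀ v h, (∀ i, ¬ Sw N F t S i v h) → f v (N (t v) h) = f v h) →
        (∀ i v h, Sw N F t S i v h → f (C i v) h = f v h) →
        ∀ v h v' h', f v h = f v' h' := by
  have hex : ∃ U : Finset V, U.Nonempty ∧ Good C M N F U ∧
      ∀ U', U'.Nonempty → Good C M N F U' → U'.card ≤ U.card := by
    obtain ⟨v0⟩ := (inferInstance : Nonempty V)
    have hne : (univ.filter (fun U : Finset V => U.Nonempty ∧ Good C M N F U)).Nonempty :=
      ⟨{v0, M v0}, by
        rw [mem_filter]
        exact ⟨mem_univ _, ⟨v0, mem_insert_self _ _⟩, good_base C M hM hM1 N F hpath v0⟩⟩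
    obtain ⟨U, hU, hmax⟩ := exists_max_image _ card hne
    rw [mem_filter] at hU
    refine ⟨U, hU.2.1, hU.2.2, fun U' h1 h2 => hmax U' ?_⟩
    rw [mem_filter]
    exact ⟨mem_univ _, h1, h2⟩
  obtain ⟨U, hne, hU, hmax⟩ := hex
  have hstep : ∀ i, ∀ v ∈ U, C i v ∈ U := by
    intro i v hv
    by_contra hw
    have h1 := good_step C M hC hM hM1 N hN F hpath U hU i v hv hw
    have h2 := hmax _ ⟨C i v, mem_insert_self _ _⟩ h1
    have h3 : U.card < (insert (C i v) (insert (M (C i v)) U)).card := by
      apply card_lt_card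
      refine ⟨fun x hx => mem_insert_of_mem (mem_insert_of_mem hx), fun h => hw ?_⟩
      exact h (mem_insert_self _ _)
    omega
  have hall : ∀ v, v ∈ U := by
    intro v
    have := hconn (U : Set V) (by exact_mod_cast hne) (fun v hv => hU.1 v hv)
      (fun i v hv => hstep i v hv) v
    exact_mod_cast this
  obtain ⟨-, t, S, ht, hSU, hSC, hSt, hf⟩ := hU
  refine ⟨t, S, fun v => ht v (hall v), hSC, hSt, fun f h1 h2 h3 v h v' h' => ?_⟩
  exact hf f (fun v _ => h1 v) (fun v _ => h2 v) (fun i v _ => h3 i v) v (hall v) h v' (hall v') h'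

end HX67
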