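import Mathlib

/-!
# Two strands and two cuts make one loop
-/

namespace HX67

theorem loop_half {X : Type*} (N E : ℤ) (hN : 0 < N) (hco : IsCoprime E N) (s t : ℤ → X)
    (ps : ∀ w, s (w + N) = s w) (pt : ∀ w, t (w + N) = t w) (v : ℤ)
    (R1 : ∀ w, ¬ N ∣ w → t (w + E) = s w) (R2 : s 0 = t v) (R3 : t E = s v)
    (R4 : ∀ w, ¬ N ∣ w - v → t w = s w) (w : ℤ) : s w = s v ∧ t w = s v := by
  have pmul : ∀ (f : ℤ → X), (∀ w, f (w + N) = f w) → ∀ w k, f (w + N * k) = f w := by
    intro f hf w k
    induction k using Int.induction_on with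
    | zero => simp
    | succ k ih =>
      have h : w + N * (k + 1) = (w + N * k) + N := by ring
      rw [h, hf, ih]
    | pred k ih =>
      have h : w + N * (-k) = (w + N * (-k - 1)) + N := by ring
      rw [h, hf] at ih
      exact ih
  have pdvd : ∀ (f : ℤ → X), (∀ w, f (w + N) = f w) → ∀ w w', N ∣ w - w' → f w = f w' := by
    rintro f hf w w' ⟨k, hk⟩
    have h : w = w' + N * k := by omega
    rw [h, pmul f hf]
  have hdiv : ∀ j, N ∣ E * j → N ∣ j := fun j hj => hco.symm.dvd_of_dvd_mul_left hj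
  have hsmall : ∀ j : ℤ, 0 < j → j < N → ¬ N ∣ j := by
    intro j h0 h1 h
    have := Int.le_of_dvd h0 h
    omega
  obtain ⟨e, b, he⟩ := hco
  have hex : ∀ w : ℤ, ∃ j : ℤ, 1 ≤ j ∧ j ≤ N ∧ N ∣ w - E * j := by
    intro w
    refine ⟨(e * w - 1) % N + 1, ?_, ?_, ?_⟩
    · have := Int.emod_nonneg (e * w - 1) (by omega : N ≠ 0)
      omega
    · have := Int.emod_lt_of_pos (e * w - 1) hN
      omega
    · refine ⟨b * w + E * ((e * w - 1) / N), ?_⟩
      have h1 := Int.emod_add_mul_ediv (e * w - 1) N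
      have h2 : (e * w - 1) % N = (e * w - 1) - N * ((e * w - 1) / N) := by linarith
      rw [h2]
      linear_combination (-w) * he
  obtain ⟨J, hJ1, hJN, hJ⟩ := hex v
  have hsv : s v = s (E * J) := pdvd s ps _ _ hJ
  have hJ' : ∀ j, N ∣ E * j - v → N ∣ j - J := by
    intro j hj
    apply hdiv
    have h := dvd_add hj hJ
    have h' : E * j - v + (v - E * J) = E * (j - J) := by ring
    rwa [h'] at h
  have claimA : ∀ i : ℕ, J + i ≤ N → s (E * (J + i)) = s (E * J) := by
    intro i
    induction i with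
    | zero => intro _; simp
    | succ i ih =>
      intro hi
      push_cast at hi ⊢
      rw [← ih (by omega), ← R4 (E * (J + (i + 1)))]
      · have h : E * (J + (i + 1)) = E * (J + i) + E := by ring
        rw [h]
        apply R1
        intro h0
        exact hsmall (J + i) (by omega) (by omega) (hdiv _ h0)
      · intro h0
        have h1 := hJ' _ h0
        exact hsmall (J + (i + 1) - J) (by omega) (by omega) h1
  have claimB : ∀ i : ℕ, 1 + i < J → s (E * (1 + i)) = s (E * 1) := by
    intro i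
    induction i with
    | zero => intro _; simp
    | succ i ih =>
      intro hi
      push_cast at hi ⊢
      rw [← ih (by omega), ← R4 (E * (1 + (i + 1)))]
      · have h : E * (1 + ((i : ℤ) + 1)) = E * (1 + i) + E := by ring
        rw [h]
        apply R1
        intro h0
        exact hsmall (1 + i) (by omega) (by omega) (hdiv _ h0)
      · intro h0
        have h1 := hJ' _ h0
        have h2 : N ∣ J - (1 + (i + 1)) := by
          have := (dvd_neg (a := N)).2 h1
          rwa [neg_sub] at this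
        exact hsmall _ (by omega) (by omega) h2
  have link : 1 < J → s (E * 1) = s v := by
    intro h1
    rw [← R3, ← R4 (E * 1), mul_one]
    intro h0
    have h1 := hJ' _ h0
    have h2 : N ∣ J - 1 := by
      have := (dvd_neg (a := N)).2 h1
      rwa [neg_sub] at this
    exact hsmall _ (by omega) (by omega) h2
  have hs : ∀ w, s w = s v := by
    intro w
    obtain ⟨j, hj1, hjN, hj⟩ := hex w
    rw [pdvd s ps _ _ hj]
    by_cases hjJ : J ≤ j
    · obtain ⟨i, hi⟩ := Int.eq_ofNat_of_zero_le (show 0 ≤ j - J by omega)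
      have h : j = J + i := by omega
      rw [h, claimA i (by omega), hsv]
    · obtain ⟨i, hi⟩ := Int.eq_ofNat_of_zero_le (show 0 ≤ j - 1 by omega)
      have h : j = 1 + i := by omega
      rw [h, claimB i (by omega), link (by omega)]
  refine ⟨hs w, ?_⟩
  by_cases h : N ∣ w - v
  · rw [pdvd t pt _ _ h, ← R2]
    exact hs 0
  · rw [R4 w h]
    exact hs w

theorem loop_const {X : Type*} (N E : ℤ) (hN : 0 < N) (hco : IsCoprime E N) (S T : ℤ → X)
    (pS : ∀ z, S (z + 2 * N) = S z) (pT : ∀ z, T (z + 2 * N) = T z) (a u : ℤ) (ha : Odd a)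
    (hu : Odd u) (R1 : ∀ z, Odd z → ¬ 2 * N ∣ z - a → T (z + 2 * E) = S z)
    (R2 : S a = T u) (R3 : T (a + 2 * E) = S u)
    (R4 : ∀ z, Odd z → ¬ 2 * N ∣ z - u → T z = S z) (z : ℤ) (hz : Odd z) :
    S z = S u ∧ T z = S u := by
  have hdd : ∀ w, 2 * N ∣ 2 * w → N ∣ w := fun w h =>
    (mul_dvd_mul_iff_left (by norm_num : (2 : ℤ) ≠ 0)).1 h
  have hodd : ∀ w, Odd (a + 2 * w) := fun w => ha.add_even (even_two_mul w)
  obtain ⟨v, hv⟩ : ∃ v, u = a + 2 * v := by
    obtain ⟨i, hi⟩ := ha
    obtain ⟨j, hj⟩ := hu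
    exact ⟨j - i, by omega⟩
  obtain ⟨w, hw⟩ : ∃ w, z = a + 2 * w := by
    obtain ⟨i, hi⟩ := ha
    obtain ⟨j, hj⟩ := hz
    exact ⟨j - i, by omega⟩
  have h := loop_half N E hN hco (fun w => S (a + 2 * w)) (fun w => T (a + 2 * w))
    (fun w => by
      show S (a + 2 * (w + N)) = S (a + 2 * w)
      rw [show a + 2 * (w + N) = a + 2 * w + 2 * N by ring, pS])
    (fun w => by
      show T (a + 2 * (w + N)) = T (a + 2 * w)
      rw [show a + 2 * (w + N) = a + 2 * w + 2 * N by ring, pT]) v
    (fun w hw => by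
      show T (a + 2 * (w + E)) = S (a + 2 * w)
      rw [show a + 2 * (w + E) = a + 2 * w + 2 * E by ring]
      refine R1 _ (hodd w) fun h => hw (hdd _ ?_)
      rwa [show a + 2 * w - a = 2 * w by ring] at h)
    (by
      show S (a + 2 * 0) = T (a + 2 * v)
      rw [← hv, mul_zero, add_zero, R2])
    (by
      show T (a + 2 * E) = S (a + 2 * v)
      rw [← hv, R3])
    (fun w hw => by
      show T (a + 2 * w) = S (a + 2 * w)
      refine R4 _ (hodd w) fun h => hw (hdd _ ?_)
      rwa [hv, show a + 2 * w - (a + 2 * v) = 2 * (w - v) by ring] at h) w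
  rw [hw, hv]
  exact h

end HX67
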