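import Pool.Agent.HX67.Core

/-!
# Products of a bipartite and a non-bipartite Hamiltonian cubic graph
-/

namespace HX67

open Finset
open scoped Classical

namespace Pres

variable {W : Type*}

/-- a shift of the base point does not change whether a chord joins vertices of the same parity -/
theorem opp_shift (Q Q' : Pres W) (s : ℤ) (hM : Q'.M = Q.M) (hx : ∀ z, Q'.x z = Q.x (z + s))
    (h : W) : (Q'.par h ↔ Q'.par (Q'.M h)) ↔ (Q.par h ↔ Q.par (Q.M h)) := by
  have key : ∀ h, Q'.par h ↔ (Q.par h ↔ Even s) := by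
    intro h
    obtain ⟨z, rfl⟩ := Q'.surj h
    rw [Q'.par_x, hx z, Q.par_x, Int.odd_add]
    tauto
  rw [key h, key (Q'.M h), hM]
  tauto

theorem card_opp [Fintype W] (Q : Pres W) :
    #(univ.filter (fun h => ¬ (Q.par h ↔ Q.par (Q.M h)))) = 2 * #Q.O0 := by
  have h1 : univ.filter (fun h => ¬ (Q.par h ↔ Q.par (Q.M h)))
      = Q.O0 ∪ univ.filter (fun h => Q.par h ∧ ¬ Q.par (Q.M h)) := by
    unfold O0
    ext h
    simp only [mem_filter, mem_univ, true_and, mem_union]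
    tauto
  have h2 : Disjoint Q.O0 (univ.filter (fun h => Q.par h ∧ ¬ Q.par (Q.M h))) := by
    rw [disjoint_left]
    intro h h4 h5
    rw [Q.mem_O0] at h4
    rw [mem_filter] at h5
    exact h4.1 h5.2.1
  have h3 : #(univ.filter (fun h => Q.par h ∧ ¬ Q.par (Q.M h))) = #Q.O0 := by
    refine card_bij (fun h _ => Q.M h) ?_ ?_ ?_
    · intro h hh
      rw [mem_filter] at hh
      rw [Q.mem_O0, Q.M_M]
      exact ⟨hh.2.2, hh.2.1⟩
    · intro h _ h' _ h1
      rw [← Q.M_M h, h1, Q.M_M]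
    · intro h hh
      rw [Q.mem_O0] at hh
      refine ⟨Q.M h, ?_, Q.M_M h⟩
      rw [mem_filter, Q.M_M]
      exact ⟨mem_univ _, hh.2, hh.1⟩
  rw [h1, card_union_of_disjoint h2, h3]
  ring

end Pres

theorem mainNB {V W : Type*} [Fintype V] [Fintype W] [DecidableEq V] [instW : DecidableEq W]
    (G : SimpleGraph V) (H : SimpleGraph W) [DecidableRel G.Adj] [DecidableRel H.Adj]
    (hG3 : G.IsRegularOfDegree 3) (hH3 : H.IsRegularOfDegree 3)
    (hGh : G.IsHamiltonian) (hHh : H.IsHamiltonian)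
    (hG2 : G.Colorable 2) (hH2 : ¬ H.Colorable 2)
    (h8 : 4 ∣ Fintype.card V ∨ 4 ∣ Fintype.card W) :
    H93HD.HamDecomp (G □ H) 3 := by
  obtain ⟨P, hPp, hG⟩ := exists_pres G hG3 hGh
  obtain ⟨Q, hQp, hH⟩ := exists_pres H hH3 hHh
  have hPb := parity_of_colorable G P hG hG2
  have hpp := P.p_ge
  have hqq := Q.p_ge
  have einst : (fun a b : W => Classical.propDecidable (a = b)) = instW := Subsingleton.elim _ _
  -- the general step
  have step : ∀ Q' : Pres W, (∀ v w, H.Adj v w ↔ ∃ i, Q'.mate i v = w) →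
      (Q'.par (Q'.x 0) ↔ Q'.par (Q'.M (Q'.x 0))) → ∀ a : ℕ,
      a ≤ #(Q'.O0.erase (Q'.M (Q'.x (-1)))) →
      IsCoprime (2 * (a : ℤ) - #Q'.O0 + 1) (P.p / 2 - 1) → H93HD.HamDecomp (G □ H) 3 := by
    intro Q' hQ' hsame a ha hco
    have h0 : ¬ Q'.par (Q'.x 0) := by
      rw [Q'.par_x]
      decide
    have h1 : ¬ Q'.par (Q'.M (Q'.x 0)) := fun h => h0 (hsame.2 h)
    obtain ⟨r, hr, hr0, hr1, hsum⟩ := exists_signs Q' a (by rw [einst]; exact ha) h1
    refine core G H P Q' hG hQ' hPb r hr hr0 hr1 ?_ _ hco hsum.symm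
    obtain ⟨k, hk⟩ := Q'.surj (Q'.M (Q'.x 0))
    refine ⟨k, ?_, hk.symm⟩
    rw [← hk, Q'.par_x, Int.not_odd_iff_even] at h1
    exact h1
  -- the base points
  have hshift : ∀ s : ℤ, ∃ Q' : Pres W, Q'.p = Q.p ∧ (∀ z, Q'.x z = Q.x (z + s)) ∧
      (∀ v w, H.Adj v w ↔ ∃ i, Q'.mate i v = w) ∧
      (∀ h, (Q'.par h ↔ Q'.par (Q'.M h)) ↔ (Q.par h ↔ Q.par (Q.M h))) := by
    intro s
    obtain ⟨Q', h1, h2, h3, h4⟩ := exists_shift Q s
    refine ⟨Q', h1, h3, fun v w => ?_, fun h => Q.opp_shift Q' s h2 h3 h⟩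
    rw [hH, h4]
  obtain ⟨s0, hs0⟩ : ∃ s : ℤ, (Q.par (Q.x s) ↔ Q.par (Q.M (Q.x s))) := by
    obtain ⟨z, w, hzw, hpar⟩ := exists_even_chord H Q hH hH2
    refine ⟨z, ?_⟩
    rw [hzw, Q.par_x, Q.par_x, ← Int.not_even_iff_odd, ← Int.not_even_iff_odd, hpar]
  obtain ⟨N, hN⟩ : ∃ N, P.p = 2 * N + 2 := by
    obtain ⟨a, ha⟩ := P.p_even
    exact ⟨a - 1, by omega⟩
  obtain ⟨s, hs⟩ : ∃ s, Q.p = 2 * s := by
    obtain ⟨a, ha⟩ := Q.p_even
    exact ⟨a, by omega⟩
  by_cases h4 : 4 ∣ Fintype.card W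
  · -- order of `H` divisible by four
    obtain ⟨Q', hQ'p, hQ'x, hQ'H, hQ'o⟩ := hshift s0
    have hse : Even s := by
      obtain ⟨k, hk⟩ := h4
      exact ⟨k, by omega⟩
    have hOe : Even (#Q'.O0 : ℤ) := (Q'.parity_O0 s (by rw [hQ'p, hs])).2 hse
    obtain ⟨a, ha⟩ := hOe
    refine step Q' hQ'H ?_ a.toNat ?_ ?_
    · rw [hQ'o, hQ'x 0, zero_add]
      exact hs0
    · have h5 := pred_card_le_card_erase (s := Q'.O0) (a := Q'.M (Q'.x (-1)))
      by_cases h6 : #Q'.O0 = 0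
      · omega
      · omega
    · have h5 : (2 * ((a.toNat : ℕ) : ℤ) - #Q'.O0 + 1) = 1 := by omega
      rw [h5]
      exact isCoprime_one_left
  · -- order of `G` divisible by four, order of `H` is 2 mod 4
    have h4G : 4 ∣ Fintype.card V := h8.resolve_right h4
    have hso : ¬ Even s := by
      rintro ⟨k, hk⟩
      apply h4
      have : (4 : ℤ) ∣ (Fintype.card W : ℤ) := ⟨k, by omega⟩
      exact_mod_cast this
    have hNo : Odd N := by
      obtain ⟨k, hk⟩ := h4G
      exact ⟨k - 1, by omega⟩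
    have hco : IsCoprime (2 : ℤ) (P.p / 2 - 1) := by
      have h5 : P.p / 2 - 1 = N := by omega
      rw [h5]
      obtain ⟨k, hk⟩ := hNo
      exact ⟨-k, 1, by rw [hk]; ring⟩
    have hq6 : 6 ≤ Q.p := by
      by_contra hcon
      apply hso
      exact ⟨1, by omega⟩
    -- it is enough to have enough room
    have step2 : ∀ t : ℤ, (Q.par (Q.x t) ↔ Q.par (Q.M (Q.x t))) →
        ((Q.par (Q.x (t - 1)) ↔ Q.par (Q.M (Q.x (t - 1)))) ∨
          #(univ.filter (fun h => ¬ (Q.par h ↔ Q.par (Q.M h)))) ≠ 2) →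
        H93HD.HamDecomp (G □ H) 3 := by
      intro t ht hroom
      obtain ⟨Q', hQ'p, hQ'x, hQ'H, hQ'o⟩ := hshift t
      have hOo : ¬ Even (#Q'.O0 : ℤ) := fun h => hso ((Q'.parity_O0 s (by rw [hQ'p, hs])).1 h)
      obtain ⟨a, ha⟩ := Int.not_even_iff_odd.1 hOo
      refine step Q' hQ'H ?_ (a + 1).toNat ?_ ?_
      · rw [hQ'o, hQ'x 0, zero_add]
        exact ht
      · rcases hroom with h5 | h5
        · have h6 : Q'.M (Q'.x (-1)) ∉ Q'.O0 := by
            intro h7
            rw [Q'.mem_O0, Q'.M_M] at h7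
            have h8 : (Q'.par (Q'.x (-1)) ↔ Q'.par (Q'.M (Q'.x (-1)))) := by
              rw [hQ'o, hQ'x (-1), show -1 + t = t - 1 by ring]
              exact h5
            exact h7.1 (h8.1 h7.2)
          rw [erase_eq_of_notMem h6]
          omega
        · have h6 := Q'.card_opp
          have h7 : univ.filter (fun h => ¬ (Q'.par h ↔ Q'.par (Q'.M h)))
              = univ.filter (fun h => ¬ (Q.par h ↔ Q.par (Q.M h))) := by
            ext h
            rw [mem_filter, mem_filter, hQ'o]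
          rw [h7] at h6
          have h8 := pred_card_le_card_erase (s := Q'.O0) (a := Q'.M (Q'.x (-1)))
          omega
      · have h5 : (2 * (((a + 1).toNat : ℕ) : ℤ) - #Q'.O0 + 1) = 2 := by omega
        rw [h5]
        exact hco
    by_cases hO : #(univ.filter (fun h => ¬ (Q.par h ↔ Q.par (Q.M h)))) = 2
    · -- only one chord between an even and an odd vertex: move the base point away from it
      by_contra hcon
      have hpair : ∀ t : ℤ, ¬ (Q.par (Q.x t) ↔ Q.par (Q.M (Q.x t))) ∨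
          ¬ (Q.par (Q.x (t - 1)) ↔ Q.par (Q.M (Q.x (t - 1)))) := by
        intro t
        by_contra h5
        push Not at h5
        exact hcon (step2 t h5.1 (Or.inl h5.2))
      have hpick : ∀ t : ℤ, ∃ z, (z = t ∨ z = t - 1) ∧
          Q.x z ∈ univ.filter (fun h => ¬ (Q.par h ↔ Q.par (Q.M h))) := by
        intro t
        rcases hpair t with h5 | h5
        · exact ⟨t, Or.inl rfl, mem_filter.2 ⟨mem_univ _, h5⟩⟩
        · exact ⟨t - 1, Or.inr rfl, mem_filter.2 ⟨mem_univ _, h5⟩⟩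
      obtain ⟨z1, hz1, hm1⟩ := hpick 1
      obtain ⟨z2, hz2, hm2⟩ := hpick 3
      obtain ⟨z3, hz3, hm3⟩ := hpick 5
      have h12 : Q.x z1 ≠ Q.x z2 := Q.x_ne (by omega) (by omega) (by omega)
      have h13 : Q.x z1 ≠ Q.x z3 := Q.x_ne (by omega) (by omega) (by omega)
      have h23 : Q.x z2 ≠ Q.x z3 := Q.x_ne (by omega) (by omega) (by omega)
      have hsub : ({Q.x z1, Q.x z2, Q.x z3} : Finset W) ⊆
          univ.filter (fun h => ¬ (Q.par h ↔ Q.par (Q.M h))) := by
        intro h hh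
        simp only [mem_insert, mem_singleton] at hh
        rcases hh with rfl | rfl | rfl
        · exact hm1
        · exact hm2
        · exact hm3
      have hcard : #({Q.x z1, Q.x z2, Q.x z3} : Finset W) = 3 := by
        rw [card_eq_three]
        exact ⟨_, _, _, h12, h13, h23, rfl⟩
      have := card_le_card hsub
      omega
    · exact step2 s0 hs0 (Or.inr hO)

end HX67
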