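import Pool.Agent.HX67.Main
import Pool.Agent.HX67.CoreS

/-!
# Products of a bipartite Hamiltonian cubic graph with a Hamiltonian cubic graph
-/

namespace HX67

open Finset
open scoped Classical

/-- the two factors may be exchanged -/
theorem hamDecomp_swap {V W : Type*} [instV : DecidableEq V] [instW : DecidableEq W]
    (G : SimpleGraph V) (H : SimpleGraph W) (d : ℕ) (h : H93HD.HamDecomp (H □ G) d) :
    H93HD.HamDecomp (G □ H) d := by
  obtain ⟨a, c, hc, hu⟩ := h
  let φ := SimpleGraph.boxProdComm H G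
  refine ⟨fun i => φ (a i), fun i => (c i).map φ.toHom, fun i => ?_, ?_⟩
  · exact (hc i).map (f := φ.toHom) φ.bijective
  · intro e he
    have he' : Sym2.map φ.symm e ∈ (H □ G).edgeSet := by
      induction e with
      | _ x y =>
        rw [Sym2.map_mk, SimpleGraph.mem_edgeSet]
        exact φ.symm.map_adj_iff.2 he
    have hmap : Sym2.map φ (Sym2.map φ.symm e) = e := by
      induction e with
      | _ x y =>
        rw [Sym2.map_mk, Sym2.map_mk]
        simp
    have hinj : Function.Injective (Sym2.map φ) := Sym2.map.injective φ.injective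
    have key : ∀ i, e ∈ ((c i).map φ.toHom).edges ↔ Sym2.map φ.symm e ∈ (c i).edges := by
      intro i
      rw [SimpleGraph.Walk.edges_map, List.mem_map]
      constructor
      · rintro ⟨e', he', h2⟩
        have h3 : Sym2.map φ.symm e = e' := by
          apply hinj
          rw [hmap, ← h2]
          rfl
        rwa [h3]
      · intro h2
        exact ⟨_, h2, hmap⟩
    obtain ⟨i, hi, huq⟩ := hu _ he'
    exact ⟨i, (key i).2 hi, fun j hj => huq j ((key j).1 hj)⟩

/-- both factors bipartite, the order of the second one divisible by four -/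
theorem bip4 {V W : Type*} [Fintype V] [Fintype W] [DecidableEq V] [DecidableEq W]
    (G : SimpleGraph V) (H : SimpleGraph W) [DecidableRel G.Adj] [DecidableRel H.Adj]
    (hG3 : G.IsRegularOfDegree 3) (hH3 : H.IsRegularOfDegree 3)
    (hGh : G.IsHamiltonian) (hHh : H.IsHamiltonian)
    (hG2 : G.Colorable 2) (hH2 : H.Colorable 2) (h4 : 4 ∣ Fintype.card W) :
    H93HD.HamDecomp (G □ H) 3 := by
  obtain ⟨P, hPp, hG⟩ := exists_pres G hG3 hGh
  obtain ⟨Q, hQp, hH⟩ := exists_pres H hH3 hHh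
  have hPb := parity_of_colorable G P hG hG2
  have hbip : ∀ Q' : Pres W, (∀ v w, H.Adj v w ↔ ∃ i, Q'.mate i v = w) →
      ∀ h, Q'.par (Q'.M h) ↔ ¬ Q'.par h := by
    intro Q' hQ' h
    obtain ⟨z, rfl⟩ := Q'.surj h
    obtain ⟨w, hw⟩ := Q'.surj (Q'.M (Q'.x z))
    have h1 := parity_of_colorable H Q' hQ' hH2 z w hw.symm
    rw [← hw, Q'.par_x, Q'.par_x, ← Int.not_even_iff_odd, ← Int.not_even_iff_odd, h1]
  obtain ⟨s, hs⟩ := exists_base2 Q (hbip Q hH)
  obtain ⟨Q', e1, e2, e3, e4⟩ := exists_shift Q s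
  have hH' : ∀ v w, H.Adj v w ↔ ∃ i, Q'.mate i v = w := by
    intro v w
    rw [hH, e4]
  have hb := hbip Q' hH'
  have hqq := Q'.p_ge
  have hp0 : ¬ Q'.par (Q'.x 0) := by
    rw [Q'.par_x]; decide
  have hp1 : Q'.par (Q'.x 1) := by
    rw [Q'.par_x]; decide
  have hpm : Q'.par (Q'.x (-1)) := by
    rw [Q'.par_x]; decide
  obtain ⟨k, hk1, hk2, hk⟩ := Q'.exists_inner _ (Q'.M_ne (Q'.x 0)) (by
    rw [← Q'.A_zero]
    exact Q'.M_A _)
  obtain ⟨a, ha1, ha2, ha⟩ := Q'.exists_inner (Q'.M (Q'.x 1)) (by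
      intro h
      apply Q'.M_B (Q'.x 1)
      rw [h, Q'.B_odd 1 (by decide)]
      rfl) (by
      intro h
      have h1 := (hb (Q'.x 1)).1 (by rw [h]; exact hpm)
      exact h1 hp1)
  have hko : Odd k := by
    have h1 : Q'.par (Q'.x k) := by rw [hk, hb]; exact hp0
    rw [Q'.par_x] at h1
    exact_mod_cast h1
  have hae : Even a := by
    have h1 : ¬ Q'.par (Q'.x a) := by rw [ha, hb]; exact fun h => h hp1
    rw [Q'.par_x, Int.not_odd_iff_even] at h1
    exact_mod_cast h1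
  have ha1' : 2 ≤ a := by
    rcases Nat.lt_or_ge 1 a with h | h
    · exact h
    · have h1 : a = 1 := by omega
      rw [h1] at hae
      exact absurd hae (by decide)
  have h4' : (4 : ℤ) ∣ Q'.p := by
    rw [e1, hQp]
    exact_mod_cast h4
  obtain ⟨r, hr, hr0, hr2, hr1, hsum, hsame⟩ := exists_signs2 Q' hb h4' k a hk1 hk2 hk ha1' ha2 ha
    (hs Q' e1 e2 e3 k a hk1 hk2 hk ha1' ha2 ha)
  exact coreS G H P Q' hG hH' hPb r hr hr0 hr1 hr2 k a hk1 hk2 hk hko ha1' ha2 ha hae 1
    isCoprime_one_left (by rw [hsum]; norm_num) hsame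

theorem main8 {V W : Type*} [Fintype V] [Fintype W] [DecidableEq V] [DecidableEq W]
    (G : SimpleGraph V) (H : SimpleGraph W) [DecidableRel G.Adj] [DecidableRel H.Adj]
    (hG3 : G.IsRegularOfDegree 3) (hH3 : H.IsRegularOfDegree 3)
    (hGh : G.IsHamiltonian) (hHh : H.IsHamiltonian)
    (hG2 : G.Colorable 2) (h8 : 8 ∣ Fintype.card V * Fintype.card W) :
    H93HD.HamDecomp (G □ H) 3 := by
  have h44 : 4 ∣ Fintype.card V ∨ 4 ∣ Fintype.card W := by
    by_contra hcon
    push Not at hcon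
    obtain ⟨P, hPp, -⟩ := exists_pres G hG3 hGh
    obtain ⟨Q, hQp, -⟩ := exists_pres H hH3 hHh
    obtain ⟨i, hi⟩ := P.p_even
    obtain ⟨j, hj⟩ := Q.p_even
    have h1 : Fintype.card V % 4 = 2 := by omega
    have h2 : Fintype.card W % 4 = 2 := by omega
    obtain ⟨m, hm⟩ : ∃ m, Fintype.card V = 4 * m + 2 := ⟨Fintype.card V / 4, by omega⟩
    obtain ⟨n, hn⟩ : ∃ n, Fintype.card W = 4 * n + 2 := ⟨Fintype.card W / 4, by omega⟩
    rw [hm, hn] at h8
    have h3 : (4 * m + 2) * (4 * n + 2) = 8 * (2 * m * n + m + n) + 4 := by ring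
    rw [h3] at h8
    omega
  by_cases hH2 : H.Colorable 2
  · rcases h44 with h | h
    · exact hamDecomp_swap G H 3 (bip4 H G hH3 hG3 hHh hGh hH2 hG2 h)
    · exact bip4 G H hG3 hH3 hGh hHh hG2 hH2 h
  · exact mainNB G H hG3 hH3 hGh hHh hG2 hH2 h44

end HX67
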