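import Pool.Agent.HX67.Signs

/-!
# The choice of the rows for the mixed class
-/

namespace HX67

open Finset
open scoped Classical

theorem exists_signs_set {W : Type*} [Fintype W] (Q : Pres W) (S : Finset W) (hSO : S ⊆ Q.O0)
    (hS1 : Q.M (Q.x (-1)) ∉ S) (hS0 : Q.x 0 ∉ S) :
    ∃ r : W → Prop, (∀ h, r (Q.M h) ↔ ¬ r h) ∧ r (Q.x 0) ∧ ¬ r (Q.x (-1)) ∧
      ∑ y ∈ Ico 1 ((Q.p - 2).toNat + 1), dir Q r y = 2 * (2 * #S - #Q.O0 + 1) := by
  have hp := Q.p_ge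
  obtain ⟨q, hq⟩ : ∃ q : ℕ, (q : ℤ) = Q.p := ⟨Q.p.toNat, by omega⟩
  obtain ⟨e, he⟩ := Q.exists_equiv q hq
  have idx_x : ∀ k : ℕ, k < q → (e.symm (Q.x k) : ℕ) = k := by
    intro k hk
    have h1 : Q.x k = e ⟨k, hk⟩ := (he ⟨k, hk⟩).symm
    rw [h1, e.symm_apply_apply]
  have idx_ne : ∀ h, (e.symm h : ℕ) ≠ (e.symm (Q.M h) : ℕ) := by
    intro h h1
    have h2 := e.symm.injective (Fin.ext h1)
    exact Q.M_ne h h2.symm
  have hxm : Q.x (-1) = Q.x ((q - 1 : ℕ) : ℤ) := by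
    rw [← Q.per (-1)]
    congr 1
    omega
  have hp0 : ¬ Q.par (Q.x 0) := by
    rw [Q.par_x]
    decide
  have hp1 : Q.par (Q.x (-1)) := by
    rw [Q.par_x]
    decide
  obtain ⟨r, hrdef⟩ : ∃ r : W → Prop, r = fun h =>
      if ¬ Q.par h ∧ Q.par (Q.M h) then h ∉ S else
        if Q.par h ∧ ¬ Q.par (Q.M h) then Q.M h ∈ S else
          (e.symm h : ℕ) < (e.symm (Q.M h) : ℕ) := ⟨_, rfl⟩
  have r1 : ∀ h, ¬ Q.par h → Q.par (Q.M h) → (r h ↔ h ∉ S) := by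
    intro h h1 h2
    simp [hrdef, h1, h2]
  have r2 : ∀ h, Q.par h → ¬ Q.par (Q.M h) → (r h ↔ Q.M h ∈ S) := by
    intro h h1 h2
    simp [hrdef, h1, h2]
  have r3 : ∀ h, (Q.par h ↔ Q.par (Q.M h)) →
      (r h ↔ (e.symm h : ℕ) < (e.symm (Q.M h) : ℕ)) := by
    intro h h1
    by_cases h2 : Q.par h
    · simp [hrdef, h2, h1.1 h2]
    · have h3 : ¬ Q.par (Q.M h) := fun h3 => h2 (h1.2 h3)
      simp [hrdef, h2, h3]
  have hr : ∀ h, r (Q.M h) ↔ ¬ r h := by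
    intro h
    by_cases h1 : Q.par h <;> by_cases h2 : Q.par (Q.M h)
    · rw [r3 h (iff_of_true h1 h2), r3 (Q.M h) (by rw [Q.M_M]; exact iff_of_true h2 h1), Q.M_M]
      have := idx_ne h
      omega
    · rw [r2 h h1 h2, r1 (Q.M h) h2 (by rwa [Q.M_M])]
    · rw [r1 h h1 h2, r2 (Q.M h) h2 (by rwa [Q.M_M]), Q.M_M, not_not]
    · rw [r3 h (iff_of_false h1 h2), r3 (Q.M h) (by rw [Q.M_M]; exact iff_of_false h2 h1), Q.M_M]
      have := idx_ne h
      omega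
  have hr0 : r (Q.x 0) := by
    by_cases hk : Q.par (Q.M (Q.x 0))
    · rw [r1 _ hp0 hk]
      exact hS0
    rw [r3 _ (iff_of_false hp0 hk)]
    have h1 := idx_x 0 (by omega)
    have h2 := idx_ne (Q.x 0)
    push_cast at h1
    omega
  have hr1 : ¬ r (Q.x (-1)) := by
    by_cases h2 : Q.par (Q.M (Q.x (-1)))
    · rw [r3 _ (iff_of_true hp1 h2)]
      have h1 := idx_x (q - 1) (by omega)
      rw [← hxm] at h1
      have h3 := (e.symm (Q.M (Q.x (-1)))).2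
      omega
    · rw [r2 _ hp1 h2]
      exact hS1
  refine ⟨r, hr, hr0, hr1, ?_⟩
  -- the sum over all vertices
  let d : W → ℤ := fun h => if (r h ↔ Q.par h) then 1 else -1
  have hdir : ∀ y : ℤ, dir Q r y = d (Q.x y) := by
    intro y
    simp only [dir, d]
    rw [Q.par_x]
    split_ifs <;> rfl
  have hsplit : ∑ h, d h = ∑ h ∈ Q.O0, d h
      + ∑ h ∈ univ.filter (fun h => Q.par h ∧ ¬ Q.par (Q.M h)), d h
      + ∑ h ∈ univ.filter (fun h => (Q.par h ↔ Q.par (Q.M h))), d h := by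
    rw [Pres.O0, sum_filter, sum_filter, sum_filter, ← sum_add_distrib, ← sum_add_distrib]
    refine sum_congr rfl fun h _ => ?_
    by_cases h1 : Q.par h <;> by_cases h2 : Q.par (Q.M h) <;> simp [h1, h2]
  have hsame : ∑ h ∈ univ.filter (fun h => (Q.par h ↔ Q.par (Q.M h))), d h = 0 := by
    refine sum_involution (fun h _ => Q.M h) ?_ ?_ ?_ ?_
    · intro h hh
      rw [mem_filter] at hh
      simp only [d, hr, ← hh.2]
      by_cases h1 : Q.par h <;> by_cases h2 : r h <;> simp [h1, h2]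
    · intro h _ _
      exact Q.M_ne h
    · intro h hh
      rw [mem_filter] at hh ⊢
      refine ⟨mem_univ _, ?_⟩
      rw [Q.M_M]
      exact hh.2.symm
    · intro h _
      exact Q.M_M h
  have hopp : ∑ h ∈ univ.filter (fun h => Q.par h ∧ ¬ Q.par (Q.M h)), d h = ∑ h ∈ Q.O0, d h := by
    refine sum_bij (fun h _ => Q.M h) ?_ ?_ ?_ ?_
    · intro h hh
      rw [mem_filter] at hh
      rw [Q.mem_O0, Q.M_M]
      exact ⟨hh.2.2, hh.2.1⟩
    · intro h _ h' _ h1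
      rw [← Q.M_M h, h1, Q.M_M]
    · intro h hh
      rw [Q.mem_O0] at hh
      refine ⟨Q.M h, ?_, Q.M_M h⟩
      rw [mem_filter, Q.M_M]
      exact ⟨mem_univ _, hh.2, hh.1⟩
    · intro h hh
      rw [mem_filter] at hh
      simp only [d, hr]
      by_cases h2 : r h <;> simp [h2, hh.2.1, hh.2.2]
  have hO : ∑ h ∈ Q.O0, d h = 2 * #S - #Q.O0 := by
    have h1 : ∀ h ∈ Q.O0, d h = 2 * (if h ∈ S then 1 else 0) - 1 := by
      intro h hh
      rw [Q.mem_O0] at hh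
      simp only [d]
      rw [r1 h hh.1 hh.2]
      by_cases h2 : h ∈ S <;> simp [h2, hh.1]
    rw [sum_congr rfl h1, sum_sub_distrib, ← mul_sum, sum_ite_mem, inter_eq_right.2 hSO]
    simp
  have htot : ∑ y ∈ range q, d (Q.x y) = 2 * (2 * #S - #Q.O0) := by
    rw [← Q.sum_eq q hq d, hsplit, hsame, hopp, hO]
    ring
  have hd0 : d (Q.x 0) = -1 := by
    simp only [d]
    rw [if_neg (fun h => hp0 (h.1 hr0))]
  have hd1 : d (Q.x ((q - 1 : ℕ) : ℤ)) = -1 := by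
    rw [← hxm]
    simp only [d]
    rw [if_neg (fun h => hr1 (h.2 hp1))]
  have ht : (Q.p - 2).toNat + 1 = q - 1 := by omega
  have hsum : ∑ y ∈ range q, d (Q.x y) =
      d (Q.x 0) + ∑ y ∈ Ico 1 (q - 1), d (Q.x y) + d (Q.x ((q - 1 : ℕ) : ℤ)) := by
    rw [range_eq_Ico, sum_eq_sum_Ico_succ_bot (by omega), zero_add,
      show q = (q - 1) + 1 by omega, sum_Ico_succ_top (by omega)]
    simp only [Nat.add_sub_cancel]
    push_cast
    ring
  rw [ht]
  have h3 : ∑ y ∈ Ico 1 (q - 1), dir Q r y = ∑ y ∈ Ico 1 (q - 1), d (Q.x y) :=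
    sum_congr rfl fun y _ => hdir y
  rw [h3]
  rw [hd0, hd1, htot] at hsum
  linarith

theorem exists_signsA {W : Type*} [Fintype W] (Q : Pres W) (hq : Q.p % 4 = 2) (k0 : ℕ)
    (hk1 : 1 ≤ k0) (hk2 : (k0 : ℤ) ≤ Q.p - 2) (hk : Q.x k0 = Q.M (Q.x 0))
    (c d : ℕ) (hc1 : 1 ≤ c) (hc2 : c < k0) (hd1 : k0 < d) (hd2 : (d : ℤ) ≤ Q.p - 2)
    (hcd : Q.M (Q.x c) = Q.x d) (hpar : Even (c + d))
    (hO : 3 ≤ #Q.O0 ∨ (Even k0 ∧ ∃ k1 : ℤ, Odd k1 ∧ Q.M (Q.x (-1)) = Q.x k1))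
    (u : ℤ) (hu : Odd u) :
    ∃ (r : W → Prop) (E' : ℤ), (∀ h, r (Q.M h) ↔ ¬ r h) ∧ r (Q.x 0) ∧ ¬ r (Q.x (-1)) ∧
      (E' = 1 ∨ E' = -1) ∧
      2 * (2 * E') = ∑ y ∈ Ico 1 ((Q.p - 2).toNat + 1), dir Q r y ∧
      ¬ 4 ∣ (if Even k0 then 0 else 1) - (∑ y ∈ Ico 1 k0, dir Q r y) - u := by
  have hp := Q.p_ge
  -- the number of even ends of odd chords is odd
  have hodd : ¬ Even (#Q.O0 : ℤ) := by
    obtain ⟨s, hs⟩ : ∃ s : ℤ, Q.p = 2 * s := ⟨Q.p / 2, by omega⟩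
    rw [Q.parity_O0 s hs, Int.even_iff]
    omega
  -- the first choice
  obtain ⟨r, E', hr, hr0, hr1, hE', hsum⟩ : ∃ (r : W → Prop) (E' : ℤ), (∀ h, r (Q.M h) ↔ ¬ r h) ∧
      r (Q.x 0) ∧ ¬ r (Q.x (-1)) ∧ (E' = 1 ∨ E' = -1) ∧
      2 * (2 * E') = ∑ y ∈ Ico 1 ((Q.p - 2).toNat + 1), dir Q r y := by
    by_cases h3 : 3 ≤ #Q.O0
    · obtain ⟨m, hm⟩ : ∃ m : ℕ, #Q.O0 = 2 * m + 3 := by
        rw [Int.even_iff] at hodd
        exact ⟨(#Q.O0 - 3) / 2, by omega⟩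
      have hcard : m ≤ #((Q.O0.erase (Q.M (Q.x (-1)))).erase (Q.x 0)) := by
        have h4 := pred_card_le_card_erase (s := Q.O0) (a := Q.M (Q.x (-1)))
        have h5 := pred_card_le_card_erase (s := Q.O0.erase (Q.M (Q.x (-1)))) (a := Q.x 0)
        omega
      obtain ⟨S, hS, hSa⟩ := exists_subset_card_eq hcard
      obtain ⟨r, a1, a2, a3, a4⟩ := exists_signs_set Q S
        (hS.trans ((erase_subset _ _).trans (erase_subset _ _)))
        (fun h => (mem_erase.1 (mem_erase.1 (hS h)).2).1 rfl)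
        (fun h => (mem_erase.1 (hS h)).1 rfl)
      refine ⟨r, -1, a1, a2, a3, Or.inr rfl, ?_⟩
      rw [a4, hSa, hm]
      push_cast
      ring
    · obtain ⟨hke, k1, hk1o, hk1e⟩ := hO.resolve_left h3
      have h1 : #Q.O0 = 1 := by
        rw [Int.even_iff] at hodd
        omega
      obtain ⟨r, a1, a2, a3, a4⟩ := exists_signs_set Q Q.O0 (Subset.refl _)
        (fun h => by
          rw [Q.mem_O0, hk1e, Q.par_x] at h
          exact h.1 hk1o)
        (fun h => by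
          rw [Q.mem_O0, ← hk, Q.par_x] at h
          have := h.2
          rw [Q.par_x, ← Int.not_even_iff_odd] at this
          exact this (by exact_mod_cast hke))
      refine ⟨r, 1, a1, a2, a3, Or.inl rfl, ?_⟩
      rw [a4, h1]
      norm_num
  by_cases h4 : (4 : ℤ) ∣ (if Even k0 then 0 else 1) - (∑ y ∈ Ico 1 k0, dir Q r y) - u
  swap
  · exact ⟨r, E', hr, hr0, hr1, hE', hsum, h4⟩
  -- flip the chord
  have hc0 : Q.x c ≠ Q.x 0 := Q.inner_ne_zero (by omega) (by omega)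
  have hd0 : Q.x d ≠ Q.x 0 := Q.inner_ne_zero (by omega) (by omega)
  have hcn : Q.x c ≠ Q.x (-1) := Q.inner_ne_neg (by omega) (by omega)
  have hdn : Q.x d ≠ Q.x (-1) := Q.inner_ne_neg (by omega) (by omega)
  have hdc : Q.M (Q.x d) = Q.x c := by rw [← hcd, Q.M_M]
  obtain ⟨r', hr'⟩ : ∃ r' : W → Prop, ∀ h, r' h ↔ (if h = Q.x c ∨ h = Q.x d then ¬ r h else r h) :=
    ⟨_, fun h => Iff.rfl⟩
  have hMiff : ∀ h, (Q.M h = Q.x c ∨ Q.M h = Q.x d) ↔ (h = Q.x c ∨ h = Q.x d) := by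
    intro h
    constructor
    · rintro (h1 | h1)
      · right
        rw [← hcd, ← h1, Q.M_M]
      · left
        rw [← hdc, ← h1, Q.M_M]
    · rintro (h1 | h1)
      · right
        rw [h1, hcd]
      · left
        rw [h1, hdc]
  have hrc : r' (Q.x c) ↔ ¬ r (Q.x c) := by
    rw [hr', if_pos (Or.inl rfl)]
  have hrd : r' (Q.x d) ↔ ¬ r (Q.x d) := by
    rw [hr', if_pos (Or.inr rfl)]
  have hne : ∀ y : ℕ, 1 ≤ y → (y : ℤ) ≤ Q.p - 2 → y ≠ c → y ≠ d → dir Q r' y = dir Q r y := by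
    intro y h1 h2 h3 h5
    have h6 : Q.x y ≠ Q.x c := by
      have : (y : ℤ) ≠ c := by exact_mod_cast h3
      exact Q.x_ne this (by omega) (by omega)
    have h7 : Q.x y ≠ Q.x d := by
      have : (y : ℤ) ≠ d := by exact_mod_cast h5
      exact Q.x_ne this (by omega) (by omega)
    have h8 : r' (Q.x y) ↔ r (Q.x y) := by
      rw [hr', if_neg (fun h => h.elim h6 h7)]
    unfold dir
    rw [h8]
  have hdirc : dir Q r' c = - dir Q r c := by
    unfold dir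
    rw [hrc]
    by_cases h1 : r (Q.x c) <;> by_cases h2 : Odd (c : ℤ) <;> simp [h1, h2]
  have hdird : dir Q r' d = - dir Q r d := by
    unfold dir
    rw [hrd]
    by_cases h1 : r (Q.x d) <;> by_cases h2 : Odd (d : ℤ) <;> simp [h1, h2]
  have hcdpar : Odd (c : ℤ) ↔ Odd (d : ℤ) := by
    have h1 : Even ((c : ℤ) + d) := by exact_mod_cast hpar
    rw [Int.even_add] at h1
    rw [← Int.not_even_iff_odd, ← Int.not_even_iff_odd, h1]
  have hsumcd : dir Q r c + dir Q r d = 0 := by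
    have h3 : r (Q.x d) ↔ ¬ r (Q.x c) := by rw [← hcd, hr]
    unfold dir
    by_cases h1 : r (Q.x c) <;> by_cases h2 : Odd (c : ℤ)
    · have h4 := hcdpar.1 h2
      have h5 : ¬ r (Q.x d) := fun h => h3.1 h h1
      simp [h1, h2, h4, h5]
    · have h4 : ¬ Odd (d : ℤ) := fun h => h2 (hcdpar.2 h)
      have h5 : ¬ r (Q.x d) := fun h => h3.1 h h1
      simp [h1, h2, h4, h5]
    · have h4 := hcdpar.1 h2
      have h5 : r (Q.x d) := h3.2 h1
      simp [h1, h2, h4, h5]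
    · have h4 : ¬ Odd (d : ℤ) := fun h => h2 (hcdpar.2 h)
      have h5 : r (Q.x d) := h3.2 h1
      simp [h1, h2, h4, h5]
  obtain ⟨t, ht⟩ : ∃ t : ℕ, (t : ℤ) = Q.p - 2 := ⟨(Q.p - 2).toNat, by omega⟩
  have htn : (Q.p - 2).toNat = t := by omega
  refine ⟨r', E', ?_, ?_, ?_, hE', ?_, ?_⟩
  · intro h
    rw [hr', hr']
    by_cases h1 : h = Q.x c ∨ h = Q.x d
    · rw [if_pos h1, if_pos ((hMiff h).2 h1), hr]
    · rw [if_neg h1, if_neg (fun h2 => h1 ((hMiff h).1 h2)), hr]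
  · rw [hr', if_neg (by
      rintro (h1 | h1)
      · exact hc0 h1.symm
      · exact hd0 h1.symm)]
    exact hr0
  · rw [hr', if_neg (by
      rintro (h1 | h1)
      · exact hcn h1.symm
      · exact hdn h1.symm)]
    exact hr1
  · rw [hsum, htn]
    have hcm : c ∈ Ico 1 (t + 1) := by rw [mem_Ico]; omega
    have hdm : d ∈ (Ico 1 (t + 1)).erase c := by
      rw [mem_erase, mem_Ico]
      omega
    rw [← add_sum_erase _ _ hcm, ← add_sum_erase _ _ hdm,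
      ← add_sum_erase (Ico 1 (t + 1)) (fun y : ℕ => dir Q r' y) hcm,
      ← add_sum_erase ((Ico 1 (t + 1)).erase c) (fun y : ℕ => dir Q r' y) hdm]
    have h5 : ∑ y ∈ ((Ico 1 (t + 1)).erase c).erase d, dir Q r' y =
        ∑ y ∈ ((Ico 1 (t + 1)).erase c).erase d, dir Q r y := by
      refine sum_congr rfl fun y hy => ?_
      rw [mem_erase, mem_erase, mem_Ico] at hy
      exact hne y hy.2.2.1 (by omega) hy.2.1 hy.1
    simp only [hdirc, hdird, h5]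
    linarith
  · have hcm : c ∈ Ico 1 k0 := by rw [mem_Ico]; omega
    have h6 : ∑ y ∈ Ico 1 k0, dir Q r' y = ∑ y ∈ Ico 1 k0, dir Q r y - 2 * dir Q r c := by
      rw [← add_sum_erase (Ico 1 k0) (fun y : ℕ => dir Q r' y) hcm,
        ← add_sum_erase (Ico 1 k0) (fun y : ℕ => dir Q r y) hcm]
      have h5 : ∑ y ∈ (Ico 1 k0).erase c, dir Q r' y = ∑ y ∈ (Ico 1 k0).erase c, dir Q r y := by
        refine sum_congr rfl fun y hy => ?_
        rw [mem_erase, mem_Ico] at hy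
        exact hne y hy.2.1 (by omega) hy.1 (by omega)
      simp only [hdirc, h5]
      ring
    have h7 : dir Q r c = 1 ∨ dir Q r c = -1 := by
      unfold dir
      split_ifs <;> simp
    rw [h6]
    intro h8
    rcases h7 with h7 | h7 <;> rw [h7] at h8 <;> omega

end HX67
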