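import Pool.Agent.HX67.SignsU
import Pool.Agent.HX67.CoreU
import Pool.Agent.HX67.SignsA
import Pool.Agent.HX67.BaseU2
import Pool.Agent.HX67.H10
import Pool.Agent.HX67.Main8

/-!
# Products of a bipartite Hamiltonian cubic graph with a Hamiltonian cubic graph: all orders
-/

namespace HX67

open Finset
open scoped Classical

namespace Pres

variable {W : Type*}

/-- a change of the base point does not change whether a chord joins vertices of the same parity -/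
theorem opp_change (Q Q' : Pres W) (s e : ℤ) (he : e = 1 ∨ e = -1) (hM : Q'.M = Q.M)
    (hx : ∀ z, Q'.x z = Q.x (s + e * z)) (h : W) :
    (Q'.par h ↔ Q'.par (Q'.M h)) ↔ (Q.par h ↔ Q.par (Q.M h)) := by
  have key : ∀ h, Q'.par h ↔ (Q.par h ↔ Even s) := by
    intro h
    obtain ⟨z, rfl⟩ := Q'.surj h
    rw [Q'.par_x, hx z, Q.par_x, Int.odd_iff, Int.odd_iff, Int.even_iff]
    rcases he with rfl | rfl
    · rw [one_mul]; omega
    · rw [neg_one_mul]; omega
  rw [key h, key (Q'.M h), hM]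
  tauto

end Pres

theorem mainT {V W : Type*} [Fintype V] [Fintype W] [DecidableEq V] [DecidableEq W]
    (G : SimpleGraph V) (H : SimpleGraph W) [DecidableRel G.Adj] [DecidableRel H.Adj]
    (hG3 : G.IsRegularOfDegree 3) (hH3 : H.IsRegularOfDegree 3)
    (hGh : G.IsHamiltonian) (hHh : H.IsHamiltonian) (hG2 : G.Colorable 2)
    (hp4 : Fintype.card V % 4 = 2) (hq4 : Fintype.card W % 4 = 2) :
    H93HD.HamDecomp (G □ H) 3 := by
  obtain ⟨P, hPp, hG⟩ := exists_pres G hG3 hGh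
  obtain ⟨Q, hQp, hH⟩ := exists_pres H hH3 hHh
  have hPb := parity_of_colorable G P hG hG2
  have hpp := P.p_ge
  have hqq := Q.p_ge
  have hP4 : P.p % 4 = 2 := by omega
  have hQ4 : Q.p % 4 = 2 := by omega
  -- the mate of the base point of `G`
  obtain ⟨u0, hu00, hu01, hu0⟩ := exists_index' P (P.M (P.x 0))
  have hu0a : 1 ≤ u0 := by
    by_contra hcon
    have h1 : u0 = 0 := by omega
    rw [h1] at hu0
    exact P.M_ne _ hu0
  have hu0b : u0 ≤ P.p - 2 := by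
    by_contra hcon
    have h1 : u0 = P.p - 1 := by omega
    have h2 := P.M_A (P.x 0)
    rw [hu0, P.A_even 0 (by decide), h1, ← P.per (0 - 1)] at h2
    exact h2 (by congr 1; ring)
  have huo : Odd u0 := by
    have h1 := hPb 0 u0 hu0
    rw [← Int.not_even_iff_odd, h1]
    simp
  -- the first construction
  have stepU : ∀ Q' : Pres W, Q'.p = Q.p →
      (∀ v w, (∃ i, Q'.mate i v = w) ↔ ∃ i, Q.mate i v = w) → DataU Q' →
      H93HD.HamDecomp (G □ H) 3 := by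
    rintro Q' hp' hQ' ⟨a, l, ha4, haq, hae, ha, hl1, hl2, hl, hin⟩
    obtain ⟨r, hr, hr0, hr1, hra, hs1, hs2⟩ := exists_signsU Q' (by rw [hp']; exact hQ4) a l ha4
      haq hae ha hl1 hl2 hl hin
    obtain ⟨E, hE1, hE2⟩ : ∃ E : ℤ, IsCoprime E (P.p / 2 - 1) ∧
        2 * E = ∑ y ∈ Ico 1 (a - 1), dir Q' r y := by
      rcases hs2 with h1 | h1
      · exact ⟨1, isCoprime_one_left, by rw [h1]; rfl⟩
      · exact ⟨-1, isCoprime_one_left.neg_left, by rw [h1]; rfl⟩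
    exact coreU G H P Q' hG (fun v w => by rw [hH, hQ']) hPb hP4 r hr hr0 hr1 a l ha4 haq hae ha
      hl1 hl2 hl hra E hE1 hE2 hs1
  -- the second construction
  have stepA : ∀ Q' : Pres W, Q'.p = Q.p →
      (∀ v w, (∃ i, Q'.mate i v = w) ↔ ∃ i, Q.mate i v = w) →
      ∀ k0 c d : ℕ, 1 ≤ k0 → (k0 : ℤ) ≤ Q'.p - 2 → Q'.x k0 = Q'.M (Q'.x 0) → 1 ≤ c → c < k0 →
        k0 < d → (d : ℤ) ≤ Q'.p - 2 → Q'.M (Q'.x c) = Q'.x d → Even (c + d) →
        (3 ≤ #Q'.O0 ∨ (Even k0 ∧ ∃ k1 : ℤ, Odd k1 ∧ Q'.M (Q'.x (-1)) = Q'.x k1)) →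
      H93HD.HamDecomp (G □ H) 3 := by
    intro Q' hp' hQ' k0 c d g1 g2 g3 g4 g5 g6 g7 g8 g9 hO
    obtain ⟨r, E', hr, hr0, hr1, hE1, hE2, hz⟩ := exists_signsA Q' (by rw [hp']; exact hQ4) k0 g1
      g2 g3 c d g4 g5 g6 g7 g8 g9 (by convert hO) u0 huo
    refine coreT G H P Q' hG (fun v w => by rw [hH, hQ']) hPb r hr hr0 hr1 u0 hu0a hu0b hu0.symm
      k0 g1 g2 g3 ((P.p / 2 - 1) / 2) E' (by omega) ?_ hE2 hz
    rcases hE1 with rfl | rfl
    · exact isCoprime_one_left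
    · exact isCoprime_one_left.neg_left
  by_cases hb : ∀ h, Q.par (Q.M h) ↔ ¬ Q.par h
  · -- `H` is bipartite
    obtain ⟨Q', q1, q2, q3, q4⟩ := exists_baseU2 Q hb
    exact stepU Q' q1 q3 q4
  · by_cases hO : #Q.O0 = 1
    · rcases exists_baseO Q (by convert hO) with ⟨Q', q1, q2, q3, q4 | q4⟩ |
        ⟨Q', q1, q2, q3, m0, m1, m2, m6, m7⟩
      · exact stepU Q' q1 q3 q4
      · obtain ⟨k0, c, d, g1, g2, g3, g4, g5, g6, g7, g8, g9, g10, g11⟩ := q4
        exact stepA Q' q1 q3 k0 c d g1 g2 g3 g4 g5 g6 g7 g8 g9 (Or.inr ⟨g10, g11⟩)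
      · exact h10 G H P Q' hG (fun v w => by rw [hH, q3]) hPb hP4 u0 hu0a hu0b hu0.symm q1 m0 m1
          m2 m6 m7
    · have hnb : ∃ z w, Q.M (Q.x z) = Q.x w ∧ (Even w ↔ Even z) := by
        by_contra hcon
        apply hb
        intro h
        obtain ⟨z, rfl⟩ := Q.surj h
        obtain ⟨w, hw⟩ := Q.surj (Q.M (Q.x z))
        rw [← hw, Q.par_x, Q.par_x]
        by_contra h1
        apply hcon
        refine ⟨z, w, hw.symm, ?_⟩
        rw [← Int.not_even_iff_odd, ← Int.not_even_iff_odd] at h1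
        tauto
      obtain ⟨Q', q1, q2, q3, ⟨s, e, he, hx⟩, k0, c, d, g1, g2, g3, g4, g5, g6, g7, g8, g9⟩ :=
        exists_baseA Q hQ4 hnb
      refine stepA Q' q1 q3 k0 c d g1 g2 g3 g4 g5 g6 g7 g8 g9 (Or.inl ?_)
      have h1 : #Q'.O0 = #Q.O0 := by
        have h2 := Q'.card_opp
        have h3 := Q.card_opp
        have h4 : univ.filter (fun h => ¬ (Q'.par h ↔ Q'.par (Q'.M h)))
            = univ.filter (fun h => ¬ (Q.par h ↔ Q.par (Q.M h))) := by
          ext h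
          rw [mem_filter, mem_filter, Q.opp_change Q' s e he q2 hx]
        rw [h4] at h2
        omega
      obtain ⟨t, ht⟩ : ∃ t, Q.p = 2 * t := ⟨Q.p / 2, by omega⟩
      have h5 := Q.parity_O0 t ht
      rw [Int.even_iff, Int.even_iff] at h5
      rw [h1]
      omega

end HX67
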