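import Pool.Agent.HX67.FinalT

/-!
# Products of graphs which decompose into Hamiltonian spanning subgraphs of degree two and three
-/

namespace HX67

open SimpleGraph Finset

/-- the cyclic enumeration of a Hamiltonian graph of degree two -/
theorem cycle_part {V : Type*} [Fintype V] [DecidableEq V] (G : SimpleGraph V)
    [DecidableRel G.Adj] (h2 : G.IsRegularOfDegree 2) (hh : G.IsHamiltonian)
    (h3 : 3 ≤ Fintype.card V) :
    ∃ X : ℤ → V, (∀ z, X (z + (Fintype.card V : ℤ)) = X z) ∧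
      (∀ z w, X z = X w → (Fintype.card V : ℤ) ∣ z - w) ∧ (∀ v, ∃ z, X z = v) ∧
      ∀ v w, G.Adj v w ↔ ∃ z, (v = X z ∧ w = X (z + 1)) ∨ (v = X (z + 1) ∧ w = X z) := by
  obtain ⟨a, c, hc⟩ := hh (by omega)
  obtain ⟨X, h1, h2', h3', h4⟩ := exists_enum_edges G a c hc
  refine ⟨X, h1, h2', h3', fun v w => ?_⟩
  rw [← h4 v w]
  refine ⟨fun h => ?_, fun h => c.adj_of_mem_edges h⟩
  have hsub : univ.filter (fun w => s(v, w) ∈ c.edges) ⊆ G.neighborFinset v := by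
    intro u hu
    rw [mem_neighborFinset]
    exact c.adj_of_mem_edges (mem_filter.1 hu).2
  have heq := eq_of_subset_of_card_le hsub (by
    rw [card_nbr G a c hc h3 v]
    exact (h2 v).le)
  have h5 : w ∈ G.neighborFinset v := by
    rw [mem_neighborFinset]
    exact h
  rw [← heq] at h5
  exact (mem_filter.1 h5).2

theorem parts {V W : Type*} [Fintype V] [Fintype W] [DecidableEq V] [DecidableEq W]
    (n : ℕ) (d : Fin n → ℕ) (G : SimpleGraph V) (H : SimpleGraph W)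
    (Gs : Fin n → SimpleGraph V) (Hs : Fin n → SimpleGraph W)
    [∀ i, DecidableRel (Gs i).Adj] [∀ i, DecidableRel (Hs i).Adj]
    (hG : ∀ v w, G.Adj v w ↔ ∃ i, (Gs i).Adj v w)
    (hGd : ∀ i j v w, (Gs i).Adj v w → (Gs j).Adj v w → i = j)
    (hH : ∀ v w, H.Adj v w ↔ ∃ i, (Hs i).Adj v w)
    (hHd : ∀ i j v w, (Hs i).Adj v w → (Hs j).Adj v w → i = j)
    (hGr : ∀ i, (Gs i).IsRegularOfDegree (d i)) (hHr : ∀ i, (Hs i).IsRegularOfDegree (d i))
    (hGh : ∀ i, (Gs i).IsHamiltonian) (hHh : ∀ i, (Hs i).IsHamiltonian)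
    (hd : ∀ i, d i = 2 ∨ (d i = 3 ∧ ((Gs i).Colorable 2 ∨ (Hs i).Colorable 2)))
    (h3 : ∃ i, d i = 3) :
    H93HD.HamDecomp (G □ H) (∑ i, d i) := by
  obtain ⟨i0, hi0⟩ := h3
  obtain ⟨P, hPp, -⟩ := exists_pres (Gs i0) (hi0 ▸ hGr i0) (hGh i0)
  obtain ⟨Q, hQp, -⟩ := exists_pres (Hs i0) (hi0 ▸ hHr i0) (hHh i0)
  have hPe := P.p_even
  have hQe := Q.p_even
  have hP4 := P.p_ge
  have hQ4 := Q.p_ge
  refine hamDecomp_union n G H Gs Hs d hG hGd hH hHd ?_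
  intro i
  rcases hd i with h | ⟨h, hc | hc⟩
  · obtain ⟨x, hx1, hx2, hx3, hx4⟩ := cycle_part (Gs i) (h ▸ hGr i) (hGh i) (by omega)
    obtain ⟨y, hy1, hy2, hy3, hy4⟩ := cycle_part (Hs i) (h ▸ hHr i) (hHh i) (by omega)
    rw [h]
    exact even_torus (Gs i) (Hs i) x y (Fintype.card V : ℤ) (Fintype.card W : ℤ) (by omega)
      (by rw [← hPp]; exact hPe) (by omega) (by rw [← hQp]; exact hQe) hx1 hx2 hx3 hy1 hy2 hy3 hx4
      hy4
  · rw [h]
    exact cubicT (Gs i) (Hs i) (h ▸ hGr i) (h ▸ hHr i) (hGh i) (hHh i) hc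
  · rw [h]
    exact hamDecomp_swap (Gs i) (Hs i) 3
      (cubicT (Hs i) (Gs i) (h ▸ hHr i) (h ▸ hGr i) (hHh i) (hGh i) hc)

end HX67
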