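import Pool.Agent.HX67.Parts
import Pool.Agent.H93HD.Main

/-!
# Products of unions: three types of pairs
-/

namespace HX67

open SimpleGraph Finset

theorem parts2 {V W : Type*} [Fintype V] [Fintype W] [DecidableEq V] [DecidableEq W]
    (n : ℕ) (d : Fin n → ℕ) (G : SimpleGraph V) (H : SimpleGraph W)
    (Gs : Fin n → SimpleGraph V) (Hs : Fin n → SimpleGraph W)
    [∀ i, DecidableRel (Gs i).Adj] [∀ i, DecidableRel (Hs i).Adj]
    (hG : ∀ v w, G.Adj v w ↔ ∃ i, (Gs i).Adj v w)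
    (hGd : ∀ i j v w, (Gs i).Adj v w → (Gs j).Adj v w → i = j)
    (hH : ∀ v w, H.Adj v w ↔ ∃ i, (Hs i).Adj v w)
    (hHd : ∀ i j v w, (Hs i).Adj v w → (Hs j).Adj v w → i = j)
    (hGr : ∀ i, (Gs i).IsRegularOfDegree (d i)) (hHr : ∀ i, (Hs i).IsRegularOfDegree (d i))
    (hd : ∀ i,
      (d i = 2 ∧ (Gs i).IsHamiltonian ∧ (Hs i).IsHamiltonian) ∨
      (d i = 3 ∧ (Gs i).IsHamiltonian ∧ (Hs i).IsHamiltonian ∧
        ((Gs i).Colorable 2 ∨ (Hs i).Colorable 2)) ∨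
      (∃ k, 1 ≤ k ∧ d i = 2 * k ∧ (Gs i).Connected ∧ H93HD.HamDecomp (Hs i) k ∧
        16 * k ^ 2 * (Fintype.card V + 4) ^ 2 ≤ Fintype.card W))
    (h3 : ∃ i, d i = 3) :
    H93HD.HamDecomp (G □ H) (∑ i, d i) := by
  obtain ⟨i0, hi0⟩ := h3
  obtain ⟨hh1, hh2⟩ : (Gs i0).IsHamiltonian ∧ (Hs i0).IsHamiltonian := by
    rcases hd i0 with h | h | ⟨k, -, h, -⟩
    · exact ⟨h.2.1, h.2.2⟩
    · exact ⟨h.2.1, h.2.2.1⟩
    · omega
  obtain ⟨P, hPp, -⟩ := exists_pres (Gs i0) (hi0 ▸ hGr i0) hh1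
  obtain ⟨Q, hQp, -⟩ := exists_pres (Hs i0) (hi0 ▸ hHr i0) hh2
  have hPe := P.p_even
  have hQe := Q.p_even
  have hP4 := P.p_ge
  have hQ4 := Q.p_ge
  refine hamDecomp_union n G H Gs Hs d hG hGd hH hHd ?_
  intro i
  rcases hd i with ⟨h, hg, hh⟩ | ⟨h, hg, hh, hc⟩ | ⟨k, hk, h, hg, hh, hbig⟩
  · obtain ⟨x, hx1, hx2, hx3, hx4⟩ := cycle_part (Gs i) (h ▸ hGr i) hg (by omega)
    obtain ⟨y, hy1, hy2, hy3, hy4⟩ := cycle_part (Hs i) (h ▸ hHr i) hh (by omega)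
    rw [h]
    exact even_torus (Gs i) (Hs i) x y (Fintype.card V : ℤ) (Fintype.card W : ℤ) (by omega)
      (by rw [← hPp]; exact hPe) (by omega) (by rw [← hQp]; exact hQe) hx1 hx2 hx3 hy1 hy2 hy3 hx4
      hy4
  · rw [h]
    rcases hc with hc | hc
    · exact cubicT (Gs i) (Hs i) (h ▸ hGr i) (h ▸ hHr i) hg hh hc
    · exact hamDecomp_swap (Gs i) (Hs i) 3
        (cubicT (Hs i) (Gs i) (h ▸ hHr i) (h ▸ hGr i) hh hg hc)
  · rw [h]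
    refine H93HD.main (Gs i) (Hs i) k hk hg (fun v => ?_) hh ?_ hbig
    · rw [← h, ← hGr i v, ← SimpleGraph.card_neighborSet_eq_degree, Set.ncard_eq_toFinset_card',
        Set.toFinset_card]
    · rw [hQp] at hQe
      exact_mod_cast hQe

end HX67
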