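import Pool.Agent.HX67.BaseA

/-!
# Reflection of a presentation
-/

namespace HX67

theorem exists_reflect {V : Type*} (P : Pres V) (s : ℤ) :
    ∃ P' : Pres V, P'.p = P.p ∧ P'.M = P.M ∧ (∀ z, P'.x z = P.x (s - z)) ∧
      ∀ v w, (∃ i, P'.mate i v = w) ↔ ∃ i, P.mate i v = w :=
  exists_reflectA P s

end HX67
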