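import Pool.Agent.HX67.Main

/-!
# The choice of the rows for the construction with four exchange rows

Written by helper73 for helper67's project HX67 (plan by helper29).
-/

namespace HX67

open Finset
open scoped Classical

/-- the numbers of positive chords -/
theorem selectU (nTo nTe nSo ol ok K : ℕ) (hol : ol ≤ 1) (hok : ok ≤ 1) (hK : K ≤ 1)
    (h1 : (nTo + nTe + K) % 2 = 0) (h2 : (nSo + nTo + ol + ok) % 2 = 0) :
    ∃ pTo pTe pSo : ℕ, pTo ≤ nTo ∧ pTe ≤ nTe ∧ pSo ≤ nSo ∧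
      (2 * (pTo : ℤ) - nTo) + (2 * (pTe : ℤ) - nTe) + (K : ℤ) * (1 - 2 * (ok : ℤ)) = 0 ∧
      (2 * (2 * (pSo : ℤ) - nSo) + (2 * (pTo : ℤ) - nTo) - (2 * (pTe : ℤ) - nTe) +
        (1 - 2 * (ol : ℤ)) + (1 - (K : ℤ)) * (1 - 2 * (ok : ℤ)) = 2 ∨
       2 * (2 * (pSo : ℤ) - nSo) + (2 * (pTo : ℤ) - nTo) - (2 * (pTe : ℤ) - nTe) +
        (1 - 2 * (ol : ℤ)) + (1 - (K : ℤ)) * (1 - 2 * (ok : ℤ)) = -2) := by
  -- the values of the sums
  obtain ⟨s1, s2, s3, e1, e2, e3, p1, p2, p3, b1, b2, b3⟩ : ∃ s1 s2 s3 : ℤ,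
      s1 + s2 + (K : ℤ) * (1 - 2 * (ok : ℤ)) = 0 ∧
      (2 * s3 + s1 - s2 + (1 - 2 * (ol : ℤ)) + (1 - (K : ℤ)) * (1 - 2 * (ok : ℤ)) = 2 ∨
        2 * s3 + s1 - s2 + (1 - 2 * (ol : ℤ)) + (1 - (K : ℤ)) * (1 - 2 * (ok : ℤ)) = -2) ∧
      True ∧ (s1 - nTo) % 2 = 0 ∧ (s2 - nTe) % 2 = 0 ∧ (s3 - nSo) % 2 = 0 ∧
      (-(nTo : ℤ) ≤ s1 ∧ s1 ≤ nTo) ∧ (-(nTe : ℤ) ≤ s2 ∧ s2 ≤ nTe) ∧
      (-(nSo : ℤ) ≤ s3 ∧ s3 ≤ nSo) := by
    rcases Nat.mod_two_eq_zero_or_one nTo with a1 | a1 <;>
    rcases Nat.mod_two_eq_zero_or_one nSo with a3 | a3 <;>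
    interval_cases ol <;> interval_cases ok <;> interval_cases K <;>
    first
      | (exfalso; omega)
      | exact ⟨0, 0, 0, by omega, by omega, trivial, by omega, by omega, by omega, by omega, by omega,
          by omega⟩
      | exact ⟨0, 0, 1, by omega, by omega, trivial, by omega, by omega, by omega, by omega, by omega,
          by omega⟩
      | exact ⟨1, -1, 0, by omega, by omega, trivial, by omega, by omega, by omega, by omega, by omega,
          by omega⟩
      | exact ⟨1, -1, 1, by omega, by omega, trivial, by omega, by omega, by omega, by omega, by omega,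
          by omega⟩
      | exact ⟨1, -1, -1, by omega, by omega, trivial, by omega, by omega, by omega, by omega, by omega,
          by omega⟩
      | exact ⟨1, 0, 0, by omega, by omega, trivial, by omega, by omega, by omega, by omega, by omega,
          by omega⟩
      | exact ⟨-1, 0, 0, by omega, by omega, trivial, by omega, by omega, by omega, by omega, by omega,
          by omega⟩
      | exact ⟨1, 0, 1, by omega, by omega, trivial, by omega, by omega, by omega, by omega, by omega,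
          by omega⟩
      | exact ⟨-1, 0, 1, by omega, by omega, trivial, by omega, by omega, by omega, by omega, by omega,
          by omega⟩
      | exact ⟨0, 1, 0, by omega, by omega, trivial, by omega, by omega, by omega, by omega, by omega,
          by omega⟩
      | exact ⟨0, -1, 0, by omega, by omega, trivial, by omega, by omega, by omega, by omega, by omega,
          by omega⟩
      | exact ⟨0, 1, 1, by omega, by omega, trivial, by omega, by omega, by omega, by omega, by omega,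
          by omega⟩
      | exact ⟨0, -1, 1, by omega, by omega, trivial, by omega, by omega, by omega, by omega, by omega,
          by omega⟩
  refine ⟨((nTo + s1) / 2).toNat, ((nTe + s2) / 2).toNat, ((nSo + s3) / 2).toNat, by omega,
    by omega, by omega, ?_, ?_⟩
  · have f1 : 2 * ((((nTo : ℤ) + s1) / 2).toNat : ℤ) - nTo = s1 := by omega
    have f2 : 2 * ((((nTe : ℤ) + s2) / 2).toNat : ℤ) - nTe = s2 := by omega
    rw [f1, f2]
    exact e1
  · have f1 : 2 * ((((nTo : ℤ) + s1) / 2).toNat : ℤ) - nTo = s1 := by omega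
    have f2 : 2 * ((((nTe : ℤ) + s2) / 2).toNat : ℤ) - nTe = s2 := by omega
    have f3 : 2 * ((((nSo : ℤ) + s3) / 2).toNat : ℤ) - nSo = s3 := by omega
    rw [f1, f2, f3]
    exact e2

theorem exists_signsU {W : Type*} [Fintype W] (Q : Pres W) (hq4 : Q.p % 4 = 2) (a l : ℕ)
    (ha4 : 4 ≤ a) (haq : (a : ℤ) ≤ Q.p - 2) (hae : Even a)
    (ha : Q.M (Q.x 0) = Q.x ((a : ℤ) - 1)) (hl1 : 1 ≤ l) (hl2 : l + 2 ≤ a)
    (hl : Q.M (Q.x a) = Q.x l)
    (hin : ∀ i j : ℕ, a < i → (i : ℤ) < Q.p - 1 → a < j → (j : ℤ) < Q.p - 1 →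
      Q.M (Q.x i) = Q.x j → Even (i + j)) :
    ∃ r : W → Prop, (∀ h, r (Q.M h) ↔ ¬ r h) ∧ r (Q.x 0) ∧ ¬ r (Q.x (-1)) ∧ r (Q.x a) ∧
      ∑ y ∈ Ico (a + 1) (Q.p - 1).toNat, dir Q r y = 0 ∧
      (∑ y ∈ Ico 1 (a - 1), dir Q r y = 2 ∨ ∑ y ∈ Ico 1 (a - 1), dir Q r y = -2) := by
  have hp := Q.p_ge
  obtain ⟨q, hq⟩ : ∃ q : ℕ, (q : ℤ) = Q.p := ⟨Q.p.toNat, by omega⟩
  obtain ⟨e, he⟩ := Q.exists_equiv q hq
  obtain ⟨pos, hpos⟩ : ∃ pos : W → ℕ, pos = fun h => (e.symm h : ℕ) := ⟨_, rfl⟩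
  have pos_lt : ∀ h, pos h < q := by
    intro h
    rw [hpos]
    exact (e.symm h).2
  have x_pos : ∀ h, Q.x (pos h) = h := by
    intro h
    rw [hpos, ← he, e.apply_symm_apply]
  have pos_x : ∀ y : ℕ, y < q → pos (Q.x y) = y := by
    intro y hy
    have h1 : Q.x y = e ⟨y, hy⟩ := (he ⟨y, hy⟩).symm
    rw [hpos, h1]
    simp only [e.symm_apply_apply]
  have pos_inj : ∀ h h', pos h = pos h' → h = h' := by
    intro h h' hh
    rw [← x_pos h, hh, x_pos]
  have hxpar : ∀ z : ℤ, (Q.par (Q.x z) ↔ Odd z) := Q.par_x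
  have par_pos : ∀ h, (Q.par h ↔ Odd (pos h)) := by
    intro h
    conv_lhs => rw [← x_pos h]
    rw [hxpar]
    exact_mod_cast Iff.rfl
  have hxm : Q.x (-1) = Q.x ((q - 1 : ℕ) : ℤ) := by
    rw [← Q.per (-1)]
    congr 1
    omega
  have haN : Q.M (Q.x ((0 : ℕ) : ℤ)) = Q.x ((a - 1 : ℕ) : ℤ) := by
    have : ((a - 1 : ℕ) : ℤ) = (a : ℤ) - 1 := by omega
    rw [this]
    exact_mod_cast ha
  -- positions of the special vertices
  have p0 : pos (Q.x 0) = 0 := by
    have := pos_x 0 (by omega)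
    exact_mod_cast this
  have pa1 : pos (Q.M (Q.x 0)) = a - 1 := by
    have h1 := pos_x (a - 1) (by omega)
    rw [← haN] at h1
    exact_mod_cast h1
  have pa : pos (Q.x a) = a := pos_x a (by omega)
  have pl : pos (Q.x l) = l := pos_x l (by omega)
  have pm : pos (Q.x (-1)) = q - 1 := by
    rw [hxm]
    exact pos_x (q - 1) (by omega)
  have hMl : Q.M (Q.x l) = Q.x a := by rw [← hl, Q.M_M]
  obtain ⟨k, hk⟩ : ∃ k, k = Q.M (Q.x (-1)) := ⟨_, rfl⟩
  have hMk : Q.M k = Q.x (-1) := by rw [hk, Q.M_M]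
  obtain ⟨A1, hA1⟩ : ∃ A1 : W → Prop, A1 = fun h => 1 ≤ pos h ∧ pos h < a - 1 := ⟨_, rfl⟩
  obtain ⟨A2, hA2⟩ : ∃ A2 : W → Prop, A2 = fun h => a + 1 ≤ pos h ∧ pos h < q - 1 := ⟨_, rfl⟩
  have mA1 : ∀ h, A1 h ↔ (1 ≤ pos h ∧ pos h < a - 1) := by
    intro h
    rw [hA1]
  have mA2 : ∀ h, A2 h ↔ (a + 1 ≤ pos h ∧ pos h < q - 1) := by
    intro h
    rw [hA2]
  have A12 : ∀ h, A1 h → ¬ A2 h := by
    intro h h1 h2
    rw [mA1] at h1
    rw [mA2] at h2
    omega
  have notspec : ∀ h, h ≠ Q.x 0 → h ≠ Q.M (Q.x 0) → h ≠ Q.x a → h ≠ Q.x (-1) → A1 h ∨ A2 h := by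
    intro h h1 h2 h3 h4
    have g1 : pos h ≠ 0 := fun hh => h1 (pos_inj _ _ (by rw [hh, p0]))
    have g2 : pos h ≠ a - 1 := fun hh => h2 (pos_inj _ _ (by rw [hh, pa1]))
    have g3 : pos h ≠ a := fun hh => h3 (pos_inj _ _ (by rw [hh, pa]))
    have g4 : pos h ≠ q - 1 := fun hh => h4 (pos_inj _ _ (by rw [hh, pm]))
    have g5 := pos_lt h
    rw [mA1, mA2]
    omega
  have spec0 : ¬ A1 (Q.x 0) ∧ ¬ A2 (Q.x 0) := by
    rw [mA1, mA2, p0]
    omega
  have spec1 : ¬ A1 (Q.M (Q.x 0)) ∧ ¬ A2 (Q.M (Q.x 0)) := by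
    rw [mA1, mA2, pa1]
    omega
  have speca : ¬ A1 (Q.x a) ∧ ¬ A2 (Q.x a) := by
    rw [mA1, mA2, pa]
    omega
  have specm : ¬ A1 (Q.x (-1)) ∧ ¬ A2 (Q.x (-1)) := by
    rw [mA1, mA2, pm]
    omega
  have lA1 : A1 (Q.x l) := by
    rw [mA1, pl]
    omega
  have kA : A1 k ∨ A2 k := by
    apply notspec
    · intro h
      have h1 := hMk
      rw [h] at h1
      have h2 := congrArg pos h1
      rw [pa1, pm] at h2
      omega
    · intro h
      have h1 := hMk
      rw [h, Q.M_M] at h1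
      have h2 := congrArg pos h1
      rw [p0, pm] at h2
      omega
    · intro h
      have h1 := hMk
      rw [h, hl] at h1
      have h2 := congrArg pos h1
      rw [pl, pm] at h2
      omega
    · intro h
      rw [hk] at h
      exact Q.M_ne _ h
  have kl : k ≠ Q.x l := by
    intro h
    have h1 := hMk
    rw [h, hMl] at h1
    have h2 := congrArg pos h1
    rw [pa, pm] at h2
    omega
  -- the representatives
  obtain ⟨R, hR⟩ : ∃ R : W → Prop, R = fun h => pos (Q.M h) < pos h := ⟨_, rfl⟩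
  have mR : ∀ h, R h ↔ pos (Q.M h) < pos h := by
    intro h
    rw [hR]
  have RM : ∀ h, R (Q.M h) ↔ ¬ R h := by
    intro h
    rw [mR, mR, Q.M_M]
    have h1 : pos (Q.M h) ≠ pos h := fun hh => Q.M_ne h (pos_inj _ _ hh)
    omega
  -- odd chords
  obtain ⟨od, hod⟩ : ∃ od : W → Prop, od = fun h => ¬ (Q.par h ↔ Q.par (Q.M h)) := ⟨_, rfl⟩
  have mod' : ∀ h, od h ↔ ¬ (Q.par h ↔ Q.par (Q.M h)) := by
    intro h
    rw [hod]
  have odM : ∀ h, od (Q.M h) ↔ od h := by
    intro h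
    rw [mod', mod', Q.M_M]
    tauto
  have od0 : od (Q.x 0) := by
    rw [mod', par_pos, par_pos, p0, pa1]
    intro h
    have h1 : Odd (a - 1) := by
      obtain ⟨b, hb⟩ := hae
      exact ⟨b - 1, by omega⟩
    exact absurd (h.2 h1) (by decide)
  have odA2 : ∀ h, A2 h → A2 (Q.M h) → ¬ od h := by
    intro h h1 h2 h3
    rw [mA2] at h1 h2
    have h4 := hin (pos h) (pos (Q.M h)) (by omega) (by omega) (by omega) (by omega)
      (by rw [x_pos, x_pos])
    rw [mod', par_pos, par_pos] at h3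
    apply h3
    rw [Nat.even_add] at h4
    rw [← Nat.not_even_iff_odd, ← Nat.not_even_iff_odd, h4]
  -- sums over intervals
  have F : ∀ (lo hi : ℕ), hi ≤ q → ∀ g : W → ℤ, ∑ y ∈ Ico lo hi, g (Q.x y) =
      ∑ h, if lo ≤ pos h ∧ pos h < hi then g h else 0 := by
    intro lo hi hhi g
    rw [Q.sum_eq q hq, ← sum_filter]
    refine sum_congr ?_ fun y _ => rfl
    ext y
    rw [mem_filter, mem_range, mem_Ico]
    constructor
    · intro h
      have hy : y < q := by omega
      rw [pos_x y hy]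
      exact ⟨hy, h⟩
    · rintro ⟨hy, h⟩
      rwa [pos_x y hy] at h
  have F1 : ∀ g : W → ℤ, ∑ y ∈ Ico 1 (a - 1), g (Q.x y) = ∑ h, if A1 h then g h else 0 := by
    intro g
    rw [F 1 (a - 1) (by omega) g]
    refine sum_congr rfl fun h _ => ?_
    simp only [mA1]
  have F2 : ∀ g : W → ℤ, ∑ y ∈ Ico (a + 1) (q - 1), g (Q.x y) = ∑ h, if A2 h then g h else 0 := by
    intro g
    rw [F (a + 1) (q - 1) (by omega) g]
    refine sum_congr rfl fun h _ => ?_
    simp only [mA2]
  have G1 : ∀ g : W → ℤ, ∑ h, g h = (∑ h, if A1 h then g h else 0) +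
      (∑ h, if A2 h then g h else 0) + g (Q.x 0) + g (Q.M (Q.x 0)) + g (Q.x a) +
      g (Q.x (-1)) := by
    intro g
    rw [← F1, ← F2, Q.sum_eq q hq g, range_eq_Ico,
      ← sum_Ico_consecutive _ (Nat.zero_le 1) (by omega : 1 ≤ q),
      ← sum_Ico_consecutive _ (by omega : 1 ≤ a - 1) (by omega : a - 1 ≤ q),
      ← sum_Ico_consecutive _ (by omega : a - 1 ≤ a + 1) (by omega : a + 1 ≤ q),
      ← sum_Ico_consecutive _ (by omega : a + 1 ≤ q - 1) (by omega : q - 1 ≤ q)]
    have s0 : ∑ y ∈ Ico 0 1, g (Q.x ((y : ℕ) : ℤ)) = g (Q.x 0) := by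
      simp
    have s1 : ∑ y ∈ Ico (a - 1) (a + 1), g (Q.x ((y : ℕ) : ℤ)) = g (Q.M (Q.x 0)) + g (Q.x a) := by
      rw [sum_Ico_succ_top (by omega), show a = (a - 1) + 1 by omega, sum_Ico_succ_top (by omega)]
      simp only [Nat.add_sub_cancel, Ico_self, sum_empty, zero_add]
      rw [show a - 1 + 1 = a by omega]
      have h1 : Q.M (Q.x 0) = Q.x ((a - 1 : ℕ) : ℤ) := by exact_mod_cast haN
      rw [h1]
    have s2 : ∑ y ∈ Ico (q - 1) q, g (Q.x ((y : ℕ) : ℤ)) = g (Q.x (-1)) := by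
      rw [hxm]
      conv_lhs => rw [show q = (q - 1) + 1 by omega]
      simp
    rw [s0, s1, s2]
    ring
  have G2 : ∀ g : W → ℤ, (∑ h, if A1 h then g h else 0) =
      (∑ h, if A1 h ∧ A1 (Q.M h) then g h else 0) + (∑ h, if A1 h ∧ A2 (Q.M h) then g h else 0) +
      g (Q.x l) + (if A1 k then g k else 0) := by
    intro g
    have e1 : g (Q.x l) = ∑ h, if h = Q.x l then g h else 0 := by
      rw [sum_ite_eq']
      simp
    have e2 : (if A1 k then g k else 0) = ∑ h, if h = k then (if A1 h then g h else 0) else 0 := by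
      rw [sum_ite_eq']
      simp
    rw [e1, e2, ← sum_add_distrib, ← sum_add_distrib, ← sum_add_distrib]
    refine sum_congr rfl fun h _ => ?_
    by_cases h1 : A1 h
    · by_cases h2 : h = Q.x l
      · subst h2
        rw [hMl]
        simp [h1, speca.1, speca.2, kl.symm]
      · by_cases h3 : h = k
        · subst h3
          rw [hMk]
          simp [h1, specm.1, specm.2, kl]
        · have h4 : A1 (Q.M h) ∨ A2 (Q.M h) := by
            apply notspec
            · intro h5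
              have h6 := congrArg Q.M h5
              rw [Q.M_M] at h6
              rw [h6] at h1
              exact spec1.1 h1
            · intro h5
              have h6 := congrArg Q.M h5
              rw [Q.M_M, Q.M_M] at h6
              rw [h6] at h1
              exact spec0.1 h1
            · intro h5
              have h6 := congrArg Q.M h5
              rw [Q.M_M, hl] at h6
              exact h2 h6
            · intro h5
              have h6 := congrArg Q.M h5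
              rw [Q.M_M, ← hk] at h6
              exact h3 h6
          rcases h4 with h4 | h4
          · simp [h1, h2, h3, h4, A12 _ h4]
          · have h5 : ¬ A1 (Q.M h) := fun h5 => A12 _ h5 h4
            simp [h1, h2, h3, h4, h5]
    · by_cases h2 : h = Q.x l
      · exact absurd lA1 (h2 ▸ h1)
      · simp [h1, h2]
  have G3 : ∀ g : W → ℤ, (∑ h, if A2 h then g h else 0) =
      (∑ h, if A2 h ∧ A2 (Q.M h) then g h else 0) + (∑ h, if A2 h ∧ A1 (Q.M h) then g h else 0) +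
      (if A2 k then g k else 0) := by
    intro g
    have e2 : (if A2 k then g k else 0) = ∑ h, if h = k then (if A2 h then g h else 0) else 0 := by
      rw [sum_ite_eq']
      simp
    rw [e2, ← sum_add_distrib, ← sum_add_distrib]
    refine sum_congr rfl fun h _ => ?_
    by_cases h1 : A2 h
    · by_cases h3 : h = k
      · subst h3
        rw [hMk]
        simp [h1, specm.1, specm.2]
      · have h4 : A1 (Q.M h) ∨ A2 (Q.M h) := by
          apply notspec
          · intro h5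
            have h6 := congrArg Q.M h5
            rw [Q.M_M] at h6
            rw [h6] at h1
            exact spec1.2 h1
          · intro h5
            have h6 := congrArg Q.M h5
            rw [Q.M_M, Q.M_M] at h6
            rw [h6] at h1
            exact spec0.2 h1
          · intro h5
            have h6 := congrArg Q.M h5
            rw [Q.M_M, hl] at h6
            rw [h6] at h1
            exact A12 _ lA1 h1
          · intro h5
            have h6 := congrArg Q.M h5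
            rw [Q.M_M, ← hk] at h6
            exact h3 h6
        rcases h4 with h4 | h4
        · simp [h1, h3, h4, A12 _ h4]
        · have h5 : ¬ A1 (Q.M h) := fun h5 => A12 _ h5 h4
          simp [h1, h3, h4, h5]
    · simp [h1]
  -- the involution
  have inv : ∀ g : W → ℤ, ∑ h, g (Q.M h) = ∑ h, g h := by
    intro g
    refine sum_nbij' Q.M Q.M ?_ ?_ ?_ ?_ ?_
    · intro h _
      exact mem_univ _
    · intro h _
      exact mem_univ _
    · intro h _
      exact Q.M_M h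
    · intro h _
      exact Q.M_M h
    · intro h _
      rfl
  have fold : ∀ g : W → ℤ, (∀ h, g (Q.M h) = g h) → ∑ h, g h = 2 * ∑ h, if R h then g h else 0 := by
    intro g hg
    have e1 : ∑ h, g h = (∑ h, if R h then g h else 0) + ∑ h, if R (Q.M h) then g (Q.M h) else 0 := by
      rw [← sum_add_distrib]
      refine sum_congr rfl fun h _ => ?_
      rw [RM, hg]
      by_cases h1 : R h <;> simp [h1]
    rw [e1, inv (fun h => if R h then g h else 0)]
    ring
  have anti : ∀ g : W → ℤ, (∀ h, g (Q.M h) = - g h) → ∑ h, g h = 0 := by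
    intro g hg
    have e1 := inv g
    have e2 : ∑ h, g (Q.M h) = - ∑ h, g h := by
      rw [← sum_neg_distrib]
      exact sum_congr rfl fun h _ => hg h
    omega
  -- the sets of chords
  obtain ⟨TO, hTO⟩ : ∃ TO : Finset W, TO = univ.filter (fun h => (A2 h ∧ A1 (Q.M h)) ∧ od h) :=
    ⟨_, rfl⟩
  obtain ⟨TE, hTE⟩ : ∃ TE : Finset W, TE = univ.filter (fun h => (A2 h ∧ A1 (Q.M h)) ∧ ¬ od h) :=
    ⟨_, rfl⟩
  obtain ⟨SO, hSO⟩ : ∃ SO : Finset W,
    SO = univ.filter (fun h => R h ∧ ((A1 h ∧ A1 (Q.M h)) ∧ od h)) := ⟨_, rfl⟩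
  have mTO : ∀ h, h ∈ TO ↔ (A2 h ∧ A1 (Q.M h)) ∧ od h := by
    intro h
    rw [hTO, mem_filter]
    exact ⟨fun h => h.2, fun h => ⟨mem_univ _, h⟩⟩
  have mTE : ∀ h, h ∈ TE ↔ (A2 h ∧ A1 (Q.M h)) ∧ ¬ od h := by
    intro h
    rw [hTE, mem_filter]
    exact ⟨fun h => h.2, fun h => ⟨mem_univ _, h⟩⟩
  have mSO : ∀ h, h ∈ SO ↔ R h ∧ ((A1 h ∧ A1 (Q.M h)) ∧ od h) := by
    intro h
    rw [hSO, mem_filter]
    exact ⟨fun h => h.2, fun h => ⟨mem_univ _, h⟩⟩
  have S21 : ∀ g : W → ℤ, (∑ h, if A2 h ∧ A1 (Q.M h) then g h else 0) =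
      ∑ h ∈ TO, g h + ∑ h ∈ TE, g h := by
    intro g
    rw [hTO, hTE, sum_filter, sum_filter, ← sum_add_distrib]
    refine sum_congr rfl fun h _ => ?_
    by_cases h1 : A2 h ∧ A1 (Q.M h) <;> by_cases h2 : od h <;> simp [h1, h2]
  have S12 : ∀ g : W → ℤ, (∑ h, if A1 h ∧ A2 (Q.M h) then g h else 0) =
      ∑ h ∈ TO, g (Q.M h) + ∑ h ∈ TE, g (Q.M h) := by
    intro g
    rw [← S21 (fun h => g (Q.M h)), ← inv (fun h => if A1 h ∧ A2 (Q.M h) then g h else 0)]
    refine sum_congr rfl fun h _ => ?_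
    rw [Q.M_M]
    by_cases h1 : A2 h <;> by_cases h2 : A1 (Q.M h) <;> simp [h1, h2]
  -- the parity relations
  have kK : (if A2 k then (1 : ℕ) else 0) ≤ 1 := by split_ifs <;> omega
  have rel1 : (#TO + #TE + (if A2 k then 1 else 0)) % 2 = 0 := by
    have h1 := F2 (fun _ => 1)
    rw [G3, S21] at h1
    have h2 := fold (fun h => if A2 h ∧ A2 (Q.M h) then 1 else 0) (by
      intro h
      rw [Q.M_M]
      by_cases h1 : A2 h <;> by_cases h2 : A2 (Q.M h) <;> simp [h1, h2])
    rw [h2] at h1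
    simp only [sum_const, nsmul_eq_mul, mul_one, Nat.card_Ico] at h1
    obtain ⟨b, hb⟩ := hae
    have hk2 : ((if A2 k then (1 : ℕ) else 0 : ℕ) : ℤ) = if A2 k then (1 : ℤ) else 0 := by
      split_ifs <;> simp
    rw [← hk2] at h1
    generalize (∑ h, if R h then (if A2 h ∧ A2 (Q.M h) then (1 : ℤ) else 0) else 0) = z at h1
    omega
  have rel2 : (#SO + #TO + (if od (Q.x l) then 1 else 0) + (if od k then 1 else 0)) % 2 = 0 := by
    have h1 : ∑ h, (if od h then (1 : ℤ) else 0) = 2 * #Q.O0 := by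
      have h2 := Q.card_opp
      have h3 : ∑ h, (if od h then (1 : ℤ) else 0) =
          (#(univ.filter (fun h => ¬ (Q.par h ↔ Q.par (Q.M h)))) : ℤ) := by
        rw [card_filter]
        push_cast
        refine sum_congr rfl fun h _ => ?_
        simp only [mod']
      rw [h3, h2]
      push_cast
      ring
    have h2 : ¬ Even (#Q.O0 : ℤ) := by
      rw [Q.parity_O0 (Q.p / 2) (by omega), Int.even_iff]
      omega
    rw [G1, G2, G3, S12, S21] at h1
    have e0 : (∑ h, if A2 h ∧ A2 (Q.M h) then (if od h then (1 : ℤ) else 0) else 0) = 0 := by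
      refine sum_eq_zero fun h _ => ?_
      by_cases h3 : A2 h ∧ A2 (Q.M h)
      · rw [if_pos h3, if_neg (odA2 h h3.1 h3.2)]
      · rw [if_neg h3]
    have e1 : (∑ h, if A1 h ∧ A1 (Q.M h) then (if od h then (1 : ℤ) else 0) else 0) = 2 * #SO := by
      rw [fold]
      · rw [hSO, card_filter]
        push_cast
        congr 1
        refine sum_congr rfl fun h _ => ?_
        by_cases h3 : R h <;> by_cases h4 : A1 h ∧ A1 (Q.M h) <;> by_cases h5 : od h <;>
          simp [h3, h4, h5]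
      · intro h
        rw [Q.M_M]
        by_cases h3 : A1 h <;> by_cases h4 : A1 (Q.M h) <;> simp [h3, h4, odM]
    have e2 : ∑ h ∈ TO, (if od h then (1 : ℤ) else 0) = #TO := by
      rw [sum_congr rfl (g := fun _ => (1 : ℤ)) (fun h hh => if_pos ((mTO h).1 hh).2), sum_const,
        nsmul_one]
    have e2' : ∑ h ∈ TO, (if od (Q.M h) then (1 : ℤ) else 0) = #TO := by
      rw [sum_congr rfl (g := fun _ => (1 : ℤ))
        (fun h hh => if_pos ((odM h).2 ((mTO h).1 hh).2)), sum_const, nsmul_one]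
    have e3 : ∑ h ∈ TE, (if od h then (1 : ℤ) else 0) = 0 :=
      sum_eq_zero fun h hh => if_neg ((mTE h).1 hh).2
    have e3' : ∑ h ∈ TE, (if od (Q.M h) then (1 : ℤ) else 0) = 0 :=
      sum_eq_zero fun h hh => if_neg (fun h4 => ((mTE h).1 hh).2 ((odM h).1 h4))
    have o1 : (if od (Q.M (Q.x 0)) then (1 : ℤ) else 0) = 1 := if_pos ((odM _).2 od0)
    have o0 : (if od (Q.x 0) then (1 : ℤ) else 0) = 1 := if_pos od0
    have oa : (if od (Q.x a) then (1 : ℤ) else 0) = if od (Q.x l) then (1 : ℤ) else 0 := by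
      rw [← hMl]
      simp only [odM]
    have om : (if od (Q.x (-1)) then (1 : ℤ) else 0) = if od k then (1 : ℤ) else 0 := by
      rw [← hMk]
      simp only [odM]
    rw [e0, e1, e2, e2', e3, e3', o1, o0, oa, om] at h1
    have hol2 : ((if od (Q.x l) then (1 : ℕ) else 0 : ℕ) : ℤ) =
        if od (Q.x l) then (1 : ℤ) else 0 := by
      split_ifs <;> simp
    have hok2 : ((if od k then (1 : ℕ) else 0 : ℕ) : ℤ) = if od k then (1 : ℤ) else 0 := by
      split_ifs <;> simp
    have hkk : (if A1 k then (if od k then (1 : ℤ) else 0) else 0) +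
        (if A2 k then (if od k then (1 : ℤ) else 0) else 0) = if od k then (1 : ℤ) else 0 := by
      rcases kA with h3 | h3
      · rw [if_pos h3, if_neg (A12 _ h3), add_zero]
      · rw [if_pos h3, if_neg (fun h4 => A12 _ h4 h3), zero_add]
    rw [Int.even_iff] at h2
    rw [← hol2, ← hok2] at h1
    rw [← hok2] at hkk
    omega
  -- the positive chords
  obtain ⟨pTo, pTe, pSo, b1, b2, b3, sum0, sumD⟩ := selectU #TO #TE #SO
    (if od (Q.x l) then 1 else 0) (if od k then 1 else 0) (if A2 k then 1 else 0)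
    (by split_ifs <;> omega) (by split_ifs <;> omega) kK rel1 rel2
  obtain ⟨PTo, cTo, dTo⟩ := exists_subset_card_eq b1
  obtain ⟨PTe, cTe, dTe⟩ := exists_subset_card_eq b2
  obtain ⟨PSo, cSo, dSo⟩ := exists_subset_card_eq b3
  obtain ⟨P, hP⟩ : ∃ P : W → Prop, P = fun h => h ∈ PTo ∨ h ∈ PTe ∨ h ∈ PSo := ⟨_, rfl⟩
  have dTT : ∀ h, h ∈ TO → h ∉ TE := by
    intro h h1 h2
    rw [mTO] at h1
    rw [mTE] at h2
    exact h2.2 h1.2
  have dTS : ∀ h, h ∈ TO → h ∉ SO := by
    intro h h1 h2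
    rw [mTO] at h1
    rw [mSO] at h2
    exact A12 _ h2.2.1.1 h1.1.1
  have dES : ∀ h, h ∈ TE → h ∉ SO := by
    intro h h1 h2
    rw [mTE] at h1
    rw [mSO] at h2
    exact A12 _ h2.2.1.1 h1.1.1
  have P_TO : ∀ h ∈ TO, (P h ↔ h ∈ PTo) := by
    intro h hh
    rw [hP]
    constructor
    · rintro (h1 | h1 | h1)
      · exact h1
      · exact absurd (cTe h1) (dTT h hh)
      · exact absurd (cSo h1) (dTS h hh)
    · exact Or.inl
  have P_TE : ∀ h ∈ TE, (P h ↔ h ∈ PTe) := by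
    intro h hh
    rw [hP]
    constructor
    · rintro (h1 | h1 | h1)
      · exact absurd hh (dTT h (cTo h1))
      · exact h1
      · exact absurd (cSo h1) (dES h hh)
    · exact fun h1 => Or.inr (Or.inl h1)
  have P_SO : ∀ h ∈ SO, (P h ↔ h ∈ PSo) := by
    intro h hh
    rw [hP]
    constructor
    · rintro (h1 | h1 | h1)
      · exact absurd hh (dTS h (cTo h1))
      · exact absurd hh (dES h (cTe h1))
      · exact h1
    · exact fun h1 => Or.inr (Or.inr h1)
  have P_no : ∀ h, ¬ A1 h → ¬ A2 h → ¬ P h := by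
    intro h h1 h2 h3
    rw [hP] at h3
    rcases h3 with h3 | h3 | h3
    · exact h2 ((mTO h).1 (cTo h3)).1.1
    · exact h2 ((mTE h).1 (cTe h3)).1.1
    · exact h1 ((mSO h).1 (cSo h3)).2.1.1
  have sum_sub : ∀ (X Y : Finset W), Y ⊆ X → (∀ h ∈ X, (P h ↔ h ∈ Y)) →
      ∑ h ∈ X, (if P h then (1 : ℤ) else -1) = 2 * (#Y : ℤ) - #X := by
    intro X Y hYX hXY
    have h1 : ∀ h ∈ X, (if P h then (1 : ℤ) else -1) = 2 * (if h ∈ Y then 1 else 0) - 1 := by
      intro h hh
      by_cases h2 : h ∈ Y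
      · rw [if_pos ((hXY h hh).2 h2), if_pos h2]
        norm_num
      · rw [if_neg (fun h3 => h2 ((hXY h hh).1 h3)), if_neg h2]
        norm_num
    rw [sum_congr rfl h1, sum_sub_distrib, ← mul_sum, sum_ite_mem, inter_eq_right.2 hYX]
    simp
  have sTO := sum_sub TO PTo cTo P_TO
  have sTE := sum_sub TE PTe cTe P_TE
  have sSO := sum_sub SO PSo cSo P_SO
  rw [dTo] at sTO
  rw [dTe] at sTE
  rw [dSo] at sSO
  -- the directions
  obtain ⟨ε, hε⟩ : ∃ ε : W → ℤ, ε = fun h => if P h then 1 else -1 := ⟨_, rfl⟩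
  obtain ⟨d, hd⟩ : ∃ d : W → ℤ, d = fun h => if R h then ε h else
    (if od h then ε (Q.M h) else - ε (Q.M h)) := ⟨_, rfl⟩
  have ε1 : ∀ h, ε h = 1 ∨ ε h = -1 := by
    intro h
    rw [hε]
    by_cases h1 : P h <;> simp [h1]
  have d1 : ∀ h, d h = 1 ∨ d h = -1 := by
    intro h
    have h1 := ε1 h
    have h2 := ε1 (Q.M h)
    rw [hd]
    simp only
    split_ifs <;> omega
  have dR : ∀ h, R h → d h = ε h := by
    intro h h1
    rw [hd]
    simp [h1]
  have dMo : ∀ h, od h → d (Q.M h) = d h := by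
    intro h h1
    rw [hd]
    simp only [RM, Q.M_M]
    by_cases h2 : R h <;> simp [h2, h1, odM]
  have dMe : ∀ h, ¬ od h → d (Q.M h) = - d h := by
    intro h h1
    rw [hd]
    simp only [RM, Q.M_M]
    by_cases h2 : R h <;> simp [h2, h1, odM]
  obtain ⟨r, hr⟩ : ∃ r : W → Prop, r = fun h => (d h = 1 ↔ Q.par h) := ⟨_, rfl⟩
  have mr : ∀ h, r h ↔ (d h = 1 ↔ Q.par h) := by
    intro h
    rw [hr]
  have hrM : ∀ h, r (Q.M h) ↔ ¬ r h := by
    intro h
    rw [mr, mr]
    by_cases h1 : od h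
    · rw [dMo h h1]
      rw [mod'] at h1
      tauto
    · rw [dMe h h1]
      rw [mod', not_not] at h1
      rw [← h1]
      have h2 : (-d h = 1 ↔ ¬ d h = 1) := by
        have := d1 h
        omega
      rw [h2]
      tauto
  have hdir : ∀ y : ℤ, dir Q r y = d (Q.x y) := by
    intro y
    have key : (r (Q.x y) ↔ Odd y) ↔ d (Q.x y) = 1 := by
      rw [← hxpar y, mr]
      tauto
    unfold dir
    rcases d1 (Q.x y) with h1 | h1
    · rw [if_pos (key.2 h1), h1]
    · rw [if_neg (fun h2 => by rw [key.1 h2] at h1; omega), h1]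
  -- the special vertices
  have Ra : R (Q.x a) := by
    rw [mR, hl, pl, pa]
    omega
  have R1 : R (Q.M (Q.x 0)) := by
    rw [mR, Q.M_M, p0, pa1]
    omega
  have Rm : R (Q.x (-1)) := by
    rw [mR, ← hk, pm]
    have h1 : pos k ≠ q - 1 := by
      intro h
      apply Q.M_ne (Q.x (-1))
      rw [← hk]
      exact pos_inj _ _ (by rw [h, pm])
    have h2 := pos_lt k
    omega
  have da : d (Q.x a) = -1 := by
    rw [dR _ Ra, hε]
    simp [P_no _ speca.1 speca.2]
  have dm : d (Q.x (-1)) = -1 := by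
    rw [dR _ Rm, hε]
    simp [P_no _ specm.1 specm.2]
  have d0 : d (Q.x 0) = -1 := by
    rw [← dMo _ od0, dR _ R1, hε]
    simp [P_no _ spec1.1 spec1.2]
  have dl : d (Q.x l) = 1 - 2 * ((if od (Q.x l) then 1 else 0 : ℕ) : ℤ) := by
    by_cases h1 : od (Q.x l)
    · rw [if_pos h1, ← dMo _ h1, hMl, da]
      norm_num
    · have h2 := dMe _ h1
      rw [hMl, da] at h2
      rw [if_neg h1]
      push_cast
      linarith
  have dk : d k = 1 - 2 * ((if od k then 1 else 0 : ℕ) : ℤ) := by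
    by_cases h1 : od k
    · rw [if_pos h1, ← dMo _ h1, hMk, dm]
      norm_num
    · have h2 := dMe _ h1
      rw [hMk, dm] at h2
      rw [if_neg h1]
      push_cast
      linarith
  have tTO : ∑ h ∈ TO, d h = 2 * (pTo : ℤ) - #TO := by
    rw [← sTO]
    refine sum_congr rfl fun h hh => ?_
    rw [dR, hε]
    have h1 := (mTO h).1 hh
    rw [mR]
    have h2 := (mA2 h).1 h1.1.1
    have h3 := (mA1 _).1 h1.1.2
    omega
  have tTO' : ∑ h ∈ TO, d (Q.M h) = 2 * (pTo : ℤ) - #TO := by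
    rw [← tTO]
    exact sum_congr rfl fun h hh => dMo h ((mTO h).1 hh).2
  have tTE : ∑ h ∈ TE, d h = 2 * (pTe : ℤ) - #TE := by
    rw [← sTE]
    refine sum_congr rfl fun h hh => ?_
    rw [dR, hε]
    have h1 := (mTE h).1 hh
    rw [mR]
    have h2 := (mA2 h).1 h1.1.1
    have h3 := (mA1 _).1 h1.1.2
    omega
  have tTE' : ∑ h ∈ TE, d (Q.M h) = - (2 * (pTe : ℤ) - #TE) := by
    rw [← tTE, ← sum_neg_distrib]
    exact sum_congr rfl fun h hh => dMe h ((mTE h).1 hh).2
  have t22 : (∑ h, if A2 h ∧ A2 (Q.M h) then d h else 0) = 0 := by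
    apply anti
    intro h
    rw [Q.M_M]
    by_cases h1 : A2 h <;> by_cases h2 : A2 (Q.M h)
    · rw [if_pos ⟨h2, h1⟩, if_pos ⟨h1, h2⟩]
      exact dMe h (odA2 h h1 h2)
    · simp [h2]
    · simp [h1]
    · simp [h1]
  have t11 : (∑ h, if A1 h ∧ A1 (Q.M h) then d h else 0) = 2 * (2 * (pSo : ℤ) - #SO) := by
    have e1 : (∑ h, if A1 h ∧ A1 (Q.M h) then d h else 0) =
        (∑ h, if (A1 h ∧ A1 (Q.M h)) ∧ od h then d h else 0) +
        ∑ h, if (A1 h ∧ A1 (Q.M h)) ∧ ¬ od h then d h else 0 := by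
      rw [← sum_add_distrib]
      refine sum_congr rfl fun h _ => ?_
      by_cases h1 : A1 h ∧ A1 (Q.M h) <;> by_cases h2 : od h <;> simp [h1, h2]
    have e2 : (∑ h, if (A1 h ∧ A1 (Q.M h)) ∧ ¬ od h then d h else 0) = 0 := by
      apply anti
      intro h
      simp only [Q.M_M, odM]
      by_cases h3 : od h
      · simp [h3]
      · by_cases h1 : A1 h <;> by_cases h2 : A1 (Q.M h) <;> simp [h1, h2, h3, dMe h h3]
    rw [e1, e2, add_zero, fold]
    · rw [← sSO, hSO, sum_filter]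
      congr 1
      refine sum_congr rfl fun h _ => ?_
      by_cases h1 : R h
      · by_cases h2 : (A1 h ∧ A1 (Q.M h)) ∧ od h
        · rw [if_pos h1, if_pos h2, if_pos ⟨h1, h2⟩, dR h h1, hε]
        · rw [if_pos h1, if_neg h2, if_neg (fun h3 => h2 h3.2)]
      · rw [if_neg h1, if_neg (fun h3 => h1 h3.1)]
    · intro h
      simp only [Q.M_M, odM]
      by_cases h3 : od h
      · by_cases h1 : A1 h <;> by_cases h2 : A1 (Q.M h) <;> simp [h1, h2, h3, dMo h h3]
      · simp [h3]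
  refine ⟨r, hrM, ?_, ?_, ?_, ?_, ?_⟩
  · rw [mr, d0, par_pos, p0]
    decide
  · rw [mr, dm]
    have h1 : Q.par (Q.x (-1)) := by
      rw [hxpar]
      decide
    simp [h1]
  · rw [mr, da]
    have h1 : ¬ Q.par (Q.x a) := by
      rw [par_pos, pa, Nat.not_odd_iff_even]
      exact hae
    simp [h1]
  · have h0 : ∑ y ∈ Ico (a + 1) (q - 1), dir Q r ((y : ℕ) : ℤ) =
        ∑ y ∈ Ico (a + 1) (q - 1), d (Q.x ((y : ℕ) : ℤ)) := sum_congr rfl (fun y _ => hdir y)
    rw [show (Q.p - 1).toNat = q - 1 by omega, h0, F2, G3, t22, S21, tTO, tTE]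
    by_cases h1 : A2 k
    · rw [if_pos h1] at sum0 ⊢
      rw [dk]
      push_cast at sum0 ⊢
      linarith
    · rw [if_neg h1] at sum0 ⊢
      push_cast at sum0 ⊢
      linarith
  · have h0 : ∑ y ∈ Ico 1 (a - 1), dir Q r ((y : ℕ) : ℤ) =
        ∑ y ∈ Ico 1 (a - 1), d (Q.x ((y : ℕ) : ℤ)) := sum_congr rfl (fun y _ => hdir y)
    rw [h0, F1, G2, t11, S12, tTO', tTE', dl]
    have h1 : (if A1 k then d k else 0) = (1 - ((if A2 k then 1 else 0 : ℕ) : ℤ)) *
        (1 - 2 * ((if od k then 1 else 0 : ℕ) : ℤ)) := by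
      rcases kA with h2 | h2
      · rw [if_pos h2, if_neg (A12 _ h2), dk]
        push_cast
        ring
      · rw [if_neg (fun h3 => A12 _ h3 h2), if_pos h2]
        push_cast
        ring
    rw [h1]
    rcases sumD with h2 | h2
    · left
      linarith
    · right
      linarith

end HX67
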