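import Pool.Agent.H93HD.HamConv

/-!
# From three connected classes to the Hamiltonian decomposition of a product of cubic graphs
-/

namespace HX67

open Finset
open scoped Classical

theorem hamDecomp_of_split {V W : Type*} [Fintype V] [Fintype W] [instV : DecidableEq V]
    [instW : DecidableEq W] [Nonempty V] [Nonempty W]
    (G : SimpleGraph V) (H : SimpleGraph W) (m : Fin 3 → V → V) (n : Fin 3 → W → W)
    (hm : ∀ i v, m i (m i v) = v) (hm' : ∀ i v, m i v ≠ v)
    (hn : ∀ i v, n i (n i v) = v) (hn' : ∀ i v, n i v ≠ v)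
    (hadj : ∀ v w, G.Adj v w ↔ ∃ i, m i v = w) (hadj' : ∀ v w, H.Adj v w ↔ ∃ i, n i v = w)
    (hinj : ∀ i j v, m i v = m j v → i = j) (hinj' : ∀ i j v, n i v = n j v → i = j)
    (ρ : W → Fin 3 → Fin 3) (σ : V → Fin 3 → Fin 3)
    (hρ : ∀ h, Function.Bijective (ρ h)) (hσ : ∀ g, Function.Bijective (σ g))
    (hconn : ∀ (i : Fin 3) (f : V → W → ZMod 2), (∀ g h, f (m (ρ h i) g) h = f g h) →
        (∀ g h, f g (n (σ g i) h) = f g h) → ∀ g h g' h', f g h = f g' h') :
    H93HD.HamDecomp (G □ H) 3 := by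
  let al : Fin 3 → V × W → V × W := fun i p => (m (ρ p.2 i) p.1, p.2)
  let be : Fin 3 → V × W → V × W := fun i p => (p.1, n (σ p.1 i) p.2)
  have hal : ∀ i p, al i (al i p) = p := fun i p => by
    simp only [al]
    rw [hm]
  have hbe : ∀ i p, be i (be i p) = p := fun i p => by
    simp only [be]
    rw [hn]
  have hal1 : ∀ i p, (al i p).1 ≠ p.1 := fun i p => hm' _ _
  have hbe2 : ∀ i p, (be i p).2 ≠ p.2 := fun i p => hn' _ _
  let X : Fin 3 → Sym2 (V × W) → ZMod 2 := fun i e =>
    if (∃ p, e = s(p, al i p)) ∨ (∃ p, e = s(p, be i p)) then 1 else 0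
  have hX1 : ∀ i e, X i e = 1 ↔ (∃ p, e = s(p, al i p)) ∨ (∃ p, e = s(p, be i p)) := by
    intro i e
    simp only [X]
    split_ifs with h
    · exact ⟨fun _ => h, fun _ => rfl⟩
    · exact ⟨fun h' => absurd h' (by decide), fun h' => absurd h' h⟩
  have hX : ∀ i p q, X i s(p, q) = 1 ↔ (q = al i p ∨ q = be i p) := by
    intro i p q
    rw [hX1]
    constructor
    · rintro (⟨r, hr⟩ | ⟨r, hr⟩)
      · rcases Sym2.eq_iff.1 hr with ⟨rfl, rfl⟩ | ⟨rfl, rfl⟩
        · exact Or.inl rfl
        · exact Or.inl (hal i _).symm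
      · rcases Sym2.eq_iff.1 hr with ⟨rfl, rfl⟩ | ⟨rfl, rfl⟩
        · exact Or.inr rfl
        · exact Or.inr (hbe i _).symm
    · rintro (rfl | rfl)
      · exact Or.inl ⟨p, rfl⟩
      · exact Or.inr ⟨p, rfl⟩
  have htwo : ∀ i, H93HD.TwoReg (X i) := by
    intro i p
    refine ⟨al i p, be i p, fun h => ?_, fun h => ?_, fun h => ?_, fun q => hX i p q⟩
    · have h' : (al i p).1 = (be i p).1 := congrArg Prod.fst h
      exact hal1 i p h'
    · exact hal1 i p (congrArg Prod.fst h)
    · exact hbe2 i p (congrArg Prod.snd h)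
  have hcn : ∀ i, ∀ x y, H93HD.Conn (X i) x y := by
    intro i x y
    let f : V → W → ZMod 2 := fun g h => if H93HD.Conn (X i) x (g, h) then 0 else 1
    have hstep : ∀ p q : V × W, X i s(p, q) = 1 → f q.1 q.2 = f p.1 p.2 := by
      intro p q h
      have : H93HD.Conn (X i) x (q.1, q.2) ↔ H93HD.Conn (X i) x (p.1, p.2) :=
        ⟨fun h' => h'.trans (H93HD.Conn.single h).symm, fun h' => h'.trans (H93HD.Conn.single h)⟩
      simp only [f, this]
    have h1 := hconn i f (fun g h => hstep (g, h) (al i (g, h)) ((hX i _ _).2 (Or.inl rfl)))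
      (fun g h => hstep (g, h) (be i (g, h)) ((hX i _ _).2 (Or.inr rfl))) x.1 x.2 y.1 y.2
    have h2 : f x.1 x.2 = 0 := if_pos (H93HD.Conn.refl x)
    rw [h2] at h1
    by_contra hc
    have h3 : f y.1 y.2 = 1 := if_neg hc
    rw [h3] at h1
    exact absurd h1 (by decide)
  have hle : ∀ i e, X i e = 1 → e ∈ (G □ H).edgeSet := by
    intro i e he
    rcases (hX1 i e).1 he with ⟨p, rfl⟩ | ⟨p, rfl⟩
    · rw [SimpleGraph.mem_edgeSet, SimpleGraph.boxProd_adj]
      exact Or.inl ⟨(hadj _ _).2 ⟨_, rfl⟩, rfl⟩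
    · rw [SimpleGraph.mem_edgeSet, SimpleGraph.boxProd_adj]
      exact Or.inr ⟨(hadj' _ _).2 ⟨_, rfl⟩, rfl⟩
  have huq : ∀ e ∈ (G □ H).edgeSet, ∃! i, X i e = 1 := by
    intro e he
    induction e with
    | _ p q =>
      rw [SimpleGraph.mem_edgeSet, SimpleGraph.boxProd_adj] at he
      rcases he with ⟨h1, h2⟩ | ⟨h1, h2⟩
      · obtain ⟨j, hj⟩ := (hadj _ _).1 h1
        obtain ⟨i, hi⟩ := (hρ p.2).2 j
        refine ⟨i, ?_, fun i' hi' => ?_⟩
        · simp only
          rw [hX]
          left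
          refine Prod.ext ?_ h2.symm
          simp only [al]
          rw [hi, hj]
        · simp only at hi'
          rw [hX] at hi'
          rcases hi' with hi' | hi'
          · have h3 : m (ρ p.2 i') p.1 = m j p.1 := by
              rw [hj]
              exact (congrArg Prod.fst hi').symm
            apply (hρ p.2).1
            rw [hi, hinj _ _ _ h3]
          · exact absurd (by rw [← hi']; exact h2.symm) (hbe2 i' p)
      · obtain ⟨j, hj⟩ := (hadj' _ _).1 h1
        obtain ⟨i, hi⟩ := (hσ p.1).2 j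
        refine ⟨i, ?_, fun i' hi' => ?_⟩
        · simp only
          rw [hX]
          right
          refine Prod.ext h2.symm ?_
          simp only [be]
          rw [hi, hj]
        · simp only at hi'
          rw [hX] at hi'
          rcases hi' with hi' | hi'
          · exact absurd (by rw [← hi']; exact h2.symm) (hal1 i' p)
          · have h3 : n (σ p.1 i') p.2 = n j p.2 := by
              rw [hj]
              exact (congrArg Prod.snd hi').symm
            apply (hσ p.1).1
            rw [hi, hinj' _ _ _ h3]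
  have h1 := fun i => H93HD.hamCycle_of_class _ (X i) (htwo i) (hcn i) (hle i)
  choose a c hc hce using h1
  refine ⟨a, c, hc, fun e he => ?_⟩
  simp only [hce]
  exact huq e he

end HX67
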